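import Pool.Agent.Helper44.RA.Base

/-! Project RA: the norm, sizes of numerator and denominator. -/

set_option autoImplicit false

namespace Pool.RA

open Finset

variable {ι : Type} [Fintype ι]

/-- PIECE RA-U2 (the whole file, 110 lines): elementary facts on the weighted norm.  Note that
`Real.log (r i : ℝ) ≥ 0` for every natural number `r i` (`Real.log_natCast_nonneg`). -/
theorem nmR_nonneg (r : ι → ℕ) (x : ι → ℝ) : 0 ≤ nmR r x :=
  Finset.sum_nonneg fun i _ => mul_nonneg (abs_nonneg _) (Real.log_natCast_nonneg _)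

theorem nm_nonneg (r : ι → ℕ) (x : ι → ℤ) : 0 ≤ nm r x := nmR_nonneg r _

theorem nmR_add_le (r : ι → ℕ) (x y : ι → ℝ) : nmR r (x + y) ≤ nmR r x + nmR r y := by
  unfold nmR
  rw [← Finset.sum_add_distrib]
  refine Finset.sum_le_sum fun i _ => ?_
  rw [← add_mul]
  exact mul_le_mul_of_nonneg_right (abs_add_le _ _) (Real.log_natCast_nonneg _)

theorem nmR_smul (r : ι → ℕ) (c : ℝ) (x : ι → ℝ) : nmR r (c • x) = |c| * nmR r x := by
  unfold nmR
  rw [Finset.mul_sum]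
  refine Finset.sum_congr rfl fun i _ => ?_
  rw [Pi.smul_apply, smul_eq_mul, abs_mul, mul_assoc]

theorem nmR_sum_le (r : ι → ℕ) {γ : Type} (s : Finset γ) (f : γ → ι → ℝ) :
    nmR r (∑ l ∈ s, f l) ≤ ∑ l ∈ s, nmR r (f l) := by
  classical
  induction s using Finset.induction_on with
  | empty => simp [nmR]
  | insert a s ha ih =>
    rw [Finset.sum_insert ha, Finset.sum_insert ha]
    exact (nmR_add_le r _ _).trans (by linarith)

theorem nm_add_le (r : ι → ℕ) (x y : ι → ℤ) : nm r (x + y) ≤ nm r x + nm r y := by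
  have h := nmR_add_le r (fun i => (x i : ℝ)) (fun i => (y i : ℝ))
  have e : (fun i => (((x + y) i : ℤ) : ℝ)) = (fun i => (x i : ℝ)) + fun i => (y i : ℝ) := by
    funext i
    simp
  unfold nm
  rwa [e]

theorem nm_neg (r : ι → ℕ) (x : ι → ℤ) : nm r (-x) = nm r x := by
  unfold nm nmR
  refine Finset.sum_congr rfl fun i _ => ?_
  simp only [Pi.neg_apply, Int.cast_neg, abs_neg]

/-- If `|x i| ≤ δ` for all `i` and `x i = 0` outside `U`, the norm is at most
`δ ∑ i ∈ U, log (r i)`. -/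
theorem nmR_le_of_bd (r : ι → ℕ) (U : Finset ι) (x : ι → ℝ) (δ : ℝ) (hx : ∀ i, |x i| ≤ δ)
    (hU : ∀ i ∉ U, x i = 0) : nmR r x ≤ δ * ∑ i ∈ U, Real.log (r i) := by
  have h1 : nmR r x = ∑ i ∈ U, |x i| * Real.log (r i) := by
    unfold nmR
    symm
    refine Finset.sum_subset (Finset.subset_univ _) fun i _ hi => ?_
    rw [hU i hi, abs_zero, zero_mul]
  rw [h1, Finset.mul_sum]
  exact Finset.sum_le_sum fun i _ =>
    mul_le_mul_of_nonneg_right (hx i) (Real.log_natCast_nonneg _)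

/-- Each coordinate: `|x i| log 2 ≤ nm r x` for primes `r i` (only `2 ≤ r i` is used). -/
theorem coord_le (r : ι → ℕ) (hr : ∀ i, 2 ≤ r i) (x : ι → ℤ) (i : ι) :
    |(x i : ℝ)| * Real.log 2 ≤ nm r x := by
  have h1 : Real.log 2 ≤ Real.log (r i) :=
    Real.log_le_log (by norm_num) (by exact_mod_cast hr i)
  refine (mul_le_mul_of_nonneg_left h1 (abs_nonneg _)).trans ?_
  exact Finset.single_le_sum (f := fun i => |(x i : ℝ)| * Real.log (r i))
    (fun j _ => mul_nonneg (abs_nonneg _) (Real.log_natCast_nonneg _)) (Finset.mem_univ i)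

theorem nu_pos (r : ι → ℕ) (hr : ∀ i, 1 ≤ r i) (x : ι → ℤ) : 0 < Nu r x :=
  Finset.prod_pos fun i _ => Nat.pow_pos (hr i)

theorem de_pos (r : ι → ℕ) (hr : ∀ i, 1 ≤ r i) (x : ι → ℤ) : 0 < De r x :=
  Finset.prod_pos fun i _ => Nat.pow_pos (hr i)

private theorem U2_log_prod (r : ι → ℕ) (hr : ∀ i, 1 ≤ r i) (e : ι → ℕ) :
    Real.log ((∏ i, r i ^ e i : ℕ) : ℝ) = ∑ i, (e i : ℝ) * Real.log (r i) := by
  rw [Nat.cast_prod, Real.log_prod]
  · refine Finset.sum_congr rfl fun i _ => ?_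
    rw [Nat.cast_pow, Real.log_pow]
  · intro i _
    have h1 : (0 : ℝ) < (r i : ℝ) := by exact_mod_cast hr i
    rw [Nat.cast_pow]
    positivity

/-- `|x_i| = x_i⁺ + x_i⁻`. -/
theorem log_nu_add (r : ι → ℕ) (hr : ∀ i, 1 ≤ r i) (x : ι → ℤ) :
    Real.log (Nu r x) + Real.log (De r x) = nm r x := by
  unfold Nu De
  rw [U2_log_prod r hr, U2_log_prod r hr, ← Finset.sum_add_distrib]
  unfold nm nmR
  refine Finset.sum_congr rfl fun i _ => ?_
  rw [← add_mul]
  congr 1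
  have h1 : ((x i).toNat : ℤ) + ((-x i).toNat : ℤ) = |x i| := by
    rcases le_total 0 (x i) with h | h
    · rw [abs_of_nonneg h]; omega
    · rw [abs_of_nonpos h]; omega
  rw [← Int.cast_abs, ← h1, Int.cast_add, Int.cast_natCast, Int.cast_natCast]

private theorem U2_log_nonneg (m : ℕ) : 0 ≤ Real.log (m : ℝ) := Real.log_natCast_nonneg m

theorem nu_le_exp (r : ι → ℕ) (hr : ∀ i, 1 ≤ r i) (x : ι → ℤ) :
    (Nu r x : ℝ) ≤ Real.exp (nm r x) := by
  have h1 : (0 : ℝ) < Nu r x := by exact_mod_cast nu_pos r hr x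
  rw [← Real.log_le_iff_le_exp h1, ← log_nu_add r hr x]
  have := U2_log_nonneg (De r x)
  linarith

theorem de_le_exp (r : ι → ℕ) (hr : ∀ i, 1 ≤ r i) (x : ι → ℤ) :
    (De r x : ℝ) ≤ Real.exp (nm r x) := by
  have h1 : (0 : ℝ) < De r x := by exact_mod_cast de_pos r hr x
  rw [← Real.log_le_iff_le_exp h1, ← log_nu_add r hr x]
  have := U2_log_nonneg (Nu r x)
  linarith

private theorem U2_ratio (r : ι → ℕ) (hr : ∀ i, 1 ≤ r i) (x : ι → ℤ) :
    (Nu r x : ℚ) / (De r x : ℚ) = ∏ i, (r i : ℚ) ^ (x i) := by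
  unfold Nu De
  rw [Nat.cast_prod, Nat.cast_prod, ← Finset.prod_div_distrib]
  refine Finset.prod_congr rfl fun i _ => ?_
  have h0 : (r i : ℚ) ≠ 0 := by
    have := hr i
    positivity
  rw [Nat.cast_pow, Nat.cast_pow]
  rcases le_total 0 (x i) with h | h
  · obtain ⟨n, hn⟩ := Int.eq_ofNat_of_zero_le h
    rw [hn]
    simp
  · obtain ⟨n, hn⟩ := Int.eq_ofNat_of_zero_le (neg_nonneg.2 h)
    have hx : x i = -(n : ℤ) := by omega
    rw [hx]
    simp

/-- The rational number `N_x / D_x` is `∏ (r i) ^ (x i)`, so multiplicative in `x`. -/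
theorem ratio_add (r : ι → ℕ) (hr : ∀ i, 1 ≤ r i) (x y : ι → ℤ) :
    (Nu r (x + y) : ℚ) / (De r (x + y) : ℚ) =
      ((Nu r x : ℚ) / (De r x : ℚ)) * ((Nu r y : ℚ) / (De r y : ℚ)) := by
  rw [U2_ratio r hr, U2_ratio r hr, U2_ratio r hr, ← Finset.prod_mul_distrib]
  refine Finset.prod_congr rfl fun i _ => ?_
  have h0 : (r i : ℚ) ≠ 0 := by
    have := hr i
    positivity
  rw [Pi.add_apply, zpow_add₀ h0]

end Pool.RA
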