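import Pool.Agent.Helper44.RA.U1
import Pool.Agent.Helper44.RA.U2

/-! Project RA: nonzero elements of the congruence group have large norm. -/

set_option autoImplicit false

namespace Pool.RA

open Finset

variable {ι : Type} [Fintype ι]

private theorem U3_fac (r : ι → ℕ) (hr : ∀ i, (r i).Prime) (hinj : Function.Injective r)
    (e : ι → ℕ) (i : ι) : (∏ j, r j ^ e j).factorization (r i) = e i := by
  classical
  rw [Nat.factorization_prod (fun j _ => pow_ne_zero _ (hr j).ne_zero), Finsupp.finsetSum_apply,
    Finset.sum_eq_single i]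
  · rw [Nat.factorization_pow, (hr i).factorization]
    simp
  · intro j _ hji
    rw [Nat.factorization_pow, (hr j).factorization]
    have : r j ≠ r i := fun h => hji (hinj h)
    simp [this]
  · intro h
    exact absurd (Finset.mem_univ i) h

/-- PIECE RA-U3 (the whole file, 60 lines).  `N_x` and `D_x` are coprime (they have disjoint sets of
primes); if they are equal both are `1`, so all exponents vanish.  Or compare the valuations at
`r i`: `(r i)` occurs in `N_x` with exponent `(x i).toNat` and in `D_x` with exponent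
`(-x i).toNat`; equality of the two gives `x i = 0`. -/
theorem eq_zero_of_nu_eq_de (r : ι → ℕ) (hr : ∀ i, (r i).Prime) (hinj : Function.Injective r)
    (x : ι → ℤ) (hx : Nu r x = De r x) : x = 0 := by
  have h1 := U3_fac r hr hinj (fun i => (x i).toNat)
  have h2 := U3_fac r hr hinj (fun i => (-x i).toNat)
  funext i
  have h3 := h1 i
  have h4 := h2 i
  have h5 : (∏ j, r j ^ (x j).toNat) = ∏ j, r j ^ (-x j).toNat := hx
  rw [h5, h4] at h3
  have h6 : (-x i).toNat = (x i).toNat := h3
  change x i = 0
  omega

/-- `m` divides the nonzero integer `N_x - D_x`, whose absolute value is at most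
`max (N_x) (D_x) ≤ exp (nm r x)` (both are positive). -/
theorem min_norm (r : ι → ℕ) (hr : ∀ i, (r i).Prime) (hinj : Function.Injective r) (m : ℕ)
    (hm : 1 ≤ m) (h : ∀ i, (r i).Coprime m) (x : ι → ℤ) (hx : x ≠ 0) (hc : chi r m h x = 1) :
    Real.log m ≤ nm r x := by
  have hdvd := (chi_eq_one_iff r m h x).1 hc
  have hne : Nu r x ≠ De r x := fun h1 => hx (eq_zero_of_nu_eq_de r hr hinj x h1)
  have h1r : ∀ i, 1 ≤ r i := fun i => (hr i).one_le
  have hm0 : (0 : ℝ) < m := by exact_mod_cast hm
  rw [Real.log_le_iff_le_exp hm0]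
  rcases lt_or_gt_of_ne hne with hlt | hlt
  · have hd : (m : ℤ) ∣ (De r x : ℤ) - (Nu r x : ℤ) := by
      rw [← neg_sub]
      exact (dvd_neg).2 hdvd
    have h2 : (m : ℤ) ≤ (De r x : ℤ) - (Nu r x : ℤ) := Int.le_of_dvd (by omega) hd
    have h3 : m ≤ De r x := by omega
    exact le_trans (by exact_mod_cast h3) (de_le_exp r h1r x)
  · have h2 : (m : ℤ) ≤ (Nu r x : ℤ) - (De r x : ℤ) := Int.le_of_dvd (by omega) hdvd
    have h3 : m ≤ Nu r x := by omega
    exact le_trans (by exact_mod_cast h3) (nu_le_exp r h1r x)

end Pool.RA
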