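import Pool.Agent.Helper44.RA.C0
import Pool.Agent.Helper44.RA.U3

/-! Project RA: properties of the exponent vectors. -/

set_option autoImplicit false

namespace Pool.RA

open Finset

theorem rr_prime (Z : ℕ) (S : Finset ℕ) (i : {p // p ∈ Pr Z S}) : (rr Z S i).Prime := by
  have := i.2
  simp only [Pr, mem_filter] at this
  exact this.2.1

theorem rr_inj (Z : ℕ) (S : Finset ℕ) : Function.Injective (rr Z S) := Subtype.val_injective

private theorem C1_mem (Z : ℕ) (S : Finset ℕ) (E : ℕ × ℕ) (hE : Adm Z S E) (p : ℕ)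
    (hp : p.Prime) (hd : p ∣ E.1 * E.2) : p ∈ Pr Z S := by
  obtain ⟨h1, h2, -, h4, h5⟩ := hE
  have hne : E.1 * E.2 ≠ 0 := (Nat.mul_pos h1 h2).ne'
  have hmem : p ∈ (E.1 * E.2).primeFactors := Nat.mem_primeFactors.2 ⟨hp, hd, hne⟩
  have hpos : 0 < ∏ p ∈ (E.1 * E.2).primeFactors, p :=
    Finset.prod_pos fun q hq => (Nat.prime_of_mem_primeFactors hq).pos
  have hle : p ≤ Z := (Nat.le_of_dvd hpos (Finset.dvd_prod_of_mem _ hmem)).trans h5
  unfold Pr
  rw [mem_filter, mem_range]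
  exact ⟨Nat.lt_succ_of_le hle, hp, fun hS => h4 p hS hd⟩

private theorem C1_prod (n : ℕ) (hn : 0 < n) (T : Finset ℕ) (h : n.primeFactors ⊆ T) :
    ∏ p ∈ T, p ^ (n.factorization p) = n := by
  have h1 := Nat.prod_factorization_pow_eq_self hn.ne'
  rw [Finsupp.prod_of_support_subset _ (s := T) (by rw [Nat.support_factorization]; exact h) _
    (fun i _ => pow_zero i)] at h1
  exact h1

private theorem C1_sq (Z : ℕ) (S : Finset ℕ) (n : ℕ) (hn : 0 < n)
    (h : ∀ p, p.Prime → p ∣ n → p ∈ Pr Z S) :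
    ∏ i : {p // p ∈ Pr Z S}, (rr Z S i) ^ (2 * n.factorization i.1) = n ^ 2 := by
  have h1 : ∏ i : {p // p ∈ Pr Z S}, (rr Z S i) ^ (2 * n.factorization i.1) =
      ∏ p ∈ Pr Z S, p ^ (2 * n.factorization p) :=
    Finset.prod_coe_sort (Pr Z S) (fun p => p ^ (2 * n.factorization p))
  rw [h1]
  have h2 : ∀ p ∈ Pr Z S, p ^ (2 * n.factorization p) = (p ^ n.factorization p) ^ 2 := by
    intro p _
    rw [← pow_mul, mul_comm]
  rw [Finset.prod_congr rfl h2, Finset.prod_pow, C1_prod n hn (Pr Z S) ?_]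
  intro p hp
  exact h p (Nat.prime_of_mem_primeFactors hp) (Nat.dvd_of_mem_primeFactors hp)

private theorem C1_cop (E : ℕ × ℕ) (hc : E.1.Coprime E.2) (p : ℕ) (hp : p.Prime) :
    E.1.factorization p = 0 ∨ E.2.factorization p = 0 := by
  by_cases h1 : p ∣ E.1
  · right
    apply Nat.factorization_eq_zero_of_not_dvd
    intro h2
    exact hp.one_lt.ne' (Nat.dvd_one.1 (hc ▸ Nat.dvd_gcd h1 h2))
  · left
    exact Nat.factorization_eq_zero_of_not_dvd h1

/-- PIECE RA-C1 (the whole file, 150 lines).  Every prime factor of `E.1 * E.2` is at most the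
radical, so at most `Z`, and not in `S`: it is a member of `Pr Z S`.  By coprimality at most one of
the two exponents at a prime is nonzero, so `(kv i).toNat = 2 v(E.1)`, `(-kv i).toNat = 2 v(E.2)`,
and `Nat.factorization_prod_pow_eq_self`. -/
theorem nu_kv (Z : ℕ) (S : Finset ℕ) (E : ℕ × ℕ) (hE : Adm Z S E) :
    Nu (rr Z S) (kv Z S E) = E.1 ^ 2 := by
  rw [← C1_sq Z S E.1 hE.1 fun p hp hd => C1_mem Z S E hE p hp (hd.mul_right _)]
  unfold Nu
  refine Finset.prod_congr rfl fun i _ => ?_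
  congr 1
  unfold kv
  rcases C1_cop E hE.2.2.1 i.1 (rr_prime Z S i) with h | h
  · rw [h]; simp
  · rw [h]; omega

theorem de_kv (Z : ℕ) (S : Finset ℕ) (E : ℕ × ℕ) (hE : Adm Z S E) :
    De (rr Z S) (kv Z S E) = E.2 ^ 2 := by
  rw [← C1_sq Z S E.2 hE.2.1 fun p hp hd => C1_mem Z S E hE p hp (hd.mul_left _)]
  unfold De
  refine Finset.prod_congr rfl fun i _ => ?_
  congr 1
  unfold kv
  rcases C1_cop E hE.2.2.1 i.1 (rr_prime Z S i) with h | h
  · rw [h]; omega
  · rw [h]; omega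

/-- From `log_nu_add`. -/
theorem nm_kv (Z : ℕ) (S : Finset ℕ) (E : ℕ × ℕ) (hE : Adm Z S E) :
    nm (rr Z S) (kv Z S E) = 2 * (Real.log E.1 + Real.log E.2) := by
  rw [← log_nu_add (rr Z S) (fun i => (rr_prime Z S i).one_le), nu_kv Z S E hE, de_kv Z S E hE]
  push_cast
  rw [Real.log_pow, Real.log_pow]
  push_cast
  ring

/-- From `chi_eq_one_iff`. -/
theorem chi_kv (Z : ℕ) (S : Finset ℕ) (E : ℕ × ℕ) (hE : Adm Z S E) (m : ℕ)
    (h : ∀ i, (rr Z S i).Coprime m) (hm : (m : ℤ) ∣ (E.1 : ℤ) ^ 2 - (E.2 : ℤ) ^ 2) :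
    chi (rr Z S) m h (kv Z S E) = 1 := by
  rw [chi_eq_one_iff, nu_kv Z S E hE, de_kv Z S E hE]
  push_cast
  exact hm

/-- The support of `kv` is the set of prime factors of `E.1 * E.2`. -/
theorem psup_kv (Z : ℕ) (S : Finset ℕ) (E : ℕ × ℕ) (hE : Adm Z S E) :
    psup (rr Z S) (kv Z S E) ≤ Z := by
  classical
  have hpp : psup (rr Z S) (kv Z S E) =
      ∏ i ∈ univ.filter (fun i => kv Z S E i ≠ 0), rr Z S i := by
    unfold psup
    congr
  rw [hpp, ← Finset.prod_image (g := rr Z S) (f := fun p => p)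
    (fun i _ j _ h => rr_inj Z S h)]
  refine le_trans ?_ hE.2.2.2.2
  apply Finset.prod_le_prod_of_subset_of_one_le'
  · intro p hp
    obtain ⟨i, hi, rfl⟩ := Finset.mem_image.1 hp
    rw [mem_filter] at hi
    have hne : E.1 * E.2 ≠ 0 := (Nat.mul_pos hE.1 hE.2.1).ne'
    refine Nat.mem_primeFactors.2 ⟨rr_prime Z S i, ?_, hne⟩
    by_contra hd
    apply hi.2
    have h1 : ¬ (rr Z S i ∣ E.1) := fun h => hd (h.mul_right _)
    have h2 : ¬ (rr Z S i ∣ E.2) := fun h => hd (h.mul_left _)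
    unfold kv
    have h3 : E.1.factorization i.1 = 0 := Nat.factorization_eq_zero_of_not_dvd h1
    have h4 : E.2.factorization i.1 = 0 := Nat.factorization_eq_zero_of_not_dvd h2
    rw [h3, h4]
    simp
  · intro p hp _
    exact (Nat.prime_of_mem_primeFactors hp).one_le

/-- From `nu_kv` and `de_kv`. -/
theorem kv_inj (Z : ℕ) (S : Finset ℕ) (E E' : ℕ × ℕ) (hE : Adm Z S E) (hE' : Adm Z S E')
    (h : kv Z S E = kv Z S E') : E = E' := by
  have h1 : E.1 ^ 2 = E'.1 ^ 2 := by rw [← nu_kv Z S E hE, ← nu_kv Z S E' hE', h]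
  have h2 : E.2 ^ 2 = E'.2 ^ 2 := by rw [← de_kv Z S E hE, ← de_kv Z S E' hE', h]
  exact Prod.ext (Nat.pow_left_injective two_ne_zero h1) (Nat.pow_left_injective two_ne_zero h2)

/-- `rr i` is a prime outside `S`. -/
theorem rr_coprime (Z : ℕ) (S : Finset ℕ) (hS : ∀ p ∈ S, p.Prime) (m : ℕ → ℕ)
    (i : {p // p ∈ Pr Z S}) : (rr Z S i).Coprime (∏ p ∈ S, p ^ m p) := by
  apply Nat.Coprime.prod_right
  intro p hp
  apply Nat.Coprime.pow_right
  rw [Nat.coprime_primes (rr_prime Z S i) (hS p hp)]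
  intro h
  have h1 := i.2
  simp only [Pr, mem_filter] at h1
  apply h1.2.2
  have h2 : i.1 = p := h
  rw [h2]
  exact hp

end Pool.RA
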