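import Mathlib

/-! Project RA: divisor bounds. -/

set_option autoImplicit false

namespace Pool.RA

open Finset

/-- PIECE RA-O1 (the whole file, 110 lines).  Let `B = K^(1/ε)` (real).  A prime `p > B` has
`K ≤ p^ε`; at most `⌊B⌋` primes are `≤ B`; for these `K ≤ K * p^ε`.  So `C = K^(⌊B⌋+1)` works. -/
theorem pow_card_le (K : ℕ) (hK : 1 ≤ K) (ε : ℝ) (hε : 0 < ε) : ∃ C : ℝ, 1 ≤ C ∧
    ∀ s : Finset ℕ, (∀ p ∈ s, p.Prime) →
      (K : ℝ) ^ s.card ≤ C * ((∏ p ∈ s, p : ℕ) : ℝ) ^ ε := by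
  have hK1 : (1 : ℝ) ≤ K := by exact_mod_cast hK
  have hK0 : (0 : ℝ) ≤ K := by linarith
  set B : ℕ := ⌊(K : ℝ) ^ (1 / ε)⌋₊ with hB
  refine ⟨(K : ℝ) ^ (B + 1), one_le_pow₀ hK1, fun s hs => ?_⟩
  have h1 : ∀ p ∈ s, (K : ℝ) ≤ (if p ≤ B then (K : ℝ) else 1) * (p : ℝ) ^ ε := by
    intro p hp
    have hp1 : (1 : ℝ) ≤ (p : ℝ) := by exact_mod_cast (hs p hp).one_lt.le
    by_cases hpB : p ≤ B
    · rw [if_pos hpB]
      exact le_mul_of_one_le_right hK0 (Real.one_le_rpow hp1 hε.le)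
    · rw [if_neg hpB, one_mul]
      have h2 : (K : ℝ) ^ (1 / ε) < p := (Nat.floor_lt (by positivity)).1 (not_le.1 hpB)
      calc (K : ℝ) = ((K : ℝ) ^ (1 / ε)) ^ ε := by
            rw [← Real.rpow_mul hK0, one_div_mul_cancel hε.ne', Real.rpow_one]
        _ ≤ (p : ℝ) ^ ε := Real.rpow_le_rpow (by positivity) h2.le hε.le
  calc (K : ℝ) ^ s.card = ∏ _p ∈ s, (K : ℝ) := by rw [prod_const]
    _ ≤ ∏ p ∈ s, ((if p ≤ B then (K : ℝ) else 1) * (p : ℝ) ^ ε) :=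
        prod_le_prod (fun _ _ => hK0) h1
    _ = (K : ℝ) ^ (s.filter (· ≤ B)).card * ((∏ p ∈ s, p : ℕ) : ℝ) ^ ε := by
        rw [prod_mul_distrib, prod_ite, prod_const, prod_const_one, mul_one, Nat.cast_prod,
          Real.finset_prod_rpow _ _ (fun p _ => Nat.cast_nonneg p)]
    _ ≤ (K : ℝ) ^ (B + 1) * ((∏ p ∈ s, p : ℕ) : ℝ) ^ ε := by
        refine mul_le_mul_of_nonneg_right (pow_le_pow_right₀ hK1 ?_) (by positivity)
        calc (s.filter (· ≤ B)).card ≤ (range (B + 1)).card := by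
              refine card_le_card fun p hp => ?_
              rw [mem_range]
              have := (mem_filter.1 hp).2
              omega
          _ = B + 1 := card_range _

private theorem O1_pow_card (K : ℕ) (hK : 1 ≤ K) (ε : ℝ) (hε : 0 < ε) (s : Finset ℕ)
    (hs : ∀ p ∈ s, p.Prime) : (K : ℝ) ^ s.card ≤
      (K : ℝ) ^ (⌊(K : ℝ) ^ (1 / ε)⌋₊ + 1) * ((∏ p ∈ s, p : ℕ) : ℝ) ^ ε := by
  have hK1 : (1 : ℝ) ≤ K := by exact_mod_cast hK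
  have hK0 : (0 : ℝ) ≤ K := by linarith
  set B : ℕ := ⌊(K : ℝ) ^ (1 / ε)⌋₊ with hB
  have h1 : ∀ p ∈ s, (K : ℝ) ≤ (if p ≤ B then (K : ℝ) else 1) * (p : ℝ) ^ ε := by
    intro p hp
    have hp1 : (1 : ℝ) ≤ (p : ℝ) := by exact_mod_cast (hs p hp).one_lt.le
    by_cases hpB : p ≤ B
    · rw [if_pos hpB]
      exact le_mul_of_one_le_right hK0 (Real.one_le_rpow hp1 hε.le)
    · rw [if_neg hpB, one_mul]
      have h2 : (K : ℝ) ^ (1 / ε) < p := (Nat.floor_lt (by positivity)).1 (not_le.1 hpB)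
      calc (K : ℝ) = ((K : ℝ) ^ (1 / ε)) ^ ε := by
            rw [← Real.rpow_mul hK0, one_div_mul_cancel hε.ne', Real.rpow_one]
        _ ≤ (p : ℝ) ^ ε := Real.rpow_le_rpow (by positivity) h2.le hε.le
  calc (K : ℝ) ^ s.card = ∏ _p ∈ s, (K : ℝ) := by rw [prod_const]
    _ ≤ ∏ p ∈ s, ((if p ≤ B then (K : ℝ) else 1) * (p : ℝ) ^ ε) :=
        prod_le_prod (fun _ _ => hK0) h1
    _ = (K : ℝ) ^ (s.filter (· ≤ B)).card * ((∏ p ∈ s, p : ℕ) : ℝ) ^ ε := by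
        rw [prod_mul_distrib, prod_ite, prod_const, prod_const_one, mul_one, Nat.cast_prod,
          Real.finset_prod_rpow _ _ (fun p _ => Nat.cast_nonneg p)]
    _ ≤ (K : ℝ) ^ (B + 1) * ((∏ p ∈ s, p : ℕ) : ℝ) ^ ε := by
        refine mul_le_mul_of_nonneg_right (pow_le_pow_right₀ hK1 ?_) (by positivity)
        calc (s.filter (· ≤ B)).card ≤ (range (B + 1)).card := by
              refine card_le_card fun p hp => ?_
              rw [mem_range]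
              have := (mem_filter.1 hp).2
              omega
          _ = B + 1 := card_range _

private theorem O1_ev (R : ℕ) (c : ℝ) (hc : 0 < c) : ∃ t0 : ℕ, ∀ t : ℕ, t0 ≤ t →
    2 * ((t : ℝ) + 6) ^ R ≤ (2 ^ t - 1) * c := by
  have h1 := tendsto_pow_const_div_const_pow_of_one_lt R (one_lt_two : (1 : ℝ) < 2)
  have h2 := (h1.comp (Filter.tendsto_add_atTop_nat 6)).eventually
    (gt_mem_nhds (show (0 : ℝ) < c / 256 by positivity))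
  obtain ⟨t0, ht0⟩ := Filter.eventually_atTop.1 h2
  refine ⟨t0 + 1, fun t ht => ?_⟩
  have h3 := ht0 t (by omega)
  simp only [Function.comp, Nat.cast_add, Nat.cast_ofNat] at h3
  rw [div_lt_iff₀ (by positivity), pow_add] at h3
  have h4 : (2 : ℝ) ≤ 2 ^ t := by
    calc (2 : ℝ) = 2 ^ 1 := by norm_num
      _ ≤ 2 ^ t := pow_le_pow_right₀ (by norm_num) (by omega)
  nlinarith

private theorem O1_dom (ε : ℝ) (hε : 0 < ε) : ∃ C : ℝ, 1 ≤ C ∧ ∀ n : ℕ, 1 ≤ n →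
    ((Nat.log 2 n + 6 : ℕ) : ℝ) ^ (⌊((Nat.log 2 n + 6 : ℕ) : ℝ) ^ (1 / ε)⌋₊ + 1) ≤
      C * (2 : ℝ) ^ (((n : ℝ) - 1) * ε) := by
  obtain ⟨t0, ht0⟩ := O1_ev (⌈1 / ε⌉₊ + 1) (ε * Real.log 2)
    (mul_pos hε (Real.log_pos one_lt_two))
  let F : ℕ → ℝ := fun n =>
    ((Nat.log 2 n + 6 : ℕ) : ℝ) ^ (⌊((Nat.log 2 n + 6 : ℕ) : ℝ) ^ (1 / ε)⌋₊ + 1)
  have hF : ∀ n, 0 ≤ F n := fun n => by positivity
  refine ⟨1 + ∑ n ∈ range (2 ^ t0), F n, by
    have := sum_nonneg fun n (_ : n ∈ range (2 ^ t0)) => hF n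
    linarith, fun n hn => ?_⟩
  have h2 : (1 : ℝ) ≤ (2 : ℝ) ^ (((n : ℝ) - 1) * ε) := by
    refine Real.one_le_rpow (by norm_num) (mul_nonneg ?_ hε.le)
    have : (1 : ℝ) ≤ n := by exact_mod_cast hn
    linarith
  have hS := sum_nonneg fun n (_ : n ∈ range (2 ^ t0)) => hF n
  by_cases hlt : n < 2 ^ t0
  · have h3 : F n ≤ ∑ n ∈ range (2 ^ t0), F n :=
      single_le_sum (fun n _ => hF n) (mem_range.2 hlt)
    calc F n ≤ 1 + ∑ n ∈ range (2 ^ t0), F n := by linarith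
      _ ≤ (1 + ∑ n ∈ range (2 ^ t0), F n) * (2 : ℝ) ^ (((n : ℝ) - 1) * ε) :=
        le_mul_of_one_le_right (by linarith) h2
  · have ht : t0 ≤ Nat.log 2 n := Nat.le_log_of_pow_le (by norm_num) (not_lt.1 hlt)
    have h3 := ht0 _ ht
    set D : ℝ := ((Nat.log 2 n + 6 : ℕ) : ℝ) with hD
    have hDe : D = (Nat.log 2 n : ℝ) + 6 := by rw [hD]; push_cast; ring
    have hD1 : (1 : ℝ) ≤ D := by
      rw [hDe]
      have : (0 : ℝ) ≤ (Nat.log 2 n : ℝ) := Nat.cast_nonneg _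
      linarith
    have hD0 : (0 : ℝ) < D := by linarith
    have h4 : (1 : ℝ) ≤ D ^ (1 / ε) := Real.one_le_rpow hD1 (by positivity)
    have h5 : ((⌊D ^ (1 / ε)⌋₊ + 1 : ℕ) : ℝ) ≤ 2 * D ^ ⌈1 / ε⌉₊ := by
      have h6 : ((⌊D ^ (1 / ε)⌋₊ : ℕ) : ℝ) ≤ D ^ (1 / ε) := Nat.floor_le (by positivity)
      have h7 : D ^ (1 / ε) ≤ D ^ ⌈1 / ε⌉₊ := by
        rw [← Real.rpow_natCast D ⌈1 / ε⌉₊]
        exact Real.rpow_le_rpow_of_exponent_le hD1 (Nat.le_ceil _)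
      push_cast
      linarith
    have h6 : Real.log D ≤ D := (Real.log_le_sub_one_of_pos hD0).trans (by linarith)
    have h6' : 0 ≤ Real.log D := Real.log_nonneg hD1
    have h7 : (2 : ℝ) ^ Nat.log 2 n ≤ n := by
      exact_mod_cast Nat.pow_log_le_self 2 (by omega)
    have hl2 : 0 < Real.log 2 := Real.log_pos one_lt_two
    have h8 : ((⌊D ^ (1 / ε)⌋₊ + 1 : ℕ) : ℝ) * Real.log D ≤
        (((n : ℝ) - 1) * ε) * Real.log 2 := by
      calc ((⌊D ^ (1 / ε)⌋₊ + 1 : ℕ) : ℝ) * Real.log D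
          ≤ (2 * D ^ ⌈1 / ε⌉₊) * D := mul_le_mul h5 h6 h6' (by positivity)
        _ = 2 * D ^ (⌈1 / ε⌉₊ + 1) := by ring
        _ ≤ (2 ^ Nat.log 2 n - 1) * (ε * Real.log 2) := by rw [hDe]; exact h3
        _ ≤ ((n : ℝ) - 1) * (ε * Real.log 2) :=
          mul_le_mul_of_nonneg_right (by linarith) (by positivity)
        _ = (((n : ℝ) - 1) * ε) * Real.log 2 := by ring
    have h9 : D ^ (⌊D ^ (1 / ε)⌋₊ + 1) ≤ (2 : ℝ) ^ (((n : ℝ) - 1) * ε) := by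
      rw [← Real.log_le_log_iff (by positivity) (by positivity), Real.log_pow,
        Real.log_rpow (by norm_num)]
      exact h8
    calc D ^ (⌊D ^ (1 / ε)⌋₊ + 1) ≤ 1 * (2 : ℝ) ^ (((n : ℝ) - 1) * ε) := by
          rw [one_mul]; exact h9
      _ ≤ (1 + ∑ n ∈ range (2 ^ t0), F n) * (2 : ℝ) ^ (((n : ℝ) - 1) * ε) :=
          mul_le_mul_of_nonneg_right (by linarith) (by positivity)

/-- The same with a base growing very slowly: `D = Nat.log 2 (Nat.log 2 Z + 1) + 6`.  As before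
`D ^ #s ≤ D ^ (D^(1/ε') + 1) * (∏ p ∈ s, p)^ε'` with `ε' = ε/2`, and
`D ^ (D^(1/ε') + 1) ≤ C * Z^ε'` because `D ≤ log log Z + const` (all real logarithms) and every
power of `log log Z`, times `log log log Z`, is `o(log Z)`. -/
theorem pow_card_le_loglog (ε : ℝ) (hε : 0 < ε) : ∃ C : ℝ, 1 ≤ C ∧
    ∀ Z : ℕ, 1 ≤ Z → ∀ s : Finset ℕ, (∀ p ∈ s, p.Prime) → ∏ p ∈ s, p ≤ Z →
      ((Nat.log 2 (Nat.log 2 Z + 1) + 6 : ℕ) : ℝ) ^ s.card ≤ C * (Z : ℝ) ^ ε := by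
  obtain ⟨C, hC, hd⟩ := O1_dom (ε / 2) (half_pos hε)
  refine ⟨C, hC, fun Z hZ s hs hp => ?_⟩
  have hZ1 : (1 : ℝ) ≤ Z := by exact_mod_cast hZ
  have hZ0 : (0 : ℝ) < Z := by linarith
  have h1 := O1_pow_card (Nat.log 2 (Nat.log 2 Z + 1) + 6) (by omega) (ε / 2) (half_pos hε) s hs
  have h2 := hd (Nat.log 2 Z + 1) (by omega)
  have h3 : ((∏ p ∈ s, p : ℕ) : ℝ) ^ (ε / 2) ≤ (Z : ℝ) ^ (ε / 2) :=
    Real.rpow_le_rpow (by positivity) (by exact_mod_cast hp) (by positivity)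
  have h4 : (2 : ℝ) ^ ((((Nat.log 2 Z + 1 : ℕ) : ℝ) - 1) * (ε / 2)) ≤ (Z : ℝ) ^ (ε / 2) := by
    rw [Real.rpow_mul (by norm_num)]
    refine Real.rpow_le_rpow (by positivity) ?_ (by positivity)
    rw [Nat.cast_add, Nat.cast_one, add_sub_cancel_right, Real.rpow_natCast]
    exact_mod_cast Nat.pow_log_le_self 2 (by omega)
  refine h1.trans ((mul_le_mul h2 h3 (by positivity) (by positivity)).trans ?_)
  calc C * (2 : ℝ) ^ ((((Nat.log 2 Z + 1 : ℕ) : ℝ) - 1) * (ε / 2)) * (Z : ℝ) ^ (ε / 2)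
      ≤ C * (Z : ℝ) ^ (ε / 2) * (Z : ℝ) ^ (ε / 2) := by
        refine mul_le_mul_of_nonneg_right (mul_le_mul_of_nonneg_left h4 (by linarith))
          (by positivity)
    _ = C * (Z : ℝ) ^ ε := by
        rw [mul_assoc, ← Real.rpow_add hZ0, add_halves]

end Pool.RA
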