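import Pool.Agent.Helper44.RA.G4
import Pool.Agent.Helper42.RT.Main2

/-! Project RA: Theorem B. -/

set_option autoImplicit false

namespace Pool.RA

open Finset

/-- PIECE RA-B (80 lines).  We may assume `ε ≤ 1`.  Let `κ = ε/8`, `L = Z^κ`.  The pairs with
`log c ≤ L`: `Pool.Agent.Helper42.RT.main_bound2` (or `main_set2`) with exponent `ε/8` gives at most
`C1 (Z L)^(ε/8) Z^(2/3) L ≤ C1 Z^(2/3 + ε/8 + 2κ)`.  The others: `theoremA κ` with exponent `1/6`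
would be enough: at most `C2 Z^(1/2 + 1/6) (1 + log Λ)`. -/
theorem theoremB (ε : ℝ) (hε : 0 < ε) : ∃ C : ℝ, 1 ≤ C ∧
    ∀ (Z : ℕ) (Λ : ℝ), 1 ≤ Z → 1 ≤ Λ → ∀ T : Finset (ℕ × ℕ),
    (∀ t ∈ T, Good Z t ∧ Real.log ((t.1 + t.2 : ℕ) : ℝ) ≤ Λ) →
      (T.card : ℝ) ≤ C * (Z : ℝ) ^ (2 / 3 + ε) * (1 + Real.log Λ) := by
  classical
  set δ : ℝ := min ε 1 with hδ
  have hδ0 : 0 < δ := lt_min hε one_pos
  have hδ1 : δ ≤ 1 := min_le_right _ _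
  have hδε : δ ≤ ε := min_le_left _ _
  have hκ : 0 < δ / 8 := by positivity
  obtain ⟨C1, hC1, h1⟩ := Pool.Agent.Helper42.RT.main_bound2 (δ / 8) hκ
  obtain ⟨C2, hC2, h2⟩ := theoremA (δ / 8) hκ (1 / 6) (by norm_num)
  refine ⟨C1 + C2, by linarith, ?_⟩
  intro Z Λ hZ hΛ T hT
  have hZr : (1 : ℝ) ≤ (Z : ℝ) := by exact_mod_cast hZ
  have hZ0 : (0 : ℝ) < (Z : ℝ) := by linarith
  have hlogΛ : 0 ≤ Real.log Λ := Real.log_nonneg hΛ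
  set L : ℝ := (Z : ℝ) ^ (δ / 8) with hL
  have hL1 : 1 ≤ L := Real.one_le_rpow hZr hκ.le
  set Ta := T.filter (fun t => Real.log ((t.1 + t.2 : ℕ) : ℝ) ≤ L) with hTa
  set Tb := T.filter (fun t => ¬ Real.log ((t.1 + t.2 : ℕ) : ℝ) ≤ L) with hTb
  have hsum : (T.card : ℝ) = Ta.card + Tb.card := by
    have := Finset.card_filter_add_card_filter_not (s := T)
      (fun t : ℕ × ℕ => Real.log ((t.1 + t.2 : ℕ) : ℝ) ≤ L)
    exact_mod_cast this.symm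
  have ha : (Ta.card : ℝ) ≤ C1 * (Z : ℝ) ^ (2 / 3 + ε) := by
    have h3 := h1 Z L hZ hL1 Ta (fun t ht => by
      rw [hTa, mem_filter] at ht
      obtain ⟨⟨⟨x1, x2, x3, x4⟩, -⟩, x5⟩ := And.intro (hT t ht.1) ht.2
      exact ⟨⟨x1, x2, x3⟩, x4, x5⟩)
    have h4 : C1 * ((Z : ℝ) * L) ^ (δ / 8) *
        min ((Z : ℝ) ^ (2 / 3 : ℝ) * L)
          ((Z : ℝ) ^ (5 / 6 : ℝ) + (Z : ℝ) ^ (3 / 4 : ℝ) * L ^ (1 / 4 : ℝ)) ≤
        C1 * ((Z : ℝ) * L) ^ (δ / 8) * ((Z : ℝ) ^ (2 / 3 : ℝ) * L) := by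
      apply mul_le_mul_of_nonneg_left (min_le_left _ _)
      have : 0 ≤ C1 := by linarith
      positivity
    refine (h3.trans h4).trans ?_
    rw [mul_assoc]
    apply mul_le_mul_of_nonneg_left _ (by linarith)
    have h5 : ((Z : ℝ) * L) = (Z : ℝ) ^ (1 + δ / 8) := by
      rw [hL, Real.rpow_add hZ0, Real.rpow_one]
    rw [h5, ← Real.rpow_mul hZ0.le, hL, ← Real.rpow_add hZ0, ← Real.rpow_add hZ0]
    apply Real.rpow_le_rpow_of_exponent_le hZr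
    nlinarith
  have hb : (Tb.card : ℝ) ≤ C2 * (Z : ℝ) ^ (2 / 3 + ε) * (1 + Real.log Λ) := by
    have h3 := h2 Z Λ hZ hΛ Tb (fun t ht => by
      rw [hTb, mem_filter] at ht
      obtain ⟨x1, x2⟩ := hT t ht.1
      exact ⟨x1, (not_le.mp ht.2).le, x2⟩)
    refine h3.trans ?_
    apply mul_le_mul_of_nonneg_right _ (by linarith)
    apply mul_le_mul_of_nonneg_left _ (by linarith)
    apply Real.rpow_le_rpow_of_exponent_le hZr
    linarith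
  have hc : C1 * (Z : ℝ) ^ (2 / 3 + ε) ≤ C1 * (Z : ℝ) ^ (2 / 3 + ε) * (1 + Real.log Λ) := by
    have h6 : 0 ≤ C1 * (Z : ℝ) ^ (2 / 3 + ε) := by
      have : 0 ≤ C1 := by linarith
      positivity
    nlinarith
  rw [hsum]
  calc (Ta.card : ℝ) + Tb.card ≤ C1 * (Z : ℝ) ^ (2 / 3 + ε) * (1 + Real.log Λ) +
        C2 * (Z : ℝ) ^ (2 / 3 + ε) * (1 + Real.log Λ) := add_le_add (ha.trans hc) hb
    _ = (C1 + C2) * (Z : ℝ) ^ (2 / 3 + ε) * (1 + Real.log Λ) := by ring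

end Pool.RA
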