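import Pool.Agent.Helper44.RA.G0

/-! Project RA: the lower bound `Z^(2/3) / 32`. -/

set_option autoImplicit false

namespace Pool.RA

open Finset

/-- PIECE RA-LBa (60 lines).  If `gcd(a,b) = d ≥ 2` then `d ∣ a` and `d ∣ b`: the pairs which are not
coprime number at most `∑ d ∈ [2,M], (M/d)^2 ≤ M^2 (1/4 + ∑ d ≥ 3, 1/(d(d-1))) ≤ 3 M^2 / 4`. -/
theorem coprime_pairs (M : ℕ) : M ^ 2 ≤
    4 * (((Icc 1 M) ×ˢ (Icc 1 M)).filter (fun t : ℕ × ℕ => t.1.Coprime t.2)).card := by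
  classical
  have h1 : (((Icc 1 M) ×ˢ (Icc 1 M)).filter (fun t : ℕ × ℕ => ¬ t.1.Coprime t.2)).card ≤
      ∑ d ∈ Icc 2 M, (M / d) ^ 2 := by
    have h2 : ((Icc 1 M) ×ˢ (Icc 1 M)).filter (fun t : ℕ × ℕ => ¬ t.1.Coprime t.2) ⊆
        (Icc 2 M).biUnion (fun d => ((Icc 1 (M / d)) ×ˢ (Icc 1 (M / d))).image
          (fun t : ℕ × ℕ => (d * t.1, d * t.2))) := by
      intro t ht
      rw [mem_filter, mem_product, mem_Icc, mem_Icc] at ht
      obtain ⟨⟨⟨ha, ha'⟩, hb, hb'⟩, hc⟩ := ht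
      have hd0 : 0 < t.1.gcd t.2 := Nat.gcd_pos_of_pos_left _ ha
      have hd2 : 2 ≤ t.1.gcd t.2 := by
        rcases Nat.lt_or_ge (t.1.gcd t.2) 2 with h | h
        · exact absurd (show t.1.gcd t.2 = 1 by omega) hc
        · exact h
      obtain ⟨u, hu⟩ := Nat.gcd_dvd_left t.1 t.2
      obtain ⟨v, hv⟩ := Nat.gcd_dvd_right t.1 t.2
      have hu0 : 0 < u := by
        rcases Nat.eq_zero_or_pos u with h | h
        · rw [h, mul_zero] at hu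
          omega
        · exact h
      have hv0 : 0 < v := by
        rcases Nat.eq_zero_or_pos v with h | h
        · rw [h, mul_zero] at hv
          omega
        · exact h
      rw [mem_biUnion]
      refine ⟨t.1.gcd t.2, ?_, ?_⟩
      · rw [mem_Icc]
        exact ⟨hd2, (Nat.gcd_le_left _ ha).trans ha'⟩
      · rw [mem_image]
        refine ⟨(u, v), ?_, ?_⟩
        · rw [mem_product, mem_Icc, mem_Icc]
          refine ⟨⟨hu0, ?_⟩, hv0, ?_⟩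
          · rw [Nat.le_div_iff_mul_le hd0, mul_comm, ← hu]
            exact ha'
          · rw [Nat.le_div_iff_mul_le hd0, mul_comm, ← hv]
            exact hb'
        · exact Prod.ext hu.symm hv.symm
    refine (card_le_card h2).trans (card_biUnion_le.trans (sum_le_sum fun d _ => ?_))
    refine card_image_le.trans ?_
    rw [card_product, Nat.card_Icc, sq]
    simp
  have h3 : ∀ K : ℕ, 2 ≤ K → ((∑ d ∈ Icc 2 K, (M / d) ^ 2 : ℕ) : ℝ) ≤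
      (M : ℝ) ^ 2 * (3 / 4 - 1 / K) := by
    intro K hK
    induction K, hK using Nat.le_induction with
    | base =>
      have h4 : ((M / 2 : ℕ) : ℝ) ≤ (M : ℝ) / 2 := by exact_mod_cast Nat.cast_div_le
      have h5 : (0 : ℝ) ≤ ((M / 2 : ℕ) : ℝ) := Nat.cast_nonneg _
      rw [Icc_self, sum_singleton]
      push_cast
      nlinarith
    | succ K hK ih =>
      rw [sum_Icc_succ_top (by omega)]
      have hK0 : (0 : ℝ) < K := by positivity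
      have h4 : ((M / (K + 1) : ℕ) : ℝ) ≤ (M : ℝ) / (K + 1) := by
        exact_mod_cast Nat.cast_div_le
      have h5 : (0 : ℝ) ≤ ((M / (K + 1) : ℕ) : ℝ) := Nat.cast_nonneg _
      have h6 : ((M / (K + 1) : ℕ) : ℝ) ^ 2 ≤ (M : ℝ) ^ 2 * (1 / K - 1 / (K + 1)) := by
        have h7 : ((M / (K + 1) : ℕ) : ℝ) ^ 2 ≤ ((M : ℝ) / (K + 1)) ^ 2 :=
          pow_le_pow_left₀ h5 h4 2
        have h8 : ((M : ℝ) / (K + 1)) ^ 2 ≤ (M : ℝ) ^ 2 * (1 / K - 1 / (K + 1)) := by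
          rw [div_pow, div_eq_mul_inv]
          refine mul_le_mul_of_nonneg_left ?_ (sq_nonneg _)
          rw [div_sub_div _ _ hK0.ne' (by positivity), ← one_div]
          rw [div_le_div_iff₀ (by positivity) (by positivity)]
          nlinarith
        exact h7.trans h8
      push_cast
      push_cast at ih
      nlinarith
  have h9 := card_filter_add_card_filter_not (s := (Icc 1 M) ×ˢ (Icc 1 M))
    (fun t : ℕ × ℕ => t.1.Coprime t.2)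
  rw [card_product, Nat.card_Icc] at h9
  have h10 : 4 * ∑ d ∈ Icc 2 M, (M / d) ^ 2 ≤ 3 * M ^ 2 := by
    rcases Nat.lt_or_ge M 2 with h | h
    · rw [Icc_eq_empty (by omega), sum_empty]
      omega
    · have h11 := h3 M h
      have h12 : (0 : ℝ) < M := by positivity
      have h13 : (M : ℝ) ^ 2 * (3 / 4 - 1 / M) ≤ 3 / 4 * (M : ℝ) ^ 2 := by
        have : (0 : ℝ) ≤ (M : ℝ) ^ 2 * (1 / M) := by positivity
        nlinarith
      have h14 : (4 : ℝ) * ((∑ d ∈ Icc 2 M, (M / d) ^ 2 : ℕ) : ℝ) ≤ 3 * (M : ℝ) ^ 2 := by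
        linarith
      exact_mod_cast h14
  have h15 : (M + 1 - 1) * (M + 1 - 1) = M ^ 2 := by
    rw [Nat.add_sub_cancel, sq]
  omega

/-- PIECE RA-LBb (80 lines).  Let `M = ⌊(Z/2)^(1/3)⌋₊ ≥ 1`, `2 M^3 ≤ Z`.  For coprime
`a, b ∈ [1,M]`: `rad(abc) ≤ a b (a+b) ≤ 2 M^3 ≤ Z` (`Nat.prod_primeFactors_dvd`), and
`log (a+b) ≤ log (2M) ≤ log Z ≤ L`.  `M ≥ (Z/2)^(1/3) / 2`, so the number of pairs is at least
`M^2/4 ≥ Z^(2/3) / (16 * 2^(2/3)) ≥ Z^(2/3) / 32`. -/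
theorem lower_bound (Z : ℕ) (L : ℝ) (hZ : 2 ≤ Z) (hL : Real.log Z ≤ L)
    (hfin : {t : ℕ × ℕ | Good Z t ∧ Real.log ((t.1 + t.2 : ℕ) : ℝ) ≤ L}.Finite) :
    (Z : ℝ) ^ (2 / 3 : ℝ) / 32 ≤
      (({t : ℕ × ℕ | Good Z t ∧ Real.log ((t.1 + t.2 : ℕ) : ℝ) ≤ L}.ncard : ℕ) : ℝ) := by
  have hZ' : (2 : ℝ) ≤ (Z : ℝ) := by exact_mod_cast hZ
  have hZ2 : (1 : ℝ) ≤ (Z : ℝ) / 2 := by linarith
  have hZ0 : (0 : ℝ) ≤ (Z : ℝ) / 2 := by linarith
  set x : ℝ := ((Z : ℝ) / 2) ^ (1 / 3 : ℝ) with hx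
  have hx1 : 1 ≤ x := Real.one_le_rpow hZ2 (by norm_num)
  have hx0 : 0 ≤ x := by linarith
  have hx3 : x ^ 3 = (Z : ℝ) / 2 := by
    rw [hx, ← Real.rpow_natCast, ← Real.rpow_mul hZ0]
    norm_num
  have hx2 : x ^ 2 = ((Z : ℝ) / 2) ^ (2 / 3 : ℝ) := by
    rw [hx, ← Real.rpow_natCast, ← Real.rpow_mul hZ0]
    norm_num
  set M : ℕ := ⌊x⌋₊ with hM
  have hM1 : 1 ≤ M := by
    rw [hM]; exact (Nat.one_le_floor_iff x).2 hx1
  have hMx : (M : ℝ) ≤ x := Nat.floor_le hx0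
  have hxM : x < (M : ℝ) + 1 := Nat.lt_floor_add_one x
  have hM1' : (1 : ℝ) ≤ (M : ℝ) := by exact_mod_cast hM1
  have h2M : 2 * M ^ 3 ≤ Z := by
    have h1 : (M : ℝ) ^ 3 ≤ x ^ 3 := pow_le_pow_left₀ (by linarith) hMx 3
    have h2 : (2 : ℝ) * (M : ℝ) ^ 3 ≤ (Z : ℝ) := by linarith
    exact_mod_cast h2
  have h2M' : 2 * M ≤ Z := by
    refine le_trans ?_ h2M
    have : M ≤ M ^ 3 := Nat.le_self_pow (by norm_num) M
    omega
  set S := ((Icc 1 M) ×ˢ (Icc 1 M)).filter (fun t : ℕ × ℕ => t.1.Coprime t.2) with hS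
  have hsub : (S : Set (ℕ × ℕ)) ⊆
      {t : ℕ × ℕ | Good Z t ∧ Real.log ((t.1 + t.2 : ℕ) : ℝ) ≤ L} := by
    intro t ht
    rw [Finset.mem_coe, hS, Finset.mem_filter, Finset.mem_product, Finset.mem_Icc,
      Finset.mem_Icc] at ht
    obtain ⟨⟨⟨ha1, haM⟩, hb1, hbM⟩, hco⟩ := ht
    have hpos : 0 < t.1 * t.2 * (t.1 + t.2) := by positivity
    refine ⟨⟨ha1, hb1, hco, ?_⟩, ?_⟩
    · calc (∏ p ∈ (t.1 * t.2 * (t.1 + t.2)).primeFactors, p)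
          ≤ t.1 * t.2 * (t.1 + t.2) := Nat.le_of_dvd hpos (Nat.prod_primeFactors_dvd _)
        _ ≤ M * M * (M + M) := by gcongr
        _ = 2 * M ^ 3 := by ring
        _ ≤ Z := h2M
    · refine le_trans ?_ hL
      apply Real.log_le_log
      · have : 0 < t.1 + t.2 := by omega
        exact_mod_cast this
      · have : t.1 + t.2 ≤ Z := by omega
        exact_mod_cast this
  have hcard : S.card ≤ ({t : ℕ × ℕ | Good Z t ∧ Real.log ((t.1 + t.2 : ℕ) : ℝ) ≤ L}.ncard) := by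
    rw [← Set.ncard_coe_finset S]
    exact Set.ncard_le_ncard hsub hfin
  have h4 : M ^ 2 ≤ 4 * S.card := coprime_pairs M
  have h4' : (M : ℝ) ^ 2 ≤ 4 * (S.card : ℝ) := by exact_mod_cast h4
  have hcard' : (S.card : ℝ) ≤
      (({t : ℕ × ℕ | Good Z t ∧ Real.log ((t.1 + t.2 : ℕ) : ℝ) ≤ L}.ncard : ℕ) : ℝ) := by
    exact_mod_cast hcard
  refine le_trans ?_ hcard'
  have h5 : x ^ 2 ≤ 4 * (M : ℝ) ^ 2 := by nlinarith
  have h6 : x ^ 2 / 16 ≤ (S.card : ℝ) := by linarith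
  refine le_trans ?_ h6
  rw [hx2, Real.div_rpow (by linarith) (by norm_num)]
  have h7 : (2 : ℝ) ^ (2 / 3 : ℝ) ≤ 2 := by
    calc (2 : ℝ) ^ (2 / 3 : ℝ) ≤ (2 : ℝ) ^ (1 : ℝ) :=
          Real.rpow_le_rpow_of_exponent_le (by norm_num) (by norm_num)
      _ = 2 := Real.rpow_one 2
  have h8 : (0 : ℝ) < (2 : ℝ) ^ (2 / 3 : ℝ) := by positivity
  have h9 : (0 : ℝ) ≤ (Z : ℝ) ^ (2 / 3 : ℝ) := by positivity
  have h10 : (Z : ℝ) ^ (2 / 3 : ℝ) / 2 ≤ (Z : ℝ) ^ (2 / 3 : ℝ) / (2 : ℝ) ^ (2 / 3 : ℝ) :=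
    div_le_div_of_nonneg_left h9 h8 h7
  linarith

end Pool.RA
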