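import Mathlib

/-! Project RA: lifting the exponent. -/

set_option autoImplicit false

namespace Pool.RA

open Finset

/-- PIECE RA-L1 (50 lines).  Lifting the exponent: `v_p(N^d - D^d) = v_p(N - D) + v_p(d)` when
`p ∣ N - D`, `p ∤ N`, and for `p = 2` moreover `4 ∣ N - D`.  Mathlib:
`Int.emultiplicity_pow_sub_pow` (odd `p`) and `Int.two_pow_sub_pow'` or
`Int.two_pow_sub_pow` (`p = 2`); hence `p^i ∣ N^d - D^d` implies `p^i ∣ d (N - D)`.
(If `N = D` the statement is trivial.) -/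
theorem lte_dvd (p : ℕ) (hp : p.Prime) (N D : ℤ) (d i : ℕ) (hd : d ≠ 0)
    (h2 : ((p : ℤ) ^ 2) ∣ N - D) (hN : ¬ ((p : ℤ) ∣ N)) (h : ((p : ℤ) ^ i) ∣ N ^ d - D ^ d) :
    ((p : ℤ) ^ i) ∣ (d : ℤ) * (N - D) := by
  have hpi : Prime (p : ℤ) := Nat.prime_iff_prime_int.mp hp
  have h1 : (p : ℤ) ∣ N - D := (dvd_pow_self (p : ℤ) two_ne_zero).trans h2
  have key : emultiplicity (p : ℤ) (N ^ d - D ^ d)
      = emultiplicity (p : ℤ) ((d : ℤ) * (N - D)) := by
    rw [emultiplicity_mul hpi, add_comm]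
    rcases hp.eq_two_or_odd' with h' | h'
    · subst h'
      have h4 : (4 : ℤ) ∣ N - D := by
        have : ((2 : ℕ) : ℤ) ^ 2 = 4 := by norm_num
        rwa [this] at h2
      exact Int.two_pow_sub_pow' d h4 (by exact_mod_cast hN)
    · rw [Int.emultiplicity_pow_sub_pow hp h' h1 hN d, Int.natCast_emultiplicity]
  rw [pow_dvd_iff_le_emultiplicity] at h ⊢
  rwa [← key]

end Pool.RA
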