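import Mathlib

/-! Project RA: vanishing minors give a linear relation. -/

set_option autoImplicit false

namespace Pool.RA

open Finset

/-- PIECE RA-R1 (60 lines).  If the vectors `F w ∈ ℚ^κ` spanned `ℚ^κ`, `#κ` of them would form a basis
and the determinant of these rows would not vanish.  So their span is a proper subspace, and a
nonzero linear functional `q` vanishes on it (`Submodule.exists_le_ker_of_lt_top`).  (Note: if `κ`
is empty the hypothesis fails, the empty determinant is `1`.) -/
theorem rank_rel {Pt κ : Type} [Fintype κ] [DecidableEq κ] (F : Pt → κ → ℚ)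
    (h : ∀ s : κ → Pt, (Matrix.of fun i j => F (s i) j).det = 0) :
    ∃ q : κ → ℚ, q ≠ 0 ∧ ∀ w, ∑ j, q j * F w j = 0 := by
  classical
  have hV : Submodule.span ℚ (Set.range F) < ⊤ := by
    rw [lt_top_iff_ne_top]
    intro htop
    obtain ⟨b, hbs, hspan, hli⟩ := exists_linearIndependent ℚ (Set.range F)
    rw [htop] at hspan
    have hspan' : (⊤ : Submodule ℚ (κ → ℚ)) ≤
        Submodule.span ℚ (Set.range (Subtype.val : b → κ → ℚ)) := by
      rw [Subtype.range_coe, hspan]
    let B : Module.Basis b ℚ (κ → ℚ) := Module.Basis.mk hli hspan'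
    have hBfin : Fintype b := FiniteDimensional.fintypeBasisIndex B
    have hcard : Fintype.card κ = Fintype.card b := by
      rw [← Module.finrank_eq_card_basis B, Module.finrank_fintype_fun_eq_card]
    let e : κ ≃ b := Fintype.equivOfCardEq hcard
    have hch : ∀ i : κ, ∃ w : Pt, F w = (e i : κ → ℚ) := fun i => hbs (e i).2
    choose s hs using hch
    have hrow : LinearIndependent ℚ (fun i : κ => F (s i)) := by
      have h1 : (fun i : κ => F (s i)) = (Subtype.val : b → κ → ℚ) ∘ e := by
        funext i
        exact hs i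
      rw [h1]
      exact hli.comp e e.injective
    have hunit : IsUnit (Matrix.of fun i j => F (s i) j) :=
      Matrix.linearIndependent_rows_iff_isUnit.mp hrow
    rw [Matrix.isUnit_iff_isUnit_det, h s] at hunit
    exact not_isUnit_zero hunit
  obtain ⟨f, hf0, hf⟩ := Submodule.exists_le_ker_of_lt_top _ hV
  have hrep : ∀ v : κ → ℚ, f v = ∑ j, f (Pi.single j 1) * v j := by
    intro v
    rw [LinearMap.pi_apply_eq_sum_univ f v]
    refine Finset.sum_congr rfl fun j _ => ?_
    rw [smul_eq_mul, mul_comm]
    congr 2
    funext i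
    by_cases hij : j = i
    · subst hij; simp
    · simp [hij, Ne.symm hij]
  refine ⟨fun j => f (Pi.single j 1), ?_, ?_⟩
  · intro h0
    apply hf0
    ext v
    have h1 : ∀ j, f (Pi.single j 1) = 0 := fun j => congrFun h0 j
    simp [h1]
  · intro w
    rw [← hrep]
    exact hf (Submodule.subset_span ⟨w, rfl⟩)

end Pool.RA
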