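import Pool.Agent.Helper44.RA.D2

/-! Project RA: divisibility of a determinant by multilinear expansion. -/

set_option autoImplicit false

namespace Pool.RA

open Finset

/-- PIECE RA-D3 (110 lines).  The `j`-th column is a combination of the columns
`W (inl m) = (w i m)_i`, `m < M`, with coefficients `mu m j`, and `W (inr j') = (er i j')_i` with
coefficient `q^N` for `j' = j` and `0` otherwise: a sum over the finite type `Fin M ⊕ κ`.  Expand the
determinant multilinearly in the columns (`MultilinearMap.map_sum` for
`Matrix.detRowAlternating` after transposing, or `Matrix.det_apply` with `Finset.prod_univ_sum` and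
regrouping): `det = ∑ f, (∏ j, coef (f j) j) * det (W (f j))_j` over all
`f : κ → Fin M ⊕ κ`.  If `f` is not injective the last determinant has two equal columns and
vanishes.  If `f` is injective each coefficient is divisible by `q^(wt (f j))`, so the product by
`q^(∑ j, wt (f j))`, and `weight_sum` applies (compose `f` with the injection
`Fin M ⊕ κ → ℕ ⊕ κ`). -/
theorem det_core {κ : Type} [Fintype κ] [DecidableEq κ] (q : ℤ) (A N T M : ℕ)
    (hκ : Fintype.card κ = A + 1 + T) (w : κ → ℕ → ℤ) (mu : ℕ → κ → ℤ) (er : κ → κ → ℤ)
    (hmu : ∀ m j, q ^ (min N (m - A)) ∣ mu m j) :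
    q ^ (∑ l ∈ range N, (T - l)) ∣
      (Matrix.of fun i j => (∑ m ∈ range M, w i m * mu m j) + q ^ N * er i j).det := by
  classical
  let W : Fin M ⊕ κ → κ → ℤ := fun x i => Sum.elim (fun m : Fin M => w i m) (fun j' => er i j') x
  let coef : Fin M ⊕ κ → κ → ℤ := fun x j =>
    Sum.elim (fun m : Fin M => mu m j) (fun j' => if j' = j then q ^ N else 0) x
  have hentry : ∀ i j, (∑ m ∈ range M, w i m * mu m j) + q ^ N * er i j =
      ∑ x : Fin M ⊕ κ, coef x j * W x i := by
    intro i j
    rw [Fintype.sum_sum_type]
    congr 1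
    · rw [← Fin.sum_univ_eq_sum_range (fun m => w i m * mu m j) M]
      exact Finset.sum_congr rfl fun m _ => mul_comm _ _
    · have h1 : ∀ j' : κ, coef (Sum.inr j') j * W (Sum.inr j') i =
          if j' = j then q ^ N * er i j' else 0 := by
        intro j'
        change (if j' = j then q ^ N else 0) * er i j' = _
        split_ifs
        · rfl
        · rw [zero_mul]
      rw [Finset.sum_congr rfl fun j' _ => h1 j', Finset.sum_ite_eq' univ j]
      simp
  have hdet : (Matrix.of fun i j => (∑ m ∈ range M, w i m * mu m j) + q ^ N * er i j).det =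
      ∑ f : κ → Fin M ⊕ κ, (∏ j, coef (f j) j) *
        (Matrix.detRowAlternating : (κ → ℤ) [⋀^κ]→ₗ[ℤ] ℤ) (fun j => W (f j)) := by
    rw [← Matrix.det_transpose]
    have h2 : (Matrix.of fun i j => (∑ m ∈ range M, w i m * mu m j) + q ^ N * er i j).transpose =
        (fun j => ∑ x : Fin M ⊕ κ, coef x j • W x : κ → κ → ℤ) := by
      funext j i
      rw [Matrix.transpose_apply, Matrix.of_apply, hentry i j, Finset.sum_apply]
      rfl
    rw [h2]
    change (Matrix.detRowAlternating : (κ → ℤ) [⋀^κ]→ₗ[ℤ] ℤ).toMultilinearMap
      (fun j => ∑ x : Fin M ⊕ κ, coef x j • W x) = _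
    rw [MultilinearMap.map_sum]
    refine Finset.sum_congr rfl fun f _ => ?_
    rw [MultilinearMap.map_smul_univ]
    rfl
  rw [hdet]
  refine Finset.dvd_sum fun f _ => ?_
  by_cases hf : Function.Injective f
  · refine Dvd.dvd.mul_right ?_ _
    let g : κ → ℕ ⊕ κ := fun j => Sum.map (fun m : Fin M => (m : ℕ)) id (f j)
    have hg : Function.Injective g := by
      have h3 : Function.Injective
          (Sum.map (fun m : Fin M => (m : ℕ)) (id : κ → κ)) :=
        Function.Injective.sumMap Fin.val_injective Function.injective_id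
      exact h3.comp hf
    have h4 := weight_sum A N T hκ g hg
    refine dvd_trans (pow_dvd_pow q h4) ?_
    rw [← Finset.prod_pow_eq_pow_sum]
    refine Finset.prod_dvd_prod_of_dvd _ _ fun j _ => ?_
    rcases hfj : f j with m | j'
    · have h5 : wt A N (g j) = min N ((m : ℕ) - A) := by
        change wt A N (Sum.map _ _ (f j)) = _
        rw [hfj]
        rfl
      rw [h5]
      exact hmu m j
    · have h5 : wt A N (g j) = N := by
        change wt A N (Sum.map _ _ (f j)) = _
        rw [hfj]
        rfl
      rw [h5]
      change q ^ N ∣ if j' = j then q ^ N else 0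
      split_ifs
      · exact dvd_rfl
      · exact dvd_zero _
  · have h6 : (Matrix.detRowAlternating : (κ → ℤ) [⋀^κ]→ₗ[ℤ] ℤ) (fun j => W (f j)) = 0 := by
      apply AlternatingMap.map_eq_zero_of_not_injective
      intro h7
      apply hf
      intro a b hab
      exact h7 (congrArg W hab)
    rw [h6, mul_zero]
    exact dvd_zero _

end Pool.RA
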