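import Mathlib

/-! Project RA: the zero estimate. -/

set_option autoImplicit false

namespace Pool.RA

open Finset Polynomial

/-- PIECE RA-R2 (60 lines).  If `Q1 = 0`: `Q0` vanishes at more than `2A ≥ A` points, so `Q0 = 0`;
if `Q0 = 0`: `Q1(c) R(c) = 0`, `R(c) ≠ 0`, the same for `Q1`.  Otherwise, for `c ∈ C`:
`Q1(c) Q0(c+d) = - Q1(c) Q1(c+d) R(c) ρ = ρ Q1(c+d) Q0(c)`, so the polynomial
`Q1 * Q0.comp (X + C d) - C ρ * Q1.comp (X + C d) * Q0` of degree at most `2A` has more than `2A`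
zeros and vanishes; its coefficient in degree `deg Q0 + deg Q1` is
`(1 - ρ) lc(Q0) lc(Q1)`, which is not `0`. -/
theorem zero_est (A : ℕ) (Q0 Q1 : ℚ[X]) (h0 : Q0.natDegree ≤ A) (h1 : Q1.natDegree ≤ A)
    (S : Finset ℚ) (hS : 2 * A < S.card) (R : ℚ → ℚ) (hR : ∀ c ∈ S, R c ≠ 0) (d ρ : ℚ)
    (hρ : ρ ≠ 1) (ha : ∀ c ∈ S, Q0.eval c + Q1.eval c * R c = 0)
    (hb : ∀ c ∈ S, Q0.eval (c + d) + Q1.eval (c + d) * (R c * ρ) = 0) : Q0 = 0 ∧ Q1 = 0 := by
  by_cases h10 : Q1 = 0
  · refine ⟨?_, h10⟩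
    apply Polynomial.eq_zero_of_natDegree_lt_card_of_eval_eq_zero' Q0 S
    · intro c hc
      have := ha c hc
      simpa [h10] using this
    · omega
  by_cases h00 : Q0 = 0
  · exfalso
    apply h10
    apply Polynomial.eq_zero_of_natDegree_lt_card_of_eval_eq_zero' Q1 S
    · intro c hc
      have := ha c hc
      rw [h00, eval_zero, zero_add] at this
      exact (mul_eq_zero.mp this).resolve_right (hR c hc)
    · omega
  exfalso
  have hlcX : (X + C d : ℚ[X]).leadingCoeff = 1 := leadingCoeff_X_add_C d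
  have hndX : (X + C d : ℚ[X]).natDegree = 1 := natDegree_X_add_C d
  have hnd0 : (Q0.comp (X + C d)).natDegree = Q0.natDegree := by
    rw [natDegree_comp, hndX, mul_one]
  have hnd1 : (Q1.comp (X + C d)).natDegree = Q1.natDegree := by
    rw [natDegree_comp, hndX, mul_one]
  have hlc0 : (Q0.comp (X + C d)).leadingCoeff = Q0.leadingCoeff := by
    rw [leadingCoeff_comp (by rw [hndX]; exact one_ne_zero), hlcX, one_pow, mul_one]
  have hlc1 : (Q1.comp (X + C d)).leadingCoeff = Q1.leadingCoeff := by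
    rw [leadingCoeff_comp (by rw [hndX]; exact one_ne_zero), hlcX, one_pow, mul_one]
  have hP : Q1 * Q0.comp (X + C d) - C ρ * Q1.comp (X + C d) * Q0 = 0 := by
    apply Polynomial.eq_zero_of_natDegree_lt_card_of_eval_eq_zero' _ S
    · intro c hc
      have e1 := ha c hc
      have e2 := hb c hc
      simp only [eval_sub, eval_mul, eval_comp, eval_add, eval_X, eval_C]
      linear_combination (Q1.eval c) * e2 - ρ * (Q1.eval (c + d)) * e1
    · refine lt_of_le_of_lt ?_ hS
      refine (natDegree_sub_le _ _).trans (max_le ?_ ?_)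
      · refine natDegree_mul_le.trans ?_
        rw [hnd0]
        omega
      · refine natDegree_mul_le.trans ?_
        have := natDegree_C_mul_le ρ (Q1.comp (X + C d))
        rw [hnd1] at this
        omega
  have h3 := congrArg leadingCoeff (sub_eq_zero.mp hP)
  rw [leadingCoeff_mul, leadingCoeff_mul, leadingCoeff_mul, hlc0, hlc1, leadingCoeff_C] at h3
  have hl0 : Q0.leadingCoeff ≠ 0 := leadingCoeff_ne_zero.mpr h00
  have hl1 : Q1.leadingCoeff ≠ 0 := leadingCoeff_ne_zero.mpr h10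
  apply hρ
  have h4 : (ρ - 1) * (Q1.leadingCoeff * Q0.leadingCoeff) = 0 := by
    linear_combination -h3
  have h5 := (mul_eq_zero.mp h4).resolve_right (mul_ne_zero hl1 hl0)
  linarith

end Pool.RA
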