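import Pool.Agent.Helper44.RA.C2

/-! Project RA: counting the vectors of a cell of low rank, with an abstract gap hypothesis. -/

set_option autoImplicit false

namespace Pool.RA

open Finset

variable {ι : Type} [Fintype ι]

/-- PIECE RA-V11 (60 to 120 lines; copy the proof of `low_rank_count` in file C2).  The only change:
`hgap` replaces `min_norm`, and `δ = I / (4 (s+1)^2 (1 + log Z))`; the number of values per
coordinate is at most `600 (t+1)^2 (1 + log Z)`. -/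
theorem low_rank_countG {V : Type} (r : ι → ℕ) (hr : ∀ i, (r i).Prime)
    (I : ℝ) (hI1 : 1 ≤ I) (Z : ℕ) (hZ : 1 ≤ Z)
    (vec : V → ι → ℤ) (T : Finset V) (t : ℕ)
    (hgap : ∀ v ∈ T, ∀ v' ∈ T, v ≠ v' → I / 2 ≤ nm r (vec v - vec v'))
    (hnm : ∀ v ∈ T, nm r (vec v) ≤ 43 * I)
    (hps : ∀ v ∈ T, psup r (vec v) ≤ Z)
    (hno : ∀ k : Fin t → V, (∀ l, k l ∈ T) →
      ¬ LinearIndependent ℝ (fun l : Fin t => fun i : ι => (vec (k l) i : ℝ))) :
    (T.card : ℝ) ≤ (600 * ((t : ℝ) + 1) ^ 2 * (1 + Real.log Z)) ^ t := by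
  classical
  obtain ⟨s, k, hst, hkT, hind, hspan⟩ := exists_base vec T t hno
  obtain ⟨J, β, hMM⟩ := exists_MM (fun l => vec (k l)) hind
  have hZ1 : (1 : ℝ) ≤ Z := by exact_mod_cast hZ
  have hlZ : 0 ≤ Real.log Z := Real.log_nonneg hZ1
  have hs0 : (0 : ℝ) ≤ s := Nat.cast_nonneg s
  have hstR : (s : ℝ) ≤ t := by exact_mod_cast hst
  -- the representation of the vectors of the cell
  have hrep : ∀ v ∈ T, ∀ i, (vec v i : ℝ) = ∑ j, β i j * (vec v (J j) : ℝ) := by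
    intro v hv i
    obtain ⟨α, hα⟩ := hspan v hv
    rw [hα i, hMM.rep α i]
    exact Finset.sum_congr rfl fun j _ => by rw [hα (J j)]
  have hout : ∀ v ∈ T, ∀ i ∉ Usup (fun l => vec (k l)), (vec v i : ℝ) = 0 := by
    intro v hv i hi
    rw [hrep v hv i]
    refine Finset.sum_eq_zero fun j _ => ?_
    rw [hMM.zero i (not_mem_Usup _ i hi) j, zero_mul]
  -- the mesh
  obtain ⟨E, hE⟩ : ∃ E : ℝ, E = ((s : ℝ) + 1) ^ 2 * (1 + Real.log Z) := ⟨_, rfl⟩
  have hE1 : 1 ≤ E := by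
    rw [hE]
    have h1 : (1 : ℝ) ≤ ((s : ℝ) + 1) ^ 2 := by nlinarith
    nlinarith
  obtain ⟨δ, hδ⟩ : ∃ δ : ℝ, δ = I / (4 * E) := ⟨_, rfl⟩
  have hδ0 : 0 < δ := by rw [hδ]; positivity
  have hinjT : ∀ v ∈ T, ∀ v' ∈ T,
      (∀ j : Fin s, ⌊(vec v (J j) : ℝ) / δ⌋ = ⌊(vec v' (J j) : ℝ) / δ⌋) → v = v' := by
    intro v hv v' hv' hg
    by_contra hne
    have h1 := hgap v hv v' hv' hne
    have h2 : ∀ j : Fin s, |(vec v (J j) : ℝ) - (vec v' (J j) : ℝ)| ≤ δ := by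
      intro j
      have h3 := Int.abs_sub_lt_one_of_floor_eq_floor (hg j)
      rw [← sub_div, abs_div, abs_of_pos hδ0, div_lt_one hδ0] at h3
      exact h3.le
    have h3 : ∀ i, |(((vec v - vec v') i : ℤ) : ℝ)| ≤ s * δ := by
      intro i
      have h4 : (((vec v - vec v') i : ℤ) : ℝ) =
          ∑ j, β i j * ((vec v (J j) : ℝ) - (vec v' (J j) : ℝ)) := by
        rw [Pi.sub_apply, Int.cast_sub, hrep v hv i, hrep v' hv' i, ← Finset.sum_sub_distrib]
        exact Finset.sum_congr rfl fun j _ => by ring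
      rw [h4]
      calc |∑ j, β i j * ((vec v (J j) : ℝ) - (vec v' (J j) : ℝ))|
          ≤ ∑ j, |β i j * ((vec v (J j) : ℝ) - (vec v' (J j) : ℝ))| :=
            Finset.abs_sum_le_sum_abs _ _
        _ ≤ ∑ _j : Fin s, δ := by
            refine Finset.sum_le_sum fun j _ => ?_
            rw [abs_mul]
            calc |β i j| * |(vec v (J j) : ℝ) - (vec v' (J j) : ℝ)| ≤ 1 * δ :=
                  mul_le_mul (hMM.bd i j) (h2 j) (abs_nonneg _) zero_le_one
              _ = δ := one_mul δ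
        _ = s * δ := by simp
    have h5 := nmR_le_of_bd r (Usup (fun l => vec (k l)))
      (fun i => (((vec v - vec v') i : ℤ) : ℝ)) (s * δ) h3 (fun i hi => by
        show (((vec v - vec v') i : ℤ) : ℝ) = 0
        rw [Pi.sub_apply, Int.cast_sub, hout v hv i hi, hout v' hv' i hi, sub_zero])
    have h6 := sum_log_Usup r (fun i => (hr i).one_le) (fun l => vec (k l)) Z
      (fun l => hps (k l) (hkT l))
    have h7 : I / 2 ≤ (s * δ) * (s * Real.log Z) :=
      h1.trans (h5.trans (mul_le_mul_of_nonneg_left h6 (by positivity)))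
    rw [hδ] at h7
    have h8 : (s : ℝ) * (I / (4 * E)) * (s * Real.log Z) = I * ((s : ℝ) ^ 2 * Real.log Z) /
        (4 * E) := by ring
    rw [h8, le_div_iff₀ (by positivity)] at h7
    have h9 : (s : ℝ) ^ 2 * Real.log Z ≤ E := by
      rw [hE]
      have h10 : (s : ℝ) ^ 2 ≤ ((s : ℝ) + 1) ^ 2 := by nlinarith
      calc (s : ℝ) ^ 2 * Real.log Z ≤ ((s : ℝ) + 1) ^ 2 * Real.log Z :=
            mul_le_mul_of_nonneg_right h10 hlZ
        _ ≤ ((s : ℝ) + 1) ^ 2 * (1 + Real.log Z) :=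
            mul_le_mul_of_nonneg_left (by linarith) (by positivity)
    nlinarith
  -- the number of values
  obtain ⟨B, hB⟩ : ∃ B : ℝ, B = 43 * I / (Real.log 2 * δ) := ⟨_, rfl⟩
  have hlog2 : 0.6931471803 < Real.log 2 := Real.log_two_gt_d9
  have hl0 : 0 < Real.log 2 := by linarith
  have hBv : ∀ v ∈ T, ∀ j : Fin s, |(vec v (J j) : ℝ) / δ| ≤ B := by
    intro v hv j
    have h1 := coord_le r (fun i => (hr i).two_le) (vec v) (J j)
    have h2 := h1.trans (hnm v hv)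
    rw [abs_div, abs_of_pos hδ0, hB, div_le_div_iff₀ hδ0 (by positivity)]
    calc |(vec v (J j) : ℝ)| * (Real.log 2 * δ) = (|(vec v (J j) : ℝ)| * Real.log 2) * δ := by
          ring
      _ ≤ 43 * I * δ := mul_le_mul_of_nonneg_right h2 hδ0.le
  have hBE : B = 172 * E / Real.log 2 := by
    rw [hB, hδ]
    have hI0 : I ≠ 0 := by linarith
    have hE0 : E ≠ 0 := by linarith
    field_simp
    norm_num
  let Bx : Finset (Fin s → ℤ) := Fintype.piFinset fun _ => Finset.Icc (-⌈B⌉) ⌈B⌉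
  have hcard : T.card ≤ Bx.card := by
    refine Finset.card_le_card_of_injOn (fun v j => ⌊(vec v (J j) : ℝ) / δ⌋) ?_ ?_
    · intro v hv
      rw [Finset.mem_coe, Fintype.mem_piFinset]
      intro j
      have h1 := abs_le.1 (hBv v hv j)
      rw [Finset.mem_Icc]
      constructor
      · rw [Int.le_floor]
        push_cast
        have := Int.le_ceil B
        linarith
      · have h2 : (⌊(vec v (J j) : ℝ) / δ⌋ : ℝ) ≤ (⌈B⌉ : ℝ) :=
          (Int.floor_le _).trans (h1.2.trans (Int.le_ceil B))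
        exact_mod_cast h2
    · intro v hv v' hv' hvv
      exact hinjT v hv v' hv' fun j => congrFun hvv j
  have hB0 : 0 ≤ B := by rw [hBE]; positivity
  have hBx : (Bx.card : ℝ) ≤ (600 * ((t : ℝ) + 1) ^ 2 * (1 + Real.log Z)) ^ s := by
    have h1 : Bx.card = (Finset.Icc (-⌈B⌉) ⌈B⌉).card ^ s := by
      rw [Fintype.card_piFinset_const]
    rw [h1, Nat.cast_pow]
    refine pow_le_pow_left₀ (Nat.cast_nonneg _) ?_ s
    rw [Int.card_Icc]
    have hc0 : 0 ≤ ⌈B⌉ := Int.ceil_nonneg hB0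
    have h2 : (((⌈B⌉ + 1 - -⌈B⌉).toNat : ℕ) : ℝ) = 2 * (⌈B⌉ : ℝ) + 1 := by
      have h3 : (((⌈B⌉ + 1 - -⌈B⌉).toNat : ℕ) : ℤ) = 2 * ⌈B⌉ + 1 := by
        rw [Int.toNat_of_nonneg (by omega)]
        ring
      have h4 : (((⌈B⌉ + 1 - -⌈B⌉).toNat : ℕ) : ℝ) =
          ((((⌈B⌉ + 1 - -⌈B⌉).toNat : ℕ) : ℤ) : ℝ) := by norm_cast
      rw [h4, h3]
      push_cast
      ring
    rw [h2]
    have h5 : (⌈B⌉ : ℝ) < B + 1 := Int.ceil_lt_add_one B
    have h6 : B ≤ 249 * E := by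
      rw [hBE, div_le_iff₀ hl0]
      nlinarith
    have h7 : E ≤ ((t : ℝ) + 1) ^ 2 * (1 + Real.log Z) := by
      rw [hE]
      refine mul_le_mul_of_nonneg_right ?_ (by linarith)
      exact pow_le_pow_left₀ (by linarith) (by linarith) 2
    nlinarith
  have hbase : (1 : ℝ) ≤ 600 * ((t : ℝ) + 1) ^ 2 * (1 + Real.log Z) := by
    have ht0 : (0 : ℝ) ≤ t := Nat.cast_nonneg t
    have h1 : (1 : ℝ) ≤ ((t : ℝ) + 1) ^ 2 := by nlinarith
    have h2 : (1 : ℝ) * 1 ≤ (600 * ((t : ℝ) + 1) ^ 2) * (1 + Real.log Z) :=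
      mul_le_mul (by linarith) (by linarith) zero_le_one (by positivity)
    linarith
  calc (T.card : ℝ) ≤ (Bx.card : ℝ) := by exact_mod_cast hcard
    _ ≤ (600 * ((t : ℝ) + 1) ^ 2 * (1 + Real.log Z)) ^ s := hBx
    _ ≤ (600 * ((t : ℝ) + 1) ^ 2 * (1 + Real.log Z)) ^ t := pow_le_pow_right₀ hbase hst

end Pool.RA
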