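import Pool.Agent.Helper44.RA.V10
import Pool.Agent.Helper44.RA.V11
import Pool.Agent.Helper44.RA.C1

/-! Project RA, archimedean part: the number of pairs of almost equal integers. -/

set_option autoImplicit false

namespace Pool.RA

open Finset

/-- PIECE RA-V12 (80 lines).  As `cell_count` (file C3): `low_rank_countG` with
`ι = {p // p ∈ Pr Z ∅}`, `r = rr Z ∅`, `vec = kv Z ∅`, `t = tt κ`, `hno` from `coreA`;
`lam (kv E) = 2 (log E.1 - log E.2)` (`lam_eq`, `nu_kv`, `de_kv`), so `|lam| ≤ exp(-I)`.  Gap: for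
`E ≠ E'` in `T`, `x = kv E - kv E' ≠ 0` (`kv_inj`), `|lam x| ≤ 2 exp(-I)`, and
`exp_le_abs_lam` gives `nm x ≥ I - log 2 ≥ I / 2` (`I ≥ 2`; enlarge `I0`). -/
theorem cell_countA (κ : ℝ) (hκ : 0 < κ) : ∃ (I0 C : ℝ), 1 ≤ I0 ∧ 1 ≤ C ∧ ∀ (Z : ℕ), 1 ≤ Z →
    ∀ (I : ℝ), I0 ≤ I → (Z : ℝ) ^ κ ≤ I →
    ∀ T : Finset (ℕ × ℕ), (∀ E ∈ T, Adm Z ∅ E) →
    (∀ E ∈ T, 2 * |Real.log E.1 - Real.log E.2| ≤ Real.exp (-I)) →
    (∀ E ∈ T, 2 * (Real.log E.1 + Real.log E.2) ≤ 43 * I) →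
    (T.card : ℝ) ≤ C * (1 + Real.log Z) ^ tt κ := by
  obtain ⟨I0, hI0, hcore⟩ := coreA κ hκ
  refine ⟨max I0 2, (600 * ((tt κ : ℝ) + 1) ^ 2) ^ tt κ, hI0.trans (le_max_left _ _), ?_, ?_⟩
  · apply one_le_pow₀
    have h1 : (0 : ℝ) ≤ (tt κ : ℝ) := Nat.cast_nonneg _
    nlinarith [sq_nonneg (tt κ : ℝ)]
  · intro Z hZ I hI hZκ T hT hsmall hlog
    have hI0' : I0 ≤ I := (le_max_left _ _).trans hI
    have hI2 : 2 ≤ I := (le_max_right _ _).trans hI
    have hlam : ∀ E ∈ T, |lam (rr Z ∅) (kv Z ∅ E)| ≤ Real.exp (-I) := by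
      intro E hE
      rw [lam_eq (rr Z ∅) (fun i => (rr_prime Z ∅ i).one_le), nu_kv Z ∅ E (hT E hE),
        de_kv Z ∅ E (hT E hE)]
      have h1 : Real.log ((E.1 ^ 2 : ℕ) : ℝ) - Real.log ((E.2 ^ 2 : ℕ) : ℝ) =
          2 * (Real.log E.1 - Real.log E.2) := by
        push_cast
        rw [Real.log_pow, Real.log_pow]
        push_cast
        ring
      rw [h1, abs_mul, abs_two]
      exact hsmall E hE
    rw [← mul_pow]
    refine low_rank_countG (rr Z ∅) (rr_prime Z ∅) I (by linarith) Z hZ (kv Z ∅) T (tt κ)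
      (fun v hv v' hv' hne => ?_) (fun v hv => ?_) (fun v hv => psup_kv Z ∅ v (hT v hv)) ?_
    · have hx : kv Z ∅ v - kv Z ∅ v' ≠ 0 := fun h =>
        hne (kv_inj Z ∅ v v' (hT v hv) (hT v' hv') (sub_eq_zero.1 h))
      have h1 := exp_le_abs_lam (rr Z ∅) (rr_prime Z ∅) (rr_inj Z ∅) _ hx
      rw [lam_sub] at h1
      have h2 : |lam (rr Z ∅) (kv Z ∅ v) - lam (rr Z ∅) (kv Z ∅ v')| ≤ 2 * Real.exp (-I) := by
        refine (abs_sub _ _).trans ?_
        have := hlam v hv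
        have := hlam v' hv'
        linarith
      have h3 : Real.exp (-(nm (rr Z ∅) (kv Z ∅ v - kv Z ∅ v'))) ≤
          Real.exp (Real.log 2 + -I) := by
        rw [Real.exp_add, Real.exp_log two_pos]
        exact h1.trans h2
      have h4 := Real.exp_le_exp.1 h3
      have h5 : Real.log 2 < 1 := by
        have := Real.log_two_lt_d9
        linarith
      linarith
    · rw [nm_kv Z ∅ v (hT v hv)]
      exact hlog v hv
    · intro k hk hli
      refine hcore {p // p ∈ Pr Z ∅} (rr Z ∅) (rr_prime Z ∅) (rr_inj Z ∅) Z hZ I hI0'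
        hZκ (fun l => kv Z ∅ (k l)) hli (fun l => hlam _ (hk l)) (fun l => ?_)
        (fun l => psup_kv Z ∅ (k l) (hT _ (hk l)))
      rw [nm_kv Z ∅ (k l) (hT _ (hk l))]
      exact hlog _ (hk l)

end Pool.RA
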