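import Pool.Agent.Helper44.RA.H3
import Pool.Agent.Helper44.RA.V12

/-! Project RA: the number of triples of a given level with exponent 1/3. -/

set_option autoImplicit false

namespace Pool.RA

open Finset

private theorem H4a_rad_mul {u v : ℕ} (huv : u.Coprime v) :
    (∏ p ∈ (u * v).primeFactors, p) = (∏ p ∈ u.primeFactors, p) * (∏ p ∈ v.primeFactors, p) := by
  rw [huv.primeFactors_mul, Finset.prod_union huv.disjoint_primeFactors]

/-- PIECE RA-H4a (110 lines).  Balanced triples: `log a, log b ≥ L/4`.  Let `Y = ⌊Z^(1/3)⌋₊ ≥ 1`; as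
`rad a * rad b * rad c ≤ Z` one of the three radicals is `≤ Z^(1/3)`, hence `≤ Y`.  Split `T` into
three parts, mapped to `(c, a, b)`, `(b, a, c)`, `(a, b, c)`; `TypY` holds (`c ∣ a^2 - b^2`,
`b ∣ a^2 - c^2`, `a ∣ b^2 - c^2`), the maps are injective and satisfy the injectivity hypothesis of
`type_countY`.  (`L0` from `type_countY`.) -/
theorem balanced_count (κ : ℝ) (hκ : 0 < κ) (ε : ℝ) (hε : 0 < ε) : ∃ C L0 : ℝ, 1 ≤ C ∧ 1 ≤ L0 ∧
    ∀ (Z : ℕ) (L : ℝ), 1 ≤ Z → (Z : ℝ) ^ κ ≤ L → L0 ≤ L → ∀ T : Finset (ℕ × ℕ),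
    (∀ t ∈ T, Good Z t ∧ L / 4 ≤ Real.log t.1 ∧ L / 4 ≤ Real.log t.2 ∧
      L / 2 < Real.log ((t.1 + t.2 : ℕ) : ℝ) ∧ Real.log ((t.1 + t.2 : ℕ) : ℝ) ≤ L) →
      (T.card : ℝ) ≤ C * (Z : ℝ) ^ (1 / 3 + ε) := by
  classical
  obtain ⟨C0, L0, hC0, hL0, hT0⟩ := type_countY κ hκ ε hε
  refine ⟨3 * C0, L0, by linarith, hL0, ?_⟩
  intro Z L hZ hZL hLL0 T hT
  have hZR : (1 : ℝ) ≤ Z := by exact_mod_cast hZ
  have hZ0 : (0 : ℝ) < Z := by linarith
  have hL1 : 1 ≤ L := hL0.trans hLL0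
  set Y : ℕ := ⌊(Z : ℝ) ^ (1 / 3 : ℝ)⌋₊ with hY
  have hr1 : (1 : ℝ) ≤ (Z : ℝ) ^ (1 / 3 : ℝ) := Real.one_le_rpow hZR (by norm_num)
  have hYle : (Y : ℝ) ≤ (Z : ℝ) ^ (1 / 3 : ℝ) := Nat.floor_le (by linarith)
  have hY1 : 1 ≤ Y := Nat.le_floor (by simpa using hr1)
  have hYZ : Y ≤ Z := by
    have h1 : (Z : ℝ) ^ (1 / 3 : ℝ) ≤ (Z : ℝ) ^ (1 : ℝ) :=
      Real.rpow_le_rpow_of_exponent_le hZR (by norm_num)
    rw [Real.rpow_one] at h1
    exact_mod_cast hYle.trans h1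
  have hYcube : Z < (Y + 1) ^ 3 := by
    have h1 : (Z : ℝ) ^ (1 / 3 : ℝ) < Y + 1 := Nat.lt_floor_add_one _
    have h2 : ((Z : ℝ) ^ (1 / 3 : ℝ)) ^ 3 < ((Y : ℝ) + 1) ^ 3 :=
      pow_lt_pow_left₀ h1 (by linarith) (by norm_num)
    rw [← Real.rpow_natCast, ← Real.rpow_mul hZ0.le] at h2
    norm_num at h2
    exact_mod_cast h2
  have hfac : ∀ t ∈ T, t.1.Coprime (t.1 + t.2) ∧ t.2.Coprime (t.1 + t.2) := by
    intro t ht
    obtain ⟨hG, -⟩ := hT t ht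
    exact ⟨by simpa using hG.2.2.1, by simpa using hG.2.2.1.symm⟩
  set R : ℕ → ℕ := fun n => ∏ p ∈ n.primeFactors, p with hR
  set T1 := T.filter (fun t => R (t.1 + t.2) ≤ Y) with hT1
  set T2 := T.filter (fun t => R t.2 ≤ Y) with hT2
  set T3 := T.filter (fun t => R t.1 ≤ Y) with hT3
  have hcov : T ⊆ T1 ∪ (T2 ∪ T3) := by
    intro t ht
    obtain ⟨hG, -⟩ := hT t ht
    obtain ⟨hc1, hc2⟩ := hfac t ht
    rw [Finset.mem_union, Finset.mem_union, hT1, hT2, hT3, Finset.mem_filter, Finset.mem_filter,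
      Finset.mem_filter]
    by_contra hcon
    push Not at hcon
    obtain ⟨h1, h2, h3⟩ := hcon
    have h1' : Y + 1 ≤ R (t.1 + t.2) := h1 ht
    have h2' : Y + 1 ≤ R t.2 := h2 ht
    have h3' : Y + 1 ≤ R t.1 := h3 ht
    have h4 : R t.1 * R t.2 * R (t.1 + t.2) ≤ Z := by
      have h5 := hG.2.2.2
      rw [H4a_rad_mul (Nat.Coprime.mul_left hc1 hc2), H4a_rad_mul hG.2.2.1] at h5
      exact h5
    have h6 : (Y + 1) ^ 3 ≤ R t.1 * R t.2 * R (t.1 + t.2) := by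
      have h7 := Nat.mul_le_mul (Nat.mul_le_mul h3' h2') h1'
      calc (Y + 1) ^ 3 = (Y + 1) * (Y + 1) * (Y + 1) := by ring
        _ ≤ _ := h7
    omega
  have hlogle : ∀ u v : ℕ, 0 < u → u ≤ v → Real.log (u : ℝ) ≤ Real.log (v : ℝ) := by
    intro u v hu huv
    exact Real.log_le_log (by exact_mod_cast hu) (by exact_mod_cast huv)
  have b1 : (T1.card : ℝ) ≤ C0 * (Y : ℝ) * (Z : ℝ) ^ ε := by
    have hinj : Set.InjOn (fun t : ℕ × ℕ => ((t.1 + t.2, t.1, t.2) : ℕ × ℕ × ℕ)) T1 := by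
      intro t _ t' _ h
      simp only [Prod.mk.injEq] at h
      exact Prod.ext h.2.1 h.2.2
    rw [← Finset.card_image_of_injOn hinj]
    refine hT0 Z Y L hY1 hYZ hZL hLL0 _ ?_ ?_
    · intro τ hτ
      obtain ⟨t, ht, rfl⟩ := Finset.mem_image.1 hτ
      rw [hT1, Finset.mem_filter] at ht
      obtain ⟨htT, hr⟩ := ht
      obtain ⟨hG, ha4, hb4, hl1, hl2⟩ := hT t htT
      obtain ⟨hc1, hc2⟩ := hfac t htT
      obtain ⟨ha, hb, hab, hrad⟩ := hG
      refine ⟨by simp only; omega, ha, hb, hab, ?_, ?_, ?_, hr, ?_, hl2, ?_, ?_⟩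
      · exact (Nat.Coprime.mul_left hc1 hc2).symm
      · refine ⟨(t.1 : ℤ) - t.2, ?_⟩
        push_cast
        ring
      · simp only
        rw [mul_comm (t.1 + t.2)]
        exact hrad
      · linarith
      · exact (hlogle t.1 (t.1 + t.2) ha (by omega)).trans hl2
      · exact (hlogle t.2 (t.1 + t.2) hb (by omega)).trans hl2
    · intro τ hτ τ' hτ' h
      obtain ⟨t, ht, rfl⟩ := Finset.mem_image.1 hτ
      obtain ⟨t', ht', rfl⟩ := Finset.mem_image.1 hτ'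
      simp only [Prod.mk.injEq] at h ⊢
      omega
  have b2 : (T2.card : ℝ) ≤ C0 * (Y : ℝ) * (Z : ℝ) ^ ε := by
    have hinj : Set.InjOn (fun t : ℕ × ℕ => ((t.2, t.1, t.1 + t.2) : ℕ × ℕ × ℕ)) T2 := by
      intro t _ t' _ h
      simp only [Prod.mk.injEq] at h
      exact Prod.ext h.2.1 h.1
    rw [← Finset.card_image_of_injOn hinj]
    refine hT0 Z Y L hY1 hYZ hZL hLL0 _ ?_ ?_
    · intro τ hτ
      obtain ⟨t, ht, rfl⟩ := Finset.mem_image.1 hτ
      rw [hT2, Finset.mem_filter] at ht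
      obtain ⟨htT, hr⟩ := ht
      obtain ⟨hG, ha4, hb4, hl1, hl2⟩ := hT t htT
      obtain ⟨hc1, hc2⟩ := hfac t htT
      obtain ⟨ha, hb, hab, hrad⟩ := hG
      refine ⟨hb, ha, by simp only; omega, hc1, ?_, ?_, ?_, hr, hb4, ?_, ?_, hl2⟩
      · exact Nat.Coprime.mul_right hab.symm hc2
      · refine ⟨-(2 * (t.1 : ℤ) + t.2), ?_⟩
        push_cast
        ring
      · simp only
        have h1 : t.2 * (t.1 * (t.1 + t.2)) = t.1 * t.2 * (t.1 + t.2) := by ring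
        rw [h1]
        exact hrad
      · exact (hlogle t.2 (t.1 + t.2) hb (by omega)).trans hl2
      · exact (hlogle t.1 (t.1 + t.2) ha (by omega)).trans hl2
    · intro τ hτ τ' hτ' h
      obtain ⟨t, ht, rfl⟩ := Finset.mem_image.1 hτ
      obtain ⟨t', ht', rfl⟩ := Finset.mem_image.1 hτ'
      simp only [Prod.mk.injEq] at h ⊢
      omega
  have b3 : (T3.card : ℝ) ≤ C0 * (Y : ℝ) * (Z : ℝ) ^ ε := by
    have hinj : Set.InjOn (fun t : ℕ × ℕ => ((t.1, t.2, t.1 + t.2) : ℕ × ℕ × ℕ)) T3 := by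
      intro t _ t' _ h
      simp only [Prod.mk.injEq] at h
      exact Prod.ext h.1 h.2.1
    rw [← Finset.card_image_of_injOn hinj]
    refine hT0 Z Y L hY1 hYZ hZL hLL0 _ ?_ ?_
    · intro τ hτ
      obtain ⟨t, ht, rfl⟩ := Finset.mem_image.1 hτ
      rw [hT3, Finset.mem_filter] at ht
      obtain ⟨htT, hr⟩ := ht
      obtain ⟨hG, ha4, hb4, hl1, hl2⟩ := hT t htT
      obtain ⟨hc1, hc2⟩ := hfac t htT
      obtain ⟨ha, hb, hab, hrad⟩ := hG
      refine ⟨ha, hb, by simp only; omega, hc2, ?_, ?_, ?_, hr, ha4, ?_, ?_, hl2⟩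
      · exact Nat.Coprime.mul_right hab hc1
      · refine ⟨-((t.1 : ℤ) + 2 * t.2), ?_⟩
        push_cast
        ring
      · simp only
        have h1 : t.1 * (t.2 * (t.1 + t.2)) = t.1 * t.2 * (t.1 + t.2) := by ring
        rw [h1]
        exact hrad
      · exact (hlogle t.1 (t.1 + t.2) ha (by omega)).trans hl2
      · exact (hlogle t.2 (t.1 + t.2) hb (by omega)).trans hl2
    · intro τ hτ τ' hτ' h
      obtain ⟨t, ht, rfl⟩ := Finset.mem_image.1 hτ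
      obtain ⟨t', ht', rfl⟩ := Finset.mem_image.1 hτ'
      simp only [Prod.mk.injEq] at h ⊢
      omega
  have hcard : T.card ≤ T1.card + (T2.card + T3.card) :=
    (Finset.card_le_card hcov).trans
      ((Finset.card_union_le _ _).trans (Nat.add_le_add_left (Finset.card_union_le _ _) _))
  have hcardR : (T.card : ℝ) ≤ (T1.card : ℝ) + ((T2.card : ℝ) + (T3.card : ℝ)) := by
    exact_mod_cast hcard
  have h9 : C0 * (Y : ℝ) * (Z : ℝ) ^ ε ≤ C0 * (Z : ℝ) ^ (1 / 3 + ε) := by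
    rw [Real.rpow_add hZ0, ← mul_assoc]
    exact mul_le_mul_of_nonneg_right (mul_le_mul_of_nonneg_left hYle (by linarith))
      (Real.rpow_nonneg hZ0.le _)
  linarith

/-- PIECE RA-H4b (100 lines).  Triples with `log a < L/4`: `T ↦ (c, b)` is injective
(`a = c - b`), `Adm Z ∅ (c, b)`, and
`log c - log b = log (1 + a/b) ≤ a/b ≤ exp(L/4) / (exp(L/2)/2) = 2 exp(-L/4)`
(`b = c - a ≥ c/2` since `a ≤ c/2`), so with `I = L/8`: `2 |log c - log b| ≤ exp(-I)` for large `L`,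
`2 (log c + log b) ≤ 4L = 32 I`, and `Z^(κ/2) ≤ √L ≤ L/8 = I` for large `L`.  Apply
`cell_countA (κ/2)`; the power of `1 + log Z` is at most `C Z^ε`. -/
theorem small_count (κ : ℝ) (hκ : 0 < κ) (ε : ℝ) (hε : 0 < ε) : ∃ C L0 : ℝ, 1 ≤ C ∧ 1 ≤ L0 ∧
    ∀ (Z : ℕ) (L : ℝ), 1 ≤ Z → (Z : ℝ) ^ κ ≤ L → L0 ≤ L → ∀ T : Finset (ℕ × ℕ),
    (∀ t ∈ T, Good Z t ∧ Real.log t.1 < L / 4 ∧
      L / 2 < Real.log ((t.1 + t.2 : ℕ) : ℝ) ∧ Real.log ((t.1 + t.2 : ℕ) : ℝ) ≤ L) →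
      (T.card : ℝ) ≤ C * (Z : ℝ) ^ ε := by
  classical
  have hκ2 : 0 < κ / 2 := by positivity
  obtain ⟨I0, C1, hI0, hC1, h1⟩ := cell_countA (κ / 2) hκ2
  set n : ℕ := tt (κ / 2) with hn
  set δ : ℝ := ε / ((n : ℝ) + 1) with hδ
  have hδ0 : 0 < δ := by positivity
  have hD : 1 ≤ 1 + 1 / δ := by
    have : 0 < 1 / δ := by positivity
    linarith
  refine ⟨C1 * (1 + 1 / δ) ^ n, max (8 * I0) 64, ?_, ?_, ?_⟩
  · have h2 : 1 ≤ (1 + 1 / δ) ^ n := one_le_pow₀ hD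
    nlinarith
  · exact le_trans (by norm_num) (le_max_right _ _)
  intro Z L hZ hZL hL T hT
  have hL8 : 8 * I0 ≤ L := (le_max_left _ _).trans hL
  have hL64 : 64 ≤ L := (le_max_right _ _).trans hL
  have hZr : (1 : ℝ) ≤ (Z : ℝ) := by exact_mod_cast hZ
  have hZ0 : (0 : ℝ) < (Z : ℝ) := by linarith
  have hL0 : 0 < L := by linarith
  have hexp8 : 4 ≤ Real.exp (L / 8) := by
    have h2 : L / 8 + 1 ≤ Real.exp (L / 8) := Real.add_one_le_exp _
    linarith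
  have hexp4 : 2 ≤ Real.exp (L / 4) := by
    have h2 : L / 4 + 1 ≤ Real.exp (L / 4) := Real.add_one_le_exp _
    linarith
  have hI : I0 ≤ L / 8 := by linarith
  have hZI : (Z : ℝ) ^ (κ / 2) ≤ L / 8 := by
    have h2 : ((Z : ℝ) ^ (κ / 2)) ^ 2 ≤ L := by
      rw [← Real.rpow_natCast, ← Real.rpow_mul hZ0.le]
      have h3 : κ / 2 * ((2 : ℕ) : ℝ) = κ := by push_cast; ring
      rw [h3]
      exact hZL
    have h4 : ((Z : ℝ) ^ (κ / 2)) ^ 2 ≤ (L / 8) ^ 2 := by nlinarith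
    exact (sq_le_sq₀ (by positivity) (by positivity)).mp h4
  set T' : Finset (ℕ × ℕ) := T.image (fun t => (t.1 + t.2, t.2)) with hT'
  have hcard : T'.card = T.card := by
    rw [hT']
    apply Finset.card_image_of_injective
    intro t t' h
    simp only [Prod.mk.injEq] at h
    exact Prod.ext (by omega) h.2
  have hAdm : ∀ E ∈ T', Adm Z ∅ E := by
    intro E hE
    rw [hT', mem_image] at hE
    obtain ⟨t, ht, rfl⟩ := hE
    obtain ⟨⟨x1, x2, x3, x4⟩, -⟩ := hT t ht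
    refine ⟨by show 0 < t.1 + t.2; omega, x2, ?_, fun p hp => absurd hp (notMem_empty p), ?_⟩
    · show (t.1 + t.2).Coprime t.2
      rw [Nat.coprime_add_self_left]
      exact x3
    · refine le_trans ?_ x4
      show ∏ p ∈ ((t.1 + t.2) * t.2).primeFactors, p ≤ _
      apply Finset.prod_le_prod_of_subset_of_one_le'
      · apply Nat.primeFactors_mono
        · exact ⟨t.1, by ring⟩
        · have : 0 < t.1 + t.2 := by omega
          positivity
      · intro p hp _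
        exact (Nat.prime_of_mem_primeFactors hp).one_le
  have key : ∀ t ∈ T, Real.log ((t.1 + t.2 : ℕ) : ℝ) - Real.log t.2 ≤ 2 * Real.exp (-(L / 4)) ∧
      0 ≤ Real.log ((t.1 + t.2 : ℕ) : ℝ) - Real.log t.2 := by
    intro t ht
    obtain ⟨⟨x1, x2, x3, x4⟩, y1, y2, y3⟩ := hT t ht
    have a0 : (0 : ℝ) < (t.1 : ℝ) := by exact_mod_cast x1
    have b0 : (0 : ℝ) < (t.2 : ℝ) := by exact_mod_cast x2
    have c0 : (0 : ℝ) < ((t.1 + t.2 : ℕ) : ℝ) := by push_cast; linarith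
    have a1 : (t.1 : ℝ) < Real.exp (L / 4) := (Real.log_lt_iff_lt_exp a0).mp y1
    have c1 : Real.exp (L / 2) < ((t.1 + t.2 : ℕ) : ℝ) := (Real.lt_log_iff_exp_lt c0).mp y2
    have e1 : Real.exp (L / 2) = Real.exp (L / 4) * Real.exp (L / 4) := by
      rw [← Real.exp_add]
      congr 1
      ring
    have e2 : Real.exp (-(L / 4)) * Real.exp (L / 4) = 1 := by
      rw [← Real.exp_add]
      simp
    have c2 : ((t.1 + t.2 : ℕ) : ℝ) = (t.1 : ℝ) + t.2 := by push_cast; ring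
    rw [c2] at c1 ⊢
    set X : ℝ := Real.exp (L / 4) with hX
    have b1 : X * X / 2 ≤ (t.2 : ℝ) := by nlinarith
    constructor
    · rw [← Real.log_div (by positivity) (by positivity)]
      have h5 : ((t.1 : ℝ) + t.2) / t.2 = 1 + t.1 / t.2 := by
        field_simp
        ring
      rw [h5]
      have h6 : Real.log (1 + (t.1 : ℝ) / t.2) ≤ (t.1 : ℝ) / t.2 := by
        have := Real.log_le_sub_one_of_pos (show (0 : ℝ) < 1 + (t.1 : ℝ) / t.2 by positivity)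
        linarith
      refine h6.trans ?_
      rw [div_le_iff₀ b0]
      have hY : 0 < Real.exp (-(L / 4)) := Real.exp_pos _
      set Y : ℝ := Real.exp (-(L / 4)) with hYd
      have h7 : X ≤ 2 * Y * (X * X / 2) := by
        have : 2 * Y * (X * X / 2) = (Y * X) * X := by ring
        rw [this, e2, one_mul]
      have h8 : 2 * Y * (X * X / 2) ≤ 2 * Y * t.2 :=
        mul_le_mul_of_nonneg_left b1 (by positivity)
      linarith
    · have := Real.log_le_log b0 (show (t.2 : ℝ) ≤ (t.1 : ℝ) + t.2 by linarith)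
      linarith
  have hlog : ∀ E ∈ T', 2 * |Real.log E.1 - Real.log E.2| ≤ Real.exp (-(L / 8)) := by
    intro E hE
    rw [hT', mem_image] at hE
    obtain ⟨t, ht, rfl⟩ := hE
    obtain ⟨k1, k2⟩ := key t ht
    show 2 * |Real.log ((t.1 + t.2 : ℕ) : ℝ) - Real.log (t.2 : ℝ)| ≤ Real.exp (-(L / 8))
    rw [abs_of_nonneg k2]
    have e3 : Real.exp (-(L / 8)) = Real.exp (-(L / 4)) * Real.exp (L / 8) := by
      rw [← Real.exp_add]
      congr 1
      ring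
    rw [e3]
    have hY : 0 < Real.exp (-(L / 4)) := Real.exp_pos _
    nlinarith
  have hsize : ∀ E ∈ T', 2 * (Real.log E.1 + Real.log E.2) ≤ 43 * (L / 8) := by
    intro E hE
    rw [hT', mem_image] at hE
    obtain ⟨t, ht, rfl⟩ := hE
    obtain ⟨-, k2⟩ := key t ht
    obtain ⟨-, -, -, y3⟩ := hT t ht
    show 2 * (Real.log ((t.1 + t.2 : ℕ) : ℝ) + Real.log (t.2 : ℝ)) ≤ 43 * (L / 8)
    linarith
  have h9 := h1 Z hZ (L / 8) hI hZI T' hAdm hlog hsize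
  rw [hcard] at h9
  refine h9.trans ?_
  rw [mul_assoc]
  apply mul_le_mul_of_nonneg_left _ (by linarith)
  have h10 : 1 + Real.log Z ≤ (1 + 1 / δ) * (Z : ℝ) ^ δ := by
    have h11 : Real.log Z ≤ (Z : ℝ) ^ δ / δ := Real.log_le_rpow_div hZ0.le hδ0
    have h12 : 1 ≤ (Z : ℝ) ^ δ := Real.one_le_rpow hZr hδ0.le
    have h13 : (1 + 1 / δ) * (Z : ℝ) ^ δ = (Z : ℝ) ^ δ + (Z : ℝ) ^ δ / δ := by ring
    rw [h13]
    linarith
  have h14 : 0 ≤ 1 + Real.log Z := by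
    have := Real.log_nonneg hZr
    linarith
  calc (1 + Real.log Z) ^ n ≤ ((1 + 1 / δ) * (Z : ℝ) ^ δ) ^ n := pow_le_pow_left₀ h14 h10 n
    _ = (1 + 1 / δ) ^ n * (Z : ℝ) ^ (δ * n) := by
        rw [mul_pow, ← Real.rpow_natCast ((Z : ℝ) ^ δ) n, ← Real.rpow_mul hZ0.le]
    _ ≤ (1 + 1 / δ) ^ n * (Z : ℝ) ^ ε := by
        apply mul_le_mul_of_nonneg_left _ (by positivity)
        apply Real.rpow_le_rpow_of_exponent_le hZr
        rw [hδ, div_mul_eq_mul_div, div_le_iff₀ (by positivity)]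
        nlinarith

/-- PIECE RA-H4c (70 lines).  For `L` below the maximum of the two `L0` all pairs lie in a box (a
constant); otherwise split `T` into the pairs with both logarithms `≥ L/4` (`balanced_count`), those
with `log t.1 < L/4` (`small_count`) and those with `log t.2 < L/4` (`small_count` for the swapped
pairs). -/
theorem level_count3 (κ : ℝ) (hκ : 0 < κ) (ε : ℝ) (hε : 0 < ε) : ∃ C : ℝ, 1 ≤ C ∧
    ∀ (Z : ℕ) (L : ℝ), 1 ≤ Z → (Z : ℝ) ^ κ ≤ L → ∀ T : Finset (ℕ × ℕ),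
    (∀ t ∈ T, Good Z t ∧ L / 2 < Real.log ((t.1 + t.2 : ℕ) : ℝ) ∧
      Real.log ((t.1 + t.2 : ℕ) : ℝ) ≤ L) →
      (T.card : ℝ) ≤ C * (Z : ℝ) ^ (1 / 3 + ε) := by
  classical
  obtain ⟨C1, L1, hC1, hL1, h1⟩ := balanced_count κ hκ ε hε
  obtain ⟨C2, L2, hC2, hL2, h2⟩ := small_count κ hκ ε hε
  set L0 : ℝ := max L1 L2 with hL0
  set B : ℝ := (⌊Real.exp L0⌋₊ + 1 : ℝ) ^ 2 with hB
  have hB0 : 0 ≤ B := by positivity
  refine ⟨C1 + 2 * C2 + B, by linarith, ?_⟩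
  intro Z L hZ hZL T hT
  have hZr : (1 : ℝ) ≤ (Z : ℝ) := by exact_mod_cast hZ
  have hZ1 : (1 : ℝ) ≤ (Z : ℝ) ^ (1 / 3 + ε) :=
    Real.one_le_rpow hZr (by linarith)
  rcases lt_or_ge L L0 with hlt | hge
  · have hsub : T ⊆ (Finset.range (⌊Real.exp L0⌋₊ + 1)) ×ˢ (Finset.range (⌊Real.exp L0⌋₊ + 1)) := by
      intro t ht
      obtain ⟨hG, h3, h4⟩ := hT t ht
      have hc : 0 < t.1 + t.2 := Nat.add_pos_left hG.1 _
      have h5 : ((t.1 + t.2 : ℕ) : ℝ) ≤ Real.exp L0 := by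
        have h6 : Real.exp (Real.log ((t.1 + t.2 : ℕ) : ℝ)) = ((t.1 + t.2 : ℕ) : ℝ) :=
          Real.exp_log (by exact_mod_cast hc)
        rw [← h6]
        exact Real.exp_le_exp.2 (by linarith)
      have h7 : t.1 + t.2 ≤ ⌊Real.exp L0⌋₊ := Nat.le_floor h5
      rw [Finset.mem_product, Finset.mem_range, Finset.mem_range]
      omega
    have h6 := Finset.card_le_card hsub
    rw [Finset.card_product, Finset.card_range] at h6
    have h7 : (T.card : ℝ) ≤ B := by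
      have h8 : (T.card : ℝ) ≤ (((⌊Real.exp L0⌋₊ + 1) * (⌊Real.exp L0⌋₊ + 1) : ℕ) : ℝ) := by
        exact_mod_cast h6
      rw [hB]
      push_cast at h8
      nlinarith
    have h9 : B ≤ (C1 + 2 * C2 + B) * (Z : ℝ) ^ (1 / 3 + ε) := by nlinarith
    linarith
  · have hLL1 : L1 ≤ L := (le_max_left _ _).trans hge
    have hLL2 : L2 ≤ L := (le_max_right _ _).trans hge
    set T1 := T.filter (fun t => L / 4 ≤ Real.log t.1 ∧ L / 4 ≤ Real.log t.2) with hT1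
    set T2 := T.filter (fun t => Real.log t.1 < L / 4) with hT2
    set T3 := T.filter (fun t => Real.log t.2 < L / 4) with hT3
    have hcov : T ⊆ T1 ∪ (T2 ∪ T3) := by
      intro t ht
      rw [Finset.mem_union, Finset.mem_union, hT1, hT2, hT3, Finset.mem_filter, Finset.mem_filter,
        Finset.mem_filter]
      rcases lt_or_ge (Real.log t.1) (L / 4) with g1 | g1
      · exact Or.inr (Or.inl ⟨ht, g1⟩)
      · rcases lt_or_ge (Real.log t.2) (L / 4) with g2 | g2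
        · exact Or.inr (Or.inr ⟨ht, g2⟩)
        · exact Or.inl ⟨ht, g1, g2⟩
    have b1 : (T1.card : ℝ) ≤ C1 * (Z : ℝ) ^ (1 / 3 + ε) := by
      refine h1 Z L hZ hZL hLL1 T1 fun t ht => ?_
      rw [hT1, Finset.mem_filter] at ht
      obtain ⟨hG, g1, g2⟩ := hT t ht.1
      exact ⟨hG, ht.2.1, ht.2.2, g1, g2⟩
    have b2 : (T2.card : ℝ) ≤ C2 * (Z : ℝ) ^ ε := by
      refine h2 Z L hZ hZL hLL2 T2 fun t ht => ?_
      rw [hT2, Finset.mem_filter] at ht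
      obtain ⟨hG, g1, g2⟩ := hT t ht.1
      exact ⟨hG, ht.2, g1, g2⟩
    have b3 : (T3.card : ℝ) ≤ C2 * (Z : ℝ) ^ ε := by
      have hinj : Set.InjOn (fun t : ℕ × ℕ => ((t.2, t.1) : ℕ × ℕ)) T3 := by
        intro t _ t' _ h
        simp only [Prod.mk.injEq] at h
        exact Prod.ext h.2 h.1
      rw [← Finset.card_image_of_injOn hinj]
      refine h2 Z L hZ hZL hLL2 _ fun τ hτ => ?_
      obtain ⟨t, ht, rfl⟩ := Finset.mem_image.1 hτ
      rw [hT3, Finset.mem_filter] at ht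
      obtain ⟨⟨x1, x2, x3, x4⟩, g1, g2⟩ := hT t ht.1
      refine ⟨⟨x2, x1, x3.symm, ?_⟩, ht.2, ?_, ?_⟩
      · simp only
        rw [mul_comm t.2 t.1, add_comm t.2 t.1]
        exact x4
      · simp only
        rw [add_comm t.2 t.1]
        exact g1
      · simp only
        rw [add_comm t.2 t.1]
        exact g2
    have hcard : T.card ≤ T1.card + (T2.card + T3.card) :=
      (Finset.card_le_card hcov).trans
        ((Finset.card_union_le _ _).trans (Nat.add_le_add_left (Finset.card_union_le _ _) _))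
    have hcardR : (T.card : ℝ) ≤ (T1.card : ℝ) + ((T2.card : ℝ) + (T3.card : ℝ)) := by
      exact_mod_cast hcard
    have h9 : (Z : ℝ) ^ ε ≤ (Z : ℝ) ^ (1 / 3 + ε) :=
      Real.rpow_le_rpow_of_exponent_le hZr (by linarith)
    have h10 : C2 * (Z : ℝ) ^ ε ≤ C2 * (Z : ℝ) ^ (1 / 3 + ε) :=
      mul_le_mul_of_nonneg_left h9 (by linarith)
    have h11 : 0 ≤ B * (Z : ℝ) ^ (1 / 3 + ε) := by positivity
    nlinarith

/-- PIECE RA-H4d (80 lines; copy the proof of `theoremA` in file G4, with `level_count3`). -/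
theorem theoremA3 (κ : ℝ) (hκ : 0 < κ) (ε : ℝ) (hε : 0 < ε) : ∃ C : ℝ, 1 ≤ C ∧
    ∀ (Z : ℕ) (Λ : ℝ), 1 ≤ Z → 1 ≤ Λ → ∀ T : Finset (ℕ × ℕ),
    (∀ t ∈ T, Good Z t ∧ (Z : ℝ) ^ κ ≤ Real.log ((t.1 + t.2 : ℕ) : ℝ) ∧
      Real.log ((t.1 + t.2 : ℕ) : ℝ) ≤ Λ) →
      (T.card : ℝ) ≤ C * (Z : ℝ) ^ (1 / 3 + ε) * (1 + Real.log Λ) := by
  obtain ⟨C, hC1, hC⟩ := level_count3 κ hκ ε hε
  refine ⟨3 * C, by linarith, ?_⟩
  intro Z Λ hZ hΛ T hT
  set J : ℕ × ℕ → ℕ := fun t => ⌈Real.logb 2 (Real.log ((t.1 + t.2 : ℕ) : ℝ))⌉₊ with hJ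
  set N : ℕ := ⌈Real.logb 2 Λ⌉₊ with hN
  have hlog2 : (1 : ℝ) / 2 < Real.log 2 := by
    have := Real.log_two_gt_d9
    linarith
  -- the logarithm of `c` is larger than `1/2`
  have hc : ∀ t ∈ T, (1 : ℝ) / 2 < Real.log ((t.1 + t.2 : ℕ) : ℝ) := by
    intro t ht
    obtain ⟨h1, h2, -, -⟩ := (hT t ht).1
    have h3 : (2 : ℝ) ≤ ((t.1 + t.2 : ℕ) : ℝ) := by
      exact_mod_cast (by omega : 2 ≤ t.1 + t.2)
    exact lt_of_lt_of_le hlog2 (Real.log_le_log (by norm_num) h3)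
  have hup : ∀ t ∈ T, Real.log ((t.1 + t.2 : ℕ) : ℝ) ≤ (2 : ℝ) ^ J t := by
    intro t ht
    have h0 : 0 < Real.log ((t.1 + t.2 : ℕ) : ℝ) := by linarith [hc t ht]
    have h1 : Real.logb 2 (Real.log ((t.1 + t.2 : ℕ) : ℝ)) ≤ (J t : ℝ) := Nat.le_ceil _
    rw [Real.logb_le_iff_le_rpow (by norm_num) h0, Real.rpow_natCast] at h1
    exact h1
  have hlo : ∀ t ∈ T, (2 : ℝ) ^ J t / 2 < Real.log ((t.1 + t.2 : ℕ) : ℝ) := by
    intro t ht
    have h0 : 0 < Real.log ((t.1 + t.2 : ℕ) : ℝ) := by linarith [hc t ht]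
    rcases Nat.eq_zero_or_pos (J t) with h | h
    · rw [h, pow_zero]
      exact hc t ht
    · have h1 : J t - 1 < J t := by omega
      have h2 : ((J t - 1 : ℕ) : ℝ) < Real.logb 2 (Real.log ((t.1 + t.2 : ℕ) : ℝ)) := by
        rw [hJ] at h1
        exact Nat.lt_ceil.1 h1
      rw [Real.lt_logb_iff_rpow_lt (by norm_num) h0, Real.rpow_natCast] at h2
      have h3 : (2 : ℝ) ^ J t = 2 * 2 ^ (J t - 1) := by
        rw [← pow_succ']
        congr 1
        omega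
      rw [h3]
      linarith
  have hJN : ∀ t ∈ T, J t ∈ Finset.range (N + 1) := by
    intro t ht
    rw [Finset.mem_range, Nat.lt_succ_iff]
    have h0 : 0 < Real.log ((t.1 + t.2 : ℕ) : ℝ) := by linarith [hc t ht]
    exact Nat.ceil_mono (Real.logb_le_logb_of_le (by norm_num) h0 (hT t ht).2.2)
  have hfib : ∀ j ∈ Finset.range (N + 1),
      ((T.filter (fun t => J t = j)).card : ℝ) ≤ C * (Z : ℝ) ^ (1 / 3 + ε) := by
    intro j _
    rcases (T.filter (fun t => J t = j)).eq_empty_or_nonempty with h | ⟨t0, ht0⟩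
    · rw [h, Finset.card_empty, Nat.cast_zero]
      positivity
    · rw [Finset.mem_filter] at ht0
      refine hC Z ((2 : ℝ) ^ j) hZ ?_ _ ?_
      · have h1 := hup t0 ht0.1
        rw [ht0.2] at h1
        exact (hT t0 ht0.1).2.1.trans h1
      · intro t ht
        rw [Finset.mem_filter] at ht
        have h1 := hup t ht.1
        have h2 := hlo t ht.1
        rw [ht.2] at h1 h2
        exact ⟨(hT t ht.1).1, h2, h1⟩
  have hcard : (T.card : ℝ) ≤ ((N + 1 : ℕ) : ℝ) * (C * (Z : ℝ) ^ (1 / 3 + ε)) := by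
    rw [Finset.card_eq_sum_card_fiberwise hJN, Nat.cast_sum]
    refine (Finset.sum_le_sum hfib).trans ?_
    rw [Finset.sum_const, Finset.card_range, nsmul_eq_mul]
  have hlΛ : 0 ≤ Real.log Λ := Real.log_nonneg hΛ
  have hN1 : ((N + 1 : ℕ) : ℝ) ≤ 3 * (1 + Real.log Λ) := by
    have h1 : 0 ≤ Real.logb 2 Λ := Real.logb_nonneg (by norm_num) hΛ
    have h2 : (N : ℝ) < Real.logb 2 Λ + 1 := Nat.ceil_lt_add_one h1
    have h3 : Real.logb 2 Λ ≤ 2 * Real.log Λ := by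
      rw [Real.logb, div_le_iff₀ (by linarith)]
      nlinarith
    push_cast
    linarith
  calc (T.card : ℝ) ≤ ((N + 1 : ℕ) : ℝ) * (C * (Z : ℝ) ^ (1 / 3 + ε)) := hcard
    _ ≤ (3 * (1 + Real.log Λ)) * (C * (Z : ℝ) ^ (1 / 3 + ε)) := by
        refine mul_le_mul_of_nonneg_right hN1 ?_
        positivity
    _ = 3 * C * (Z : ℝ) ^ (1 / 3 + ε) * (1 + Real.log Λ) := by ring

end Pool.RA
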