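import Mathlib

/-! Project RA (MP_4ab349_nt): abc triples of bounded radical.  Definitions. -/

set_option autoImplicit false

namespace Pool.RA

open Finset

variable {ι : Type} [Fintype ι]

/-- Weighted norm of a real vector. -/
noncomputable def nmR (r : ι → ℕ) (x : ι → ℝ) : ℝ := ∑ i, |x i| * Real.log (r i)

/-- Weighted norm of an integer vector. -/
noncomputable def nm (r : ι → ℕ) (x : ι → ℤ) : ℝ := nmR r (fun i => (x i : ℝ))

/-- Numerator of `∏ r_i ^ x_i`. -/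
def Nu (r : ι → ℕ) (x : ι → ℤ) : ℕ := ∏ i, r i ^ (x i).toNat

/-- Denominator of `∏ r_i ^ x_i`. -/
def De (r : ι → ℕ) (x : ι → ℤ) : ℕ := ∏ i, r i ^ (-x i).toNat

/-- The class of `∏ r_i ^ x_i` modulo `m`. -/
def chi (r : ι → ℕ) (m : ℕ) (h : ∀ i, (r i).Coprime m) (x : ι → ℤ) : (ZMod m)ˣ :=
  ∏ i, (ZMod.unitOfCoprime (r i) (h i)) ^ (x i)

/-- Data of a maximal minor `J` of the independent vectors `k`: every real combination `y` of the
`k_l` satisfies `y_i = ∑ j, β i j * y_(J j)`. -/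
structure MM {t : ℕ} (k : Fin t → ι → ℤ) (J : Fin t → ι) (β : ι → Fin t → ℝ) : Prop where
  det_ne : (Matrix.of fun l j => k l (J j)).det ≠ 0
  bd : ∀ i j, |β i j| ≤ 1
  del : ∀ j j', β (J j) j' = if j = j' then 1 else 0
  zero : ∀ i, (∀ l, k l i = 0) → ∀ j, β i j = 0
  rep : ∀ (α : Fin t → ℝ) (i : ι),
    ∑ l, α l * (k l i : ℝ) = ∑ j, β i j * ∑ l, α l * (k l (J j) : ℝ)

end Pool.RA
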