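import Pool.Agent.Helper44.RA.O2

/-! Project RA: exponent vectors of pairs of coprime integers. -/

set_option autoImplicit false

namespace Pool.RA

open Finset

/-- The primes up to `Z` outside `S`. -/
def Pr (Z : ℕ) (S : Finset ℕ) : Finset ℕ := (range (Z + 1)).filter (fun p => p.Prime ∧ p ∉ S)

/-- The inclusion of the primes. -/
def rr (Z : ℕ) (S : Finset ℕ) : {p // p ∈ Pr Z S} → ℕ := fun i => i.1

/-- The exponent vector of `(E1/E2)^2`. -/
def kv (Z : ℕ) (S : Finset ℕ) (E : ℕ × ℕ) : {p // p ∈ Pr Z S} → ℤ :=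
  fun i => 2 * ((E.1.factorization i.1 : ℤ) - (E.2.factorization i.1 : ℤ))

/-- Admissible pairs: coprime positive integers, all prime factors outside `S`, radical of the
product at most `Z`. -/
def Adm (Z : ℕ) (S : Finset ℕ) (E : ℕ × ℕ) : Prop :=
  0 < E.1 ∧ 0 < E.2 ∧ E.1.Coprime E.2 ∧ (∀ p ∈ S, ¬ (p ∣ E.1 * E.2)) ∧
    ∏ p ∈ (E.1 * E.2).primeFactors, p ≤ Z

end Pool.RA
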