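import Pool.Agent.Helper44.RA.O1
import Pool.Agent.Helper44.RA.Base

/-! Project RA: the union of the supports. -/

set_option autoImplicit false

namespace Pool.RA

open Finset

variable {ι : Type} [Fintype ι]

/-- The union of the supports of the vectors `k l`. -/
noncomputable def Usup {t : ℕ} (k : Fin t → ι → ℤ) : Finset ι := by
  classical exact univ.filter (fun i => ∃ l, k l i ≠ 0)

/-- The product of the `r i` over the support of `x`. -/
noncomputable def psup (r : ι → ℕ) (x : ι → ℤ) : ℕ := by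
  classical exact ∏ i ∈ univ.filter (fun i => x i ≠ 0), r i

/-- PIECE RA-O2 (the whole file, 90 lines). -/
theorem not_mem_Usup {t : ℕ} (k : Fin t → ι → ℤ) (i : ι) (hi : i ∉ Usup k) (l : Fin t) :
    k l i = 0 := by
  classical
  by_contra h
  apply hi
  unfold Usup
  rw [mem_filter]
  exact ⟨mem_univ _, l, h⟩

/-- `Usup` is the union of the `t` supports and `log (r i) ≥ 0`. -/
theorem sum_log_Usup {t : ℕ} (r : ι → ℕ) (hr : ∀ i, 1 ≤ r i) (k : Fin t → ι → ℤ) (Z : ℕ)
    (hZ : ∀ l, psup r (k l) ≤ Z) :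
    ∑ i ∈ Usup k, Real.log (r i) ≤ (t : ℝ) * Real.log Z := by
  classical
  have hlog : ∀ i, 0 ≤ Real.log (r i) := fun i =>
    Real.log_nonneg (by exact_mod_cast hr i)
  have h1 : ∑ i ∈ Usup k, Real.log (r i) ≤
      ∑ i ∈ Usup k, ∑ l, (if k l i ≠ 0 then Real.log (r i) else 0) := by
    refine Finset.sum_le_sum fun i hi => ?_
    unfold Usup at hi
    rw [mem_filter] at hi
    obtain ⟨-, l, hl⟩ := hi
    have h2 := Finset.single_le_sum (f := fun l => if k l i ≠ 0 then Real.log (r i) else 0)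
      (fun l _ => by
        show (0 : ℝ) ≤ if k l i ≠ 0 then Real.log (r i) else 0
        split_ifs
        · exact hlog i
        · exact le_rfl) (mem_univ l)
    simp only [if_pos hl] at h2
    exact h2
  have h2 : ∑ i ∈ Usup k, ∑ l, (if k l i ≠ 0 then Real.log (r i) else 0) ≤
      ∑ i, ∑ l, (if k l i ≠ 0 then Real.log (r i) else 0) := by
    apply Finset.sum_le_sum_of_subset_of_nonneg (subset_univ _)
    intro i _ _
    apply Finset.sum_nonneg
    intro l _
    split_ifs
    · exact hlog i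
    · exact le_rfl
  have h3 : ∀ l, ∑ i, (if k l i ≠ 0 then Real.log (r i) else 0) ≤ Real.log Z := by
    intro l
    rw [← Finset.sum_filter]
    have h4 : ∑ i ∈ univ.filter (fun i => k l i ≠ 0), Real.log (r i) =
        Real.log (psup r (k l) : ℕ) := by
      unfold psup
      rw [Nat.cast_prod, Real.log_prod]
      intro i _
      have := hr i
      exact_mod_cast (by omega : r i ≠ 0)
    rw [h4]
    apply Real.log_le_log
    · have : 0 < psup r (k l) := by
        unfold psup
        exact Finset.prod_pos fun i _ => hr i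
      exact_mod_cast this
    · exact_mod_cast hZ l
  calc ∑ i ∈ Usup k, Real.log (r i) ≤ ∑ i, ∑ l, (if k l i ≠ 0 then Real.log (r i) else 0) :=
        h1.trans h2
    _ = ∑ l, ∑ i, (if k l i ≠ 0 then Real.log (r i) else 0) := Finset.sum_comm
    _ ≤ ∑ _l : Fin t, Real.log Z := Finset.sum_le_sum fun l _ => h3 l
    _ = (t : ℝ) * Real.log Z := by simp

/-- `#Usup ≤ ∑ l, #supp(k l)`, and `pow_card_le` with exponent `1/(2t)` for each of the `t`
supports (the image of a support under the injective `r` is a set of primes with product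
`psup ≤ Z`). -/
theorem pow_card_Usup (K : ℕ) (hK : 1 ≤ K) (t : ℕ) : ∃ C : ℝ, 1 ≤ C ∧
    ∀ (ι : Type) [Fintype ι] (r : ι → ℕ), (∀ i, (r i).Prime) → Function.Injective r →
      ∀ (k : Fin t → ι → ℤ) (Z : ℕ), 1 ≤ Z → (∀ l, psup r (k l) ≤ Z) →
        (K : ℝ) ^ (Usup k).card ≤ C * Real.exp (Real.log Z / 2) := by
  classical
  have hε : (0 : ℝ) < 1 / (2 * ((t : ℝ) + 1)) := by positivity
  obtain ⟨C0, hC0, hC⟩ := pow_card_le K hK _ hε
  refine ⟨C0 ^ t, one_le_pow₀ hC0, ?_⟩
  intro ι _ r hr hinj k Z hZ1 hZ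
  have hK1 : (1 : ℝ) ≤ K := by exact_mod_cast hK
  have hZ1' : (1 : ℝ) ≤ Z := by exact_mod_cast hZ1
  have hcard : (Usup k).card ≤ ∑ l, (univ.filter (fun i => k l i ≠ 0)).card := by
    have h1 : Usup k ⊆ univ.biUnion (fun l => univ.filter (fun i => k l i ≠ 0)) := by
      intro i hi
      unfold Usup at hi
      rw [mem_filter] at hi
      obtain ⟨-, l, hl⟩ := hi
      rw [mem_biUnion]
      exact ⟨l, mem_univ _, by rw [mem_filter]; exact ⟨mem_univ _, hl⟩⟩
    exact (card_le_card h1).trans card_biUnion_le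
  have hl : ∀ l, (K : ℝ) ^ (univ.filter (fun i => k l i ≠ 0)).card ≤
      C0 * (Z : ℝ) ^ (1 / (2 * ((t : ℝ) + 1))) := by
    intro l
    have h2 := hC ((univ.filter (fun i => k l i ≠ 0)).image r) (by
      intro p hp
      obtain ⟨i, -, rfl⟩ := mem_image.mp hp
      exact hr i)
    rw [card_image_of_injective _ hinj, Finset.prod_image (fun x _ y _ h => hinj h)] at h2
    refine h2.trans ?_
    apply mul_le_mul_of_nonneg_left _ (by linarith)
    apply Real.rpow_le_rpow (by positivity) _ hε.le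
    have h3 : ∏ i ∈ univ.filter (fun i => k l i ≠ 0), r i ≤ Z := by
      have h4 := hZ l
      unfold psup at h4
      convert h4
    exact_mod_cast h3
  calc (K : ℝ) ^ (Usup k).card ≤ (K : ℝ) ^ (∑ l, (univ.filter (fun i => k l i ≠ 0)).card) :=
        pow_le_pow_right₀ hK1 hcard
    _ = ∏ l, (K : ℝ) ^ (univ.filter (fun i => k l i ≠ 0)).card := by
        rw [Finset.prod_pow_eq_pow_sum]
    _ ≤ ∏ _l : Fin t, (C0 * (Z : ℝ) ^ (1 / (2 * ((t : ℝ) + 1)))) :=
        Finset.prod_le_prod (fun l _ => by positivity) fun l _ => hl l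
    _ = C0 ^ t * ((Z : ℝ) ^ (1 / (2 * ((t : ℝ) + 1)))) ^ t := by
        rw [Finset.prod_const, card_univ, Fintype.card_fin, mul_pow]
    _ ≤ C0 ^ t * Real.exp (Real.log Z / 2) := by
        apply mul_le_mul_of_nonneg_left _ (by positivity)
        rw [← Real.rpow_natCast, ← Real.rpow_mul (by linarith),
          Real.rpow_def_of_pos (by linarith), Real.exp_le_exp]
        have h5 : 0 ≤ Real.log Z := Real.log_nonneg hZ1'
        have h6 : 1 / (2 * ((t : ℝ) + 1)) * (t : ℝ) ≤ 1 / 2 := by
          rw [div_mul_eq_mul_div, one_mul, div_le_div_iff₀ (by positivity) (by norm_num)]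
          linarith [(Nat.cast_nonneg t : (0 : ℝ) ≤ t)]
        calc Real.log Z * (1 / (2 * ((t : ℝ) + 1)) * (t : ℝ)) ≤ Real.log Z * (1 / 2) :=
              mul_le_mul_of_nonneg_left h6 h5
          _ = Real.log Z / 2 := by ring

end Pool.RA
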