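import Pool.Agent.Helper44.RA.J1

/-! Project RA: the maximal minor. -/

set_option autoImplicit false

namespace Pool.RA

open Finset

variable {ι : Type} [Fintype ι]

/-- PIECE RA-J2 (110 lines).  Among all `J : Fin t → ι` choose one with `|det (k_l(J_j))|` maximal
(`Finite.exists_max`); it is nonzero by `exists_minor`.  Put
`β i j = det (k_l(J'_j')) / det (k_l(J_j'))` where `J' = Function.update J j i`.  Then `|β i j| ≤ 1`,
`β (J j) j' = δ` (for `j ≠ j'` two equal columns), `β i j = 0` if the column `i` is zero.  Cramer: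
with `K = (k_l(J_j))` (rows `l`), the column vector `c_i = (k_l(i))_l` is `K v` with
`v = K⁻¹ c_i`, and `det K • v = Matrix.cramer K c_i`, whose `j`-th coordinate is
`det (K.updateCol j c_i) = β i j * det K`.  So `k_l(i) = ∑ j, k_l(J_j) β i j` for all `l`, and `rep`
follows by summing over `l` against `α`. -/
theorem exists_MM {t : ℕ} (k : Fin t → ι → ℤ)
    (hk : LinearIndependent ℝ (fun l : Fin t => fun i : ι => (k l i : ℝ))) :
    ∃ (J : Fin t → ι) (β : ι → Fin t → ℝ), MM k J β := by
  classical
  obtain ⟨J₀, hJ₀⟩ := exists_minor k hk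
  haveI : Nonempty (Fin t → ι) := ⟨J₀⟩
  set d : (Fin t → ι) → ℤ := fun J => (Matrix.of fun l j => k l (J j)).det with hd
  obtain ⟨J, hJ⟩ := Finite.exists_max fun J : Fin t → ι => |d J|
  have hdJ : d J ≠ 0 := by
    intro h0
    have h1 := hJ J₀
    simp only [h0, abs_zero] at h1
    exact hJ₀ (abs_nonpos_iff.1 h1)
  have hdR : (d J : ℝ) ≠ 0 := by exact_mod_cast hdJ
  refine ⟨J, fun i j => (d (Function.update J j i) : ℝ) / (d J : ℝ), ?_, ?_, ?_, ?_, ?_⟩
  · exact hdJ
  · intro i j
    rw [abs_div, div_le_one (abs_pos.2 hdR)]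
    have h1 : |d (Function.update J j i)| ≤ |d J| := hJ _
    rw [← Int.cast_abs, ← Int.cast_abs]
    exact_mod_cast h1
  · intro j j'
    by_cases h : j = j'
    · rw [if_pos h, h, Function.update_eq_self, div_self hdR]
    · rw [if_neg h]
      have h1 : d (Function.update J j' (J j)) = 0 := by
        refine Matrix.det_zero_of_column_eq (i := j) (j := j') h fun l => ?_
        rw [Matrix.of_apply, Matrix.of_apply, Function.update_self, Function.update_of_ne h]
      rw [h1, Int.cast_zero, zero_div]
  · intro i hi j
    have h1 : d (Function.update J j i) = 0 := by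
      refine Matrix.det_eq_zero_of_column_eq_zero j fun l => ?_
      rw [Matrix.of_apply, Function.update_self, hi l]
    simp only [h1, Int.cast_zero, zero_div]
  · intro α i
    have h1 : ∀ l, ∑ j, k l (J j) * d (Function.update J j i) = d J * k l i := by
      intro l
      have h2 := congrFun (Matrix.mulVec_cramer (Matrix.of fun l j => k l (J j))
        (fun l => k l i)) l
      rw [Pi.smul_apply, smul_eq_mul] at h2
      rw [show d J * k l i = (Matrix.of fun l j => k l (J j)).det * k l i from rfl, ← h2]
      show _ = ∑ j, k l (J j) * (Matrix.of fun l j => k l (J j)).cramer (fun l => k l i) j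
      refine Finset.sum_congr rfl fun j _ => ?_
      rw [Matrix.cramer_apply]
      show k l (J j) * (Matrix.of fun l j' => k l (Function.update J j i j')).det = _
      congr 2
      ext l' j'
      rw [Matrix.of_apply, Matrix.updateCol_apply]
      by_cases h : j' = j
      · rw [if_pos h, h, Function.update_self]
      · rw [if_neg h, Function.update_of_ne h, Matrix.of_apply]
    have h2 : ∀ l, (k l i : ℝ) =
        ∑ j, (d (Function.update J j i) : ℝ) / (d J : ℝ) * (k l (J j) : ℝ) := by
      intro l
      have h3 : ∑ j, (k l (J j) : ℝ) * (d (Function.update J j i) : ℝ) =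
          (d J : ℝ) * (k l i : ℝ) := by exact_mod_cast h1 l
      have h4 : ∑ j, (d (Function.update J j i) : ℝ) / (d J : ℝ) * (k l (J j) : ℝ) =
          (∑ j, (k l (J j) : ℝ) * (d (Function.update J j i) : ℝ)) / (d J : ℝ) := by
        rw [Finset.sum_div]
        refine Finset.sum_congr rfl fun j _ => ?_
        ring
      rw [h4, h3, mul_div_cancel_left₀ _ hdR]
    calc ∑ l, α l * (k l i : ℝ)
        = ∑ l, ∑ j, α l * ((d (Function.update J j i) : ℝ) / (d J : ℝ) * (k l (J j) : ℝ)) := by
          refine Finset.sum_congr rfl fun l _ => ?_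
          rw [h2 l, Finset.mul_sum]
      _ = ∑ j, ∑ l, α l * ((d (Function.update J j i) : ℝ) / (d J : ℝ) * (k l (J j) : ℝ)) :=
          Finset.sum_comm
      _ = ∑ j, (d (Function.update J j i) : ℝ) / (d J : ℝ) * ∑ l, α l * (k l (J j) : ℝ) := by
          refine Finset.sum_congr rfl fun j _ => ?_
          rw [Finset.mul_sum]
          refine Finset.sum_congr rfl fun l _ => ?_
          ring

end Pool.RA
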