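import Pool.Agent.Helper44.RA.D6
import Pool.Agent.Helper44.RA.R1
import Pool.Agent.Helper44.RA.R2
import Pool.Agent.Helper44.RA.U3

/-! Project RA: too many points of small height give a contradiction. -/

set_option autoImplicit false

namespace Pool.RA

open Finset

variable {ι : Type} [Fintype ι]

/-- PIECE RA-K1 (45 lines).  `g = (chi r M h x : ZMod M).val`, `M = ∏ p^(m p)`, `P = ∏ p^(n p)`.
`P ∣ M` and `chi_cast` give `P ∣ g - 1`; by `nu_eq`, `M ∣ N_w - g^e D_w` whenever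
`chi r M h w = chi r M h x ^ e`. -/
theorem lift_g (r : ι → ℕ) (S : Finset ℕ) (m n : ℕ → ℕ) (hnm : ∀ p ∈ S, n p ≤ m p)
    (hS : ∀ p ∈ S, p.Prime)
    (h : ∀ i, (r i).Coprime (∏ p ∈ S, p ^ m p)) (h' : ∀ i, (r i).Coprime (∏ p ∈ S, p ^ n p))
    (x : ι → ℤ) (hx : chi r (∏ p ∈ S, p ^ n p) h' x = 1) :
    ∃ g : ℤ, (∀ p ∈ S, ((p : ℤ) ^ n p) ∣ g - 1) ∧ ∀ (e : ℕ) (w : ι → ℤ),
      chi r (∏ p ∈ S, p ^ m p) h w = chi r (∏ p ∈ S, p ^ m p) h x ^ e →
      ∀ p ∈ S, ((p : ℤ) ^ m p) ∣ (Nu r w : ℤ) - 1 * g ^ e * (De r w : ℤ) := by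
  set M : ℕ := ∏ p ∈ S, p ^ m p with hM
  set P : ℕ := ∏ p ∈ S, p ^ n p with hP
  have hM0 : M ≠ 0 := by
    rw [hM]
    exact Finset.prod_ne_zero_iff.2 fun p hp => pow_ne_zero _ (hS p hp).ne_zero
  have : NeZero M := ⟨hM0⟩
  have hPM : P ∣ M := Finset.prod_dvd_prod_of_dvd _ _ fun p hp => pow_dvd_pow p (hnm p hp)
  have hg : (((chi r M h x : (ZMod M)ˣ) : ZMod M).val : ZMod M) =
      ((chi r M h x : (ZMod M)ˣ) : ZMod M) := ZMod.natCast_zmod_val _
  refine ⟨((((chi r M h x : (ZMod M)ˣ) : ZMod M).val : ℕ) : ℤ), ?_, ?_⟩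
  · intro p hp
    have h1 : (P : ℤ) ∣ ((((chi r M h x : (ZMod M)ˣ) : ZMod M).val : ℕ) : ℤ) - 1 := by
      rw [← ZMod.intCast_zmod_eq_zero_iff_dvd]
      have h2 := congrArg (ZMod.castHom hPM (ZMod P)) hg
      rw [map_natCast, chi_cast r M P h h' hPM x, hx, Units.val_one] at h2
      push_cast
      rw [h2, sub_self]
    have h3 : ((p : ℤ) ^ n p) ∣ (P : ℤ) := by
      have h4 : p ^ n p ∣ P := Finset.dvd_prod_of_mem (fun p => p ^ n p) hp
      exact_mod_cast h4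
    exact h3.trans h1
  · intro e w hw p hp
    have h1 : (M : ℤ) ∣ (Nu r w : ℤ) -
        1 * ((((chi r M h x : (ZMod M)ˣ) : ZMod M).val : ℕ) : ℤ) ^ e * (De r w : ℤ) := by
      rw [← ZMod.intCast_zmod_eq_zero_iff_dvd]
      push_cast
      rw [hg, nu_eq r M h w, hw, Units.val_pow_eq_pow_val, one_mul, sub_self]
    have h3 : ((p : ℤ) ^ m p) ∣ (M : ℤ) := by
      have h4 : p ^ m p ∣ M := Finset.dvd_prod_of_mem (fun p => p ^ m p) hp
      exact_mod_cast h4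
    exact h3.trans h1

/-- PIECE RA-K2 (110 lines).  Points: pairs `(e, w)` with `e ≤ 2N`, `nm r w ≤ 2H`,
`chi r M h w = chi r M h x ^ e`.  For `Col A` points the matrix `imat A e u v` with `u = D_w`,
`v = N_w`, `g` from `lift_g`, `g0 = 1`, `E = 2N` has determinant `0` (`det_zero` with `hh = 2H`,
`de_le_exp`, `nu_le_exp`).  `rank_rel` (over `ℚ`, cast the determinant) gives `q ≠ 0` in
`Col A → ℚ` with `∑ a, q (inl a) e^a D_w + ∑ a, q (inr a) e^a N_w = 0` at all points.  Put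
`Q0 = ∑ a, C (q (inl a)) X^a`, `Q1 = ∑ a, C (q (inr a)) X^a`: `Q0(e) + Q1(e) N_w / D_w = 0`.  As
`C` has more than `2A ≥ 2` elements there is `d ∈ C`, `d ≠ 0`; for `c ∈ C`, `(c, X c)` and
`(c + d, X c + X d)` are points (`chi_add`, `nm_add_le`).  Apply `zero_est` with
`S = C` (cast to `ℚ`), `R c = N_(X c) / D_(X c)`, `ρ = N_(X d) / D_(X d)`, which is not `1`
(`eq_zero_of_nu_eq_de`), and `ratio_add`: `Q0 = Q1 = 0`, so `q = 0`. -/
theorem kill (r : ι → ℕ) (hr : ∀ i, (r i).Prime) (hinj : Function.Injective r) (S : Finset ℕ)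
    (hS : ∀ p ∈ S, p.Prime) (m n : ℕ → ℕ) (hn : ∀ p ∈ S, 1 ≤ n p) (hnm : ∀ p ∈ S, n p ≤ m p)
    (A N : ℕ) (hA : 1 ≤ A) (hN : 1 ≤ N) (hmn : ∀ p ∈ S, m p < n p * (A + 1))
    (h : ∀ i, (r i).Coprime (∏ p ∈ S, p ^ m p)) (h' : ∀ i, (r i).Coprime (∏ p ∈ S, p ^ n p))
    (x : ι → ℤ) (hx : chi r (∏ p ∈ S, p ^ n p) h' x = 1)
    (C : Finset ℕ) (hC : 2 * A < C.card) (hCN : ∀ c ∈ C, c ≤ N) (X : ℕ → ι → ℤ) (H : ℝ)
    (hX : ∀ c ∈ C, chi r (∏ p ∈ S, p ^ m p) h (X c) = chi r (∏ p ∈ S, p ^ m p) h x ^ c ∧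
      nm r (X c) ≤ H ∧ (c ≠ 0 → X c ≠ 0))
    (hsize : 4 * (Real.log (2 * ((A : ℝ) + 1)) + (A : ℝ) * Real.log ((2 * N : ℕ) : ℝ) + 2 * H) <
      Real.log ((∏ p ∈ S, p ^ m p : ℕ) : ℝ) - Real.log ((∏ p ∈ S, p ^ n p : ℕ) : ℝ)) :
    False := by
  classical
  set M : ℕ := ∏ p ∈ S, p ^ m p with hM
  have hr1 : ∀ i, 1 ≤ r i := fun i => (hr i).one_le
  obtain ⟨g, hg, hge⟩ := lift_g r S m n hnm hS h h' x hx
  have hC1 : 1 < C.card := by omega
  obtain ⟨d, hdC, hd0⟩ := Finset.exists_mem_ne hC1 0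
  have hH0 : 0 ≤ H := (nm_nonneg r (X d)).trans (hX d hdC).2.1
  have hDe0 : ∀ v : ι → ℤ, ((De r v : ℕ) : ℚ) ≠ 0 := fun v => by
    have := de_pos r hr1 v
    positivity
  have hNu0 : ∀ v : ι → ℤ, ((Nu r v : ℕ) : ℚ) ≠ 0 := fun v => by
    have := nu_pos r hr1 v
    positivity
  -- the linear relation
  obtain ⟨q, hq0, hq⟩ := rank_rel
    (Pt := {pr : ℕ × (ι → ℤ) // pr.1 ≤ 2 * N ∧ nm r pr.2 ≤ 2 * H ∧
      chi r M h pr.2 = chi r M h x ^ pr.1}) (κ := Col A)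
    (fun w j => Sum.elim (fun a : Fin (A + 1) => ((w.1.1 : ℕ) : ℚ) ^ (a : ℕ) * (De r w.1.2 : ℚ))
      (fun a : Fin (A + 1) => ((w.1.1 : ℕ) : ℚ) ^ (a : ℕ) * (Nu r w.1.2 : ℚ)) j) (by
    intro s
    have h1 : (imat A (fun i => (s i).1.1) (fun i => (De r (s i).1.2 : ℤ))
        (fun i => (Nu r (s i).1.2 : ℤ))).det = 0 := by
      refine det_zero A (2 * N) (by omega) S hS m n hn hnm hmn g 1 hg _ (fun i => (s i).2.1) _ _
        (fun p hp i => hge _ _ (s i).2.2.2 p hp) (2 * H) ?_ ?_ hsize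
      · intro i
        have h2 := de_le_exp r hr1 (s i).1.2
        have h3 : ((De r (s i).1.2 : ℤ) : ℝ) = (De r (s i).1.2 : ℝ) := by push_cast; rfl
        rw [h3, abs_of_nonneg (by positivity)]
        exact h2.trans (Real.exp_le_exp.2 (s i).2.2.1)
      · intro i
        have h2 := nu_le_exp r hr1 (s i).1.2
        have h3 : ((Nu r (s i).1.2 : ℤ) : ℝ) = (Nu r (s i).1.2 : ℝ) := by push_cast; rfl
        rw [h3, abs_of_nonneg (by positivity)]
        exact h2.trans (Real.exp_le_exp.2 (s i).2.2.1)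
    have h4 := (Int.castRingHom ℚ).map_det (imat A (fun i => (s i).1.1)
      (fun i => (De r (s i).1.2 : ℤ)) (fun i => (Nu r (s i).1.2 : ℤ)))
    rw [h1, map_zero, RingHom.mapMatrix_apply] at h4
    rw [h4]
    congr 1
    ext i j
    rcases j with a | a
    · simp [imat]
    · simp [imat])
  set Q0 : Polynomial ℚ :=
    ∑ a : Fin (A + 1), Polynomial.C (q (Sum.inl a)) * Polynomial.X ^ (a : ℕ) with hQ0
  set Q1 : Polynomial ℚ :=
    ∑ a : Fin (A + 1), Polynomial.C (q (Sum.inr a)) * Polynomial.X ^ (a : ℕ) with hQ1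
  have hdeg : ∀ f : Fin (A + 1) → ℚ,
      (∑ a : Fin (A + 1), Polynomial.C (f a) * Polynomial.X ^ (a : ℕ)).natDegree ≤ A := by
    intro f
    refine Polynomial.natDegree_sum_le_of_forall_le _ _ fun a _ => ?_
    exact (Polynomial.natDegree_C_mul_X_pow_le _ _).trans (Nat.lt_succ_iff.1 a.2)
  have hpt : ∀ (e : ℕ) (v : ι → ℤ), e ≤ 2 * N → nm r v ≤ 2 * H →
      chi r M h v = chi r M h x ^ e →
      Q0.eval (e : ℚ) + Q1.eval (e : ℚ) * ((Nu r v : ℚ) / (De r v : ℚ)) = 0 := by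
    intro e v h1 h2 h3
    have h4 := hq ⟨(e, v), h1, h2, h3⟩
    rw [Fintype.sum_sum_type] at h4
    simp only [Sum.elim_inl, Sum.elim_inr] at h4
    have h5 : Q0.eval (e : ℚ) = ∑ a : Fin (A + 1), q (Sum.inl a) * (e : ℚ) ^ (a : ℕ) := by
      rw [hQ0, Polynomial.eval_finsetSum]
      exact Finset.sum_congr rfl fun a _ => by simp
    have h6 : Q1.eval (e : ℚ) = ∑ a : Fin (A + 1), q (Sum.inr a) * (e : ℚ) ^ (a : ℕ) := by
      rw [hQ1, Polynomial.eval_finsetSum]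
      exact Finset.sum_congr rfl fun a _ => by simp
    have h7 : Q0.eval (e : ℚ) * (De r v : ℚ) + Q1.eval (e : ℚ) * (Nu r v : ℚ) = 0 := by
      rw [h5, h6, Finset.sum_mul, Finset.sum_mul]
      rw [← h4]
      congr 1
      · exact Finset.sum_congr rfl fun a _ => by ring
      · exact Finset.sum_congr rfl fun a _ => by ring
    have h8 := hDe0 v
    field_simp
    linarith
  have hcast : Function.Injective (Nat.cast : ℕ → ℚ) := Nat.cast_injective
  have hρ : (Nu r (X d) : ℚ) / (De r (X d) : ℚ) ≠ 1 := by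
    intro h1
    rw [div_eq_one_iff_eq (hDe0 _)] at h1
    have h2 : Nu r (X d) = De r (X d) := by exact_mod_cast h1
    exact (hX d hdC).2.2 hd0 (eq_zero_of_nu_eq_de r hr hinj _ h2)
  have hRz : ∀ c : ℕ, (((c : ℚ).num).toNat) = c := fun c => by simp
  have hz := zero_est A Q0 Q1 (hdeg _) (hdeg _) (C.image (Nat.cast : ℕ → ℚ))
    (by rw [Finset.card_image_of_injective _ hcast]; exact hC)
    (fun z => (Nu r (X (z.num.toNat)) : ℚ) / (De r (X (z.num.toNat)) : ℚ))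
    (fun z _ => div_ne_zero (hNu0 _) (hDe0 _)) (d : ℚ)
    ((Nu r (X d) : ℚ) / (De r (X d) : ℚ)) hρ (by
      intro z hz
      rw [Finset.mem_image] at hz
      obtain ⟨c, hc, rfl⟩ := hz
      simp only [hRz]
      refine hpt c (X c) ?_ ?_ (hX c hc).1
      · have := hCN c hc
        omega
      · have := (hX c hc).2.1
        linarith) (by
      intro z hz
      rw [Finset.mem_image] at hz
      obtain ⟨c, hc, rfl⟩ := hz
      simp only [hRz]
      rw [← ratio_add r hr1, ← Nat.cast_add]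
      refine hpt (c + d) (X c + X d) ?_ ?_ ?_
      · have := hCN c hc
        have := hCN d hdC
        omega
      · have h1 := (hX c hc).2.1
        have h2 := (hX d hdC).2.1
        have h3 := nm_add_le r (X c) (X d)
        linarith
      · rw [chi_add, (hX c hc).1, (hX d hdC).1, pow_add])
  have hcoef : ∀ (f : Fin (A + 1) → ℚ),
      (∑ a : Fin (A + 1), Polynomial.C (f a) * Polynomial.X ^ (a : ℕ)) = 0 → ∀ a, f a = 0 := by
    intro f hf a
    have h1 := congrArg (fun P : Polynomial ℚ => P.coeff (a : ℕ)) hf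
    simp only [Polynomial.finsetSum_coeff, Polynomial.coeff_C_mul_X_pow,
      Polynomial.coeff_zero] at h1
    rw [Finset.sum_eq_single a] at h1
    · simpa using h1
    · intro b _ hb
      have : ¬ (a : ℕ) = (b : ℕ) := fun h2 => hb (Fin.ext h2.symm)
      simp [this]
    · intro h2
      exact absurd (Finset.mem_univ a) h2
  apply hq0
  funext j
  rcases j with a | a
  · exact hcoef _ hz.1 a
  · exact hcoef _ hz.2 a

end Pool.RA
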