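import Pool.Agent.Helper44.RA.L1
import Pool.Agent.Helper44.RA.U3

/-! Project RA: an element of the congruence group of `P` whose multiple lies in that of `M`. -/

set_option autoImplicit false

namespace Pool.RA

open Finset

variable {ι : Type} [Fintype ι]

/-- PIECE RA-L2 (90 lines).  Write `N = Nu r x`, `D = De r x`.  From `nu_eq` modulo `M`:
`N^d = chi^d D^d = D^d` modulo `M`, so `p^(m p) ∣ N^d - D^d` for `p ∈ S`; from `chi_eq_one_iff`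
modulo `P`: `p^(n p) ∣ N - D`, so `p^2 ∣ N - D`.  `p` divides neither `N` nor `D` (products of primes
`r i ≠ p`, which follows from the coprimality with `M`, `m p ≥ 1`).  `lte_dvd`:
`p^(m p) ∣ d (N - D)`; the prime powers are pairwise coprime, so `M ∣ d (N - D)` in `ℤ`, a nonzero
integer (`eq_zero_of_nu_eq_de`) of absolute value at most `d exp (nm r x)` (`nu_le_exp`, `de_le_exp`
and positivity). -/
theorem nonspan (r : ι → ℕ) (hr : ∀ i, (r i).Prime) (hinj : Function.Injective r)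
    (S : Finset ℕ) (hS : ∀ p ∈ S, p.Prime) (m n : ℕ → ℕ) (hn : ∀ p ∈ S, 2 ≤ n p)
    (hm : ∀ p ∈ S, 1 ≤ m p)
    (h : ∀ i, (r i).Coprime (∏ p ∈ S, p ^ m p)) (h' : ∀ i, (r i).Coprime (∏ p ∈ S, p ^ n p))
    (x : ι → ℤ) (hx : x ≠ 0) (d : ℕ) (hd : d ≠ 0)
    (h1 : chi r (∏ p ∈ S, p ^ m p) h x ^ d = 1) (h2 : chi r (∏ p ∈ S, p ^ n p) h' x = 1) :
    Real.log ((∏ p ∈ S, p ^ m p : ℕ) : ℝ) ≤ Real.log d + nm r x := by
  classical
  obtain ⟨N, hN⟩ : ∃ N : ℕ, N = Nu r x := ⟨_, rfl⟩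
  obtain ⟨D, hD⟩ : ∃ D : ℕ, D = De r x := ⟨_, rfl⟩
  have hr1 : ∀ i, 1 ≤ r i := fun i => (hr i).one_lt.le
  -- the congruence modulo `M`
  have hM : ((∏ p ∈ S, p ^ m p : ℕ) : ℤ) ∣ (N : ℤ) ^ d - (D : ℤ) ^ d := by
    have e1 := nu_eq r (∏ p ∈ S, p ^ m p) h x
    have e2 : ((Nu r x : ℕ) : ZMod (∏ p ∈ S, p ^ m p)) ^ d =
        ((De r x : ℕ) : ZMod (∏ p ∈ S, p ^ m p)) ^ d := by
      rw [e1, mul_pow, ← Units.val_pow_eq_pow_val, h1, Units.val_one, one_mul]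
    rw [← CharP.intCast_eq_zero_iff (ZMod (∏ p ∈ S, p ^ m p)) (∏ p ∈ S, p ^ m p)]
    push_cast
    rw [sub_eq_zero, hN, hD]
    exact e2
  have hP : ((∏ p ∈ S, p ^ n p : ℕ) : ℤ) ∣ (N : ℤ) - (D : ℤ) := by
    rw [hN, hD]
    exact (chi_eq_one_iff r _ h' x).1 h2
  have hpN : ∀ p ∈ S, ¬ ((p : ℤ) ∣ (N : ℤ)) := by
    intro p hp hdvd
    have hpp := hS p hp
    have hd1 : p ∣ ∏ i, r i ^ (x i).toNat := by
      have : p ∣ N := by exact_mod_cast hdvd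
      rw [hN] at this
      exact this
    obtain ⟨i, -, hi⟩ := (hpp.prime.dvd_finsetProd_iff _).1 hd1
    have hi' : p ∣ r i := hpp.prime.dvd_of_dvd_pow hi
    have hpM : p ∣ ∏ p ∈ S, p ^ m p :=
      (dvd_pow_self p (by have := hm p hp; omega)).trans (Finset.dvd_prod_of_mem _ hp)
    have := Nat.dvd_gcd hi' hpM
    rw [(h i)] at this
    exact hpp.one_lt.ne' (Nat.dvd_one.1 this)
  have hpd : ∀ p ∈ S, ((p : ℤ) ^ m p) ∣ (d : ℤ) * ((N : ℤ) - (D : ℤ)) := by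
    intro p hp
    refine lte_dvd p (hS p hp) N D d (m p) hd ?_ (hpN p hp) ?_
    · refine Dvd.dvd.trans ?_ hP
      have : p ^ 2 ∣ ∏ p ∈ S, p ^ n p :=
        (pow_dvd_pow p (hn p hp)).trans (Finset.dvd_prod_of_mem (fun p => p ^ n p) hp)
      exact_mod_cast this
    · refine Dvd.dvd.trans ?_ hM
      have : p ^ m p ∣ ∏ p ∈ S, p ^ m p := Finset.dvd_prod_of_mem (fun p => p ^ m p) hp
      exact_mod_cast this
  have hall : ((∏ p ∈ S, p ^ m p : ℕ) : ℤ) ∣ (d : ℤ) * ((N : ℤ) - (D : ℤ)) := by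
    push_cast
    refine Finset.prod_dvd_of_coprime ?_ hpd
    intro p hp q hq hpq
    exact (Nat.isCoprime_iff_coprime.2 ((Nat.coprime_primes (hS p hp) (hS q hq)).2 hpq)).pow
  have hne : (d : ℤ) * ((N : ℤ) - (D : ℤ)) ≠ 0 := by
    refine mul_ne_zero (by exact_mod_cast hd) ?_
    rw [sub_ne_zero]
    intro he
    have he' : N = D := by exact_mod_cast he
    rw [hN, hD] at he'
    exact hx (eq_zero_of_nu_eq_de r hr hinj x he')
  have hle : ((∏ p ∈ S, p ^ m p : ℕ) : ℤ) ≤ |(d : ℤ) * ((N : ℤ) - (D : ℤ))| :=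
    Int.le_of_dvd (abs_pos.2 hne) ((dvd_abs _ _).2 hall)
  have hleR : ((∏ p ∈ S, p ^ m p : ℕ) : ℝ) ≤ |(d : ℝ) * ((N : ℝ) - (D : ℝ))| := by
    exact_mod_cast hle
  have hNR : (N : ℝ) ≤ Real.exp (nm r x) := by
    rw [hN]
    exact nu_le_exp r hr1 x
  have hDR : (D : ℝ) ≤ Real.exp (nm r x) := by
    rw [hD]
    exact de_le_exp r hr1 x
  have hN0 : (0 : ℝ) ≤ N := Nat.cast_nonneg N
  have hD0 : (0 : ℝ) ≤ D := Nat.cast_nonneg D
  have hd0 : (0 : ℝ) < d := by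
    have : 0 < d := Nat.pos_of_ne_zero hd
    exact_mod_cast this
  have hbd : |(d : ℝ) * ((N : ℝ) - (D : ℝ))| ≤ d * Real.exp (nm r x) := by
    rw [abs_mul, abs_of_pos hd0]
    refine mul_le_mul_of_nonneg_left ?_ hd0.le
    rw [abs_le]
    constructor <;> linarith
  have hMpos : (0 : ℝ) < ((∏ p ∈ S, p ^ m p : ℕ) : ℝ) := by
    have : 0 < ∏ p ∈ S, p ^ m p :=
      Finset.prod_pos fun p hp => pow_pos (hS p hp).pos _
    exact_mod_cast this
  calc Real.log ((∏ p ∈ S, p ^ m p : ℕ) : ℝ) ≤ Real.log (d * Real.exp (nm r x)) :=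
        Real.log_le_log hMpos (hleR.trans hbd)
    _ = Real.log d + nm r x := by
        rw [Real.log_mul hd0.ne' (Real.exp_pos _).ne', Real.log_exp]

end Pool.RA
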