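import Pool.Agent.Helper44.RA.N0

/-! Project RA: inequalities between the parameters, II. -/

set_option autoImplicit false

namespace Pool.RA

open Filter

/-- PIECE RA-N2 (the whole file, 100 lines).  With `l = log I` and `t = tt κ ≥ 17 + 3/κ`:
`A1 + 1 > κ I / (4 t^2 l)`, so the logarithm of the right side is at least
`t (l - log (4 t^2 l / κ))`, and `t - (16 + 5/(2κ)) ≥ 1`, while `log l = o(l)`. -/
theorem ev_A1 (κ : ℝ) (hκ : 0 < κ) (C : ℝ) (hC : 1 ≤ C) :
    ∀ᶠ I : ℝ in atTop, C * Real.exp ((16 + 5 / (2 * κ)) * Real.log I) <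
      ((A1 κ I : ℝ) + 1) ^ tt κ := by
  set t : ℕ := tt κ with ht
  have ht1 : (16 + 5 / (2 * κ)) + 1 ≤ (t : ℝ) := by
    have h1 : 3 / κ ≤ (⌈3 / κ⌉₊ : ℝ) := Nat.le_ceil _
    have h2 : (t : ℝ) = 17 + (⌈3 / κ⌉₊ : ℝ) := by
      rw [ht]
      unfold tt
      push_cast
      ring
    have h3 : 5 / (2 * κ) ≤ 3 / κ := by
      rw [div_le_div_iff₀ (by positivity) hκ]
      nlinarith
    rw [h2]
    linarith
  have ht0 : (0 : ℝ) < t := by
    have h1 : (0 : ℝ) < 5 / (2 * κ) := by positivity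
    linarith
  set M : ℝ := C * (4 * (t : ℝ) ^ 2 / κ) ^ t with hM
  have hM0 : 0 < M := by positivity
  have hlo := (Real.isLittleO_pow_log_id_atTop (n := t)).def
    (show (0 : ℝ) < 1 / (2 * M) by positivity)
  filter_upwards [hlo, eventually_gt_atTop (Real.exp 1)] with I hI hI1
  have hI0 : 0 < I := (Real.exp_pos 1).trans hI1
  have hI2 : 1 ≤ I := by
    have h1 : (1 : ℝ) ≤ Real.exp 1 := by
      have := Real.add_one_le_exp (1 : ℝ)
      linarith
    linarith
  have hl : 1 < Real.log I := by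
    rw [Real.lt_log_iff_exp_lt hI0]
    exact hI1
  have hl0 : 0 < Real.log I := by linarith
  have h1 : Real.log I ^ t ≤ 1 / (2 * M) * I := by
    have h2 := hI
    rw [Real.norm_of_nonneg (by positivity), id, Real.norm_of_nonneg hI0.le] at h2
    exact h2
  have h3 : M * Real.log I ^ t < I := by
    have h4 : M * Real.log I ^ t ≤ M * (1 / (2 * M) * I) := mul_le_mul_of_nonneg_left h1 hM0.le
    have h5 : M * (1 / (2 * M) * I) = I / 2 := by
      field_simp
    linarith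
  -- the size of `A1`
  have hA : κ * I / (4 * (t : ℝ) ^ 2 * Real.log I) < (A1 κ I : ℝ) + 1 := by
    unfold A1
    exact Nat.lt_floor_add_one _
  have hA0 : 0 < κ * I / (4 * (t : ℝ) ^ 2 * Real.log I) := by positivity
  have hpow : (κ * I / (4 * (t : ℝ) ^ 2 * Real.log I)) ^ t ≤ ((A1 κ I : ℝ) + 1) ^ t :=
    pow_le_pow_left₀ hA0.le hA.le t
  refine lt_of_lt_of_le ?_ hpow
  have e1 : (κ * I / (4 * (t : ℝ) ^ 2 * Real.log I)) ^ t =
      I ^ t / ((4 * (t : ℝ) ^ 2 / κ) ^ t * Real.log I ^ t) := by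
    rw [← mul_pow, ← div_pow]
    congr 1
    field_simp
  rw [e1, lt_div_iff₀ (by positivity)]
  have e2 : Real.exp ((16 + 5 / (2 * κ)) * Real.log I) = I ^ (16 + 5 / (2 * κ)) := by
    rw [Real.rpow_def_of_pos hI0]
    congr 1
    ring
  rw [e2]
  have h6 : I ^ (16 + 5 / (2 * κ)) * I ≤ I ^ t := by
    calc I ^ (16 + 5 / (2 * κ)) * I = I ^ ((16 + 5 / (2 * κ)) + 1) := by
          rw [Real.rpow_add hI0 (16 + 5 / (2 * κ)) 1, Real.rpow_one]
      _ ≤ I ^ (t : ℝ) := Real.rpow_le_rpow_of_exponent_le hI2 ht1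
      _ = I ^ t := Real.rpow_natCast I t
  have h7 : (0 : ℝ) < I ^ (16 + 5 / (2 * κ)) := Real.rpow_pos_of_pos hI0 _
  calc C * I ^ (16 + 5 / (2 * κ)) * ((4 * (t : ℝ) ^ 2 / κ) ^ t * Real.log I ^ t)
      = I ^ (16 + 5 / (2 * κ)) * (M * Real.log I ^ t) := by
        rw [hM]
        ring
    _ < I ^ (16 + 5 / (2 * κ)) * I := mul_lt_mul_of_pos_left h3 h7
    _ ≤ I ^ t := h6

/-- `t` is fixed, the logarithm of `I` is `o(I)`. -/
theorem ev_det (t : ℕ) : ∀ᶠ I : ℝ in atTop,
    Real.log ((Nat.factorial t : ℝ) * (63 * I) ^ t) < 3 * I / 4 := by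
  have hlo := Real.isLittleO_log_id_atTop.def
    (show (0 : ℝ) < 1 / (4 * ((t : ℝ) + 1)) by positivity)
  filter_upwards [hlo, eventually_gt_atTop (Real.exp 1),
    eventually_gt_atTop (4 * (Real.log (Nat.factorial t : ℝ) + t * Real.log 63))]
    with I hI hI1 hI2
  have hI0 : 0 < I := (Real.exp_pos 1).trans hI1
  have hl : 1 < Real.log I := by
    rw [Real.lt_log_iff_exp_lt hI0]
    exact hI1
  have hl0 : 0 < Real.log I := by linarith
  have h1 : Real.log I ≤ 1 / (4 * ((t : ℝ) + 1)) * I := by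
    have h2 := hI
    rw [Real.norm_of_nonneg hl0.le, id, Real.norm_of_nonneg hI0.le] at h2
    exact h2
  have h3 : (t : ℝ) * Real.log I ≤ I / 4 := by
    have h4 : (t : ℝ) * Real.log I ≤ t * (1 / (4 * ((t : ℝ) + 1)) * I) :=
      mul_le_mul_of_nonneg_left h1 (Nat.cast_nonneg t)
    have h5 : (t : ℝ) * (1 / (4 * ((t : ℝ) + 1)) * I) ≤ I / 4 := by
      have h6 : (t : ℝ) * (1 / (4 * ((t : ℝ) + 1)) * I) = (t / ((t : ℝ) + 1)) * (I / 4) := by
        field_simp
      rw [h6]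
      have h7 : (t : ℝ) / ((t : ℝ) + 1) ≤ 1 := by
        rw [div_le_one (by positivity)]
        linarith
      have h8 : 0 ≤ I / 4 := by positivity
      nlinarith
    linarith
  have hf : (0 : ℝ) < (Nat.factorial t : ℝ) := by exact_mod_cast Nat.factorial_pos t
  rw [Real.log_mul hf.ne' (by positivity), Real.log_pow, Real.log_mul (by norm_num) hI0.ne']
  have e : Real.log (Nat.factorial t : ℝ) + t * (Real.log 63 + Real.log I) =
      (Real.log (Nat.factorial t : ℝ) + t * Real.log 63) + t * Real.log I := by ring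
  rw [e]
  linarith

end Pool.RA
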