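import Pool.Agent.Helper44.RA.N1

/-! Project RA: inequalities between the parameters, III. -/

set_option autoImplicit false

namespace Pool.RA

open Filter

/-- PIECE RA-N3 (80 lines).  For large `I`: `2 NN ≤ κ KK I / (64 t log I) ≤ I`, so
`AA log (2 NN) ≤ I / 16` (and `2 NN ≥ 1`); `log (2 (AA + 1)) ≤ log (2 I)`; in total the left side is
at most `4 log (2 I) + I/4 + I/8`, and `log I = o(I)`. -/
theorem ev_size (κ : ℝ) (hκ : 0 < κ) : ∀ᶠ I : ℝ in atTop,
    4 * (Real.log (2 * ((AA I : ℝ) + 1)) + (AA I : ℝ) * Real.log ((2 * NN κ I : ℕ) : ℝ) +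
      2 * (I / 64)) < I - (16 * Real.log I + 2 * (Real.log I / κ)) := by
  have ht : (0 : ℝ) < tt κ := by
    have : 0 < tt κ := by unfold tt; omega
    exact_mod_cast this
  set C : ℝ := 20 + 2 / κ with hC
  have hC0 : 0 < C := by positivity
  have h1 : ∀ᶠ I : ℝ in atTop, ‖Real.log I‖ ≤ (1 / (4 * C)) * ‖(id I : ℝ)‖ :=
    Real.isLittleO_log_id_atTop.bound (by positivity)
  have h2 : ∀ᶠ I : ℝ in atTop, κ * KK κ / (64 * tt κ) ≤ Real.log I :=
    Real.tendsto_log_atTop.eventually (eventually_ge_atTop _)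
  have h3 : ∀ᶠ I : ℝ in atTop, 1 ≤ Real.log I :=
    Real.tendsto_log_atTop.eventually (eventually_ge_atTop _)
  filter_upwards [h1, h2, h3, eventually_ge_atTop (16 * Real.log 2 + 2)] with I h1 h2 h3 h4
  have hlog2 : 0 < Real.log 2 := Real.log_pos (by norm_num)
  have hI : 0 < I := by linarith
  have hI2 : 2 ≤ I := by linarith
  have hL : 0 < Real.log I := by linarith
  rw [Real.norm_eq_abs, Real.norm_eq_abs, id, abs_of_pos hL, abs_of_pos hI] at h1
  have h1' : C * Real.log I ≤ I / 4 := by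
    calc C * Real.log I ≤ C * (1 / (4 * C) * I) := mul_le_mul_of_nonneg_left h1 hC0.le
      _ = I / 4 := by field_simp
  have hAA : (AA I : ℝ) ≤ I / (16 * Real.log I) := Nat.floor_le (by positivity)
  have hAA2 : (AA I : ℝ) ≤ I / 16 := by
    refine hAA.trans ?_
    apply div_le_div_of_nonneg_left hI.le (by norm_num)
    linarith
  have hNN : ((2 * NN κ I : ℕ) : ℝ) ≤ I := by
    have e1 : (NN κ I : ℝ) ≤ κ * (KK κ : ℝ) * I / (128 * (tt κ : ℝ) * Real.log I) :=
      Nat.floor_le (by positivity)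
    have e2 : κ * (KK κ : ℝ) ≤ Real.log I * (64 * tt κ) := (div_le_iff₀ (by positivity)).1 h2
    have e3 : κ * (KK κ : ℝ) * I / (128 * (tt κ : ℝ) * Real.log I) ≤ I / 2 := by
      rw [div_le_div_iff₀ (by positivity) (by norm_num)]
      nlinarith
    push_cast
    linarith
  have hlogNN : Real.log ((2 * NN κ I : ℕ) : ℝ) ≤ Real.log I := by
    rcases Nat.eq_zero_or_pos (2 * NN κ I) with h0 | h0
    · rw [h0]
      simp only [Nat.cast_zero, Real.log_zero]
      exact hL.le
    · exact Real.log_le_log (by exact_mod_cast h0) hNN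
  have hprod : (AA I : ℝ) * Real.log ((2 * NN κ I : ℕ) : ℝ) ≤ I / 16 := by
    calc (AA I : ℝ) * Real.log ((2 * NN κ I : ℕ) : ℝ) ≤ (AA I : ℝ) * Real.log I :=
          mul_le_mul_of_nonneg_left hlogNN (Nat.cast_nonneg _)
      _ ≤ I / (16 * Real.log I) * Real.log I := mul_le_mul_of_nonneg_right hAA hL.le
      _ = I / 16 := by field_simp
  have hlogA : Real.log (2 * ((AA I : ℝ) + 1)) ≤ Real.log 2 + Real.log I := by
    rw [← Real.log_mul (by norm_num) hI.ne']
    apply Real.log_le_log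
    · positivity
    · have : I / 16 + 1 ≤ I := by linarith
      linarith
  have e5 : C * Real.log I = 20 * Real.log I + 2 * (Real.log I / κ) := by
    rw [hC]
    ring
  nlinarith

end Pool.RA
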