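import Mathlib

/-! Project RA: the second pigeonhole (simultaneous approximation with many denominators). -/

set_option autoImplicit false

namespace Pool.RA

open Finset

/-- PIECE RA-P3 (60 lines).  Map `i ∈ {0..N}` to the box in `Fin t → Fin K` of the fractional parts
of `(i α_l)_l` (`⌊K * fract (i α_l)⌋`).  Some box has at least `(N+1)/K^t` elements
(`Finset.exists_le_card_fiber_of_mul_le_card_of_maps_to` or the sum of the fibres).  Let `i₀` be the
smallest element of this fibre, `C = {i - i₀}`: `0 ∈ C`, all elements are `≤ N`, and for `c = i - i₀`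
take `m_l = ⌊i α_l⌋ - ⌊i₀ α_l⌋`, `c α_l - m_l = fract (i α_l) - fract (i₀ α_l)`. -/
theorem circ {t : ℕ} (α : Fin t → ℝ) (K N : ℕ) (hK : 1 ≤ K) :
    ∃ C : Finset ℕ, N + 1 ≤ K ^ t * C.card ∧ 0 ∈ C ∧ (∀ c ∈ C, c ≤ N) ∧
      ∀ c ∈ C, ∃ m : Fin t → ℤ, ∀ l, |(c : ℝ) * α l - (m l : ℝ)| ≤ 1 / (K : ℝ) := by
  classical
  have hK0 : (0 : ℝ) < K := by exact_mod_cast hK
  have hfl : ∀ s : ℝ, ⌊(K : ℝ) * Int.fract s⌋.toNat < K := by
    intro s
    have h1 : ⌊(K : ℝ) * Int.fract s⌋ < (K : ℤ) := by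
      rw [Int.floor_lt]
      have h2 := Int.fract_lt_one s
      push_cast
      nlinarith
    omega
  have hnn : ∀ s : ℝ, 0 ≤ ⌊(K : ℝ) * Int.fract s⌋ := fun s =>
    Int.floor_nonneg.2 (mul_nonneg hK0.le (Int.fract_nonneg s))
  let f : ℕ → (Fin t → Fin K) := fun i l => ⟨⌊(K : ℝ) * Int.fract ((i : ℝ) * α l)⌋.toNat, hfl _⟩
  obtain ⟨y, hy⟩ : ∃ y : Fin t → Fin K,
      N + 1 ≤ K ^ t * ((range (N + 1)).filter fun i => f i = y).card := by
    by_contra hcon
    push Not at hcon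
    have h1 : (range (N + 1)).card =
        ∑ y : Fin t → Fin K, ((range (N + 1)).filter fun i => f i = y).card :=
      Finset.card_eq_sum_card_fiberwise fun i _ => Finset.mem_coe.2 (Finset.mem_univ _)
    rw [card_range] at h1
    have h2 : K ^ t * (N + 1) ≤ K ^ t * N := by
      calc K ^ t * (N + 1) = ∑ y : Fin t → Fin K,
            K ^ t * ((range (N + 1)).filter fun i => f i = y).card := by
              rw [← Finset.mul_sum, ← h1]
        _ ≤ ∑ _y : Fin t → Fin K, N := Finset.sum_le_sum fun y _ => Nat.lt_succ_iff.1 (hcon y)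
        _ = K ^ t * N := by simp
    have h3 : 0 < K ^ t := Nat.pow_pos hK
    nlinarith
  set F := (range (N + 1)).filter fun i => f i = y with hF
  have hne : F.Nonempty := by
    rw [← Finset.card_pos]
    by_contra h0
    have h1 : F.card = 0 := by omega
    rw [h1] at hy
    omega
  set i0 := F.min' hne with hi0
  have hi0F : i0 ∈ F := F.min'_mem hne
  refine ⟨F.image fun i => i - i0, ?_, ?_, ?_, ?_⟩
  · rw [Finset.card_image_of_injOn]
    · exact hy
    · intro i hi j hj hij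
      have h1 := F.min'_le i (Finset.mem_coe.1 hi)
      have h2 := F.min'_le j (Finset.mem_coe.1 hj)
      simp only at hij
      rw [← hi0] at h1 h2
      omega
  · exact Finset.mem_image.2 ⟨i0, hi0F, Nat.sub_self _⟩
  · intro c hc
    obtain ⟨i, hi, rfl⟩ := Finset.mem_image.1 hc
    have h1 := Finset.mem_range.1 (Finset.mem_filter.1 hi).1
    omega
  · intro c hc
    obtain ⟨i, hi, rfl⟩ := Finset.mem_image.1 hc
    have hle : i0 ≤ i := F.min'_le i hi
    refine ⟨fun l => ⌊(i : ℝ) * α l⌋ - ⌊(i0 : ℝ) * α l⌋, fun l => ?_⟩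
    have e1 : f i = f i0 := by
      rw [(Finset.mem_filter.1 hi).2, (Finset.mem_filter.1 hi0F).2]
    have h2 : ⌊(K : ℝ) * Int.fract ((i : ℝ) * α l)⌋.toNat =
        ⌊(K : ℝ) * Int.fract ((i0 : ℝ) * α l)⌋.toNat := congrArg Fin.val (congrFun e1 l)
    have h3 : ⌊(K : ℝ) * Int.fract ((i : ℝ) * α l)⌋ =
        ⌊(K : ℝ) * Int.fract ((i0 : ℝ) * α l)⌋ := by
      have h4 := hnn ((i : ℝ) * α l)
      have h5 := hnn ((i0 : ℝ) * α l)
      omega
    have h6 := Int.abs_sub_lt_one_of_floor_eq_floor h3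
    rw [← mul_sub, abs_mul, abs_of_pos hK0] at h6
    rw [le_div_iff₀ hK0, mul_comm]
    have h7 : ((i - i0 : ℕ) : ℝ) * α l - ((⌊(i : ℝ) * α l⌋ - ⌊(i0 : ℝ) * α l⌋ : ℤ) : ℝ) =
        Int.fract ((i : ℝ) * α l) - Int.fract ((i0 : ℝ) * α l) := by
      rw [Nat.cast_sub hle, Int.fract, Int.fract]
      push_cast
      ring
    rw [h7]
    exact h6.le

end Pool.RA
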