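import Pool.Agent.Helper44.RA.Base

/-! Project RA: linear systems with the matrix of the maximal minor. -/

set_option autoImplicit false

namespace Pool.RA

open Finset

variable {ι : Type} [Fintype ι]

/-- the real matrix -/
private noncomputable def J3Kr {t : ℕ} (k : Fin t → ι → ℤ) (J : Fin t → ι) :
    Matrix (Fin t) (Fin t) ℝ :=
  (Matrix.of fun l j => k l (J j)).map (fun z : ℤ => (z : ℝ))

omit [Fintype ι] in
private theorem J3Kr_apply {t : ℕ} (k : Fin t → ι → ℤ) (J : Fin t → ι) (l j : Fin t) :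
    J3Kr k J l j = (k l (J j) : ℝ) := rfl

omit [Fintype ι] in
private theorem J3Kr_det {t : ℕ} (k : Fin t → ι → ℤ) (J : Fin t → ι) :
    (J3Kr k J).det = (((Matrix.of fun l j => k l (J j)).det : ℤ) : ℝ) := by
  have h := (Int.castRingHom ℝ).map_det (Matrix.of fun l j => k l (J j))
  simpa [J3Kr] using h.symm

/-- PIECE RA-J3 (the whole file, 80 lines).  The real matrix `(k_l(J_j))` is invertible. -/
theorem exists_alpha {t : ℕ} (k : Fin t → ι → ℤ) (J : Fin t → ι)
    (hJ : (Matrix.of fun l j => k l (J j)).det ≠ 0) (a : Fin t → ℝ) :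
    ∃ α : Fin t → ℝ, ∀ j, ∑ l, α l * (k l (J j) : ℝ) = a j := by
  have hdet : IsUnit (J3Kr k J).det := by
    rw [J3Kr_det, isUnit_iff_ne_zero]
    exact_mod_cast hJ
  refine ⟨Matrix.vecMul a (J3Kr k J)⁻¹, fun j => ?_⟩
  have h : Matrix.vecMul (Matrix.vecMul a (J3Kr k J)⁻¹) (J3Kr k J) = a := by
    rw [Matrix.vecMul_vecMul, Matrix.nonsing_inv_mul _ hdet, Matrix.vecMul_one]
  exact congrFun h j

/-- An integer vector `x` which is a real combination `∑ α_l k_l`: `det • α` is an integer vector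
(the adjugate of the integer matrix `K = (k_l(J_j))`: from `∑ l, α_l k_l(J_j) = x_(J_j)` one gets
`det K * α = x_J ᵥ* adjugate K`), so `det • x` is an integer combination of the `k_l`. -/
theorem det_smul_mem {t : ℕ} (k : Fin t → ι → ℤ) (J : Fin t → ι) (x : ι → ℤ) (α : Fin t → ℝ)
    (hx : ∀ i, (x i : ℝ) = ∑ l, α l * (k l i : ℝ)) :
    ∃ c : Fin t → ℤ, (Matrix.of fun l j => k l (J j)).det • x = ∑ l, c l • k l := by
  set K : Matrix (Fin t) (Fin t) ℤ := Matrix.of fun l j => k l (J j) with hK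
  refine ⟨Matrix.vecMul (fun j => x (J j)) K.adjugate, ?_⟩
  have h1 : Matrix.vecMul α (J3Kr k J) = fun j => (x (J j) : ℝ) := by
    funext j
    rw [hx (J j)]
    rfl
  have h2 : Matrix.vecMul (fun j => (x (J j) : ℝ)) (J3Kr k J).adjugate = (K.det : ℝ) • α := by
    rw [← h1, Matrix.vecMul_vecMul, Matrix.mul_adjugate, J3Kr_det, Matrix.vecMul_smul,
      Matrix.vecMul_one]
  have h3 : (J3Kr k J).adjugate = K.adjugate.map (fun z : ℤ => (z : ℝ)) := by
    have h := (Int.castRingHom ℝ).map_adjugate K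
    simpa [J3Kr, hK] using h.symm
  have h4 : ∀ l, ((Matrix.vecMul (fun j => x (J j)) K.adjugate l : ℤ) : ℝ) =
      (K.det : ℝ) * α l := by
    intro l
    have h5 := congrFun h2 l
    rw [h3] at h5
    rw [Pi.smul_apply, smul_eq_mul] at h5
    rw [← h5]
    simp [Matrix.vecMul, dotProduct]
  funext i
  rw [Pi.smul_apply, Finset.sum_apply, smul_eq_mul]
  have h6 : ((K.det * x i : ℤ) : ℝ) =
      ((∑ l, (Matrix.vecMul (fun j => x (J j)) K.adjugate l • k l) i : ℤ) : ℝ) := by
    rw [Int.cast_mul, Int.cast_sum, hx i, Finset.mul_sum]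
    refine Finset.sum_congr rfl fun l _ => ?_
    rw [Pi.smul_apply, smul_eq_mul, Int.cast_mul, h4 l]
    ring
  exact_mod_cast h6

/-- `Matrix.det_le` over the reals or integers. -/
theorem abs_det_le {t : ℕ} (k : Fin t → ι → ℤ) (J : Fin t → ι) (B : ℝ)
    (hB : ∀ l i, |(k l i : ℝ)| ≤ B) :
    |(((Matrix.of fun l j => k l (J j)).det : ℤ) : ℝ)| ≤ (Nat.factorial t : ℝ) * B ^ t := by
  rw [← J3Kr_det]
  have h := Matrix.det_le (A := J3Kr k J) (abv := AbsoluteValue.abs) (x := B)
    (fun l j => hB l (J j))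
  simpa using h

end Pool.RA
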