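import Pool.Agent.Helper44.RA.U3
import Pool.Agent.Helper44.RA.J3

/-! Project RA: the points of small height over the multiples of `x*`. -/

set_option autoImplicit false

namespace Pool.RA

open Finset

variable {ι : Type} [Fintype ι]

/-- PIECE RA-Q1 (the whole file, 110 lines).  `xc = c • x - ∑ l, m l • k l`.  `chi` of `xc` is
`chi(x)^c` as `chi(k_l) = 1`.  In real coordinates `xc = c (x - y) + ∑ l, (c α_l - m_l) k_l`, where
`y = ∑ l, α_l k_l`; `nmR` of the first term is at most `c / K * ∑ i ∈ U, log (r i)`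
(`nmR_le_of_bd`, as `x - y` vanishes outside `U`), of the second at most `t / K₀ * B`. -/
theorem point_c {t : ℕ} (r : ι → ℕ) (M : ℕ) (h : ∀ i, (r i).Coprime M) (k : Fin t → ι → ℤ)
    (U : Finset ι) (hU : ∀ i ∉ U, ∀ l, k l i = 0) (hk : ∀ l, chi r M h (k l) = 1) (B : ℝ)
    (hB : ∀ l, nm r (k l) ≤ B) (x : ι → ℤ) (hxU : ∀ i ∉ U, x i = 0) (α : Fin t → ℝ) (δ : ℝ)
    (hx : ∀ i, |(x i : ℝ) - ∑ l, α l * (k l i : ℝ)| ≤ δ) (c : ℕ) (m : Fin t → ℤ) (δ₀ : ℝ)
    (hm : ∀ l, |(c : ℝ) * α l - (m l : ℝ)| ≤ δ₀) :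
    chi r M h ((c : ℤ) • x - ∑ l, m l • k l) = chi r M h x ^ c ∧
      nm r ((c : ℤ) • x - ∑ l, m l • k l) ≤
        (c : ℝ) * (δ * ∑ i ∈ U, Real.log (r i)) + (t : ℝ) * (δ₀ * B) := by
  constructor
  · rw [chi_sub, chi_zsmul, chi_sum, zpow_natCast]
    have h1 : ∏ l, chi r M h (m l • k l) = 1 :=
      Finset.prod_eq_one fun l _ => by rw [chi_zsmul, hk l, one_zpow]
    rw [h1, inv_one, mul_one]
  · have h1 : (fun i => ((((c : ℤ) • x - ∑ l, m l • k l) i : ℤ) : ℝ)) =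
        (c : ℝ) • (fun i => (x i : ℝ) - ∑ l, α l * (k l i : ℝ)) +
          ∑ l, ((c : ℝ) * α l - (m l : ℝ)) • (fun i => (k l i : ℝ)) := by
      funext i
      simp only [Pi.sub_apply, Pi.smul_apply, Pi.add_apply, Finset.sum_apply, smul_eq_mul]
      push_cast
      simp only [sub_mul, Finset.sum_sub_distrib, mul_sub, Finset.mul_sum, mul_assoc]
      ring
    unfold nm
    rw [h1]
    refine (nmR_add_le r _ _).trans (add_le_add ?_ ?_)
    · rw [nmR_smul, abs_of_nonneg (Nat.cast_nonneg c)]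
      refine mul_le_mul_of_nonneg_left ?_ (Nat.cast_nonneg c)
      refine nmR_le_of_bd r U _ δ hx fun i hi => ?_
      have h2 : ∑ l, α l * (k l i : ℝ) = 0 :=
        Finset.sum_eq_zero fun l _ => by rw [hU i hi l, Int.cast_zero, mul_zero]
      simp only [hxU i hi, h2, Int.cast_zero, sub_zero]
    · refine (nmR_sum_le r _ _).trans ?_
      have h2 : ∀ l ∈ (Finset.univ : Finset (Fin t)),
          nmR r (((c : ℝ) * α l - (m l : ℝ)) • (fun i => (k l i : ℝ))) ≤ δ₀ * B := by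
        intro l _
        rw [nmR_smul]
        exact mul_le_mul (hm l) (hB l) (nmR_nonneg r _) ((abs_nonneg _).trans (hm l))
      refine (Finset.sum_le_sum h2).trans (le_of_eq ?_)
      rw [Finset.sum_const, Finset.card_univ, Fintype.card_fin, nsmul_eq_mul]

/-- If `c x = ∑ m_l k_l` with `c ≠ 0` then `x` is the real combination `∑ (m_l / c) k_l`, with the
same `J`-coordinates as `∑ α_l k_l`, so `x_i = ∑ α_l k_l(i)` for all `i` (`MM.rep`). -/
theorem span_of_zero {t : ℕ} (k : Fin t → ι → ℤ) (J : Fin t → ι) (β : ι → Fin t → ℝ)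
    (hM : MM k J β) (x : ι → ℤ) (α : Fin t → ℝ)
    (hxJ : ∀ j, (x (J j) : ℝ) = ∑ l, α l * (k l (J j) : ℝ)) (c : ℕ) (hc : c ≠ 0)
    (m : Fin t → ℤ) (h0 : (c : ℤ) • x - ∑ l, m l • k l = 0) :
    ∀ i, (x i : ℝ) = ∑ l, α l * (k l i : ℝ) := by
  have hc' : (c : ℝ) ≠ 0 := by exact_mod_cast hc
  have h1 : ∀ i, (x i : ℝ) = ∑ l, ((m l : ℝ) / c) * (k l i : ℝ) := by
    intro i
    have h2 := congrFun h0 i
    simp only [Pi.sub_apply, Pi.smul_apply, Finset.sum_apply, smul_eq_mul, Pi.zero_apply] at h2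
    have h3 : (c : ℝ) * (x i : ℝ) = ∑ l, (m l : ℝ) * (k l i : ℝ) := by
      have h4 : (((c : ℤ) * x i - ∑ l, m l * k l i : ℤ) : ℝ) = 0 := by rw [h2, Int.cast_zero]
      push_cast at h4
      linarith
    have h5 : ∑ l, ((m l : ℝ) / c) * (k l i : ℝ) = (∑ l, (m l : ℝ) * (k l i : ℝ)) / c := by
      rw [Finset.sum_div]
      refine Finset.sum_congr rfl fun l _ => ?_
      ring
    rw [h5, ← h3]
    field_simp
  intro i
  rw [hM.rep α i, h1 i, hM.rep (fun l => (m l : ℝ) / c) i]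
  refine Finset.sum_congr rfl fun j _ => ?_
  rw [← h1 (J j), hxJ j]

end Pool.RA
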