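import Pool.Agent.Helper44.RA.P2
import Pool.Agent.Helper44.RA.P3
import Pool.Agent.Helper44.RA.L2
import Pool.Agent.Helper44.RA.Q1
import Pool.Agent.Helper44.RA.J2
import Pool.Agent.Helper44.RA.K1
import Pool.Agent.Helper44.RA.N2
import Pool.Agent.Helper44.RA.N3
import Pool.Agent.Helper44.RA.O2

/-! Project RA: a cell does not contain many independent vectors. -/

set_option autoImplicit false

namespace Pool.RA

open Finset Filter

theorem core_logZ (κ : ℝ) (hκ : 0 < κ) (Z : ℕ) (hZ : 1 ≤ Z) (I : ℝ) (h : (Z : ℝ) ^ κ ≤ I) :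
    Real.log Z ≤ Real.log I / κ := by
  have hZ0 : (0 : ℝ) < Z := by exact_mod_cast hZ
  have h1 : Real.log ((Z : ℝ) ^ κ) ≤ Real.log I :=
    Real.log_le_log (Real.rpow_pos_of_pos hZ0 κ) h
  rw [Real.log_rpow hZ0] at h1
  rw [le_div_iff₀ hκ]
  linarith

theorem core_logP (S : Finset ℕ) (hS : ∀ p ∈ S, p.Prime) (m : ℕ → ℕ) (Z : ℕ) (hZ : 1 ≤ Z)
    (hSZ : ∏ p ∈ S, p ≤ Z) (T : ℕ) (hT : 1 ≤ T) :
    Real.log ((∏ p ∈ S, p ^ (m p / T + 2) : ℕ) : ℝ) ≤
      Real.log ((∏ p ∈ S, p ^ m p : ℕ) : ℝ) / (T : ℝ) + 2 * Real.log Z := by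
  have hT0 : (0 : ℝ) < T := by exact_mod_cast hT
  have e1 : ∀ f : ℕ → ℕ, Real.log ((∏ p ∈ S, p ^ f p : ℕ) : ℝ) = ∑ p ∈ S, (f p : ℝ) * Real.log p := by
    intro f
    rw [Nat.cast_prod, Real.log_prod]
    · refine Finset.sum_congr rfl (fun p _ => ?_)
      rw [Nat.cast_pow, Real.log_pow]
    · intro p hp
      have := (hS p hp).pos
      positivity
  rw [e1, e1]
  have hl : ∑ p ∈ S, Real.log p ≤ Real.log Z := by
    have e2 : Real.log ((∏ p ∈ S, p : ℕ) : ℝ) = ∑ p ∈ S, Real.log p := by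
      rw [Nat.cast_prod, Real.log_prod]
      intro p hp
      have := (hS p hp).pos
      positivity
    rw [← e2]
    apply Real.log_le_log
    · have : 0 < ∏ p ∈ S, p := Finset.prod_pos (fun p hp => (hS p hp).pos)
      exact_mod_cast this
    · exact_mod_cast hSZ
  rw [Finset.sum_div]
  have h3 : ∀ p ∈ S, ((m p / T + 2 : ℕ) : ℝ) * Real.log p ≤
      (m p : ℝ) * Real.log p / T + 2 * Real.log p := by
    intro p hp
    have hlp : 0 ≤ Real.log p := Real.log_natCast_nonneg p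
    have hd : ((m p / T : ℕ) : ℝ) ≤ (m p : ℝ) / T := Nat.cast_div_le
    push_cast
    have : (((m p / T : ℕ) : ℝ) + 2) * Real.log p ≤ ((m p : ℝ) / T + 2) * Real.log p :=
      mul_le_mul_of_nonneg_right (by linarith) hlp
    calc _ ≤ ((m p : ℝ) / T + 2) * Real.log p := this
      _ = (m p : ℝ) * Real.log p / T + 2 * Real.log p := by ring
  calc ∑ p ∈ S, ((m p / T + 2 : ℕ) : ℝ) * Real.log p
      ≤ ∑ p ∈ S, ((m p : ℝ) * Real.log p / T + 2 * Real.log p) := Finset.sum_le_sum h3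
    _ = ∑ p ∈ S, (m p : ℝ) * Real.log p / T + 2 * ∑ p ∈ S, Real.log p := by
        rw [Finset.sum_add_distrib, ← Finset.mul_sum]
    _ ≤ _ := by linarith

theorem core (κ : ℝ) (hκ : 0 < κ) : ∃ I0 : ℝ, 1 ≤ I0 ∧ ∀ (ι : Type) [Fintype ι] (r : ι → ℕ),
    (∀ i, (r i).Prime) → Function.Injective r →
    ∀ (S : Finset ℕ), (∀ p ∈ S, p.Prime) → ∀ (m : ℕ → ℕ), (∀ p ∈ S, 4 ≤ m p) →
    ∀ (Z : ℕ), 1 ≤ Z → ∏ p ∈ S, p ≤ Z →
    I0 ≤ Real.log ((∏ p ∈ S, p ^ m p : ℕ) : ℝ) →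
    (Z : ℝ) ^ κ ≤ Real.log ((∏ p ∈ S, p ^ m p : ℕ) : ℝ) →
    ∀ (h : ∀ i, (r i).Coprime (∏ p ∈ S, p ^ m p)) (k : Fin (tt κ) → ι → ℤ),
    LinearIndependent ℝ (fun l : Fin (tt κ) => fun i : ι => (k l i : ℝ)) →
    (∀ l, chi r (∏ p ∈ S, p ^ m p) h (k l) = 1) →
    (∀ l, nm r (k l) ≤ 43 * Real.log ((∏ p ∈ S, p ^ m p : ℕ) : ℝ)) →
    (∀ l, psup r (k l) ≤ Z) → False := by
  have hKK : 1 ≤ KK κ := by unfold KK; omega
  have hK0 : 1 ≤ K0 κ := by unfold K0 tt; omega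
  obtain ⟨C, hC1, hC⟩ := pow_card_Usup (KK κ) hKK (tt κ)
  have hev := (ev_AA.and ((ev_NN κ hκ).and ((ev_A1 κ hκ C hC1).and ((ev_det (tt κ)).and
    ((ev_size κ hκ).and (eventually_ge_atTop (Real.exp 1)))))))
  obtain ⟨I1, hI1⟩ := eventually_atTop.1 hev
  refine ⟨max I1 1, le_max_right _ _, ?_⟩
  intro ι _ r hr hinj S hS m hm Z hZ hSZ hI hZI h k hk hk1 hkn hkp
  set I : ℝ := Real.log ((∏ p ∈ S, p ^ m p : ℕ) : ℝ) with hIdef
  obtain ⟨hAA, hNN, hA1, hdet, hsize, hexp⟩ := hI1 I (le_trans (le_max_left _ _) hI)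
  have hIone : 1 ≤ I := le_trans (le_max_right _ _) hI
  have hlogI : 1 ≤ Real.log I := by
    rw [← Real.log_exp 1]
    exact Real.log_le_log (Real.exp_pos 1) hexp
  have hr1 : ∀ i, 1 ≤ r i := fun i => (hr i).one_le
  have hr2 : ∀ i, 2 ≤ r i := fun i => (hr i).two_le
  have hlZ : Real.log Z ≤ Real.log I / κ := core_logZ κ hκ Z hZ I hZI
  -- the small modulus
  set n : ℕ → ℕ := fun p => m p / (AA I + 1) + 2 with hn
  have hn2 : ∀ p ∈ S, 2 ≤ n p := fun p _ => by simp [hn]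
  have hnm : ∀ p ∈ S, n p ≤ m p := by
    intro p hp
    have h4 := hm p hp
    have h5 : m p / (AA I + 1) ≤ m p / 2 := Nat.div_le_div_left (by omega) (by norm_num)
    simp only [hn]
    omega
  have hmn : ∀ p ∈ S, m p < n p * (AA I + 1) := by
    intro p _
    have h7 : m p < (AA I + 1) * (m p / (AA I + 1) + 1) := by
      have := Nat.div_add_mod (m p) (AA I + 1)
      have := Nat.mod_lt (m p) (show AA I + 1 > 0 by omega)
      nlinarith
    simp only [hn]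
    nlinarith
  have hPM : (∏ p ∈ S, p ^ n p) ∣ (∏ p ∈ S, p ^ m p) :=
    Finset.prod_dvd_prod_of_dvd _ _ (fun p hp => pow_dvd_pow p (hnm p hp))
  have h' : ∀ i, (r i).Coprime (∏ p ∈ S, p ^ n p) := fun i => Nat.Coprime.coprime_dvd_right hPM (h i)
  have hPpos : 0 < ∏ p ∈ S, p ^ n p := Finset.prod_pos (fun p hp => pow_pos (hS p hp).pos _)
  have hlogP : Real.log ((∏ p ∈ S, p ^ n p : ℕ) : ℝ) ≤ 16 * Real.log I + 2 * (Real.log I / κ) := by
    have h8 := core_logP S hS m Z hZ hSZ (AA I + 1) (by omega)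
    have h9 := div_AA_le I hexp
    have h10 : Real.log ((∏ p ∈ S, p ^ n p : ℕ) : ℝ) ≤ I / ((AA I : ℝ) + 1) + 2 * Real.log Z := by
      have h11 := h8
      push_cast at h11 ⊢
      simpa [hn, hIdef] using h11
    linarith
  -- the maximal minor
  obtain ⟨J, β, hM⟩ := exists_MM k hk
  have hU : ∀ i ∉ Usup k, ∀ l, k l i = 0 := fun i hi l => not_mem_Usup k i hi l
  have hUlog : ∑ i ∈ Usup k, Real.log (r i) ≤ (tt κ : ℝ) * (Real.log I / κ) :=
    (sum_log_Usup r hr1 k Z hkp).trans (mul_le_mul_of_nonneg_left hlZ (Nat.cast_nonneg _))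
  have hcard : KK κ ^ (Usup k).card * (∏ p ∈ S, p ^ n p) < (A1 κ I + 1) ^ tt κ := by
    have hc1 := hC ι r hr hinj k Z hZ hkp
    have hc2 : ((∏ p ∈ S, p ^ n p : ℕ) : ℝ) ≤
        Real.exp (16 * Real.log I + 2 * (Real.log I / κ)) := by
      rw [← Real.log_le_iff_le_exp (by exact_mod_cast hPpos)]
      exact hlogP
    have hc3 : (KK κ : ℝ) ^ (Usup k).card ≤ C * Real.exp (Real.log I / κ / 2) := by
      refine hc1.trans (mul_le_mul_of_nonneg_left ?_ (by linarith))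
      apply Real.exp_le_exp.2
      linarith
    have hc4 : (KK κ : ℝ) ^ (Usup k).card * ((∏ p ∈ S, p ^ n p : ℕ) : ℝ) ≤
        C * Real.exp ((16 + 5 / (2 * κ)) * Real.log I) := by
      calc (KK κ : ℝ) ^ (Usup k).card * ((∏ p ∈ S, p ^ n p : ℕ) : ℝ)
          ≤ (C * Real.exp (Real.log I / κ / 2)) *
            Real.exp (16 * Real.log I + 2 * (Real.log I / κ)) :=
            mul_le_mul hc3 hc2 (Nat.cast_nonneg _) (by positivity)
        _ = C * Real.exp ((16 + 5 / (2 * κ)) * Real.log I) := by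
            rw [mul_assoc, ← Real.exp_add]
            congr 2
            field_simp
            ring
    have hc5 := lt_of_le_of_lt hc4 hA1
    exact_mod_cast hc5
  obtain ⟨x, α, hx1, hxJ, hxne, hxd, hxU, hyb⟩ :=
    exists_xstar r k J β hM (Usup k) hU (∏ p ∈ S, p ^ n p) hPpos h' (A1 κ I) (KK κ) hKK hcard
  have hx0 : x ≠ 0 := by
    rintro rfl
    obtain ⟨j, hj⟩ := hxne
    exact hj rfl
  -- x is not in the span
  have hns : ¬ ∀ i, (x i : ℝ) = ∑ l, α l * (k l i : ℝ) := by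
    intro hsp
    obtain ⟨c, hc⟩ := det_smul_mem k J x α hsp
    set D : ℤ := (Matrix.of fun l j => k l (J j)).det with hD
    have hD0 : D ≠ 0 := hM.det_ne
    have hchiD : chi r (∏ p ∈ S, p ^ m p) h x ^ D = 1 := by
      rw [← chi_zsmul, hc, chi_sum]
      apply Finset.prod_eq_one
      intro l _
      rw [chi_zsmul, hk1 l, one_zpow]
    have hchid : chi r (∏ p ∈ S, p ^ m p) h x ^ D.natAbs = 1 := by
      rcases Int.natAbs_eq D with hd | hd
      · rw [hd, zpow_natCast] at hchiD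
        exact hchiD
      · rw [hd, zpow_neg, zpow_natCast, inv_eq_one] at hchiD
        exact hchiD
    have hd0 : D.natAbs ≠ 0 := Int.natAbs_ne_zero.2 hD0
    have hlow := nonspan r hr hinj S hS m n hn2 (fun p hp => by have := hm p hp; omega) h h' x hx0
      D.natAbs hd0 hchid hx1
    have hnx : nm r x ≤ I / 4 := by
      have hb := nmR_le_of_bd r (Usup k) (fun i => (x i : ℝ)) ((tt κ : ℝ) * (A1 κ I : ℝ))
        (fun i => by rw [hsp i]; exact hyb i) (fun i hi => by simp [hxU i hi])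
      have hb2 : (tt κ : ℝ) * (A1 κ I : ℝ) * ∑ i ∈ Usup k, Real.log (r i) ≤
          (tt κ : ℝ) * (A1 κ I : ℝ) * ((tt κ : ℝ) * (Real.log I / κ)) :=
        mul_le_mul_of_nonneg_left hUlog (by positivity)
      exact (hb.trans hb2).trans (A1_le κ hκ I hexp)
    have hdl : Real.log (D.natAbs : ℝ) < 3 * I / 4 := by
      refine lt_of_le_of_lt ?_ hdet
      have hdb := abs_det_le k J (63 * I) (by
        intro l i
        have h12 := coord_le r hr2 (k l) i
        have h13 := hkn l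
        have h14 := Real.log_two_gt_d9
        have h15 : |(k l i : ℝ)| * Real.log 2 ≤ 43 * I := h12.trans h13
        have h16 : 0 ≤ |(k l i : ℝ)| := abs_nonneg _
        nlinarith)
      apply Real.log_le_log
      · exact_mod_cast Nat.pos_of_ne_zero hd0
      · have e : ((D.natAbs : ℕ) : ℝ) = |((D : ℤ) : ℝ)| := by
          rw [Nat.cast_natAbs, Int.cast_abs]
        rw [e]
        exact hdb
    linarith
  -- many points
  obtain ⟨Cs, hCc, _, hCN, hCm⟩ := circ α (K0 κ) (NN κ I) hK0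
  choose! mm hmm using hCm
  have hC2 : 2 * AA I < Cs.card := by
    have h17 := AA_lt_NN κ hκ I hexp
    have h18 : K0 κ ^ tt κ * (2 * AA I) < K0 κ ^ tt κ * Cs.card := lt_of_lt_of_le h17 hCc
    exact lt_of_mul_lt_mul_left h18 (Nat.zero_le _)
  refine kill r hr hinj S hS m n (fun p hp => by have := hn2 p hp; omega) hnm (AA I) (NN κ I) hAA
    hNN hmn h h' x hx1 Cs hC2 hCN (fun c => (c : ℤ) • x - ∑ l, mm c l • k l) (I / 64) ?_ ?_
  · intro c hc
    obtain ⟨hp1, hp2⟩ := point_c r (∏ p ∈ S, p ^ m p) h k (Usup k) hU hk1 (43 * I) hkn x hxU α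
      (1 / (KK κ : ℝ)) hxd c (mm c) (1 / (K0 κ : ℝ)) (hmm c hc)
    refine ⟨hp1, ?_, ?_⟩
    · refine hp2.trans (le_trans ?_ (NN_le κ hκ I hexp))
      have h19 : (c : ℝ) ≤ (NN κ I : ℝ) := by exact_mod_cast hCN c hc
      have hlk : 0 ≤ Real.log I / κ := by positivity
      have h20 : 1 / (KK κ : ℝ) * ∑ i ∈ Usup k, Real.log (r i) ≤
          1 / (KK κ : ℝ) * ((tt κ : ℝ) * (Real.log I / κ)) :=
        mul_le_mul_of_nonneg_left hUlog (by positivity)
      have h21 : 0 ≤ 1 / (KK κ : ℝ) * ∑ i ∈ Usup k, Real.log (r i) := by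
        apply mul_nonneg (by positivity)
        exact Finset.sum_nonneg (fun i _ => Real.log_natCast_nonneg _)
      have h22 := mul_le_mul h19 h20 h21 (Nat.cast_nonneg _)
      linarith
    · intro hc0 hX0
      exact hns (span_of_zero k J β hM x α hxJ c hc0 (mm c) hX0)
  · refine lt_of_lt_of_le hsize ?_
    rw [← hIdef]
    linarith

end Pool.RA
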