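import Pool.Agent.Helper44.RA.C1
import Pool.Agent.Helper44.RA.C2
import Pool.Agent.Helper44.RA.Core

/-! Project RA: the number of pairs in a cell. -/

set_option autoImplicit false

namespace Pool.RA

open Finset

/-- PIECE RA-C3 (60 lines).  `low_rank_count` with `ι = {p // p ∈ Pr Z S}`, `r = rr Z S`,
`vec = kv Z S`, `M = ∏ p ∈ S, p ^ m p`, `t = tt κ`, the hypotheses from `nm_kv`, `chi_kv`, `psup_kv`,
`kv_inj`, `rr_coprime`; `hno` is `core`.  The constant: `300 (t+1)^2`. -/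
theorem cell_count (κ : ℝ) (hκ : 0 < κ) : ∃ (I0 C : ℝ), 1 ≤ I0 ∧ 1 ≤ C ∧ ∀ (Z : ℕ), 1 ≤ Z →
    ∀ (S : Finset ℕ), (∀ p ∈ S, p.Prime) → ∀ (m : ℕ → ℕ), (∀ p ∈ S, 4 ≤ m p) →
    ∏ p ∈ S, p ≤ Z → I0 ≤ Real.log ((∏ p ∈ S, p ^ m p : ℕ) : ℝ) →
    (Z : ℝ) ^ κ ≤ Real.log ((∏ p ∈ S, p ^ m p : ℕ) : ℝ) →
    ∀ T : Finset (ℕ × ℕ), (∀ E ∈ T, Adm Z S E) →
    (∀ E ∈ T, ((∏ p ∈ S, p ^ m p : ℕ) : ℤ) ∣ (E.1 : ℤ) ^ 2 - (E.2 : ℤ) ^ 2) →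
    (∀ E ∈ T, 2 * (Real.log E.1 + Real.log E.2) ≤
      43 * Real.log ((∏ p ∈ S, p ^ m p : ℕ) : ℝ)) →
    (T.card : ℝ) ≤ C * (1 + Real.log Z) ^ tt κ := by
  obtain ⟨I0, hI0, hcore⟩ := core κ hκ
  refine ⟨I0, (300 * ((tt κ : ℝ) + 1) ^ 2) ^ tt κ, hI0, ?_, ?_⟩
  · apply one_le_pow₀
    have h1 : (0 : ℝ) ≤ (tt κ : ℝ) := Nat.cast_nonneg _
    nlinarith [sq_nonneg (tt κ : ℝ)]
  · intro Z hZ S hS m hm hprod hI hZκ T hT hdvd hlog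
    have hc := rr_coprime Z S hS m
    rw [← mul_pow]
    refine low_rank_count (rr Z S) (rr_prime Z S) (rr_inj Z S) (∏ p ∈ S, p ^ m p) hc
      (Real.log ((∏ p ∈ S, p ^ m p : ℕ) : ℝ)) rfl (hI0.trans hI) Z hZ (kv Z S) T (tt κ)
      (fun v hv v' hv' h => kv_inj Z S v v' (hT v hv) (hT v' hv') h)
      (fun v hv => chi_kv Z S v (hT v hv) _ hc (hdvd v hv))
      (fun v hv => ?_) (fun v hv => psup_kv Z S v (hT v hv)) ?_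
    · rw [nm_kv Z S v (hT v hv)]
      exact hlog v hv
    · intro k hk hli
      refine hcore {p // p ∈ Pr Z S} (rr Z S) (rr_prime Z S) (rr_inj Z S) S hS m hm Z hZ hprod hI
        hZκ hc (fun l => kv Z S (k l)) hli
        (fun l => chi_kv Z S (k l) (hT _ (hk l)) _ hc (hdvd _ (hk l))) (fun l => ?_)
        (fun l => psup_kv Z S (k l) (hT _ (hk l)))
      rw [nm_kv Z S (k l) (hT _ (hk l))]
      exact hlog _ (hk l)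

end Pool.RA
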