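import Mathlib

/-! Project RA: binomial expansions. -/

set_option autoImplicit false

namespace Pool.RA

open Finset

/-- PIECE RA-D1 (the whole file, 110 lines).  `e C(e,ν) = (ν+1) C(e,ν+1) + ν C(e,ν)`
(`Nat.succ_mul_choose_eq`, `Nat.choose_succ_right_eq`: `C(e,ν+1) (ν+1) = C(e,ν) (e-ν)`). -/
theorem bin_mul (e ν : ℕ) : (e : ℤ) * (e.choose ν : ℤ) =
    ((ν : ℤ) + 1) * (e.choose (ν + 1) : ℤ) + (ν : ℤ) * (e.choose ν : ℤ) := by
  rcases le_or_gt ν e with h | h
  · have h1 := Nat.choose_succ_right_eq e ν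
    have h2 : ((e.choose (ν + 1) : ℤ)) * ((ν : ℤ) + 1) = (e.choose ν : ℤ) * ((e : ℤ) - ν) := by
      rw [← Nat.cast_sub h]
      exact_mod_cast h1
    linear_combination -h2
  · rw [Nat.choose_eq_zero_of_lt h, Nat.choose_eq_zero_of_lt (by omega)]
    simp

/-- Induction on `a` with `bin_mul`: `e^a C(e,ν)` is an integer combination of the `C(e,m)`,
`m ≤ a + ν`, with coefficients independent of `e`. -/
theorem bin_exp (a ν : ℕ) : ∃ lam : ℕ → ℤ, (∀ m, a + ν < m → lam m = 0) ∧
    ∀ e : ℕ, (e : ℤ) ^ a * (e.choose ν : ℤ) =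
      ∑ m ∈ range (a + ν + 1), lam m * (e.choose m : ℤ) := by
  induction a with
  | zero =>
    refine ⟨fun m => if m = ν then 1 else 0, fun m hm => ?_, fun e => ?_⟩
    · have : ¬ m = ν := by omega
      simp [this]
    · simp
  | succ a ih =>
    obtain ⟨lam, h0, h1⟩ := ih
    refine ⟨fun m => (m : ℤ) * lam (m - 1) + (m : ℤ) * lam m, fun m hm => ?_, fun e => ?_⟩
    · show (m : ℤ) * lam (m - 1) + (m : ℤ) * lam m = 0
      rw [h0 (m - 1) (by omega), h0 m (by omega)]
      ring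
    · have e1 : (e : ℤ) ^ (a + 1) * (e.choose ν : ℤ)
          = (e : ℤ) * ((e : ℤ) ^ a * (e.choose ν : ℤ)) := by ring
      rw [e1, h1 e, mul_sum]
      have e2 : ∀ m ∈ range (a + ν + 1), (e : ℤ) * (lam m * (e.choose m : ℤ))
          = ((m : ℤ) + 1) * lam m * (e.choose (m + 1) : ℤ)
            + (m : ℤ) * lam m * (e.choose m : ℤ) := by
        intro m _
        linear_combination (lam m) * bin_mul e m
      rw [sum_congr rfl e2, sum_add_distrib]
      have e3 : a + 1 + ν + 1 = (a + ν + 1) + 1 := by ring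
      rw [e3]
      have e4 : ∀ m ∈ range (a + ν + 1 + 1),
          ((m : ℤ) * lam (m - 1) + (m : ℤ) * lam m) * (e.choose m : ℤ)
          = (m : ℤ) * lam (m - 1) * (e.choose m : ℤ) + (m : ℤ) * lam m * (e.choose m : ℤ) := by
        intro m _
        ring
      rw [sum_congr rfl e4, sum_add_distrib]
      congr 1
      · rw [sum_range_succ' (fun m => (m : ℤ) * lam (m - 1) * (e.choose m : ℤ))]
        simp
      · rw [sum_range_succ (fun m => (m : ℤ) * lam m * (e.choose m : ℤ)) (a + ν + 1)]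
        rw [h0 (a + ν + 1) (by omega)]
        simp

/-- `(1 + q z)^e = ∑ ν ≤ E, C(e,ν) (q z)^ν` for `e ≤ E` (`add_pow`; the terms `ν > e` vanish).
Multiply by `e^a` and insert `bin_exp`:
`mu m = ∑ ν ≤ E, (q z)^ν lam_(a,ν) m`, where only `ν ≥ m - a ≥ m - A` contribute, so
`q^(m - A) ∣ mu m`; the range `m < A + E + 1` contains all `m ≤ a + ν`. -/
theorem geo_exp (A a : ℕ) (ha : a ≤ A) (E : ℕ) (q z : ℤ) : ∃ mu : ℕ → ℤ,
    (∀ m, q ^ (m - A) ∣ mu m) ∧
    ∀ e : ℕ, e ≤ E → (e : ℤ) ^ a * (1 + q * z) ^ e =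
      ∑ m ∈ range (A + E + 1), mu m * (e.choose m : ℤ) := by
  choose lam h0 h1 using bin_exp a
  refine ⟨fun m => ∑ ν ∈ range (E + 1), (q * z) ^ ν * lam ν m, fun m => ?_, fun e he => ?_⟩
  · refine dvd_sum fun ν _ => ?_
    rcases lt_or_ge (a + ν) m with h | h
    · rw [h0 ν m h, mul_zero]
      exact dvd_zero _
    · rw [mul_pow, mul_assoc]
      exact (pow_dvd_pow q (by omega)).mul_right _
  · have e1 : (1 + q * z) ^ e = ∑ ν ∈ range (E + 1), (q * z) ^ ν * (e.choose ν : ℤ) := by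
      rw [add_comm, add_pow]
      have e2 : ∀ m ∈ range (e + 1), (q * z) ^ m * 1 ^ (e - m) * (e.choose m : ℤ)
          = (q * z) ^ m * (e.choose m : ℤ) := by
        intro m _
        simp
      rw [sum_congr rfl e2]
      refine sum_subset (range_subset_range.mpr (by omega)) fun m _ hm => ?_
      rw [Nat.choose_eq_zero_of_lt (by simpa using hm)]
      simp
    rw [e1, mul_sum]
    have e3 : ∀ ν ∈ range (E + 1), (e : ℤ) ^ a * ((q * z) ^ ν * (e.choose ν : ℤ))
        = ∑ m ∈ range (A + E + 1), (q * z) ^ ν * lam ν m * (e.choose m : ℤ) := by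
      intro ν hν
      have e4 : (e : ℤ) ^ a * ((q * z) ^ ν * (e.choose ν : ℤ))
          = (q * z) ^ ν * ((e : ℤ) ^ a * (e.choose ν : ℤ)) := by ring
      rw [e4, h1 ν e, mul_sum]
      have hν' : ν < E + 1 := mem_range.mp hν
      have e5 : ∀ m ∈ range (a + ν + 1), (q * z) ^ ν * (lam ν m * (e.choose m : ℤ))
          = (q * z) ^ ν * lam ν m * (e.choose m : ℤ) := by
        intro m _
        ring
      rw [sum_congr rfl e5]
      refine sum_subset (range_subset_range.mpr (by omega)) fun m _ hm => ?_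
      rw [h0 ν m (by
        have : ¬ m < a + ν + 1 := by simpa using hm
        omega)]
      simp
    rw [sum_congr rfl e3, sum_comm]
    refine sum_congr rfl fun m _ => ?_
    rw [sum_mul]

end Pool.RA
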