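import Mathlib

/-! Project RA: the weight of an injective choice. -/

set_option autoImplicit false

namespace Pool.RA

open Finset

/-- The weight of a column choice: `inl m` is the column `m` (weight `min N (m - A)`), `inr` the
error column (weight `N`). -/
def wt {κ : Type} (A N : ℕ) : ℕ ⊕ κ → ℕ
  | Sum.inl m => min N (m - A)
  | Sum.inr _ => N

/-- PIECE RA-D2 (70 lines).  `∑ j, wt (f j) = ∑ l < N, #{j : l < wt (f j)}` (all weights are
`≤ N`).  The `j` with `wt (f j) ≤ l < N` have `f j = inl m` with `m ≤ A + l`, so by injectivity
there are at most `A + l + 1` of them, and `#{j : l < wt (f j)} ≥ A + 1 + T - (A + l + 1) = T - l`. -/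
theorem weight_sum {κ : Type} [Fintype κ] (A N T : ℕ) (hκ : Fintype.card κ = A + 1 + T)
    (f : κ → ℕ ⊕ κ) (hf : Function.Injective f) :
    ∑ l ∈ range N, (T - l) ≤ ∑ j, wt A N (f j) := by
  classical
  have hle : ∀ c : ℕ ⊕ κ, wt A N c ≤ N := by
    rintro (m | x)
    · exact min_le_left _ _
    · exact le_rfl
  have hsum : ∀ w : ℕ, w ≤ N → w = ∑ l ∈ range N, if l < w then 1 else 0 := by
    intro w hw
    rw [← Finset.card_filter]
    have h1 : (range N).filter (fun l => l < w) = range w := by
      ext l
      simp only [mem_filter, mem_range]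
      omega
    rw [h1, card_range]
  have h2 : ∑ j, wt A N (f j) =
      ∑ l ∈ range N, (Finset.univ.filter fun j => l < wt A N (f j)).card := by
    calc ∑ j, wt A N (f j) = ∑ j, ∑ l ∈ range N, (if l < wt A N (f j) then 1 else 0) :=
          Finset.sum_congr rfl fun j _ => hsum _ (hle _)
      _ = ∑ l ∈ range N, ∑ j, (if l < wt A N (f j) then 1 else 0) := Finset.sum_comm
      _ = _ := by
          refine Finset.sum_congr rfl fun l _ => ?_
          rw [Finset.card_filter]
  rw [h2]
  refine Finset.sum_le_sum fun l hl => ?_
  rw [mem_range] at hl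
  have h3 : (Finset.univ.filter fun j => l < wt A N (f j)).card +
      (Finset.univ.filter fun j => ¬ l < wt A N (f j)).card = Fintype.card κ :=
    Finset.card_filter_add_card_filter_not _
  have h4 : (Finset.univ.filter fun j => ¬ l < wt A N (f j)).card ≤ A + l + 1 := by
    have h5 : (Finset.univ.filter fun j => ¬ l < wt A N (f j)).card ≤
        ((range (A + l + 1)).image (Sum.inl : ℕ → ℕ ⊕ κ)).card := by
      apply Finset.card_le_card_of_injOn f
      · intro j hj
        have hj' : ¬ l < wt A N (f j) := (mem_filter.mp (Finset.mem_coe.mp hj)).2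
        rcases hfj : f j with m | x
        · rw [hfj] at hj'
          simp only [wt] at hj'
          rw [Finset.mem_coe, mem_image]
          refine ⟨m, ?_, rfl⟩
          rw [mem_range]
          omega
        · rw [hfj] at hj'
          exact absurd hl hj'
      · exact hf.injOn
    exact h5.trans (Finset.card_image_le.trans_eq (card_range _))
  omega

end Pool.RA
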