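import Pool.Agent.Helper44.RA.D1
import Pool.Agent.Helper44.RA.D3

/-! Project RA: the interpolation determinant is divisible by a large power of a prime. -/

set_option autoImplicit false

namespace Pool.RA

open Finset

/-- The type of the columns: `inl a` is `e^a u`, `inr a` is `e^a v`, `a ≤ A`. -/
abbrev Col (A : ℕ) : Type := Fin (A + 1) ⊕ Fin (A + 1)

/-- The interpolation matrix of the points `(e_i, u_i, v_i)`. -/
def imat (A : ℕ) (e : Col A → ℕ) (u v : Col A → ℤ) : Matrix (Col A) (Col A) ℤ :=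
  Matrix.of fun i j => Sum.elim (fun a : Fin (A + 1) => (e i : ℤ) ^ (a : ℕ) * u i)
    (fun a : Fin (A + 1) => (e i : ℤ) ^ (a : ℕ) * v i) j

/-- PIECE RA-D4 (90 lines).  `det_core` with `κ = Col A`, `T = A + 1`, `M = A + E + 1`,
`w i m = u_i C(e_i,m)`.  Column `inl a`: `geo_exp` with `z = 0` (then `(1 + q 0)^e = 1`), no error.
Column `inr a`: `v_i = g0 (1+q z)^(e_i) u_i + q^N h_i`, so
`e_i^a v_i = ∑ m, u_i C(e_i,m) (g0 mu_a m) + q^N (e_i^a h_i)` with `mu_a` from `geo_exp`.  Note
`q^(min N (m-A)) ∣ q^(m-A)`. -/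
theorem det_prime (A E N : ℕ) (q z g0 : ℤ) (e : Col A → ℕ) (he : ∀ i, e i ≤ E)
    (u v : Col A → ℤ) (hv : ∀ i, q ^ N ∣ v i - g0 * (1 + q * z) ^ (e i) * u i) :
    q ^ (∑ l ∈ range N, (A + 1 - l)) ∣ (imat A e u v).det := by
  choose mu0 hmu0 hexp0 using fun a : Fin (A + 1) =>
    geo_exp A (a : ℕ) (by have := a.isLt; omega) E q 0
  choose mu1 hmu1 hexp1 using fun a : Fin (A + 1) =>
    geo_exp A (a : ℕ) (by have := a.isLt; omega) E q z
  choose h hh using hv
  have hmu : ∀ m j, q ^ (min N (m - A)) ∣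
      (fun (m : ℕ) (j : Col A) => Sum.elim (fun a : Fin (A + 1) => mu0 a m)
        (fun a : Fin (A + 1) => g0 * mu1 a m) j) m j := by
    intro m j
    have hq : q ^ (min N (m - A)) ∣ q ^ (m - A) := pow_dvd_pow q (min_le_right _ _)
    rcases j with a | a
    · exact hq.trans (hmu0 a m)
    · exact (hq.trans (hmu1 a m)).mul_left g0
  have hcard : Fintype.card (Col A) = A + 1 + (A + 1) := by
    rw [Fintype.card_sum, Fintype.card_fin]
  have key := det_core (κ := Col A) q A N (A + 1) (A + E + 1) hcard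
    (fun i m => u i * ((e i).choose m : ℤ))
    (fun (m : ℕ) (j : Col A) => Sum.elim (fun a : Fin (A + 1) => mu0 a m)
        (fun a : Fin (A + 1) => g0 * mu1 a m) j)
    (fun i j => Sum.elim (fun _ : Fin (A + 1) => (0 : ℤ))
        (fun a : Fin (A + 1) => (e i : ℤ) ^ (a : ℕ) * h i) j) hmu
  convert key using 2
  unfold imat
  ext i j
  simp only [Matrix.of_apply]
  rcases j with a | a
  · simp only [Sum.elim_inl, mul_zero, add_zero]
    have h1 := hexp0 a (e i) (he i)
    rw [mul_zero, add_zero, one_pow, mul_one] at h1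
    rw [h1, sum_mul]
    exact sum_congr rfl fun m _ => by ring
  · simp only [Sum.elim_inr]
    have h1 := hexp1 a (e i) (he i)
    have h2 : v i = g0 * (1 + q * z) ^ (e i) * u i + q ^ N * h i := by
      have := hh i
      linarith
    have h3 : (e i : ℤ) ^ (a : ℕ) * v i =
        ((e i : ℤ) ^ (a : ℕ) * (1 + q * z) ^ (e i)) * (g0 * u i)
          + q ^ N * ((e i : ℤ) ^ (a : ℕ) * h i) := by
      rw [h2]
      ring
    rw [h3, h1, sum_mul]
    congr 1
    exact sum_congr rfl fun m _ => by ring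

end Pool.RA
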