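import Pool.Agent.Helper44.RA.D4

/-! Project RA: the interpolation determinant is divisible by a large power of `M / P`. -/

set_option autoImplicit false

namespace Pool.RA

open Finset

/-- PIECE RA-D5a (25 lines).  `2 ∑ l < N, (T - l) = N (2T - N + 1) ≥ N (T + 1)` for `N ≤ T`
(induction on `N`). -/
theorem two_mul_sum_sub (N T : ℕ) (h : N ≤ T) : N * (T + 1) ≤ 2 * ∑ l ∈ range N, (T - l) := by
  have key : ∀ N : ℕ, N ≤ T → 2 * ∑ l ∈ range N, (T - l) + N * N = N * (2 * T + 1) := by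
    intro N
    induction N with
    | zero => intro _; simp
    | succ N ih =>
      intro h
      have h1 := ih (by omega)
      rw [sum_range_succ]
      obtain ⟨d, rfl⟩ := Nat.exists_eq_add_of_le h
      have h2 : N + 1 + d - N = d + 1 := by omega
      rw [h2]
      nlinarith [h1]
  have h1 := key N h
  nlinarith [h1, Nat.mul_le_mul_left N h]

/-- PIECE RA-D5b (90 lines).  Fix `p ∈ S`, `T = A + 1`, `N = m p / n p`, `q = p^(n p)`.  As
`m p < n p * T`, `N ≤ T`.  `q^N` divides `p^(m p)`, so `det_prime` gives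
`q^(∑ l < N, (T - l)) ∣ det`; squaring, by `two_mul_sum_sub`, `p^(n p * N * (T + 1)) ∣ det^2` and
`n p * N ≥ m p - n p` (indeed `m p < n p * (N+1)`), so `p^((m p - n p) * T) ∣ det^2`.  Different
primes are coprime (`Finset.prod_dvd_of_coprime`). -/
theorem det_prod (A E : ℕ) (S : Finset ℕ) (hS : ∀ p ∈ S, p.Prime) (m n : ℕ → ℕ)
    (hn : ∀ p ∈ S, 1 ≤ n p) (hmn : ∀ p ∈ S, m p < n p * (A + 1)) (g g0 : ℤ)
    (hg : ∀ p ∈ S, ((p : ℤ) ^ n p) ∣ g - 1) (e : Col A → ℕ) (he : ∀ i, e i ≤ E)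
    (u v : Col A → ℤ) (hv : ∀ p ∈ S, ∀ i, ((p : ℤ) ^ m p) ∣ v i - g0 * g ^ (e i) * u i) :
    (∏ p ∈ S, (p : ℤ) ^ (m p - n p)) ^ (A + 1) ∣ (imat A e u v).det ^ 2 := by
  rw [← prod_pow]
  refine Finset.prod_dvd_of_coprime ?_ ?_
  · intro p hp q hq hpq
    have h1 : IsCoprime (p : ℤ) (q : ℤ) :=
      Nat.isCoprime_iff_coprime.2 ((Nat.coprime_primes (hS p hp) (hS q hq)).2 hpq)
    exact (h1.pow).pow
  · intro p hp
    obtain ⟨z, hz⟩ := hg p hp
    have hgz : g = 1 + (p : ℤ) ^ n p * z := by linarith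
    have hnp := hn p hp
    have hN : m p / n p < A + 1 := by
      rw [Nat.div_lt_iff_lt_mul (by omega)]
      have := hmn p hp
      nlinarith [this]
    have h1 := det_prime A E (m p / n p) ((p : ℤ) ^ n p) z g0 e he u v (by
      intro i
      rw [← hgz, ← pow_mul]
      exact (pow_dvd_pow _ (Nat.mul_div_le (m p) (n p))).trans (hv p hp i))
    have h2 := pow_dvd_pow_of_dvd h1 2
    refine dvd_trans ?_ h2
    rw [← pow_mul, ← pow_mul, ← pow_mul]
    apply pow_dvd_pow
    have h3 := two_mul_sum_sub (m p / n p) (A + 1) (by omega)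
    have h4 : m p - n p ≤ n p * (m p / n p) := by
      have := Nat.lt_mul_div_succ (m p) (show 0 < n p by omega)
      have h5 : n p * (m p / n p + 1) = n p * (m p / n p) + n p := by ring
      omega
    calc (m p - n p) * (A + 1) ≤ (n p * (m p / n p)) * (A + 1 + 1) :=
          Nat.mul_le_mul h4 (by omega)
      _ = n p * ((m p / n p) * (A + 1 + 1)) := by ring
      _ ≤ n p * (2 * ∑ l ∈ range (m p / n p), (A + 1 - l)) := Nat.mul_le_mul_left _ h3
      _ = n p * ((∑ l ∈ range (m p / n p), (A + 1 - l)) * 2) := by ring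

end Pool.RA
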