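import Pool.Agent.Helper44.RA.D5

/-! Project RA: the interpolation determinant vanishes. -/

set_option autoImplicit false

namespace Pool.RA

open Finset

private theorem D6_entry (A E : ℕ) (hE : 1 ≤ E) (e : Col A → ℕ) (he : ∀ i, e i ≤ E)
    (u v : Col A → ℤ) (hh : ℝ) (hu : ∀ i, |(u i : ℝ)| ≤ Real.exp hh)
    (hv' : ∀ i, |(v i : ℝ)| ≤ Real.exp hh) (i j : Col A) :
    |((imat A e u v i j : ℤ) : ℝ)| ≤ (E : ℝ) ^ A * Real.exp hh := by
  have hE1 : (1 : ℝ) ≤ E := by exact_mod_cast hE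
  have key : ∀ (a : Fin (A + 1)) (w : Col A → ℤ), |(w i : ℝ)| ≤ Real.exp hh →
      |(((e i : ℤ) ^ (a : ℕ) * w i : ℤ) : ℝ)| ≤ (E : ℝ) ^ A * Real.exp hh := by
    intro a w hw
    push_cast
    rw [abs_mul]
    refine mul_le_mul ?_ hw (abs_nonneg _) (by positivity)
    rw [abs_of_nonneg (by positivity)]
    have h1 : (e i : ℝ) ≤ E := by exact_mod_cast he i
    exact (pow_le_pow_left₀ (by positivity) h1 _).trans
      (pow_le_pow_right₀ hE1 (Nat.lt_succ_iff.1 a.2))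
  rcases j with a | a
  · exact key a u (hu i)
  · exact key a v (hv' i)

/-- PIECE RA-D6 (90 lines).  Suppose `det ≠ 0`.  All entries of the matrix are at most
`X = E^A exp h` in absolute value (`e_i ≤ E`, `1 ≤ E`), so `|det| ≤ (2(A+1))! X^(2(A+1))`
(`Matrix.det_le`), `log |det| ≤ 2(A+1) (log (2(A+1)) + A log E + h)` (`Nat.factorial_lt` or
`n! ≤ n^n`).  By `det_prod`,
`(A+1) (log M - log P) ≤ 2 log |det|` where `M = ∏ p^(m p)`, `P = ∏ p^(n p)`, `n p ≤ m p`.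
Dividing by `A + 1`: `log M - log P ≤ 4 (log (2(A+1)) + A log E + h)`. -/
theorem det_zero (A E : ℕ) (hE : 1 ≤ E) (S : Finset ℕ) (hS : ∀ p ∈ S, p.Prime) (m n : ℕ → ℕ)
    (hn : ∀ p ∈ S, 1 ≤ n p) (hnm : ∀ p ∈ S, n p ≤ m p) (hmn : ∀ p ∈ S, m p < n p * (A + 1))
    (g g0 : ℤ) (hg : ∀ p ∈ S, ((p : ℤ) ^ n p) ∣ g - 1) (e : Col A → ℕ) (he : ∀ i, e i ≤ E)
    (u v : Col A → ℤ) (hv : ∀ p ∈ S, ∀ i, ((p : ℤ) ^ m p) ∣ v i - g0 * g ^ (e i) * u i)
    (hh : ℝ) (hu : ∀ i, |(u i : ℝ)| ≤ Real.exp hh) (hv' : ∀ i, |(v i : ℝ)| ≤ Real.exp hh)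
    (hsize : 4 * (Real.log (2 * ((A : ℝ) + 1)) + (A : ℝ) * Real.log E + hh) <
      Real.log ((∏ p ∈ S, p ^ m p : ℕ) : ℝ) - Real.log ((∏ p ∈ S, p ^ n p : ℕ) : ℝ)) :
    (imat A e u v).det = 0 := by
  by_contra hdet
  have hE1 : (1 : ℝ) ≤ E := by exact_mod_cast hE
  have hE0 : (0 : ℝ) < E := by linarith
  have hX : 0 < (E : ℝ) ^ A * Real.exp hh := by positivity
  have hcard : Fintype.card (Col A) = 2 * (A + 1) := by
    rw [Fintype.card_sum, Fintype.card_fin]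
    ring
  -- the size of the determinant
  have h1 : |(((imat A e u v).det : ℤ) : ℝ)| ≤
      ((2 * (A + 1)).factorial : ℝ) * ((E : ℝ) ^ A * Real.exp hh) ^ (2 * (A + 1)) := by
    have h2 := Matrix.det_le (A := (imat A e u v).map (Int.castRingHom ℝ))
      (abv := AbsoluteValue.abs) (x := (E : ℝ) ^ A * Real.exp hh)
      (fun i j => D6_entry A E hE e he u v hh hu hv' i j)
    rw [hcard, nsmul_eq_mul] at h2
    have h3 : ((imat A e u v).map (Int.castRingHom ℝ)).det = (((imat A e u v).det : ℤ) : ℝ) := by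
      have := (Int.castRingHom ℝ).map_det (imat A e u v)
      rw [RingHom.mapMatrix_apply] at this
      exact this.symm
    rw [h3] at h2
    exact h2
  have hdpos : 0 < |(((imat A e u v).det : ℤ) : ℝ)| := by
    rw [abs_pos]
    exact_mod_cast hdet
  have h4 : ((2 * (A + 1)).factorial : ℝ) ≤ (2 * ((A : ℝ) + 1)) ^ (2 * (A + 1)) := by
    have := Nat.factorial_le_pow (2 * (A + 1))
    have h5 : (((2 * (A + 1)).factorial : ℕ) : ℝ) ≤ (((2 * (A + 1)) ^ (2 * (A + 1)) : ℕ) : ℝ) := by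
      exact_mod_cast this
    push_cast at h5
    exact h5
  have h6 : Real.log |(((imat A e u v).det : ℤ) : ℝ)| ≤
      (2 * ((A : ℝ) + 1)) * (Real.log (2 * ((A : ℝ) + 1)) + (A : ℝ) * Real.log E + hh) := by
    have h7 : |(((imat A e u v).det : ℤ) : ℝ)| ≤
        (2 * ((A : ℝ) + 1)) ^ (2 * (A + 1)) * ((E : ℝ) ^ A * Real.exp hh) ^ (2 * (A + 1)) :=
      h1.trans (mul_le_mul_of_nonneg_right h4 (by positivity))
    have h8 := Real.log_le_log hdpos h7
    have h18 : Real.log ((2 * ((A : ℝ) + 1)) ^ (2 * (A + 1)) *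
        ((E : ℝ) ^ A * Real.exp hh) ^ (2 * (A + 1))) =
        (2 * ((A : ℝ) + 1)) * Real.log (2 * ((A : ℝ) + 1)) +
          (2 * ((A : ℝ) + 1)) * ((A : ℝ) * Real.log E + hh) := by
      rw [Real.log_mul (pow_pos (by positivity) _).ne' (pow_pos hX _).ne', Real.log_pow,
        Real.log_pow, Real.log_mul (pow_pos hE0 _).ne' (Real.exp_pos _).ne', Real.log_pow,
        Real.log_exp]
      simp only [Nat.cast_mul, Nat.cast_add, Nat.cast_one, Nat.cast_ofNat]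
    rw [h18] at h8
    linarith
  -- divisibility
  have h9 := det_prod A E S hS m n hn hmn g g0 hg e he u v hv
  have hQpos : ∀ k : ℕ → ℕ, 0 < ∏ p ∈ S, (p : ℝ) ^ k p := fun k =>
    Finset.prod_pos fun p hp => pow_pos (by exact_mod_cast (hS p hp).pos) _
  have h10 : (∏ p ∈ S, (p : ℝ) ^ (m p - n p)) ^ (A + 1) ≤
      |(((imat A e u v).det : ℤ) : ℝ)| ^ 2 := by
    have h11 : (∏ p ∈ S, (p : ℤ) ^ (m p - n p)) ^ (A + 1) ≤ (imat A e u v).det ^ 2 :=
      Int.le_of_dvd (by positivity) h9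
    have h12 : (((∏ p ∈ S, (p : ℤ) ^ (m p - n p)) ^ (A + 1) : ℤ) : ℝ) ≤
        (((imat A e u v).det ^ 2 : ℤ) : ℝ) := by exact_mod_cast h11
    simp only [Int.cast_pow, Int.cast_prod, Int.cast_natCast] at h12
    rw [sq_abs]
    exact h12
  have h13 := Real.log_le_log (pow_pos (hQpos _) _) h10
  rw [Real.log_pow, Real.log_pow] at h13
  have h14 : (∏ p ∈ S, (p : ℝ) ^ (m p - n p)) * ∏ p ∈ S, (p : ℝ) ^ n p =
      ∏ p ∈ S, (p : ℝ) ^ m p := by
    rw [← Finset.prod_mul_distrib]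
    refine Finset.prod_congr rfl fun p hp => ?_
    rw [← pow_add, Nat.sub_add_cancel (hnm p hp)]
  have h15 := congrArg Real.log h14
  rw [Real.log_mul (hQpos _).ne' (hQpos _).ne'] at h15
  push_cast at hsize
  simp only [Nat.cast_add, Nat.cast_one, Nat.cast_ofNat] at h13
  have h16 : (0 : ℝ) < (A : ℝ) + 1 := by positivity
  have h17 : ((A : ℝ) + 1) * (4 * (Real.log (2 * ((A : ℝ) + 1)) + (A : ℝ) * Real.log E + hh)) <
      ((A : ℝ) + 1) * Real.log (∏ p ∈ S, (p : ℝ) ^ (m p - n p)) := by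
    refine mul_lt_mul_of_pos_left ?_ h16
    linarith
  linarith

end Pool.RA
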