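import Mathlib

/-! Project RA: definitions for the cells. -/

set_option autoImplicit false

namespace Pool.RA

open Finset

open Classical in
/-- The high primes of `F`: `v_p(F) log p ≥ L / (16 W)`. -/
noncomputable def hp (L : ℝ) (W F : ℕ) : Finset ℕ :=
  F.primeFactors.filter (fun p => L / (16 * (W : ℝ)) ≤ (F.factorization p : ℝ) * Real.log p)

open Classical in
/-- The cell of `F`: the high primes and the binary logarithms of their exponents. -/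
noncomputable def key (L : ℝ) (W F : ℕ) : Finset ℕ × (ℕ → ℕ) :=
  (hp L W F, fun p => if p ∈ hp L W F then Nat.log 2 (F.factorization p) else 0)

/-- The number of prime factors of an integer of radical at most `Z` is at most `WW Z`. -/
def WW (Z : ℕ) : ℕ := Nat.log 2 Z + 1

/-- A relation `E1 ≡ ± E2` modulo `F`, with `F` large and of small radical. -/
def Typ (Z : ℕ) (L : ℝ) (τ : ℕ × ℕ × ℕ) : Prop :=
  0 < τ.1 ∧ 0 < τ.2.1 ∧ 0 < τ.2.2 ∧ τ.2.1.Coprime τ.2.2 ∧ τ.1.Coprime (τ.2.1 * τ.2.2) ∧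
    ((τ.1 : ℤ) ∣ (τ.2.1 : ℤ) ^ 2 - (τ.2.2 : ℤ) ^ 2) ∧
    (∏ p ∈ (τ.1 * (τ.2.1 * τ.2.2)).primeFactors, p) ≤ Z ∧
    (∏ p ∈ τ.1.primeFactors, p) ^ 2 ≤ Z ∧
    L / 4 ≤ Real.log τ.1 ∧ Real.log τ.1 ≤ L ∧ Real.log τ.2.1 ≤ L ∧ Real.log τ.2.2 ≤ L

/-- The pairs `(a, b)` of the theorem. -/
def Good (Z : ℕ) (t : ℕ × ℕ) : Prop :=
  0 < t.1 ∧ 0 < t.2 ∧ t.1.Coprime t.2 ∧
    (∏ p ∈ (t.1 * t.2 * (t.1 + t.2)).primeFactors, p) ≤ Z

end Pool.RA
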