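import Pool.Agent.Helper44.RA.G0

/-! Project RA: the modulus of a cell. -/

set_option autoImplicit false

namespace Pool.RA

open Finset

private theorem G1_fst (L : ℝ) (W F : ℕ) : (key L W F).1 = hp L W F := rfl

private theorem G1_snd {L : ℝ} {W F p : ℕ} (h : p ∈ hp L W F) :
    (key L W F).2 p = Nat.log 2 (F.factorization p) := by
  unfold key
  exact if_pos h

private theorem G1_sub (L : ℝ) (W F : ℕ) : hp L W F ⊆ F.primeFactors := by
  unfold hp
  exact filter_subset _ _

private theorem G1_fac {F p : ℕ} (h : p ∈ F.primeFactors) : F.factorization p ≠ 0 := by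
  rw [← Finsupp.mem_support_iff, Nat.support_factorization]
  exact h

/-- PIECE RA-G1 (the whole file, 120 lines).  `2^(Nat.log 2 v) ≤ v` for `v ≥ 1`; `F` is the product
of its prime powers. -/
theorem key_dvd (L : ℝ) (W F : ℕ) (hF : F ≠ 0) :
    (∏ p ∈ (key L W F).1, p ^ (2 ^ (key L W F).2 p)) ∣ F := by
  rw [G1_fst]
  have h1 : (∏ p ∈ hp L W F, p ^ (2 ^ (key L W F).2 p)) ∣
      ∏ p ∈ hp L W F, p ^ F.factorization p := by
    refine prod_dvd_prod_of_dvd _ _ fun p hp' => ?_
    rw [G1_snd hp']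
    exact pow_dvd_pow p (Nat.pow_log_le_self 2 (G1_fac (G1_sub L W F hp')))
  have h2 : (∏ p ∈ hp L W F, p ^ F.factorization p) ∣
      ∏ p ∈ F.primeFactors, p ^ F.factorization p :=
    prod_dvd_prod_of_subset _ _ _ (G1_sub L W F)
  have h3 : ∏ p ∈ F.primeFactors, p ^ F.factorization p = F :=
    Nat.prod_factorization_pow_eq_self hF
  exact (h1.trans h2).trans (dvd_of_eq h3)

/-- `log F = ∑ v_p log p`; the primes which are not high contribute at most `W * L / (16 W)`, so the
high ones at least `3 L / 16`; and `v_p ≤ 2 * 2^(Nat.log 2 v_p)`. -/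
theorem key_log (L : ℝ) (hL : 0 ≤ L) (W F : ℕ) (hF : F ≠ 0) (hW : 1 ≤ W)
    (hcard : F.primeFactors.card ≤ W) (hlog : L / 4 ≤ Real.log F) :
    3 * L / 32 ≤ Real.log ((∏ p ∈ (key L W F).1, p ^ (2 ^ (key L W F).2 p) : ℕ) : ℝ) := by
  classical
  rw [G1_fst]
  have hW0 : (0 : ℝ) < W := by exact_mod_cast hW
  have hpos : ∀ p ∈ F.primeFactors, (p : ℝ) ≠ 0 := fun p hp' =>
    Nat.cast_ne_zero.2 (Nat.prime_of_mem_primeFactors hp').ne_zero
  have hlogp : ∀ p ∈ F.primeFactors, 0 ≤ Real.log p := fun p _ => Real.log_natCast_nonneg p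
  have h1 : Real.log F = ∑ p ∈ F.primeFactors, (F.factorization p : ℝ) * Real.log p := by
    have h2 : (F : ℝ) = ∏ p ∈ F.primeFactors, (p : ℝ) ^ F.factorization p := by
      have h3 : ∏ p ∈ F.primeFactors, p ^ F.factorization p = F :=
        Nat.prod_factorization_pow_eq_self hF
      conv_lhs => rw [← h3]
      push_cast
      rfl
    rw [h2, Real.log_prod fun p hp' => pow_ne_zero _ (hpos p hp')]
    exact sum_congr rfl fun p _ => Real.log_pow _ _
  have h4 : ∑ p ∈ F.primeFactors, (F.factorization p : ℝ) * Real.log p =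
      ∑ p ∈ hp L W F, (F.factorization p : ℝ) * Real.log p +
        ∑ p ∈ F.primeFactors \ hp L W F, (F.factorization p : ℝ) * Real.log p := by
    rw [add_comm]
    exact (sum_sdiff (G1_sub L W F)).symm
  have h5 : ∑ p ∈ F.primeFactors \ hp L W F, (F.factorization p : ℝ) * Real.log p ≤ L / 16 := by
    calc ∑ p ∈ F.primeFactors \ hp L W F, (F.factorization p : ℝ) * Real.log p
        ≤ ∑ _p ∈ F.primeFactors \ hp L W F, L / (16 * (W : ℝ)) := by
          refine sum_le_sum fun p hp' => ?_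
          rw [mem_sdiff] at hp'
          by_contra hcon
          apply hp'.2
          unfold hp
          rw [mem_filter]
          exact ⟨hp'.1, (not_le.1 hcon).le⟩
      _ = ((F.primeFactors \ hp L W F).card : ℝ) * (L / (16 * (W : ℝ))) := by
          rw [sum_const, nsmul_eq_mul]
      _ ≤ (W : ℝ) * (L / (16 * (W : ℝ))) := by
          refine mul_le_mul_of_nonneg_right ?_ (by positivity)
          exact_mod_cast (card_le_card sdiff_subset).trans hcard
      _ = L / 16 := by
          field_simp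
  have h6 : Real.log ((∏ p ∈ hp L W F, p ^ (2 ^ (key L W F).2 p) : ℕ) : ℝ) =
      ∑ p ∈ hp L W F, ((2 ^ (key L W F).2 p : ℕ) : ℝ) * Real.log p := by
    rw [Nat.cast_prod, Real.log_prod fun p hp' => by
      rw [Nat.cast_pow]
      exact pow_ne_zero _ (hpos p (G1_sub L W F hp'))]
    refine sum_congr rfl fun p _ => ?_
    rw [Nat.cast_pow, Real.log_pow]
  have h7 : ∑ p ∈ hp L W F, (F.factorization p : ℝ) * Real.log p ≤
      2 * ∑ p ∈ hp L W F, ((2 ^ (key L W F).2 p : ℕ) : ℝ) * Real.log p := by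
    rw [mul_sum]
    refine sum_le_sum fun p hp' => ?_
    rw [← mul_assoc]
    refine mul_le_mul_of_nonneg_right ?_ (hlogp p (G1_sub L W F hp'))
    rw [G1_snd hp']
    have h8 : F.factorization p < 2 ^ (Nat.log 2 (F.factorization p) + 1) :=
      Nat.lt_pow_succ_log_self (by norm_num) _
    have h9 : F.factorization p ≤ 2 * 2 ^ Nat.log 2 (F.factorization p) := by
      rw [pow_succ] at h8
      omega
    exact_mod_cast h9
  rw [h6]
  linarith

/-- `v_p ≥ L / (16 W log p) ≥ L / (16 W log Z) ≥ 4`, so `Nat.log 2 v_p ≥ 2`. -/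
theorem four_le_key (L : ℝ) (W F Z : ℕ) (hF : F ≠ 0) (hW : 1 ≤ W)
    (hFZ : ∏ p ∈ F.primeFactors, p ≤ Z) (hL : 64 * (W : ℝ) * Real.log Z ≤ L) :
    ∀ p ∈ (key L W F).1, 4 ≤ 2 ^ (key L W F).2 p := by
  classical
  intro p hp'
  rw [G1_fst] at hp'
  have hW0 : (0 : ℝ) < W := by exact_mod_cast hW
  have hpF := G1_sub L W F hp'
  have hpp := Nat.prime_of_mem_primeFactors hpF
  have h1 : L / (16 * (W : ℝ)) ≤ (F.factorization p : ℝ) * Real.log p := by
    unfold hp at hp'
    exact (mem_filter.1 hp').2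
  have hpZ : p ≤ Z := by
    refine le_trans ?_ hFZ
    refine Nat.le_of_dvd (prod_pos fun q hq => (Nat.prime_of_mem_primeFactors hq).pos) ?_
    exact dvd_prod_of_mem (fun q => q) hpF
  have hp1 : (1 : ℝ) < p := by exact_mod_cast hpp.one_lt
  have hlp : 0 < Real.log p := Real.log_pos hp1
  have hlZ : Real.log p ≤ Real.log Z :=
    Real.log_le_log (by linarith) (by exact_mod_cast hpZ)
  have h2 : 4 * Real.log Z ≤ (F.factorization p : ℝ) * Real.log p := by
    refine le_trans ?_ h1
    rw [le_div_iff₀ (by positivity)]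
    linarith
  have h3 : (F.factorization p : ℝ) * Real.log p ≤ (F.factorization p : ℝ) * Real.log Z :=
    mul_le_mul_of_nonneg_left hlZ (Nat.cast_nonneg _)
  have h4 : (4 : ℝ) ≤ F.factorization p :=
    le_of_mul_le_mul_right (h2.trans h3) (lt_of_lt_of_le hlp hlZ)
  have h5 : 4 ≤ F.factorization p := by exact_mod_cast h4
  have h6 : 2 ≤ Nat.log 2 (F.factorization p) := by
    apply Nat.le_log_of_pow_le (by norm_num)
    norm_num
    exact h5
  rw [G1_snd hp']
  calc 4 = 2 ^ 2 := by norm_num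
    _ ≤ 2 ^ Nat.log 2 (F.factorization p) := Nat.pow_le_pow_right (by norm_num) h6

/-- `2^ω(F) ≤ rad F ≤ Z`. -/
theorem card_le_WW (Z F : ℕ) (hF : F ≠ 0) (hFZ : ∏ p ∈ F.primeFactors, p ≤ Z) :
    F.primeFactors.card ≤ WW Z := by
  have h1 : 2 ^ F.primeFactors.card ≤ ∏ p ∈ F.primeFactors, p := by
    rw [← prod_const]
    exact prod_le_prod' fun p hp' => (Nat.prime_of_mem_primeFactors hp').two_le
  have h2 : F.primeFactors.card ≤ Nat.log 2 Z :=
    Nat.le_log_of_pow_le (by norm_num) (h1.trans hFZ)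
  unfold WW
  omega

end Pool.RA
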