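import Pool.Agent.Helper44.RA.G0
import Pool.Agent.Helper44.RA.O1

/-! Project RA: the number of cells. -/

set_option autoImplicit false

namespace Pool.RA

open Finset

/-- PIECE RA-G2a (80 lines).  Fix the set `S'` of high primes.  For `p ∈ S'` let
`a p = Nat.log 2 ⌊L / log p⌋₊` and `v = v_p(F)`.  `v log p ≤ log F ≤ L` gives `Nat.log 2 v ≤ a p`;
`16 W v ≥ L / log p ≥ 2^(a p)`, `W < 2^(Nat.log 2 W + 1)`, `v < 2^(Nat.log 2 v + 1)` give
`a p - Nat.log 2 v ≤ 5 + Nat.log 2 W`.  So the map `key F ↦ (a p - key.2 p)_(p ∈ S')` into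
`S' → Fin (Nat.log 2 W + 6)` is injective on the keys with first component `S'`. -/
theorem key_fibre (L : ℝ) (hL : 0 < L) (W : ℕ) (hW : 1 ≤ W) (Fs : Finset ℕ)
    (hF : ∀ F ∈ Fs, F ≠ 0 ∧ Real.log F ≤ L) (S' : Finset ℕ) (K : Finset (Finset ℕ × (ℕ → ℕ)))
    (hK : ∀ κ ∈ K, κ.1 = S' ∧ ∃ F ∈ Fs, κ = key L W F) :
    K.card ≤ (Nat.log 2 W + 6) ^ S'.card := by
  classical
  set a : ℕ → ℕ := fun p => Nat.log 2 ⌊L / Real.log p⌋₊ with ha
  have main : ∀ κ ∈ K, (∀ p ∈ S', κ.2 p ≤ a p ∧ a p - κ.2 p < Nat.log 2 W + 6) ∧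
      ∀ p, p ∉ S' → κ.2 p = 0 := by
    intro κ hκ
    obtain ⟨h1, F, hFs, rfl⟩ := hK κ hκ
    obtain ⟨hF0, hFL⟩ := hF F hFs
    have hS : hp L W F = S' := h1
    have hk2 : ∀ p, (key L W F).2 p = if p ∈ S' then Nat.log 2 (F.factorization p) else 0 := by
      intro p
      rw [← hS]
      rfl
    constructor
    · intro p hpS
      rw [hk2, if_pos hpS]
      rw [← hS, hp, mem_filter] at hpS
      obtain ⟨hpF, hhi⟩ := hpS
      have hpp : p.Prime := Nat.prime_of_mem_primeFactors hpF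
      have hpd : p ∣ F := Nat.dvd_of_mem_primeFactors hpF
      set v := F.factorization p with hv
      have hv1 : 1 ≤ v := (hpp.dvd_iff_one_le_factorization hF0).1 hpd
      have hlp : 0 < Real.log p := Real.log_pos (by exact_mod_cast hpp.one_lt)
      have hvL : (v : ℝ) ≤ L / Real.log p := by
        rw [le_div_iff₀ hlp]
        have h2 : p ^ v ≤ F := Nat.le_of_dvd (Nat.pos_of_ne_zero hF0) (Nat.ordProj_dvd F p)
        have h3 : ((p : ℝ) ^ v) ≤ F := by exact_mod_cast h2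
        have h4 : Real.log ((p : ℝ) ^ v) ≤ Real.log F :=
          Real.log_le_log (pow_pos (by exact_mod_cast hpp.pos) _) h3
        rw [Real.log_pow] at h4
        linarith
      have hvA : v ≤ ⌊L / Real.log p⌋₊ := Nat.le_floor hvL
      refine ⟨Nat.log_mono_right hvA, ?_⟩
      have hA0 : ⌊L / Real.log p⌋₊ ≠ 0 := by omega
      have hAle : ⌊L / Real.log p⌋₊ ≤ 16 * W * v := by
        have hW0 : (0 : ℝ) < 16 * (W : ℝ) := by
          have : (1 : ℝ) ≤ W := by exact_mod_cast hW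
          linarith
        have h5 : L / Real.log p ≤ ((16 * W * v : ℕ) : ℝ) := by
          rw [div_le_iff₀ hlp]
          rw [div_le_iff₀ hW0] at hhi
          push_cast
          linarith
        exact Nat.floor_le_of_le h5
      have h6 : 2 ^ (a p) ≤ ⌊L / Real.log p⌋₊ := Nat.pow_log_le_self 2 hA0
      have h7 : W < 2 ^ (Nat.log 2 W + 1) := Nat.lt_pow_succ_log_self (by norm_num) W
      have h8 : v < 2 ^ (Nat.log 2 v + 1) := Nat.lt_pow_succ_log_self (by norm_num) v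
      have h9 : 2 ^ (a p) < 2 ^ (Nat.log 2 W + Nat.log 2 v + 6) := by
        calc 2 ^ (a p) ≤ 16 * W * v := h6.trans hAle
          _ = 16 * (W * v) := by ring
          _ < 16 * (2 ^ (Nat.log 2 W + 1) * 2 ^ (Nat.log 2 v + 1)) := by
              have h10 : W * v < 2 ^ (Nat.log 2 W + 1) * 2 ^ (Nat.log 2 v + 1) :=
                Nat.mul_lt_mul_of_lt_of_lt h7 h8
              omega
          _ = 2 ^ (Nat.log 2 W + Nat.log 2 v + 6) := by ring
      have h11 := (Nat.pow_lt_pow_iff_right (by norm_num : 1 < 2)).1 h9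
      omega
    · intro p hpS
      rw [hk2, if_neg hpS]
  have hcard : ((Fintype.piFinset fun _ : S' => range (Nat.log 2 W + 6)) :
      Finset (S' → ℕ)).card = (Nat.log 2 W + 6) ^ S'.card := by
    rw [Fintype.card_piFinset, prod_const, card_univ, card_range, Fintype.card_coe]
  rw [← hcard]
  refine card_le_card_of_injOn (fun κ (p : S') => a p - κ.2 p) ?_ ?_
  · intro κ hκ
    rw [mem_coe, Fintype.mem_piFinset]
    intro p
    rw [mem_range]
    exact ((main κ hκ).1 p p.2).2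
  · intro κ hκ κ' hκ' he
    have h1 := main κ hκ
    have h2 := main κ' hκ'
    apply Prod.ext
    · rw [(hK κ hκ).1, (hK κ' hκ').1]
    · funext p
      by_cases hp : p ∈ S'
      · have h3 := congrFun he ⟨p, hp⟩
        have h4 := (h1.1 p hp).1
        have h5 := (h2.1 p hp).1
        simp only at h3
        omega
      · rw [h1.2 p hp, h2.2 p hp]

/-- PIECE RA-G2b (90 lines).  The first component of a key is the set of prime factors of
`n = ∏ p ∈ S', p ≤ rad F ≤ √Z`, so it belongs to the image of `range (Nat.sqrt Z + 1)` under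
`Nat.primeFactors`: at most `√Z + 1 ≤ 2 Z^(1/2)` sets.  Each fibre has at most
`(Nat.log 2 (WW Z) + 6)^(#S') ≤ C Z^ε` elements (`key_fibre`, `pow_card_le_loglog`; note
`∏ p ∈ S', p ≤ √Z ≤ Z`).  The keys are elements of a type without computable equality: use
`Classical.decEq` (`open Classical in` is in the statement). -/
theorem key_count (ε : ℝ) (hε : 0 < ε) : ∃ C : ℝ, 1 ≤ C ∧ ∀ (Z : ℕ), 1 ≤ Z → ∀ (L : ℝ), 0 < L →
    ∀ Fs : Finset ℕ, (∀ F ∈ Fs, F ≠ 0 ∧ Real.log F ≤ L ∧ (∏ p ∈ F.primeFactors, p) ^ 2 ≤ Z) →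
    ∀ K : Finset (Finset ℕ × (ℕ → ℕ)), (∀ κ ∈ K, ∃ F ∈ Fs, κ = key L (WW Z) F) →
      (K.card : ℝ) ≤ C * (Z : ℝ) ^ (1 / 2 + ε) := by
  classical
  obtain ⟨C, hC1, hC⟩ := pow_card_le_loglog ε hε
  refine ⟨2 * C, by linarith, fun Z hZ L hL Fs hFs K hK => ?_⟩
  have hZ1 : (1 : ℝ) ≤ Z := by exact_mod_cast hZ
  have hZ0 : (0 : ℝ) < Z := by linarith
  -- properties of the first components
  have hfst : ∀ S' ∈ K.image Prod.fst, (∀ p ∈ S', p.Prime) ∧ (∏ p ∈ S', p) ≤ Nat.sqrt Z := by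
    intro S' hS'
    obtain ⟨κ, hκ, rfl⟩ := mem_image.1 hS'
    obtain ⟨F, hF, rfl⟩ := hK κ hκ
    have hsub : (key L (WW Z) F).1 ⊆ F.primeFactors := filter_subset _ _
    refine ⟨fun p hp => Nat.prime_of_mem_primeFactors (hsub hp), ?_⟩
    rw [Nat.le_sqrt']
    refine le_trans ?_ (hFs F hF).2.2
    refine Nat.pow_le_pow_left ?_ 2
    exact prod_le_prod_of_subset_of_one_le' hsub
      (fun p hp _ => (Nat.prime_of_mem_primeFactors hp).one_lt.le)
  have himg : (K.image Prod.fst).card ≤ Nat.sqrt Z + 1 := by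
    have h1 : K.image Prod.fst ⊆ (range (Nat.sqrt Z + 1)).image Nat.primeFactors := by
      intro S' hS'
      obtain ⟨h2, h3⟩ := hfst S' hS'
      rw [mem_image]
      exact ⟨∏ p ∈ S', p, mem_range.2 (by omega), Nat.primeFactors_prod h2⟩
    exact (card_le_card h1).trans (card_image_le.trans (card_range _).le)
  have hfib : ∀ S' ∈ K.image Prod.fst, ((K.filter fun κ => κ.1 = S').card : ℝ) ≤
      C * (Z : ℝ) ^ ε := by
    intro S' hS'
    obtain ⟨h2, h3⟩ := hfst S' hS'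
    have h4 : (K.filter fun κ => κ.1 = S').card ≤ (Nat.log 2 (WW Z) + 6) ^ S'.card := by
      refine key_fibre L hL (WW Z) (by unfold WW; omega) Fs
        (fun F hF => ⟨(hFs F hF).1, (hFs F hF).2.1⟩) S' _ ?_
      intro κ hκ
      rw [mem_filter] at hκ
      exact ⟨hκ.2, hK κ hκ.1⟩
    have h5 := hC Z hZ S' h2 (h3.trans (Nat.sqrt_le_self Z))
    calc ((K.filter fun κ => κ.1 = S').card : ℝ) ≤ (((Nat.log 2 (WW Z) + 6) ^ S'.card : ℕ) : ℝ) := by
          exact_mod_cast h4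
      _ = ((Nat.log 2 (Nat.log 2 Z + 1) + 6 : ℕ) : ℝ) ^ S'.card := by
          rw [Nat.cast_pow]
          rfl
      _ ≤ _ := h5
  have hsum : (K.card : ℝ) = ∑ S' ∈ K.image Prod.fst, ((K.filter fun κ => κ.1 = S').card : ℝ) := by
    rw [card_eq_sum_card_image Prod.fst K]
    push_cast
    rfl
  have hCZ : 0 ≤ C * (Z : ℝ) ^ ε := by positivity
  have hsq : ((Nat.sqrt Z + 1 : ℕ) : ℝ) ≤ 2 * (Z : ℝ) ^ (1 / 2 : ℝ) := by
    push_cast
    have h1 : (Nat.sqrt Z : ℝ) ≤ Real.sqrt Z := Real.nat_sqrt_le_real_sqrt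
    rw [Real.sqrt_eq_rpow] at h1
    have h2 : (1 : ℝ) ≤ (Z : ℝ) ^ (1 / 2 : ℝ) := Real.one_le_rpow hZ1 (by norm_num)
    linarith
  calc (K.card : ℝ) ≤ ∑ S' ∈ K.image Prod.fst, C * (Z : ℝ) ^ ε := by
        rw [hsum]
        exact sum_le_sum hfib
    _ = ((K.image Prod.fst).card : ℝ) * (C * (Z : ℝ) ^ ε) := by rw [sum_const, nsmul_eq_mul]
    _ ≤ (2 * (Z : ℝ) ^ (1 / 2 : ℝ)) * (C * (Z : ℝ) ^ ε) := by
        refine mul_le_mul_of_nonneg_right (le_trans ?_ hsq) hCZ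
        exact_mod_cast himg
    _ = 2 * C * (Z : ℝ) ^ (1 / 2 + ε) := by
        rw [Real.rpow_add hZ0]
        ring

end Pool.RA
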