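import Pool.Agent.Helper44.RA.G3

/-! Project RA: the number of triples of a given level, and Theorem A. -/

set_option autoImplicit false

namespace Pool.RA

open Finset

private theorem G4_rad_mul_le {u v n : ℕ} (huv : u.Coprime v) (hdvd : u * v ∣ n) (hn : n ≠ 0) :
    (∏ p ∈ u.primeFactors, p) * (∏ p ∈ v.primeFactors, p) ≤ ∏ p ∈ n.primeFactors, p := by
  classical
  have h0 : u * v ≠ 0 := fun h => hn (by rw [h] at hdvd; exact zero_dvd_iff.1 hdvd)
  have h1 : u.primeFactors ∪ v.primeFactors ⊆ n.primeFactors := by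
    intro p hp
    rw [Finset.mem_union] at hp
    rcases hp with hp | hp
    · exact Nat.primeFactors_mono ((Dvd.intro _ rfl).trans hdvd) hn hp
    · exact Nat.primeFactors_mono ((Dvd.intro_left _ rfl).trans hdvd) hn hp
  rw [← Finset.prod_union huv.disjoint_primeFactors]
  refine Nat.le_of_dvd ?_ (Finset.prod_dvd_prod_of_subset _ _ _ h1)
  exact Finset.prod_pos (fun p hp => Nat.pos_of_mem_primeFactors hp)

/-- PIECE RA-G4a (110 lines).  `L0` from `type_count`, `L1 = max L0 4`.  If `L < L1` all pairs lie in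
a box of side `exp L1`, a constant bound.  Otherwise split `T` into three parts:
`rad c ^ 2 ≤ Z`, mapped to `(c, a, b)`; `a ≤ b` and `rad b ^ 2 ≤ Z`, mapped to `(b, a, c)`;
`b < a` and `rad a ^ 2 ≤ Z`, mapped to `(a, b, c)` (one of the cases holds since
`rad c * rad (max a b) ≤ rad (abc) ≤ Z`, the entries being pairwise coprime).  `Typ`: `c ∣ a^2 - b^2`,
`b ∣ a^2 - c^2`, `a ∣ b^2 - c^2`; `max a b ≥ c/2`, `log (c/2) ≥ L/2 - log 2 ≥ L/4` as `L ≥ 4`.  The
maps are injective and satisfy the injectivity hypothesis of `type_count`.  Constant `3C` plus the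
box constant. -/
theorem level_count (κ : ℝ) (hκ : 0 < κ) (ε : ℝ) (hε : 0 < ε) : ∃ C : ℝ, 1 ≤ C ∧
    ∀ (Z : ℕ) (L : ℝ), 1 ≤ Z → (Z : ℝ) ^ κ ≤ L → ∀ T : Finset (ℕ × ℕ),
    (∀ t ∈ T, Good Z t ∧ L / 2 < Real.log ((t.1 + t.2 : ℕ) : ℝ) ∧
      Real.log ((t.1 + t.2 : ℕ) : ℝ) ≤ L) →
      (T.card : ℝ) ≤ C * (Z : ℝ) ^ (1 / 2 + ε) := by
  classical
  obtain ⟨C0, L0, hC0, hL0, hT0⟩ := type_count κ hκ ε hε
  set L1 : ℝ := max L0 4 with hL1
  set B : ℝ := (⌊Real.exp L1⌋₊ + 1 : ℝ) ^ 2 with hB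
  have hB0 : 0 ≤ B := by positivity
  refine ⟨3 * C0 + B, by linarith, ?_⟩
  intro Z L hZ hZL T hT
  have hZ1 : (1 : ℝ) ≤ (Z : ℝ) ^ (1 / 2 + ε) :=
    Real.one_le_rpow (by exact_mod_cast hZ) (by linarith)
  rcases lt_or_ge L L1 with hlt | hge
  · -- the box
    have hsub : T ⊆ (Finset.range (⌊Real.exp L1⌋₊ + 1)) ×ˢ (Finset.range (⌊Real.exp L1⌋₊ + 1)) := by
      intro t ht
      obtain ⟨hG, h1, h2⟩ := hT t ht
      have hc : 0 < t.1 + t.2 := Nat.add_pos_left hG.1 _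
      have h3 : ((t.1 + t.2 : ℕ) : ℝ) ≤ Real.exp L1 := by
        have h4 : Real.exp (Real.log ((t.1 + t.2 : ℕ) : ℝ)) = ((t.1 + t.2 : ℕ) : ℝ) :=
          Real.exp_log (by exact_mod_cast hc)
        rw [← h4]
        exact Real.exp_le_exp.2 (by linarith)
      have h5 : t.1 + t.2 ≤ ⌊Real.exp L1⌋₊ := Nat.le_floor h3
      rw [Finset.mem_product, Finset.mem_range, Finset.mem_range]
      omega
    have h6 := Finset.card_le_card hsub
    rw [Finset.card_product, Finset.card_range] at h6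
    have h7 : (T.card : ℝ) ≤ B := by
      have h8 : (T.card : ℝ) ≤ (((⌊Real.exp L1⌋₊ + 1) * (⌊Real.exp L1⌋₊ + 1) : ℕ) : ℝ) := by
        exact_mod_cast h6
      rw [hB]
      push_cast at h8
      nlinarith
    have h9 : B ≤ (3 * C0 + B) * (Z : ℝ) ^ (1 / 2 + ε) := by nlinarith
    linarith
  · have hLL0 : L0 ≤ L := (le_max_left _ _).trans hge
    have hL4 : 4 ≤ L := (le_max_right _ _).trans hge
    have hlog2 : Real.log 2 < 1 := by
      have := Real.log_two_lt_d9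
      linarith
    -- facts on one pair
    have hfac : ∀ t ∈ T, Z.succ ≠ 0 ∧ t.1.Coprime (t.1 + t.2) ∧ t.2.Coprime (t.1 + t.2) := by
      intro t ht
      obtain ⟨hG, -, -⟩ := hT t ht
      refine ⟨Nat.succ_ne_zero _, ?_, ?_⟩
      · simpa using hG.2.2.1
      · simpa using hG.2.2.1.symm
    set R : ℕ → ℕ := fun n => ∏ p ∈ n.primeFactors, p with hR
    set T1 := T.filter (fun t => R (t.1 + t.2) ^ 2 ≤ Z) with hT1
    set T2 := T.filter (fun t => t.1 ≤ t.2 ∧ R t.2 ^ 2 ≤ Z) with hT2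
    set T3 := T.filter (fun t => t.2 < t.1 ∧ R t.1 ^ 2 ≤ Z) with hT3
    have hcov : T ⊆ T1 ∪ (T2 ∪ T3) := by
      intro t ht
      obtain ⟨hG, -, -⟩ := hT t ht
      obtain ⟨-, hc1, hc2⟩ := hfac t ht
      have hpos : t.1 * t.2 * (t.1 + t.2) ≠ 0 := by
        have h1 := hG.1
        have h2 := hG.2.1
        positivity
      rw [Finset.mem_union, Finset.mem_union, hT1, hT2, hT3, Finset.mem_filter, Finset.mem_filter,
        Finset.mem_filter]
      by_contra hcon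
      push Not at hcon
      obtain ⟨h1, h2, h3⟩ := hcon
      have h1' := h1 ht
      have key : ∀ u : ℕ, u.Coprime (t.1 + t.2) → u * (t.1 + t.2) ∣ t.1 * t.2 * (t.1 + t.2) →
          Z < R u ^ 2 → False := by
        intro u hu hdvd hZu
        have h5 := G4_rad_mul_le hu hdvd hpos
        have h6 := hG.2.2.2
        have h7 : R u * R (t.1 + t.2) ≤ Z := h5.trans h6
        have h8 : Z * Z < R u ^ 2 * R (t.1 + t.2) ^ 2 := by
          exact Nat.mul_lt_mul'' hZu h1'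
        have h9 : R u ^ 2 * R (t.1 + t.2) ^ 2 ≤ Z * Z := by
          have h10 := Nat.mul_le_mul h7 h7
          calc R u ^ 2 * R (t.1 + t.2) ^ 2 = R u * R (t.1 + t.2) * (R u * R (t.1 + t.2)) := by ring
            _ ≤ Z * Z := h10
        omega
      rcases le_or_gt t.1 t.2 with hab | hab
      · exact key t.2 hc2 (mul_dvd_mul_right (Dvd.intro_left _ rfl) _) (h2 ht hab)
      · exact key t.1 hc1 (mul_dvd_mul_right (Dvd.intro _ rfl) _) (h3 ht hab)
    have hlogle : ∀ u v : ℕ, 0 < u → u ≤ v → Real.log (u : ℝ) ≤ Real.log (v : ℝ) := by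
      intro u v hu huv
      exact Real.log_le_log (by exact_mod_cast hu) (by exact_mod_cast huv)
    have hhalf : ∀ u v : ℕ, 0 < v → v ≤ 2 * u → L / 2 < Real.log (v : ℝ) →
        L / 4 ≤ Real.log (u : ℝ) := by
      intro u v hv huv hlv
      have hu : 0 < u := by omega
      have h1 := hlogle v (2 * u) hv huv
      rw [Nat.cast_mul, Real.log_mul (by norm_num) (by exact_mod_cast hu.ne')] at h1
      have h2 : Real.log ((2 : ℕ) : ℝ) = Real.log 2 := by norm_num
      rw [h2] at h1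
      linarith
    have b1 : (T1.card : ℝ) ≤ C0 * (Z : ℝ) ^ (1 / 2 + ε) := by
      have hinj : Set.InjOn (fun t : ℕ × ℕ => ((t.1 + t.2, t.1, t.2) : ℕ × ℕ × ℕ)) T1 := by
        intro t _ t' _ h
        simp only [Prod.mk.injEq] at h
        exact Prod.ext h.2.1 h.2.2
      rw [← Finset.card_image_of_injOn hinj]
      refine hT0 Z L hZ hZL hLL0 _ ?_ ?_
      · intro τ hτ
        obtain ⟨t, ht, rfl⟩ := Finset.mem_image.1 hτ
        rw [hT1, Finset.mem_filter] at ht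
        obtain ⟨htT, hr⟩ := ht
        obtain ⟨hG, hl1, hl2⟩ := hT t htT
        obtain ⟨-, hc1, hc2⟩ := hfac t htT
        obtain ⟨ha, hb, hab, hrad⟩ := hG
        refine ⟨by simp only; omega, ha, hb, hab, ?_, ?_, ?_, hr, ?_, hl2, ?_, ?_⟩
        · exact (Nat.Coprime.mul_left hc1 hc2).symm
        · refine ⟨(t.1 : ℤ) - t.2, ?_⟩
          push_cast
          ring
        · simp only
          rw [mul_comm (t.1 + t.2)]
          exact hrad
        · linarith
        · exact (hlogle t.1 (t.1 + t.2) ha (by omega)).trans hl2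
        · exact (hlogle t.2 (t.1 + t.2) hb (by omega)).trans hl2
      · intro τ hτ τ' hτ' h
        obtain ⟨t, ht, rfl⟩ := Finset.mem_image.1 hτ
        obtain ⟨t', ht', rfl⟩ := Finset.mem_image.1 hτ'
        simp only [Prod.mk.injEq] at h ⊢
        omega
    have b2 : (T2.card : ℝ) ≤ C0 * (Z : ℝ) ^ (1 / 2 + ε) := by
      have hinj : Set.InjOn (fun t : ℕ × ℕ => ((t.2, t.1, t.1 + t.2) : ℕ × ℕ × ℕ)) T2 := by
        intro t _ t' _ h
        simp only [Prod.mk.injEq] at h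
        exact Prod.ext h.2.1 h.1
      rw [← Finset.card_image_of_injOn hinj]
      refine hT0 Z L hZ hZL hLL0 _ ?_ ?_
      · intro τ hτ
        obtain ⟨t, ht, rfl⟩ := Finset.mem_image.1 hτ
        rw [hT2, Finset.mem_filter] at ht
        obtain ⟨htT, hle, hr⟩ := ht
        obtain ⟨hG, hl1, hl2⟩ := hT t htT
        obtain ⟨-, hc1, hc2⟩ := hfac t htT
        obtain ⟨ha, hb, hab, hrad⟩ := hG
        refine ⟨hb, ha, by simp only; omega, hc1, ?_, ?_, ?_, hr, ?_, ?_, ?_, hl2⟩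
        · exact Nat.Coprime.mul_right hab.symm hc2
        · refine ⟨-(2 * (t.1 : ℤ) + t.2), ?_⟩
          push_cast
          ring
        · simp only
          have h1 : t.2 * (t.1 * (t.1 + t.2)) = t.1 * t.2 * (t.1 + t.2) := by ring
          rw [h1]
          exact hrad
        · exact hhalf t.2 (t.1 + t.2) (by omega) (by omega) hl1
        · exact (hlogle t.2 (t.1 + t.2) hb (by omega)).trans hl2
        · exact (hlogle t.1 (t.1 + t.2) ha (by omega)).trans hl2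
      · intro τ hτ τ' hτ' h
        obtain ⟨t, ht, rfl⟩ := Finset.mem_image.1 hτ
        obtain ⟨t', ht', rfl⟩ := Finset.mem_image.1 hτ'
        simp only [Prod.mk.injEq] at h ⊢
        omega
    have b3 : (T3.card : ℝ) ≤ C0 * (Z : ℝ) ^ (1 / 2 + ε) := by
      have hinj : Set.InjOn (fun t : ℕ × ℕ => ((t.1, t.2, t.1 + t.2) : ℕ × ℕ × ℕ)) T3 := by
        intro t _ t' _ h
        simp only [Prod.mk.injEq] at h
        exact Prod.ext h.1 h.2.1
      rw [← Finset.card_image_of_injOn hinj]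
      refine hT0 Z L hZ hZL hLL0 _ ?_ ?_
      · intro τ hτ
        obtain ⟨t, ht, rfl⟩ := Finset.mem_image.1 hτ
        rw [hT3, Finset.mem_filter] at ht
        obtain ⟨htT, hle, hr⟩ := ht
        obtain ⟨hG, hl1, hl2⟩ := hT t htT
        obtain ⟨-, hc1, hc2⟩ := hfac t htT
        obtain ⟨ha, hb, hab, hrad⟩ := hG
        refine ⟨ha, hb, by simp only; omega, hc2, ?_, ?_, ?_, hr, ?_, ?_, ?_, hl2⟩
        · exact Nat.Coprime.mul_right hab hc1
        · refine ⟨-((t.1 : ℤ) + 2 * t.2), ?_⟩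
          push_cast
          ring
        · simp only
          have h1 : t.1 * (t.2 * (t.1 + t.2)) = t.1 * t.2 * (t.1 + t.2) := by ring
          rw [h1]
          exact hrad
        · exact hhalf t.1 (t.1 + t.2) (by omega) (by omega) hl1
        · exact (hlogle t.1 (t.1 + t.2) ha (by omega)).trans hl2
        · exact (hlogle t.2 (t.1 + t.2) hb (by omega)).trans hl2
      · intro τ hτ τ' hτ' h
        obtain ⟨t, ht, rfl⟩ := Finset.mem_image.1 hτ
        obtain ⟨t', ht', rfl⟩ := Finset.mem_image.1 hτ'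
        simp only [Prod.mk.injEq] at h ⊢
        omega
    have hcard : T.card ≤ T1.card + (T2.card + T3.card) :=
      (Finset.card_le_card hcov).trans
        ((Finset.card_union_le _ _).trans (Nat.add_le_add_left (Finset.card_union_le _ _) _))
    have hcardR : (T.card : ℝ) ≤ (T1.card : ℝ) + ((T2.card : ℝ) + (T3.card : ℝ)) := by
      exact_mod_cast hcard
    have h9 : 0 ≤ B * (Z : ℝ) ^ (1 / 2 + ε) := by positivity
    nlinarith

/-- PIECE RA-G4b (80 lines).  Split `T` by the natural number `j` with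
`2^(j-1) < log c ≤ 2^j`, i.e. `j = ⌈logb 2 (log c)⌉₊` when `log c > 1/2` (always, as `c ≥ 2` and
`log 2 > 1/2`): `0 ≤ j ≤ ⌈logb 2 Λ⌉₊`, at most `2 + logb 2 Λ ≤ 3 (1 + log Λ)` values; for each, apply
`level_count` with `L = 2^j ≥ log c ≥ Z^κ`. -/
theorem theoremA (κ : ℝ) (hκ : 0 < κ) (ε : ℝ) (hε : 0 < ε) : ∃ C : ℝ, 1 ≤ C ∧
    ∀ (Z : ℕ) (Λ : ℝ), 1 ≤ Z → 1 ≤ Λ → ∀ T : Finset (ℕ × ℕ),
    (∀ t ∈ T, Good Z t ∧ (Z : ℝ) ^ κ ≤ Real.log ((t.1 + t.2 : ℕ) : ℝ) ∧
      Real.log ((t.1 + t.2 : ℕ) : ℝ) ≤ Λ) →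
      (T.card : ℝ) ≤ C * (Z : ℝ) ^ (1 / 2 + ε) * (1 + Real.log Λ) := by
  obtain ⟨C, hC1, hC⟩ := level_count κ hκ ε hε
  refine ⟨3 * C, by linarith, ?_⟩
  intro Z Λ hZ hΛ T hT
  set J : ℕ × ℕ → ℕ := fun t => ⌈Real.logb 2 (Real.log ((t.1 + t.2 : ℕ) : ℝ))⌉₊ with hJ
  set N : ℕ := ⌈Real.logb 2 Λ⌉₊ with hN
  have hlog2 : (1 : ℝ) / 2 < Real.log 2 := by
    have := Real.log_two_gt_d9
    linarith
  -- the logarithm of `c` is larger than `1/2`
  have hc : ∀ t ∈ T, (1 : ℝ) / 2 < Real.log ((t.1 + t.2 : ℕ) : ℝ) := by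
    intro t ht
    obtain ⟨h1, h2, -, -⟩ := (hT t ht).1
    have h3 : (2 : ℝ) ≤ ((t.1 + t.2 : ℕ) : ℝ) := by
      exact_mod_cast (by omega : 2 ≤ t.1 + t.2)
    exact lt_of_lt_of_le hlog2 (Real.log_le_log (by norm_num) h3)
  have hup : ∀ t ∈ T, Real.log ((t.1 + t.2 : ℕ) : ℝ) ≤ (2 : ℝ) ^ J t := by
    intro t ht
    have h0 : 0 < Real.log ((t.1 + t.2 : ℕ) : ℝ) := by linarith [hc t ht]
    have h1 : Real.logb 2 (Real.log ((t.1 + t.2 : ℕ) : ℝ)) ≤ (J t : ℝ) := Nat.le_ceil _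
    rw [Real.logb_le_iff_le_rpow (by norm_num) h0, Real.rpow_natCast] at h1
    exact h1
  have hlo : ∀ t ∈ T, (2 : ℝ) ^ J t / 2 < Real.log ((t.1 + t.2 : ℕ) : ℝ) := by
    intro t ht
    have h0 : 0 < Real.log ((t.1 + t.2 : ℕ) : ℝ) := by linarith [hc t ht]
    rcases Nat.eq_zero_or_pos (J t) with h | h
    · rw [h, pow_zero]
      exact hc t ht
    · have h1 : J t - 1 < J t := by omega
      have h2 : ((J t - 1 : ℕ) : ℝ) < Real.logb 2 (Real.log ((t.1 + t.2 : ℕ) : ℝ)) := by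
        rw [hJ] at h1
        exact Nat.lt_ceil.1 h1
      rw [Real.lt_logb_iff_rpow_lt (by norm_num) h0, Real.rpow_natCast] at h2
      have h3 : (2 : ℝ) ^ J t = 2 * 2 ^ (J t - 1) := by
        rw [← pow_succ']
        congr 1
        omega
      rw [h3]
      linarith
  have hJN : ∀ t ∈ T, J t ∈ Finset.range (N + 1) := by
    intro t ht
    rw [Finset.mem_range, Nat.lt_succ_iff]
    have h0 : 0 < Real.log ((t.1 + t.2 : ℕ) : ℝ) := by linarith [hc t ht]
    exact Nat.ceil_mono (Real.logb_le_logb_of_le (by norm_num) h0 (hT t ht).2.2)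
  have hfib : ∀ j ∈ Finset.range (N + 1),
      ((T.filter (fun t => J t = j)).card : ℝ) ≤ C * (Z : ℝ) ^ (1 / 2 + ε) := by
    intro j _
    rcases (T.filter (fun t => J t = j)).eq_empty_or_nonempty with h | ⟨t0, ht0⟩
    · rw [h, Finset.card_empty, Nat.cast_zero]
      positivity
    · rw [Finset.mem_filter] at ht0
      refine hC Z ((2 : ℝ) ^ j) hZ ?_ _ ?_
      · have h1 := hup t0 ht0.1
        rw [ht0.2] at h1
        exact (hT t0 ht0.1).2.1.trans h1
      · intro t ht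
        rw [Finset.mem_filter] at ht
        have h1 := hup t ht.1
        have h2 := hlo t ht.1
        rw [ht.2] at h1 h2
        exact ⟨(hT t ht.1).1, h2, h1⟩
  have hcard : (T.card : ℝ) ≤ ((N + 1 : ℕ) : ℝ) * (C * (Z : ℝ) ^ (1 / 2 + ε)) := by
    rw [Finset.card_eq_sum_card_fiberwise hJN, Nat.cast_sum]
    refine (Finset.sum_le_sum hfib).trans ?_
    rw [Finset.sum_const, Finset.card_range, nsmul_eq_mul]
  have hlΛ : 0 ≤ Real.log Λ := Real.log_nonneg hΛ
  have hN1 : ((N + 1 : ℕ) : ℝ) ≤ 3 * (1 + Real.log Λ) := by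
    have h1 : 0 ≤ Real.logb 2 Λ := Real.logb_nonneg (by norm_num) hΛ
    have h2 : (N : ℝ) < Real.logb 2 Λ + 1 := Nat.ceil_lt_add_one h1
    have h3 : Real.logb 2 Λ ≤ 2 * Real.log Λ := by
      rw [Real.logb, div_le_iff₀ (by linarith)]
      nlinarith
    push_cast
    linarith
  calc (T.card : ℝ) ≤ ((N + 1 : ℕ) : ℝ) * (C * (Z : ℝ) ^ (1 / 2 + ε)) := hcard
    _ ≤ (3 * (1 + Real.log Λ)) * (C * (Z : ℝ) ^ (1 / 2 + ε)) := by
        refine mul_le_mul_of_nonneg_right hN1 ?_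
        positivity
    _ = 3 * C * (Z : ℝ) ^ (1 / 2 + ε) * (1 + Real.log Λ) := by ring

end Pool.RA
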