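import Pool.Agent.Helper44.RA.G2

/-! Project RA: the number of cells when `rad F ≤ Y`. -/

set_option autoImplicit false

namespace Pool.RA

open Finset

/-- PIECE RA-H2 (80 lines; copy the proof of `key_count` in file G2).  The first component of a key
is the set of prime factors of `n = ∏ p ∈ S', p ≤ rad F ≤ Y ≤ Z`: at most `Y + 1 ≤ 2 Y` sets. -/
theorem key_countY (ε : ℝ) (hε : 0 < ε) : ∃ C : ℝ, 1 ≤ C ∧ ∀ (Z Y : ℕ), 1 ≤ Y → Y ≤ Z →
    ∀ (L : ℝ), 0 < L →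
    ∀ Fs : Finset ℕ, (∀ F ∈ Fs, F ≠ 0 ∧ Real.log F ≤ L ∧ (∏ p ∈ F.primeFactors, p) ≤ Y) →
    ∀ K : Finset (Finset ℕ × (ℕ → ℕ)), (∀ κ ∈ K, ∃ F ∈ Fs, κ = key L (WW Z) F) →
      (K.card : ℝ) ≤ C * (Y : ℝ) * (Z : ℝ) ^ ε := by
  classical
  obtain ⟨C, hC1, hC⟩ := pow_card_le_loglog ε hε
  refine ⟨2 * C, by linarith, fun Z Y hY hYZ L hL Fs hFs K hK => ?_⟩
  have hZ : 1 ≤ Z := hY.trans hYZ
  have hY1 : (1 : ℝ) ≤ Y := by exact_mod_cast hY
  -- properties of the first components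
  have hfst : ∀ S' ∈ K.image Prod.fst, (∀ p ∈ S', p.Prime) ∧ (∏ p ∈ S', p) ≤ Y := by
    intro S' hS'
    obtain ⟨κ, hκ, rfl⟩ := mem_image.1 hS'
    obtain ⟨F, hF, rfl⟩ := hK κ hκ
    have hsub : (key L (WW Z) F).1 ⊆ F.primeFactors := filter_subset _ _
    refine ⟨fun p hp => Nat.prime_of_mem_primeFactors (hsub hp), ?_⟩
    refine le_trans ?_ (hFs F hF).2.2
    exact prod_le_prod_of_subset_of_one_le' hsub
      (fun p hp _ => (Nat.prime_of_mem_primeFactors hp).one_lt.le)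
  have himg : (K.image Prod.fst).card ≤ Y + 1 := by
    have h1 : K.image Prod.fst ⊆ (range (Y + 1)).image Nat.primeFactors := by
      intro S' hS'
      obtain ⟨h2, h3⟩ := hfst S' hS'
      rw [mem_image]
      exact ⟨∏ p ∈ S', p, mem_range.2 (by omega), Nat.primeFactors_prod h2⟩
    exact (card_le_card h1).trans (card_image_le.trans (card_range _).le)
  have hfib : ∀ S' ∈ K.image Prod.fst, ((K.filter fun κ => κ.1 = S').card : ℝ) ≤
      C * (Z : ℝ) ^ ε := by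
    intro S' hS'
    obtain ⟨h2, h3⟩ := hfst S' hS'
    have h4 : (K.filter fun κ => κ.1 = S').card ≤ (Nat.log 2 (WW Z) + 6) ^ S'.card := by
      refine key_fibre L hL (WW Z) (by unfold WW; omega) Fs
        (fun F hF => ⟨(hFs F hF).1, (hFs F hF).2.1⟩) S' _ ?_
      intro κ hκ
      rw [mem_filter] at hκ
      exact ⟨hκ.2, hK κ hκ.1⟩
    have h5 := hC Z hZ S' h2 (h3.trans hYZ)
    calc ((K.filter fun κ => κ.1 = S').card : ℝ) ≤ (((Nat.log 2 (WW Z) + 6) ^ S'.card : ℕ) : ℝ) := by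
          exact_mod_cast h4
      _ = ((Nat.log 2 (Nat.log 2 Z + 1) + 6 : ℕ) : ℝ) ^ S'.card := by
          rw [Nat.cast_pow]
          rfl
      _ ≤ _ := h5
  have hsum : (K.card : ℝ) = ∑ S' ∈ K.image Prod.fst, ((K.filter fun κ => κ.1 = S').card : ℝ) := by
    rw [card_eq_sum_card_image Prod.fst K]
    push_cast
    rfl
  have hCZ : 0 ≤ C * (Z : ℝ) ^ ε := by positivity
  have hsq : ((Y + 1 : ℕ) : ℝ) ≤ 2 * (Y : ℝ) := by
    push_cast
    linarith
  calc (K.card : ℝ) ≤ ∑ S' ∈ K.image Prod.fst, C * (Z : ℝ) ^ ε := by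
        rw [hsum]
        exact sum_le_sum hfib
    _ = ((K.image Prod.fst).card : ℝ) * (C * (Z : ℝ) ^ ε) := by rw [sum_const, nsmul_eq_mul]
    _ ≤ (2 * (Y : ℝ)) * (C * (Z : ℝ) ^ ε) := by
        refine mul_le_mul_of_nonneg_right (le_trans ?_ hsq) hCZ
        exact_mod_cast himg
    _ = 2 * C * (Y : ℝ) * (Z : ℝ) ^ ε := by ring

end Pool.RA
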