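import Pool.Agent.Helper44.RA.H2
import Pool.Agent.Helper44.RA.G3

/-! Project RA: the number of relations of a given type and level, `rad F ≤ Y`. -/

set_option autoImplicit false

namespace Pool.RA

open Finset

/-- A relation `E1 ≡ ± E2` modulo `F`, with `F` large and `rad F ≤ Y`. -/
def TypY (Z Y : ℕ) (L : ℝ) (τ : ℕ × ℕ × ℕ) : Prop :=
  0 < τ.1 ∧ 0 < τ.2.1 ∧ 0 < τ.2.2 ∧ τ.2.1.Coprime τ.2.2 ∧ τ.1.Coprime (τ.2.1 * τ.2.2) ∧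
    ((τ.1 : ℤ) ∣ (τ.2.1 : ℤ) ^ 2 - (τ.2.2 : ℤ) ^ 2) ∧
    (∏ p ∈ (τ.1 * (τ.2.1 * τ.2.2)).primeFactors, p) ≤ Z ∧
    (∏ p ∈ τ.1.primeFactors, p) ≤ Y ∧
    L / 4 ≤ Real.log τ.1 ∧ Real.log τ.1 ≤ L ∧ Real.log τ.2.1 ≤ L ∧ Real.log τ.2.2 ≤ L

/-- A power of `1 + log Z` is at most a constant times `Z^δ`. -/
private theorem h3_log_pow (t : ℕ) (ε : ℝ) (hε : 0 < ε) : ∃ C : ℝ, 1 ≤ C ∧ ∀ Z : ℕ, 1 ≤ Z →
    (1 + Real.log Z) ^ t ≤ C * (Z : ℝ) ^ ε := by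
  set δ : ℝ := ε / (t + 1) with hδ
  have hδ0 : 0 < δ := by positivity
  refine ⟨(1 + 1 / δ) ^ t, one_le_pow₀ (by linarith [one_div_pos.2 hδ0]), fun Z hZ => ?_⟩
  have hZ1 : (1 : ℝ) ≤ Z := by exact_mod_cast hZ
  have hlog : 0 ≤ Real.log Z := Real.log_nonneg hZ1
  have h1 : Real.log Z ≤ (Z : ℝ) ^ δ / δ := Real.log_le_rpow_div (by linarith) hδ0
  have h2 : (1 : ℝ) ≤ (Z : ℝ) ^ δ := Real.one_le_rpow hZ1 hδ0.le
  calc (1 + Real.log Z) ^ t ≤ ((1 + 1 / δ) * (Z : ℝ) ^ δ) ^ t := by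
        refine pow_le_pow_left₀ (by linarith) ?_ t
        calc 1 + Real.log Z ≤ (Z : ℝ) ^ δ + (Z : ℝ) ^ δ / δ := by linarith
          _ = (1 + 1 / δ) * (Z : ℝ) ^ δ := by ring
    _ = (1 + 1 / δ) ^ t * (Z : ℝ) ^ (δ * t) := by
        rw [mul_pow, ← Real.rpow_mul_natCast (by linarith)]
    _ ≤ (1 + 1 / δ) ^ t * (Z : ℝ) ^ ε := by
        refine mul_le_mul_of_nonneg_left (Real.rpow_le_rpow_of_exponent_le hZ1 ?_) (by positivity)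
        rw [hδ, div_mul_eq_mul_div, div_le_iff₀ (by positivity)]
        nlinarith [hε.le]

private theorem h3_key_sub (L : ℝ) (W F : ℕ) : (key L W F).1 ⊆ F.primeFactors :=
  filter_subset _ _

/-- The bound for one fibre. -/
private theorem h3_fibre (κ : ℝ) (I0 Cc : ℝ)
    (hcell : ∀ (Z : ℕ), 1 ≤ Z →
    ∀ (S : Finset ℕ), (∀ p ∈ S, p.Prime) → ∀ (m : ℕ → ℕ), (∀ p ∈ S, 4 ≤ m p) →
    ∏ p ∈ S, p ≤ Z → I0 ≤ Real.log ((∏ p ∈ S, p ^ m p : ℕ) : ℝ) →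
    (Z : ℝ) ^ (κ / 2) ≤ Real.log ((∏ p ∈ S, p ^ m p : ℕ) : ℝ) →
    ∀ T : Finset (ℕ × ℕ), (∀ E ∈ T, Adm Z S E) →
    (∀ E ∈ T, ((∏ p ∈ S, p ^ m p : ℕ) : ℤ) ∣ (E.1 : ℤ) ^ 2 - (E.2 : ℤ) ^ 2) →
    (∀ E ∈ T, 2 * (Real.log E.1 + Real.log E.2) ≤
      43 * Real.log ((∏ p ∈ S, p ^ m p : ℕ) : ℝ)) →
    (T.card : ℝ) ≤ Cc * (1 + Real.log Z) ^ tt (κ / 2))
    (Z Y : ℕ) (L : ℝ) (hZ : 1 ≤ Z) (hYZ : Y ≤ Z) (hL : 0 ≤ L)
    (h1 : (Z : ℝ) ^ (κ / 2) ≤ 3 * L / 32) (h2 : I0 ≤ 3 * L / 32)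
    (h3 : 64 * (WW Z : ℝ) * Real.log Z ≤ L)
    (k0 : Finset ℕ × (ℕ → ℕ)) (T : Finset (ℕ × ℕ × ℕ)) (hne : T.Nonempty)
    (hT : ∀ τ ∈ T, TypY Z Y L τ) (hk : ∀ τ ∈ T, key L (WW Z) τ.1 = k0)
    (hinj : ∀ τ ∈ T, ∀ τ' ∈ T, τ.2 = τ'.2 → τ = τ') :
    (T.card : ℝ) ≤ Cc * (1 + Real.log Z) ^ tt (κ / 2) := by
  classical
  have hWW : 1 ≤ WW Z := by unfold WW; omega
  obtain ⟨τ0, hτ0⟩ := hne
  have hcard : (T.image Prod.snd).card = T.card :=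
    card_image_of_injOn fun τ hτ τ' hτ' h => hinj τ hτ τ' hτ' h
  have hty0 := hT τ0 hτ0
  have hF0 : τ0.1 ≠ 0 := hty0.1.ne'
  have hrad0 : ∏ p ∈ τ0.1.primeFactors, p ≤ Z := hty0.2.2.2.2.2.2.2.1.trans hYZ
  have hsub0 : k0.1 ⊆ τ0.1.primeFactors := by rw [← hk τ0 hτ0]; exact h3_key_sub _ _ _
  have hlogM : 3 * L / 32 ≤ Real.log ((∏ p ∈ k0.1, p ^ (2 ^ k0.2 p) : ℕ) : ℝ) := by
    have := key_log L hL (WW Z) τ0.1 hF0 hWW (card_le_WW Z τ0.1 hF0 hrad0)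
      hty0.2.2.2.2.2.2.2.2.1
    rwa [hk τ0 hτ0] at this
  rw [← hcard]
  refine hcell Z hZ k0.1 (fun p hp => Nat.prime_of_mem_primeFactors (hsub0 hp))
    (fun p => 2 ^ k0.2 p) ?_ ?_ (h2.trans hlogM) (h1.trans hlogM) (T.image Prod.snd) ?_ ?_ ?_
  · have := four_le_key L (WW Z) τ0.1 Z hF0 hWW hrad0 h3
    rwa [hk τ0 hτ0] at this
  · refine le_trans ?_ hrad0
    exact prod_le_prod_of_subset_of_one_le' hsub0
      fun p hp _ => (Nat.prime_of_mem_primeFactors hp).one_lt.le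
  · intro E hE
    obtain ⟨τ, hτ, rfl⟩ := mem_image.1 hE
    obtain ⟨hF, hE1, hE2, hco, hFE, -, hrad, -, -, -, -, -⟩ := hT τ hτ
    refine ⟨hE1, hE2, hco, fun p hp hpE => ?_, ?_⟩
    · have hp' : p ∈ τ.1.primeFactors := by
        have : k0.1 ⊆ τ.1.primeFactors := by rw [← hk τ hτ]; exact h3_key_sub _ _ _
        exact this hp
      have hpr := Nat.prime_of_mem_primeFactors hp'
      have hd := Nat.dvd_gcd (Nat.dvd_of_mem_primeFactors hp') hpE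
      rw [hFE] at hd
      exact hpr.one_lt.ne' (Nat.dvd_one.1 hd)
    · refine le_trans ?_ hrad
      refine prod_le_prod_of_subset_of_one_le' ?_
        fun p hp _ => (Nat.prime_of_mem_primeFactors hp).one_lt.le
      exact Nat.primeFactors_mono (Dvd.intro_left _ rfl) (by positivity)
  · intro E hE
    obtain ⟨τ, hτ, rfl⟩ := mem_image.1 hE
    obtain ⟨hF, hE1, hE2, hco, hFE, hdvd, -⟩ := hT τ hτ
    have h4 := key_dvd L (WW Z) τ.1 hF.ne'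
    rw [hk τ hτ] at h4
    exact (Int.natCast_dvd_natCast.2 h4).trans hdvd
  · intro E hE
    obtain ⟨τ, hτ, rfl⟩ := mem_image.1 hE
    obtain ⟨-, -, -, -, -, -, -, -, -, -, h5, h6⟩ := hT τ hτ
    linarith

/-- PIECE RA-H3 (110 lines; copy the proof of `type_count` in file G3, with `key_countY` in place of
`key_count`). -/
theorem type_countY (κ : ℝ) (hκ : 0 < κ) (ε : ℝ) (hε : 0 < ε) : ∃ C L0 : ℝ, 1 ≤ C ∧ 1 ≤ L0 ∧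
    ∀ (Z Y : ℕ) (L : ℝ), 1 ≤ Y → Y ≤ Z → (Z : ℝ) ^ κ ≤ L → L0 ≤ L →
    ∀ T : Finset (ℕ × ℕ × ℕ),
    (∀ τ ∈ T, TypY Z Y L τ) → (∀ τ ∈ T, ∀ τ' ∈ T, τ.2 = τ'.2 → τ = τ') →
      (T.card : ℝ) ≤ C * (Y : ℝ) * (Z : ℝ) ^ ε := by
  classical
  obtain ⟨I0, Cc, hI0, hCc, hcell⟩ := cell_count (κ / 2) (by positivity)
  obtain ⟨L0, hL0, hlev⟩ := level_num κ hκ I0
  obtain ⟨Ck, hCk, hkey⟩ := key_countY (ε / 2) (by positivity)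
  obtain ⟨Cl, hCl, hlog⟩ := h3_log_pow (tt (κ / 2)) (ε / 2) (by positivity)
  refine ⟨Ck * (Cc * Cl), L0, one_le_mul_of_one_le_of_one_le hCk
    (one_le_mul_of_one_le_of_one_le hCc hCl), hL0, fun Z Y L hY hYZ hZL hL T hT hinj => ?_⟩
  have hZ : 1 ≤ Z := hY.trans hYZ
  obtain ⟨h1, h2, h3⟩ := hlev Z L hZ hZL hL
  have hZ1 : (1 : ℝ) ≤ Z := by exact_mod_cast hZ
  have hZ0 : (0 : ℝ) < Z := by linarith
  have hLpos : 0 < L := by linarith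
  have hlogZ : 0 ≤ Real.log Z := Real.log_nonneg hZ1
  set B : ℝ := Cc * (1 + Real.log Z) ^ tt (κ / 2) with hB
  have hB0 : 0 ≤ B := by positivity
  have hfib : ∀ k0 ∈ T.image (fun τ => key L (WW Z) τ.1),
      (T.filter (fun τ => key L (WW Z) τ.1 = k0)).card ≤ ⌊B⌋₊ := by
    intro k0 hk0
    obtain ⟨τ0, hτ0, hk⟩ := mem_image.1 hk0
    refine Nat.le_floor ?_
    exact h3_fibre κ I0 Cc hcell Z Y L hZ hYZ hLpos.le h1 h2 h3 k0 _ ⟨τ0, mem_filter.2 ⟨hτ0, hk⟩⟩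
      (fun τ hτ => hT τ (mem_filter.1 hτ).1) (fun τ hτ => (mem_filter.1 hτ).2)
      (fun τ hτ τ' hτ' => hinj τ (mem_filter.1 hτ).1 τ' (mem_filter.1 hτ').1)
  have hcard := card_le_mul_card_image T ⌊B⌋₊ hfib
  have hkeys : (((T.image (fun τ => key L (WW Z) τ.1)).card : ℕ) : ℝ) ≤
      Ck * (Y : ℝ) * (Z : ℝ) ^ (ε / 2) := by
    refine hkey Z Y hY hYZ L hLpos (T.image Prod.fst) ?_ _ ?_
    · intro F hF
      obtain ⟨τ, hτ, rfl⟩ := mem_image.1 hF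
      obtain ⟨hF0, -, -, -, -, -, -, hr, -, hl, -, -⟩ := hT τ hτ
      exact ⟨hF0.ne', hl, hr⟩
    · intro k hk
      obtain ⟨τ, hτ, rfl⟩ := mem_image.1 hk
      exact ⟨τ.1, mem_image_of_mem _ hτ, rfl⟩
  calc (T.card : ℝ) ≤ ((⌊B⌋₊ * (T.image (fun τ => key L (WW Z) τ.1)).card : ℕ) : ℝ) := by
        exact_mod_cast hcard
    _ = (⌊B⌋₊ : ℝ) * (((T.image (fun τ => key L (WW Z) τ.1)).card : ℕ) : ℝ) := by push_cast; rfl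
    _ ≤ B * (Ck * (Y : ℝ) * (Z : ℝ) ^ (ε / 2)) :=
        mul_le_mul (Nat.floor_le hB0) hkeys (by positivity) hB0
    _ ≤ (Cc * (Cl * (Z : ℝ) ^ (ε / 2))) * (Ck * (Y : ℝ) * (Z : ℝ) ^ (ε / 2)) := by
        refine mul_le_mul_of_nonneg_right ?_ (by positivity)
        exact mul_le_mul_of_nonneg_left (hlog Z hZ) (by linarith)
    _ = Ck * (Cc * Cl) * (Y : ℝ) * ((Z : ℝ) ^ (ε / 2) * (Z : ℝ) ^ (ε / 2)) := by ring
    _ = Ck * (Cc * Cl) * (Y : ℝ) * (Z : ℝ) ^ ε := by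
        rw [← Real.rpow_add hZ0]
        congr 2
        ring

end Pool.RA
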