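import Pool.Agent.Helper44.RA.Base

/-! Project RA: independent integer vectors have a nonzero minor. -/

set_option autoImplicit false

namespace Pool.RA

open Finset

variable {ι : Type} [Fintype ι]

/-- PIECE RA-J1 (60 lines).  Let `c_i = (k_l(i))_l ∈ ℝ^t` be the columns.  They span `ℝ^t`: otherwise
a nonzero linear functional `α` vanishes on all of them, `∑ α_l k_l = 0`, contradicting the
independence.  So some `t` of the columns form a basis (`exists_linearIndependent` applied to the
range of the columns, cardinality `finrank = t`), and their determinant is not `0`.  (Alternatively: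
the `t × ι` matrix has rank `t`, so its transpose has rank `t`, etc.) -/
theorem exists_minor {t : ℕ} (k : Fin t → ι → ℤ)
    (hk : LinearIndependent ℝ (fun l : Fin t => fun i : ι => (k l i : ℝ))) :
    ∃ J : Fin t → ι, (Matrix.of fun l j => k l (J j)).det ≠ 0 := by
  classical
  set A : Matrix (Fin t) ι ℝ := Matrix.of fun l i => (k l i : ℝ) with hA
  have hr : A.rank = t := by
    have h1 : LinearIndependent ℝ A.row := hk
    have h2 := h1.rank_matrix
    rwa [Fintype.card_fin] at h2
  rw [Matrix.rank_eq_finrank_span_cols] at hr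
  have key : ∀ s : ℕ, Module.finrank ℝ (Submodule.span ℝ (Set.range A.col)) = s →
      ∃ f : Fin s → (Fin t → ℝ), (∀ i, f i ∈ Set.range A.col) ∧ LinearIndependent ℝ f := by
    intro s hs
    subst hs
    obtain ⟨f, hf1, -, hf3⟩ := Submodule.exists_fun_fin_finrank_span_eq ℝ (Set.range A.col)
    exact ⟨f, hf1, hf3⟩
  obtain ⟨f, hf1, hf3⟩ := key t hr
  choose J hJ using hf1
  refine ⟨J, ?_⟩
  have h1 : LinearIndependent ℝ (Matrix.of fun (l j : Fin t) => (k l (J j) : ℝ)).col := by
    have e : (Matrix.of fun (l j : Fin t) => (k l (J j) : ℝ)).col = f := by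
      funext j
      rw [← hJ j]
      rfl
    rw [e]; exact hf3
  rw [Matrix.linearIndependent_cols_iff_isUnit, Matrix.isUnit_iff_isUnit_det] at h1
  intro h0
  have h2 : (Matrix.of fun (l j : Fin t) => (k l (J j) : ℝ)).det =
      (((Matrix.of fun l j => k l (J j)).det : ℤ) : ℝ) := by
    have h3 := (Int.castRingHom ℝ).map_det (Matrix.of fun l j => k l (J j))
    rw [eq_intCast] at h3
    rw [h3]
    rfl
  rw [h2, h0, Int.cast_zero] at h1
  exact not_isUnit_zero h1

end Pool.RA
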