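import Mathlib

/-! Project RA: the parameters. -/

set_option autoImplicit false

namespace Pool.RA

/-- Number of independent vectors. -/
noncomputable def tt (κ : ℝ) : ℕ := 17 + ⌈3 / κ⌉₊

/-- First box parameter. -/
noncomputable def K0 (κ : ℝ) : ℕ := 5504 * tt κ

/-- Second box parameter. -/
noncomputable def KK (κ : ℝ) : ℕ := ⌈16 * (tt κ : ℝ) * (K0 κ : ℝ) ^ tt κ / κ⌉₊ + 1

/-- Degree of the auxiliary polynomials. -/
noncomputable def AA (I : ℝ) : ℕ := ⌊I / (16 * Real.log I)⌋₊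

/-- Size of the first pigeonhole. -/
noncomputable def A1 (κ I : ℝ) : ℕ := ⌊κ * I / (4 * (tt κ : ℝ) ^ 2 * Real.log I)⌋₊

/-- Size of the second pigeonhole. -/
noncomputable def NN (κ I : ℝ) : ℕ := ⌊κ * (KK κ : ℝ) * I / (128 * (tt κ : ℝ) * Real.log I)⌋₊

end Pool.RA
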