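import Pool.Agent.Helper44.RA.N0

/-! Project RA: inequalities between the parameters, I. -/

set_option autoImplicit false

namespace Pool.RA

open Filter

private theorem N1_ev (c : ℝ) (hc : 0 < c) :
    ∀ᶠ I : ℝ in atTop, 0 < Real.log I ∧ Real.log I ≤ c * I := by
  have h1 := (Real.isLittleO_log_id_atTop).bound hc
  filter_upwards [h1, eventually_gt_atTop (1 : ℝ)] with I h2 h3
  have h4 : 0 < Real.log I := Real.log_pos h3
  refine ⟨h4, ?_⟩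
  rw [Real.norm_eq_abs, Real.norm_eq_abs, abs_of_pos h4, id, abs_of_pos (by linarith)] at h2
  exact h2

private theorem N1_log (I : ℝ) (hI : Real.exp 1 ≤ I) : 1 ≤ Real.log I ∧ 0 < I := by
  have h1 : 0 < I := (Real.exp_pos 1).trans_le hI
  exact ⟨(Real.le_log_iff_exp_le h1).2 hI, h1⟩

private theorem N1_tt (κ : ℝ) : (0 : ℝ) < tt κ := by
  unfold tt
  positivity

private theorem N1_K0 (κ : ℝ) : (K0 κ : ℝ) = 5504 * (tt κ : ℝ) := by
  unfold K0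
  push_cast
  rfl

private theorem N1_KK (κ : ℝ) :
    16 * (tt κ : ℝ) * (K0 κ : ℝ) ^ tt κ / κ ≤ (KK κ : ℝ) ∧ (0 : ℝ) < KK κ := by
  unfold KK
  push_cast
  have h1 := Nat.le_ceil (16 * (tt κ : ℝ) * (K0 κ : ℝ) ^ tt κ / κ)
  constructor
  · linarith
  · positivity

/-- PIECE RA-N1 (the whole file, 90 lines).  All parameters tend to infinity. -/
theorem ev_AA : ∀ᶠ I : ℝ in atTop, 1 ≤ AA I := by
  filter_upwards [N1_ev (1 / 16) (by norm_num)] with I h1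
  unfold AA
  rw [Nat.one_le_floor_iff, le_div_iff₀ (by linarith [h1.1])]
  linarith [h1.2]

theorem ev_NN (κ : ℝ) (hκ : 0 < κ) : ∀ᶠ I : ℝ in atTop, 1 ≤ NN κ I := by
  have ht := N1_tt κ
  have hK := (N1_KK κ).2
  filter_upwards [N1_ev (κ * (KK κ : ℝ) / (128 * (tt κ : ℝ))) (by positivity)] with I h1
  unfold NN
  have h2 := h1.1
  rw [Nat.one_le_floor_iff, le_div_iff₀ (by positivity), one_mul]
  have h3 := mul_le_mul_of_nonneg_left h1.2 (show (0 : ℝ) ≤ 128 * (tt κ : ℝ) by positivity)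
  have h4 : 128 * (tt κ : ℝ) * (κ * (KK κ : ℝ) / (128 * (tt κ : ℝ)) * I) =
      κ * (KK κ : ℝ) * I := by
    field_simp
  linarith

/-- `AA I + 1 > I / (16 log I)`. -/
theorem div_AA_le (I : ℝ) (hI : Real.exp 1 ≤ I) : I / ((AA I : ℝ) + 1) ≤ 16 * Real.log I := by
  obtain ⟨h1, h2⟩ := N1_log I hI
  have h3 : I / (16 * Real.log I) < (AA I : ℝ) + 1 := Nat.lt_floor_add_one _
  rw [div_lt_iff₀ (by linarith)] at h3
  rw [div_le_iff₀ (by positivity)]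
  linarith

/-- `t^2 A1 log I / κ ≤ I / 4`. -/
theorem A1_le (κ : ℝ) (hκ : 0 < κ) (I : ℝ) (hI : Real.exp 1 ≤ I) :
    (tt κ : ℝ) * (A1 κ I : ℝ) * ((tt κ : ℝ) * (Real.log I / κ)) ≤ I / 4 := by
  obtain ⟨h1, h2⟩ := N1_log I hI
  have ht := N1_tt κ
  have hl : 0 < Real.log I := by linarith
  have h3 : (A1 κ I : ℝ) ≤ κ * I / (4 * (tt κ : ℝ) ^ 2 * Real.log I) :=
    Nat.floor_le (by positivity)
  calc (tt κ : ℝ) * (A1 κ I : ℝ) * ((tt κ : ℝ) * (Real.log I / κ))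
      = (A1 κ I : ℝ) * ((tt κ : ℝ) ^ 2 * Real.log I / κ) := by ring
    _ ≤ κ * I / (4 * (tt κ : ℝ) ^ 2 * Real.log I) * ((tt κ : ℝ) ^ 2 * Real.log I / κ) :=
        mul_le_mul_of_nonneg_right h3 (by positivity)
    _ = I / 4 := by field_simp

/-- The first summand is at most `I / 128` by the definition of `NN`, the second equals
`I / 128`. -/
theorem NN_le (κ : ℝ) (hκ : 0 < κ) (I : ℝ) (hI : Real.exp 1 ≤ I) :
    (NN κ I : ℝ) * (1 / (KK κ : ℝ) * ((tt κ : ℝ) * (Real.log I / κ))) +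
      (tt κ : ℝ) * (1 / (K0 κ : ℝ) * (43 * I)) ≤ I / 64 := by
  obtain ⟨h1, h2⟩ := N1_log I hI
  have ht := N1_tt κ
  have hK := (N1_KK κ).2
  have hl : 0 < Real.log I := by linarith
  have h3 : (NN κ I : ℝ) ≤ κ * (KK κ : ℝ) * I / (128 * (tt κ : ℝ) * Real.log I) :=
    Nat.floor_le (by positivity)
  have h4 : (NN κ I : ℝ) * (1 / (KK κ : ℝ) * ((tt κ : ℝ) * (Real.log I / κ))) ≤ I / 128 := by
    calc (NN κ I : ℝ) * (1 / (KK κ : ℝ) * ((tt κ : ℝ) * (Real.log I / κ)))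
        ≤ κ * (KK κ : ℝ) * I / (128 * (tt κ : ℝ) * Real.log I) *
          (1 / (KK κ : ℝ) * ((tt κ : ℝ) * (Real.log I / κ))) :=
          mul_le_mul_of_nonneg_right h3 (by positivity)
      _ = I / 128 := by field_simp
  have h5 : (tt κ : ℝ) * (1 / (K0 κ : ℝ) * (43 * I)) = I / 128 := by
    rw [N1_K0]
    field_simp
    norm_num
  linarith

/-- `2 AA K0^t ≤ I K0^t / (8 log I) ≤ κ KK I / (128 t log I) < NN + 1`. -/
theorem AA_lt_NN (κ : ℝ) (hκ : 0 < κ) (I : ℝ) (hI : Real.exp 1 ≤ I) :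
    K0 κ ^ tt κ * (2 * AA I) < NN κ I + 1 := by
  obtain ⟨h1, h2⟩ := N1_log I hI
  have ht := N1_tt κ
  obtain ⟨hK1, hK⟩ := N1_KK κ
  have hl : 0 < Real.log I := by linarith
  have h3 : κ * (KK κ : ℝ) * I / (128 * (tt κ : ℝ) * Real.log I) < (NN κ I : ℝ) + 1 :=
    Nat.lt_floor_add_one _
  have h4 : (AA I : ℝ) ≤ I / (16 * Real.log I) := Nat.floor_le (by positivity)
  have h5 : (K0 κ : ℝ) ^ tt κ * (2 * (AA I : ℝ)) < (NN κ I : ℝ) + 1 := by
    refine lt_of_le_of_lt ?_ h3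
    have h6 : (0 : ℝ) ≤ (K0 κ : ℝ) ^ tt κ := by positivity
    calc (K0 κ : ℝ) ^ tt κ * (2 * (AA I : ℝ))
        ≤ (K0 κ : ℝ) ^ tt κ * (2 * (I / (16 * Real.log I))) := by gcongr
      _ = κ * (16 * (tt κ : ℝ) * (K0 κ : ℝ) ^ tt κ / κ) * I /
          (128 * (tt κ : ℝ) * Real.log I) := by
          field_simp
          ring
      _ ≤ κ * (KK κ : ℝ) * I / (128 * (tt κ : ℝ) * Real.log I) := by gcongr
  exact_mod_cast h5

end Pool.RA
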