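import Pool.Agent.Helper44.RA.Base

/-! Project RA: the first pigeonhole (a box principle). -/

set_option autoImplicit false

namespace Pool.RA

open Finset

variable {ι : Type} [Fintype ι]

/-- PIECE RA-P1 (60 lines).  Map the `(A+1)^t` vectors `a : Fin t → Fin (A+1)` to
`(U → Fin K) × γ`, by `i ↦ ⌊K * fract (∑ j, β i j * a j)⌋` and `cl a`.  The target has
`K ^ #U * #γ` elements, so two distinct vectors have the same image; their fractional parts lie in
the same interval of length `1/K` for `i ∈ U`, and for `i ∉ U` both are `fract 0 = 0`. -/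
theorem box1 {t : ℕ} (U : Finset ι) (β : ι → Fin t → ℝ) (hβU : ∀ i ∉ U, ∀ j, β i j = 0)
    {γ : Type} [Fintype γ] (cl : (Fin t → ℕ) → γ) (A K : ℕ) (hK : 1 ≤ K)
    (hcard : K ^ U.card * Fintype.card γ < (A + 1) ^ t) :
    ∃ a a' : Fin t → ℕ, a ≠ a' ∧ (∀ j, a j ≤ A) ∧ (∀ j, a' j ≤ A) ∧ cl a = cl a' ∧
      ∀ i, |Int.fract (∑ j, β i j * (a j : ℝ)) - Int.fract (∑ j, β i j * (a' j : ℝ))|
        ≤ 1 / (K : ℝ) := by
  classical
  have hK0 : (0 : ℝ) < K := by exact_mod_cast hK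
  have hfl : ∀ s : ℝ, ⌊(K : ℝ) * Int.fract s⌋.toNat < K := by
    intro s
    have h1 : ⌊(K : ℝ) * Int.fract s⌋ < (K : ℤ) := by
      rw [Int.floor_lt]
      have h2 := Int.fract_lt_one s
      push_cast
      nlinarith
    omega
  have hnn : ∀ s : ℝ, 0 ≤ ⌊(K : ℝ) * Int.fract s⌋ := fun s =>
    Int.floor_nonneg.2 (mul_nonneg hK0.le (Int.fract_nonneg s))
  let f : (Fin t → Fin (A + 1)) → (U → Fin K) × γ := fun a =>
    (fun i => ⟨⌊(K : ℝ) * Int.fract (∑ j, β i j * ((a j : ℕ) : ℝ))⌋.toNat, hfl _⟩,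
      cl fun j => (a j : ℕ))
  have hc : Fintype.card ((U → Fin K) × γ) < Fintype.card (Fin t → Fin (A + 1)) := by
    simpa using hcard
  obtain ⟨x, y, hxy, hf⟩ := Fintype.exists_ne_map_eq_of_card_lt f hc
  refine ⟨fun j => (x j : ℕ), fun j => (y j : ℕ), ?_, fun j => Nat.lt_succ_iff.1 (x j).2,
    fun j => Nat.lt_succ_iff.1 (y j).2, congrArg Prod.snd hf, fun i => ?_⟩
  · intro h
    exact hxy (funext fun j => Fin.ext (congrFun h j))
  · by_cases hi : i ∈ U
    · have h1 := congrFun (congrArg Prod.fst hf) ⟨i, hi⟩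
      have h2 : ⌊(K : ℝ) * Int.fract (∑ j, β i j * ((x j : ℕ) : ℝ))⌋.toNat =
          ⌊(K : ℝ) * Int.fract (∑ j, β i j * ((y j : ℕ) : ℝ))⌋.toNat := congrArg Fin.val h1
      have h3 : ⌊(K : ℝ) * Int.fract (∑ j, β i j * ((x j : ℕ) : ℝ))⌋ =
          ⌊(K : ℝ) * Int.fract (∑ j, β i j * ((y j : ℕ) : ℝ))⌋ := by
        have h4 := hnn (∑ j, β i j * ((x j : ℕ) : ℝ))
        have h5 := hnn (∑ j, β i j * ((y j : ℕ) : ℝ))
        omega
      have h6 := Int.abs_sub_lt_one_of_floor_eq_floor h3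
      rw [← mul_sub, abs_mul, abs_of_pos hK0] at h6
      rw [le_div_iff₀ hK0, mul_comm]
      exact h6.le
    · have h1 : ∀ a : Fin t → Fin (A + 1), ∑ j, β i j * ((a j : ℕ) : ℝ) = 0 := by
        intro a
        refine Finset.sum_eq_zero fun j _ => ?_
        rw [hβU i hi j, zero_mul]
      rw [h1, h1, sub_self, abs_zero]
      positivity

end Pool.RA
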