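import Pool.Agent.Helper44.RA.Base

/-! Project RA: the character `chi`. -/

set_option autoImplicit false

namespace Pool.RA

open Finset

variable {ι : Type} [Fintype ι]

/-- PIECE RA-U1 (the whole file, 80 lines).  `chi` is a product of powers of units, hence
multiplicative (`Finset.prod_mul_distrib`, `zpow_add`). -/
theorem chi_zero (r : ι → ℕ) (m : ℕ) (h : ∀ i, (r i).Coprime m) : chi r m h 0 = 1 := by
  simp [chi]

theorem chi_add (r : ι → ℕ) (m : ℕ) (h : ∀ i, (r i).Coprime m) (x y : ι → ℤ) :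
    chi r m h (x + y) = chi r m h x * chi r m h y := by
  unfold chi
  rw [← Finset.prod_mul_distrib]
  refine Finset.prod_congr rfl fun i _ => ?_
  rw [Pi.add_apply, zpow_add]

theorem chi_neg (r : ι → ℕ) (m : ℕ) (h : ∀ i, (r i).Coprime m) (x : ι → ℤ) :
    chi r m h (-x) = (chi r m h x)⁻¹ := by
  unfold chi
  rw [← Finset.prod_inv_distrib]
  refine Finset.prod_congr rfl fun i _ => ?_
  rw [Pi.neg_apply, zpow_neg]

theorem chi_sub (r : ι → ℕ) (m : ℕ) (h : ∀ i, (r i).Coprime m) (x y : ι → ℤ) :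
    chi r m h (x - y) = chi r m h x * (chi r m h y)⁻¹ := by
  rw [sub_eq_add_neg, chi_add, chi_neg]

theorem chi_zsmul (r : ι → ℕ) (m : ℕ) (h : ∀ i, (r i).Coprime m) (c : ℤ) (x : ι → ℤ) :
    chi r m h (c • x) = chi r m h x ^ c := by
  unfold chi
  rw [← Finset.prod_zpow]
  refine Finset.prod_congr rfl fun i _ => ?_
  rw [Pi.smul_apply, smul_eq_mul, mul_comm, zpow_mul]

theorem chi_sum (r : ι → ℕ) (m : ℕ) (h : ∀ i, (r i).Coprime m) {γ : Type} (s : Finset γ)
    (f : γ → ι → ℤ) : chi r m h (∑ l ∈ s, f l) = ∏ l ∈ s, chi r m h (f l) := by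
  classical
  induction s using Finset.induction_on with
  | empty => rw [Finset.sum_empty, Finset.prod_empty, chi_zero]
  | insert a s ha ih => rw [Finset.sum_insert ha, Finset.prod_insert ha, chi_add, ih]

/-- `N_x = chi(x) D_x` modulo `m`: factor by factor `r^(x⁺) = r^x r^(x⁻)` in the units. -/
theorem nu_eq (r : ι → ℕ) (m : ℕ) (h : ∀ i, (r i).Coprime m) (x : ι → ℤ) :
    ((Nu r x : ℕ) : ZMod m) = (chi r m h x : ZMod m) * ((De r x : ℕ) : ZMod m) := by
  unfold Nu De chi
  rw [Nat.cast_prod, Nat.cast_prod, Units.coe_prod, ← Finset.prod_mul_distrib]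
  refine Finset.prod_congr rfl fun i _ => ?_
  have key : (ZMod.unitOfCoprime (r i) (h i)) ^ (x i).toNat =
      (ZMod.unitOfCoprime (r i) (h i)) ^ (x i) *
        (ZMod.unitOfCoprime (r i) (h i)) ^ (-x i).toNat := by
    rw [← zpow_natCast, ← zpow_natCast, ← zpow_add]
    congr 1
    have := Int.toNat_sub_toNat_neg (x i)
    omega
  have key2 := congrArg (fun u : (ZMod m)ˣ => (u : ZMod m)) key
  simp only [Units.val_mul, Units.val_pow_eq_pow_val, ZMod.coe_unitOfCoprime] at key2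
  rw [Nat.cast_pow, Nat.cast_pow]
  exact key2

private theorem u1_de_unit (r : ι → ℕ) (m : ℕ) (h : ∀ i, (r i).Coprime m) (x : ι → ℤ) :
    IsUnit ((De r x : ℕ) : ZMod m) := by
  rw [ZMod.isUnit_iff_coprime]
  exact Nat.Coprime.prod_left fun i _ => Nat.Coprime.pow_left _ (h i)

/-- From `nu_eq`, as `D_x` is a unit modulo `m`. -/
theorem chi_eq_one_iff (r : ι → ℕ) (m : ℕ) (h : ∀ i, (r i).Coprime m) (x : ι → ℤ) :
    chi r m h x = 1 ↔ (m : ℤ) ∣ (Nu r x : ℤ) - (De r x : ℤ) := by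
  have h1 : ((m : ℤ) ∣ (Nu r x : ℤ) - (De r x : ℤ)) ↔
      ((Nu r x : ℕ) : ZMod m) = ((De r x : ℕ) : ZMod m) := by
    rw [← CharP.intCast_eq_zero_iff (ZMod m) m]
    push_cast
    exact sub_eq_zero
  rw [h1, nu_eq r m h x, Units.ext_iff, Units.val_one]
  constructor
  · intro h2
    rw [h2, one_mul]
  · intro h2
    have hu := u1_de_unit r m h x
    have h3 : (chi r m h x : ZMod m) * ((De r x : ℕ) : ZMod m) =
        1 * ((De r x : ℕ) : ZMod m) := by rw [h2, one_mul]
    exact hu.mul_right_cancel h3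

/-- Compatibility with the reduction modulo a divisor `P` of `m`. -/
theorem chi_cast (r : ι → ℕ) (m P : ℕ) (h : ∀ i, (r i).Coprime m) (h' : ∀ i, (r i).Coprime P)
    (hP : P ∣ m) (x : ι → ℤ) :
    (ZMod.castHom hP (ZMod P)) (chi r m h x : ZMod m) = (chi r P h' x : ZMod P) := by
  have h1 : Units.map (ZMod.castHom hP (ZMod P)).toMonoidHom (chi r m h x) = chi r P h' x := by
    unfold chi
    rw [map_prod]
    refine Finset.prod_congr rfl fun i _ => ?_
    rw [map_zpow]
    congr 1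
    apply Units.ext
    rw [Units.coe_map, ZMod.coe_unitOfCoprime, ZMod.coe_unitOfCoprime]
    exact map_natCast (ZMod.castHom hP (ZMod P)) (r i)
  rw [← h1]
  rfl

end Pool.RA
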