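import Pool.Agent.Helper44.RA.P1
import Pool.Agent.Helper44.RA.U1
import Pool.Agent.Helper44.RA.J3

/-! Project RA: the approximate relation `x*`. -/

set_option autoImplicit false

namespace Pool.RA

open Finset

variable {ι : Type} [Fintype ι]

/-- PIECE RA-P2 (80 lines).  For `a : Fin t → ℕ` let `X a i = ⌊∑ j, β i j * a j⌋`.  Apply `box1` with
`γ = (ZMod P)ˣ` (at most `P` elements: injects into `ZMod P`) and `cl a = chi r P h (X a)`.  Put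
`x = X a - X a'`; `chi r P h x = 1` (`chi_sub`).  `exists_alpha` with the vector `a - a'` gives `α`
with `∑ l, α_l k_l(J_j) = a_j - a'_j`; by `MM.rep` `∑ l, α_l k_l(i) = ∑ j, β i j (a_j - a'_j)`.  So
`x_i - ∑ l, α_l k_l(i) = - (fract - fract)`.  By `MM.del`, `x (J j) = a_j - a'_j` (the floor of an
integer), which is not `0` for some `j`; for `i ∉ U` all `β i j = 0` (`MM.zero`), `x i = 0`.  The
last bound: `|∑ j, β i j (a_j - a'_j)| ≤ t A`. -/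
theorem exists_xstar {t : ℕ} (r : ι → ℕ) (k : Fin t → ι → ℤ) (J : Fin t → ι)
    (β : ι → Fin t → ℝ) (hM : MM k J β) (U : Finset ι) (hU : ∀ i ∉ U, ∀ l, k l i = 0) (P : ℕ)
    (hP : 1 ≤ P) (h : ∀ i, (r i).Coprime P) (A K : ℕ) (hK : 1 ≤ K)
    (hcard : K ^ U.card * P < (A + 1) ^ t) :
    ∃ (x : ι → ℤ) (α : Fin t → ℝ), chi r P h x = 1 ∧
      (∀ j, (x (J j) : ℝ) = ∑ l, α l * (k l (J j) : ℝ)) ∧ (∃ j, x (J j) ≠ 0) ∧
      (∀ i, |(x i : ℝ) - ∑ l, α l * (k l i : ℝ)| ≤ 1 / (K : ℝ)) ∧ (∀ i ∉ U, x i = 0) ∧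
      (∀ i, |∑ l, α l * (k l i : ℝ)| ≤ (t : ℝ) * A) := by
  classical
  have : NeZero P := ⟨by omega⟩
  have hcu : Fintype.card (ZMod P)ˣ ≤ P := by
    rw [ZMod.card_units_eq_totient]
    exact Nat.totient_le P
  have hzero : ∀ i ∉ U, ∀ j, β i j = 0 := fun i hi j => hM.zero i (hU i hi) j
  obtain ⟨a, a', hne, ha, ha', hcl, hfr⟩ := box1 U β hzero
    (fun b : Fin t → ℕ => chi r P h (fun i => ⌊∑ j, β i j * (b j : ℝ)⌋)) A K hK
    (lt_of_le_of_lt (Nat.mul_le_mul_left _ hcu) hcard)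
  obtain ⟨α, hα⟩ := exists_alpha k J hM.det_ne (fun j => (a j : ℝ) - (a' j : ℝ))
  -- the value of the combination
  have hrep : ∀ i, ∑ l, α l * (k l i : ℝ) =
      (∑ j, β i j * (a j : ℝ)) - ∑ j, β i j * (a' j : ℝ) := by
    intro i
    rw [hM.rep α i, ← Finset.sum_sub_distrib]
    apply Finset.sum_congr rfl
    intro j _
    rw [hα j, mul_sub]
  have hdel : ∀ (b : Fin t → ℕ) (j : Fin t), ∑ j', β (J j) j' * (b j' : ℝ) = (b j : ℝ) := by
    intro b j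
    rw [Finset.sum_eq_single j]
    · rw [hM.del, if_pos rfl, one_mul]
    · intro j' _ hj'
      rw [hM.del, if_neg (Ne.symm hj'), zero_mul]
    · intro hj
      exact absurd (Finset.mem_univ j) hj
  have hxJ : ∀ j, (⌊∑ j', β (J j) j' * (a j' : ℝ)⌋ - ⌊∑ j', β (J j) j' * (a' j' : ℝ)⌋ : ℤ) =
      (a j : ℤ) - (a' j : ℤ) := by
    intro j
    rw [hdel a j, hdel a' j, Int.floor_natCast, Int.floor_natCast]
  refine ⟨fun i => ⌊∑ j, β i j * (a j : ℝ)⌋ - ⌊∑ j, β i j * (a' j : ℝ)⌋, α, ?_, ?_, ?_, ?_, ?_, ?_⟩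
  · have h1 := chi_sub r P h (fun i => ⌊∑ j, β i j * (a j : ℝ)⌋)
      (fun i => ⌊∑ j, β i j * (a' j : ℝ)⌋)
    have h2 : ((fun i => ⌊∑ j, β i j * (a j : ℝ)⌋) - fun i => ⌊∑ j, β i j * (a' j : ℝ)⌋) =
        (fun i => ⌊∑ j, β i j * (a j : ℝ)⌋ - ⌊∑ j, β i j * (a' j : ℝ)⌋) := rfl
    rw [h2] at h1
    rw [h1]
    have h3 : chi r P h (fun i => ⌊∑ j, β i j * (a j : ℝ)⌋) =
        chi r P h (fun i => ⌊∑ j, β i j * (a' j : ℝ)⌋) := hcl
    rw [h3, mul_inv_cancel]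
  · intro j
    show (((⌊∑ j', β (J j) j' * (a j' : ℝ)⌋ - ⌊∑ j', β (J j) j' * (a' j' : ℝ)⌋ : ℤ)) : ℝ) = _
    rw [hxJ j, hα j]
    push_cast
    ring
  · by_contra hcon
    push Not at hcon
    apply hne
    funext j
    have h1 : (⌊∑ j', β (J j) j' * (a j' : ℝ)⌋ - ⌊∑ j', β (J j) j' * (a' j' : ℝ)⌋ : ℤ) = 0 :=
      hcon j
    rw [hxJ j] at h1
    omega
  · intro i
    show |(((⌊∑ j, β i j * (a j : ℝ)⌋ - ⌊∑ j, β i j * (a' j : ℝ)⌋ : ℤ)) : ℝ) - _| ≤ _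
    rw [hrep i]
    have h1 := Int.floor_add_fract (∑ j, β i j * (a j : ℝ))
    have h2 := Int.floor_add_fract (∑ j, β i j * (a' j : ℝ))
    have h3 : (((⌊∑ j, β i j * (a j : ℝ)⌋ - ⌊∑ j, β i j * (a' j : ℝ)⌋ : ℤ)) : ℝ) -
        ((∑ j, β i j * (a j : ℝ)) - ∑ j, β i j * (a' j : ℝ)) =
        -(Int.fract (∑ j, β i j * (a j : ℝ)) - Int.fract (∑ j, β i j * (a' j : ℝ))) := by
      push_cast
      linarith
    rw [h3, abs_neg]
    exact hfr i
  · intro i hi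
    show (⌊∑ j, β i j * (a j : ℝ)⌋ - ⌊∑ j, β i j * (a' j : ℝ)⌋ : ℤ) = 0
    have h1 : ∀ b : Fin t → ℕ, ∑ j, β i j * (b j : ℝ) = 0 := by
      intro b
      apply Finset.sum_eq_zero
      intro j _
      rw [hzero i hi j, zero_mul]
    rw [h1, h1]
    simp
  · intro i
    rw [hrep i, ← Finset.sum_sub_distrib]
    refine (Finset.abs_sum_le_sum_abs _ _).trans ?_
    have h1 : ∀ j ∈ (Finset.univ : Finset (Fin t)),
        |β i j * (a j : ℝ) - β i j * (a' j : ℝ)| ≤ (A : ℝ) := by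
      intro j _
      rw [← mul_sub, abs_mul]
      have h2 : |(a j : ℝ) - (a' j : ℝ)| ≤ (A : ℝ) := by
        have e1 : (a j : ℝ) ≤ A := by exact_mod_cast ha j
        have e2 : (a' j : ℝ) ≤ A := by exact_mod_cast ha' j
        have e3 : (0 : ℝ) ≤ a j := Nat.cast_nonneg _
        have e4 : (0 : ℝ) ≤ a' j := Nat.cast_nonneg _
        rw [abs_le]
        constructor <;> linarith
      calc |β i j| * |(a j : ℝ) - (a' j : ℝ)| ≤ 1 * (A : ℝ) :=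
            mul_le_mul (hM.bd i j) h2 (abs_nonneg _) zero_le_one
        _ = A := one_mul _
    refine (Finset.sum_le_sum h1).trans ?_
    rw [Finset.sum_const, Finset.card_univ, Fintype.card_fin, nsmul_eq_mul]

end Pool.RA
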