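import Pool.Agent.Helper44.RA.U3

/-! Project RA, archimedean part: the logarithm of `∏ r_i ^ x_i`. -/

set_option autoImplicit false

namespace Pool.RA

open Finset

variable {ι : Type} [Fintype ι]

/-- `∑ y_i log r_i` for a real vector. -/
noncomputable def lamR (r : ι → ℕ) (y : ι → ℝ) : ℝ := ∑ i, y i * Real.log (r i)

/-- `log ∏ r_i ^ x_i`. -/
noncomputable def lam (r : ι → ℕ) (x : ι → ℤ) : ℝ := lamR r (fun i => (x i : ℝ))

/-- PIECE RA-V1 (the whole file, 90 lines). -/
theorem lam_add (r : ι → ℕ) (x y : ι → ℤ) : lam r (x + y) = lam r x + lam r y := by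
  unfold lam lamR
  rw [← Finset.sum_add_distrib]
  refine Finset.sum_congr rfl fun i _ => ?_
  simp only [Pi.add_apply, Int.cast_add, add_mul]

theorem lam_sub (r : ι → ℕ) (x y : ι → ℤ) : lam r (x - y) = lam r x - lam r y := by
  unfold lam lamR
  rw [← Finset.sum_sub_distrib]
  refine Finset.sum_congr rfl fun i _ => ?_
  simp only [Pi.sub_apply, Int.cast_sub, sub_mul]

theorem lam_zsmul (r : ι → ℕ) (c : ℤ) (x : ι → ℤ) : lam r (c • x) = (c : ℝ) * lam r x := by
  unfold lam lamR
  rw [Finset.mul_sum]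
  refine Finset.sum_congr rfl fun i _ => ?_
  simp only [Pi.smul_apply, smul_eq_mul, Int.cast_mul, mul_assoc]

theorem lam_sum (r : ι → ℕ) {γ : Type} (s : Finset γ) (f : γ → ι → ℤ) :
    lam r (∑ l ∈ s, f l) = ∑ l ∈ s, lam r (f l) := by
  classical
  induction s using Finset.induction_on with
  | empty => simp [lam, lamR]
  | insert a s ha ih => rw [Finset.sum_insert ha, Finset.sum_insert ha, lam_add, ih]

/-- A real combination `y = ∑ α_l k_l`. -/
theorem lamR_comb {t : ℕ} (r : ι → ℕ) (k : Fin t → ι → ℤ) (α : Fin t → ℝ) :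
    lamR r (fun i => ∑ l, α l * (k l i : ℝ)) = ∑ l, α l * lam r (k l) := by
  unfold lam lamR
  simp only [Finset.sum_mul, Finset.mul_sum]
  rw [Finset.sum_comm]
  refine Finset.sum_congr rfl fun l _ => Finset.sum_congr rfl fun i _ => ?_
  ring

/-- The exponents are the positive and the negative part. -/
theorem lam_eq (r : ι → ℕ) (hr : ∀ i, 1 ≤ r i) (x : ι → ℤ) :
    lam r x = Real.log (Nu r x) - Real.log (De r x) := by
  have key : ∀ e : ι → ℕ, Real.log ((∏ i, r i ^ e i : ℕ) : ℝ) =
      ∑ i, (e i : ℝ) * Real.log (r i) := by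
    intro e
    rw [Nat.cast_prod, Real.log_prod]
    · refine Finset.sum_congr rfl fun i _ => ?_
      rw [Nat.cast_pow, Real.log_pow]
    · intro i _
      have : 0 < r i := hr i
      positivity
  unfold Nu De
  rw [key, key, ← Finset.sum_sub_distrib]
  unfold lam lamR
  refine Finset.sum_congr rfl fun i _ => ?_
  have h := Int.toNat_sub_toNat_neg (x i)
  have h2 : (x i : ℝ) = ((x i).toNat : ℝ) - ((-x i).toNat : ℝ) := by
    have h3 := congrArg (fun z : ℤ => (z : ℝ)) h
    simp only [Int.cast_sub, Int.cast_natCast] at h3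
    exact h3.symm
  rw [← sub_mul, ← h2]

private theorem V1_log {a b : ℕ} (ha : 0 < a) (hab : a < b) {E : ℝ}
    (hb : (b : ℝ) ≤ Real.exp E) : Real.exp (-E) ≤ Real.log b - Real.log a := by
  have ha' : (0 : ℝ) < a := by exact_mod_cast ha
  have hb' : (0 : ℝ) < b := by exact_mod_cast (lt_trans ha hab)
  have hab' : (a : ℝ) + 1 ≤ b := by exact_mod_cast hab
  have h1 : Real.log b - Real.log a = -Real.log (a / b) := by
    rw [Real.log_div ha'.ne' hb'.ne']
    ring
  have h2 : Real.log (a / b) ≤ a / b - 1 := Real.log_le_sub_one_of_pos (div_pos ha' hb')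
  have h3 : (1 : ℝ) / b ≤ 1 - a / b := by
    rw [div_le_iff₀ hb', sub_mul, div_mul_cancel₀ _ hb'.ne']
    linarith
  have h4 : Real.exp (-E) ≤ 1 / b := by
    rw [Real.exp_neg, ← one_div]
    exact one_div_le_one_div_of_le hb' hb
  rw [h1]
  linarith

/-- `N ≠ D` are positive integers (`eq_zero_of_nu_eq_de`); if `D < N` then
`log N - log D ≥ 1 - D/N ≥ 1/N ≥ exp (- nm r x)`, and symmetrically. -/
theorem exp_le_abs_lam (r : ι → ℕ) (hr : ∀ i, (r i).Prime) (hinj : Function.Injective r)
    (x : ι → ℤ) (hx : x ≠ 0) : Real.exp (-(nm r x)) ≤ |lam r x| := by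
  have h1r : ∀ i, 1 ≤ r i := fun i => (hr i).one_le
  have hne : Nu r x ≠ De r x := fun h1 => hx (eq_zero_of_nu_eq_de r hr hinj x h1)
  have hN := nu_pos r h1r x
  have hD := de_pos r h1r x
  have hNe := nu_le_exp r h1r x
  have hDe := de_le_exp r h1r x
  rw [lam_eq r h1r x]
  rcases lt_or_gt_of_ne hne with hlt | hlt
  · rw [abs_sub_comm]
    exact (V1_log hN hlt hDe).trans (le_abs_self _)
  · exact (V1_log hD hlt hNe).trans (le_abs_self _)

end Pool.RA
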