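import Pool.Agent.Helper44.RA.V1

/-! Project RA, archimedean part: the points over the multiples of `x*`. -/

set_option autoImplicit false

namespace Pool.RA

open Finset

variable {ι : Type} [Fintype ι]

/-- PIECE RA-V4 (the whole file, 90 lines).  `|m l| ≤ c Ω + 1`. -/
theorem lam_point {t : ℕ} (r : ι → ℕ) (k : Fin t → ι → ℤ) (δ : ℝ)
    (hk : ∀ l, |lam r (k l)| ≤ δ) (x : ι → ℤ) (α : Fin t → ℝ) (Ω : ℝ) (hα : ∀ l, |α l| ≤ Ω)
    (c N : ℕ) (hc : c ≤ N) (m : Fin t → ℤ) (hm : ∀ l, |(c : ℝ) * α l - (m l : ℝ)| ≤ 1) :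
    |lam r ((c : ℤ) • x - ∑ l, m l • k l) - (c : ℝ) * lam r x| ≤
      (t : ℝ) * (((N : ℝ) * Ω + 1) * δ) := by
  have h1 : lam r ((c : ℤ) • x - ∑ l, m l • k l) - (c : ℝ) * lam r x =
      -∑ l, (m l : ℝ) * lam r (k l) := by
    rw [lam_sub, lam_zsmul, lam_sum]
    simp only [lam_zsmul, Int.cast_natCast]
    ring
  rw [h1, abs_neg]
  refine (Finset.abs_sum_le_sum_abs _ _).trans ?_
  have h2 : ∀ l ∈ (Finset.univ : Finset (Fin t)),
      |(m l : ℝ) * lam r (k l)| ≤ ((N : ℝ) * Ω + 1) * δ := by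
    intro l _
    rw [abs_mul]
    have hΩ : 0 ≤ Ω := (abs_nonneg _).trans (hα l)
    have hcN : (c : ℝ) ≤ N := by exact_mod_cast hc
    have h3 : |(c : ℝ) * α l| ≤ N * Ω := by
      rw [abs_mul, Nat.abs_cast]
      exact mul_le_mul hcN (hα l) (abs_nonneg _) (Nat.cast_nonneg _)
    have h4 : |(m l : ℝ)| ≤ N * Ω + 1 := by
      have h5 : (m l : ℝ) = (c : ℝ) * α l - ((c : ℝ) * α l - m l) := by ring
      rw [h5]
      exact (abs_sub _ _).trans (add_le_add h3 (hm l))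
    exact mul_le_mul h4 (hk l) (abs_nonneg _) (by positivity)
  refine (Finset.sum_le_sum h2).trans (le_of_eq ?_)
  rw [Finset.sum_const, Finset.card_univ, Fintype.card_fin, nsmul_eq_mul]

/-- The norm of the point, as in `point_c` of file Q1 (its proof can be copied). -/
theorem nm_point {t : ℕ} (r : ι → ℕ) (k : Fin t → ι → ℤ)
    (U : Finset ι) (hU : ∀ i ∉ U, ∀ l, k l i = 0) (B : ℝ)
    (hB : ∀ l, nm r (k l) ≤ B) (x : ι → ℤ) (hxU : ∀ i ∉ U, x i = 0) (α : Fin t → ℝ) (δ : ℝ)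
    (hx : ∀ i, |(x i : ℝ) - ∑ l, α l * (k l i : ℝ)| ≤ δ) (c : ℕ) (m : Fin t → ℤ) (δ₀ : ℝ)
    (hm : ∀ l, |(c : ℝ) * α l - (m l : ℝ)| ≤ δ₀) :
    nm r ((c : ℤ) • x - ∑ l, m l • k l) ≤
        (c : ℝ) * (δ * ∑ i ∈ U, Real.log (r i)) + (t : ℝ) * (δ₀ * B) := by
  have h1 : (fun i => ((((c : ℤ) • x - ∑ l, m l • k l) i : ℤ) : ℝ)) =
      (c : ℝ) • (fun i => (x i : ℝ) - ∑ l, α l * (k l i : ℝ)) +
        ∑ l, ((c : ℝ) * α l - (m l : ℝ)) • (fun i => (k l i : ℝ)) := by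
    funext i
    simp only [Pi.sub_apply, Pi.smul_apply, Pi.add_apply, Finset.sum_apply, smul_eq_mul]
    push_cast
    simp only [sub_mul, Finset.sum_sub_distrib, mul_sub, Finset.mul_sum, mul_assoc]
    ring
  unfold nm
  rw [h1]
  refine (nmR_add_le r _ _).trans (add_le_add ?_ ?_)
  · rw [nmR_smul, abs_of_nonneg (Nat.cast_nonneg c)]
    refine mul_le_mul_of_nonneg_left ?_ (Nat.cast_nonneg c)
    refine nmR_le_of_bd r U _ δ hx fun i hi => ?_
    have h2 : ∑ l, α l * (k l i : ℝ) = 0 :=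
      Finset.sum_eq_zero fun l _ => by rw [hU i hi l, Int.cast_zero, mul_zero]
    simp only [hxU i hi, h2, Int.cast_zero, sub_zero]
  · refine (nmR_sum_le r _ _).trans ?_
    have h2 : ∀ l ∈ (Finset.univ : Finset (Fin t)),
        nmR r (((c : ℝ) * α l - (m l : ℝ)) • (fun i => (k l i : ℝ))) ≤ δ₀ * B := by
      intro l _
      rw [nmR_smul]
      exact mul_le_mul (hm l) (hB l) (nmR_nonneg r _) ((abs_nonneg _).trans (hm l))
    refine (Finset.sum_le_sum h2).trans (le_of_eq ?_)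
    rw [Finset.sum_const, Finset.card_univ, Fintype.card_fin, nsmul_eq_mul]

end Pool.RA
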