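import Pool.Agent.Helper44.RA.D2

/-! Project RA, archimedean part: bound of a determinant by multilinear expansion. -/

set_option autoImplicit false

namespace Pool.RA

open Finset

/-- the `j`-th column of the term with the choice `o` -/
private def colR {κ : Type} {M : ℕ} (w : κ → ℕ → ℝ) (mu : ℕ → κ → ℝ) (er : κ → κ → ℝ) (j : κ) :
    Option (Fin M) → κ → ℝ
  | some m, i => w i m * mu m j
  | none, i => er i j

private def coR {κ : Type} {M : ℕ} (mu : ℕ → κ → ℝ) (j : κ) : Option (Fin M) → ℝ
  | some m => mu m j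
  | none => 1

private def veR {κ : Type} {M : ℕ} (w : κ → ℕ → ℝ) (er : κ → κ → ℝ) (j : κ) :
    Option (Fin M) → κ → ℝ
  | some m, i => w i m
  | none, i => er i j

private def chR {κ : Type} {M : ℕ} (j : κ) : Option (Fin M) → ℕ ⊕ κ
  | some m => Sum.inl (m : ℕ)
  | none => Sum.inr j

private theorem det_boundR {κ : Type} [Fintype κ] [DecidableEq κ] (B : Matrix κ κ ℝ) (c : κ → ℝ)
    (h : ∀ j i, |B j i| ≤ c j) :
    |B.det| ≤ (Nat.factorial (Fintype.card κ) : ℝ) * ∏ j, c j := by
  rw [Matrix.det_apply]
  refine (Finset.abs_sum_le_sum_abs _ _).trans ?_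
  have h1 : ∀ σ ∈ (Finset.univ : Finset (Equiv.Perm κ)),
      |Equiv.Perm.sign σ • ∏ i, B (σ i) i| ≤ ∏ j, c j := by
    intro σ _
    have h2 : |Equiv.Perm.sign σ • ∏ i, B (σ i) i| = ∏ i, |B (σ i) i| := by
      rw [← Finset.abs_prod]
      rcases Int.units_eq_one_or (Equiv.Perm.sign σ) with h3 | h3
      · rw [h3, one_smul]
      · rw [h3, Units.neg_smul, one_smul, abs_neg]
    rw [h2, ← Equiv.prod_comp σ c]
    exact Finset.prod_le_prod (fun i _ => abs_nonneg _) fun i _ => h (σ i) i
  refine (Finset.sum_le_sum h1).trans ?_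
  rw [Finset.sum_const, Finset.card_univ, Fintype.card_perm, nsmul_eq_mul]

/-- PIECE RA-V6 (120 lines; the proof of `det_core` in file D3 can be adapted).  Expand the
determinant multilinearly: the `j`-th column is the sum over `o ∈ Option (Fin M)` of
`mu m j • w · m` (`o = some m`) and `er · j` (`o = none`):
`det = ∑ f, det (column f j)_j` over all `f : κ → Option (Fin M)`, `(M+1)^#κ` terms.  If
`f j = f j' = some m` for `j ≠ j'` two columns are proportional and the term vanishes.  Otherwise
`j ↦ inl m` (`f j = some m`), `inr j` (`f j = none`) is injective into `ℕ ⊕ κ`, all entries of the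
`j`-th column are at most `X ϑ^(wt)` in absolute value, the term is at most
`#κ! X^#κ ϑ^(∑ wt)`, and `weight_sum` applies (`ϑ ≤ 1`). -/
theorem det_coreR {κ : Type} [Fintype κ] [DecidableEq κ] (A N T M : ℕ)
    (hκ : Fintype.card κ = A + 1 + T) (w : κ → ℕ → ℝ) (mu : ℕ → κ → ℝ) (er : κ → κ → ℝ)
    (X th : ℝ) (hX : 0 ≤ X) (ht0 : 0 ≤ th) (ht1 : th ≤ 1)
    (hw : ∀ i m j, |w i m * mu m j| ≤ X * th ^ (min N (m - A)))
    (her : ∀ i j, |er i j| ≤ X * th ^ N) :
    |(Matrix.of fun i j => (∑ m ∈ range M, w i m * mu m j) + er i j).det| ≤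
      ((M : ℝ) + 1) ^ (Fintype.card κ) * ((Nat.factorial (Fintype.card κ) : ℝ) *
        X ^ (Fintype.card κ) * th ^ (∑ l ∈ range N, (T - l))) := by
  classical
  have hentry : ∀ i j, (∑ m ∈ range M, w i m * mu m j) + er i j =
      ∑ o : Option (Fin M), colR w mu er j o i := by
    intro i j
    rw [Fintype.sum_option, ← Fin.sum_univ_eq_sum_range (fun m => w i m * mu m j) M, add_comm]
    rfl
  have hdet : (Matrix.of fun i j => (∑ m ∈ range M, w i m * mu m j) + er i j).det =
      ∑ f : κ → Option (Fin M), (Matrix.of fun j => colR w mu er j (f j)).det := by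
    rw [← Matrix.det_transpose]
    have h2 : (Matrix.of fun i j => (∑ m ∈ range M, w i m * mu m j) + er i j).transpose =
        (fun j => ∑ o : Option (Fin M), colR w mu er j o : κ → κ → ℝ) := by
      funext j i
      rw [Matrix.transpose_apply, Matrix.of_apply, hentry i j, Finset.sum_apply]
    rw [h2]
    change (Matrix.detRowAlternating : (κ → ℝ) [⋀^κ]→ₗ[ℝ] ℝ).toMultilinearMap
      (fun j => ∑ o : Option (Fin M), colR w mu er j o) = _
    rw [MultilinearMap.map_sum]
    rfl
  have hcard : ((M : ℝ) + 1) ^ (Fintype.card κ) =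
      ((Finset.univ : Finset (κ → Option (Fin M))).card : ℝ) := by
    rw [Finset.card_univ, Fintype.card_fun, Fintype.card_option, Fintype.card_fin]
    push_cast
    rfl
  have hR : 0 ≤ (Nat.factorial (Fintype.card κ) : ℝ) * X ^ (Fintype.card κ) *
      th ^ (∑ l ∈ range N, (T - l)) := by positivity
  rw [hdet, hcard, ← nsmul_eq_mul, ← Finset.sum_const]
  refine (Finset.abs_sum_le_sum_abs _ _).trans (Finset.sum_le_sum fun f _ => ?_)
  by_cases hf : ∃ j j', j ≠ j' ∧ ∃ m, f j = some m ∧ f j' = some m
  · obtain ⟨j, j', hjj, m, h1, h2⟩ := hf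
    have h3 : (Matrix.of fun j => colR w mu er j (f j)).det = 0 := by
      have h4 : (Matrix.of fun j => colR w mu er j (f j)) =
          (fun j => coR mu j (f j) • veR w er j (f j) : κ → κ → ℝ) := by
        funext j i
        rw [Matrix.of_apply, Pi.smul_apply, smul_eq_mul]
        rcases f j with _ | m
        · exact (one_mul _).symm
        · exact mul_comm _ _
      rw [h4]
      change (Matrix.detRowAlternating : (κ → ℝ) [⋀^κ]→ₗ[ℝ] ℝ).toMultilinearMap
        (fun j => coR mu j (f j) • veR w er j (f j)) = 0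
      rw [MultilinearMap.map_smul_univ]
      have h5 : (Matrix.detRowAlternating : (κ → ℝ) [⋀^κ]→ₗ[ℝ] ℝ)
          (fun j => veR w er j (f j)) = 0 := by
        refine AlternatingMap.map_eq_zero_of_eq _ _ (i := j) (j := j') ?_ hjj
        show veR w er j (f j) = veR w er j' (f j')
        rw [h1, h2]
        rfl
      have h6 : (Matrix.detRowAlternating : (κ → ℝ) [⋀^κ]→ₗ[ℝ] ℝ).toMultilinearMap
          (fun j => veR w er j (f j)) = 0 := h5
      rw [h6, smul_zero]
    rw [h3, abs_zero]
    exact hR
  · have hg : Function.Injective fun j => (chR j (f j) : ℕ ⊕ κ) := by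
      intro j j' hjj
      by_contra hne
      change chR j (f j) = chR j' (f j') at hjj
      rcases hj : f j with _ | m
      · rcases hj' : f j' with _ | m'
        · rw [hj, hj'] at hjj
          exact hne (Sum.inr.inj hjj)
        · rw [hj, hj'] at hjj
          exact Sum.inr_ne_inl hjj
      · rcases hj' : f j' with _ | m'
        · rw [hj, hj'] at hjj
          exact Sum.inl_ne_inr hjj
        · rw [hj, hj'] at hjj
          have h7 : m = m' := Fin.ext (Sum.inl.inj hjj)
          exact hf ⟨j, j', hne, m, hj, by rw [hj', h7]⟩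
    have h4 := weight_sum A N T hκ _ hg
    have h5 : ∀ j i, |(Matrix.of fun j => colR w mu er j (f j)) j i| ≤
        X * th ^ (wt A N (chR j (f j))) := by
      intro j i
      rw [Matrix.of_apply]
      rcases f j with _ | m
      · exact her i j
      · exact hw i m j
    refine (det_boundR _ _ h5).trans ?_
    rw [Finset.prod_mul_distrib, Finset.prod_const, Finset.card_univ, Finset.prod_pow_eq_pow_sum,
      mul_assoc]
    refine mul_le_mul_of_nonneg_left ?_ (Nat.cast_nonneg _)
    exact mul_le_mul_of_nonneg_left (pow_le_pow_of_le_one ht0 ht1 h4) (pow_nonneg hX _)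

end Pool.RA
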