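import Pool.Agent.Helper44.RA.V5
import Pool.Agent.Helper44.RA.V6
import Pool.Agent.Helper44.RA.D4

/-! Project RA, archimedean part: the interpolation determinant vanishes. -/

set_option autoImplicit false

namespace Pool.RA

open Finset

/-- PIECE RA-V7a (100 lines).  Let `θ = exp φ - 1`, `|θ| ≤ 2 |φ|` (`Real.abs_exp_sub_one_le`), so
`|θ| E ≤ th ≤ 1/2`.  `v_i = u_i (1+θ)^(e_i) exp(η_i)` with `|η_i| ≤ η ≤ 1`, so
`v_i = u_i (1+θ)^(e_i) + err_i`, `|err_i| = |v_i| |1 - exp(-η_i)| ≤ 2 η exp hh`.  Apply `det_coreR`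
to the matrix `imat A e u v` (cast to `ℝ`) with `T = A + 1`, `N = A + 1`, `M = A + E + 1`,
`w i m = u_i C(e_i,m)`, `X = 2 E^A exp hh`, `th`: column `inl a` from `geo_expR` with `θ = 0`, no
error; column `inr a` from `geo_expR` with `θ` and error `e_i^a err_i`, at most
`E^A * 2 η exp hh ≤ X th^(A+1)`.  (`C(e_i,m) ≤ C(E,m)`; `(|θ| E)^(m-A) ≤ th^(min N (m-A))`.) -/
theorem det_boundA (A E : ℕ) (hE : 1 ≤ E) (e : Col A → ℕ) (he : ∀ i, e i ≤ E)
    (u v : Col A → ℤ) (hu0 : ∀ i, 0 < u i) (hv0 : ∀ i, 0 < v i) (φ η th hh : ℝ)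
    (hφ : |φ| ≤ 1) (hth : 2 * |φ| * (E : ℝ) ≤ th) (hth0 : 0 < th) (hth2 : th ≤ 1 / 2)
    (hη : η ≤ th ^ (A + 1)) (hη1 : η ≤ 1)
    (hv : ∀ i, |Real.log (v i) - Real.log (u i) - (e i : ℝ) * φ| ≤ η)
    (hu : ∀ i, (u i : ℝ) ≤ Real.exp hh) (hv' : ∀ i, (v i : ℝ) ≤ Real.exp hh) :
    |((imat A e u v).det : ℝ)| ≤
      ((A : ℝ) + E + 2) ^ (2 * (A + 1)) * ((Nat.factorial (2 * (A + 1)) : ℝ) *
        (2 * (E : ℝ) ^ A * Real.exp hh) ^ (2 * (A + 1)) *
          th ^ (∑ l ∈ range (A + 1), (A + 1 - l))) := by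
  have hE1 : (1 : ℝ) ≤ E := by exact_mod_cast hE
  have hE0 : (0 : ℝ) ≤ E := zero_le_one.trans hE1
  obtain ⟨θ, hθ⟩ : ∃ θ : ℝ, θ = Real.exp φ - 1 := ⟨_, rfl⟩
  have hθ1 : |θ| ≤ 2 * |φ| := by
    rw [hθ]
    exact Real.abs_exp_sub_one_le hφ
  have hθE : |θ| * (E : ℝ) ≤ th := (mul_le_mul_of_nonneg_right hθ1 hE0).trans hth
  have hexpφ : 1 + θ = Real.exp φ := by
    rw [hθ]
    ring
  choose mu0 hmu0 hexp0 using fun a : Fin (A + 1) =>
    geo_expR A (a : ℕ) (by have := a.isLt; omega) E hE 0 (by simp)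
  choose mu1 hmu1 hexp1 using fun a : Fin (A + 1) =>
    geo_expR A (a : ℕ) (by have := a.isLt; omega) E hE θ (hθE.trans hth2)
  have hX : 0 ≤ 2 * (E : ℝ) ^ A * Real.exp hh := by positivity
  have hth1 : th ≤ 1 := hth2.trans (by norm_num)
  -- the bound of the terms
  have hterm : ∀ (i : Col A) (m : ℕ) (c y : ℝ), 0 ≤ y → y ≤ th →
      |c| * (E.choose m : ℝ) ≤ 2 * (E : ℝ) ^ A * y ^ (m - A) →
      |(u i : ℝ) * ((e i).choose m : ℝ) * c| ≤
        2 * (E : ℝ) ^ A * Real.exp hh * th ^ (min (A + 1) (m - A)) := by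
    intro i m c y hy0 hy hc
    have hui : (0 : ℝ) ≤ u i := by exact_mod_cast (hu0 i).le
    have hch : ((e i).choose m : ℝ) ≤ (E.choose m : ℝ) := by
      exact_mod_cast Nat.choose_le_choose m (he i)
    rw [abs_mul, abs_mul, abs_of_nonneg hui, Nat.abs_cast]
    calc (u i : ℝ) * ((e i).choose m : ℝ) * |c|
        ≤ Real.exp hh * (E.choose m : ℝ) * |c| := by
          refine mul_le_mul_of_nonneg_right ?_ (abs_nonneg _)
          exact mul_le_mul (hu i) hch (Nat.cast_nonneg _) (Real.exp_pos _).le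
      _ = Real.exp hh * (|c| * (E.choose m : ℝ)) := by ring
      _ ≤ Real.exp hh * (2 * (E : ℝ) ^ A * y ^ (m - A)) :=
          mul_le_mul_of_nonneg_left hc (Real.exp_pos _).le
      _ = 2 * (E : ℝ) ^ A * Real.exp hh * y ^ (m - A) := by ring
      _ ≤ 2 * (E : ℝ) ^ A * Real.exp hh * th ^ (m - A) :=
          mul_le_mul_of_nonneg_left (pow_le_pow_left₀ hy0 hy _) hX
      _ ≤ 2 * (E : ℝ) ^ A * Real.exp hh * th ^ (min (A + 1) (m - A)) :=
          mul_le_mul_of_nonneg_left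
            (pow_le_pow_of_le_one hth0.le hth1 (min_le_right _ _)) hX
  -- the errors
  have herr : ∀ i, |(v i : ℝ) - (u i : ℝ) * (1 + θ) ^ (e i)| ≤
      Real.exp hh * (2 * th ^ (A + 1)) := by
    intro i
    have hui : (0 : ℝ) < u i := by exact_mod_cast hu0 i
    have hvi : (0 : ℝ) < v i := by exact_mod_cast hv0 i
    obtain ⟨s, hs⟩ : ∃ s : ℝ, s = Real.log (v i) - Real.log (u i) - (e i : ℝ) * φ := ⟨_, rfl⟩
    have hs1 : |s| ≤ η := by
      rw [hs]
      exact hv i
    have h1 : (u i : ℝ) * (1 + θ) ^ (e i) = (v i : ℝ) * Real.exp (-s) := by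
      rw [hexpφ, ← Real.exp_nat_mul]
      have h2 : (v i : ℝ) = Real.exp (Real.log (v i)) := (Real.exp_log hvi).symm
      have h3 : (u i : ℝ) = Real.exp (Real.log (u i)) := (Real.exp_log hui).symm
      rw [h2, h3, ← Real.exp_add, ← Real.exp_add, hs]
      congr 1
      ring
    have h4 : (v i : ℝ) - (u i : ℝ) * (1 + θ) ^ (e i) = -((v i : ℝ) * (Real.exp (-s) - 1)) := by
      rw [h1]
      ring
    rw [h4, abs_neg, abs_mul, abs_of_pos hvi]
    have h5 : |Real.exp (-s) - 1| ≤ 2 * th ^ (A + 1) := by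
      have h6 : |(-s)| ≤ 1 := by
        rw [abs_neg]
        exact hs1.trans hη1
      have h7 := Real.abs_exp_sub_one_le h6
      rw [abs_neg] at h7
      linarith [hs1.trans hη]
    exact mul_le_mul (hv' i) h5 (abs_nonneg _) (Real.exp_pos _).le
  have hcard : Fintype.card (Col A) = A + 1 + (A + 1) := by
    rw [Fintype.card_sum, Fintype.card_fin]
  have hcard2 : Fintype.card (Col A) = 2 * (A + 1) := by
    rw [hcard]
    ring
  have key := det_coreR (κ := Col A) A (A + 1) (A + 1) (A + E + 1) hcard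
    (fun i m => (u i : ℝ) * ((e i).choose m : ℝ))
    (fun (m : ℕ) (j : Col A) => Sum.elim (fun a : Fin (A + 1) => mu0 a m)
        (fun a : Fin (A + 1) => mu1 a m) j)
    (fun i j => Sum.elim (fun _ : Fin (A + 1) => (0 : ℝ))
        (fun a : Fin (A + 1) => (e i : ℝ) ^ (a : ℕ) *
          ((v i : ℝ) - (u i : ℝ) * (1 + θ) ^ (e i))) j)
    (2 * (E : ℝ) ^ A * Real.exp hh) th hX hth0.le hth1 (by
      intro i m j
      rcases j with a | a
      · have h1 := hmu0 a m
        rw [abs_zero, zero_mul] at h1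
        exact hterm i m (mu0 a m) 0 le_rfl hth0.le h1
      · exact hterm i m (mu1 a m) (|θ| * (E : ℝ)) (mul_nonneg (abs_nonneg _) hE0) hθE
          (hmu1 a m)) (by
      intro i j
      rcases j with a | a
      · simp only [Sum.elim_inl, abs_zero]
        positivity
      · simp only [Sum.elim_inr]
        rw [abs_mul, abs_of_nonneg (by positivity : (0 : ℝ) ≤ (e i : ℝ) ^ (a : ℕ))]
        have h1 : (e i : ℝ) ^ (a : ℕ) ≤ (E : ℝ) ^ A := by
          have h2 : (e i : ℝ) ≤ E := by exact_mod_cast he i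
          exact (pow_le_pow_left₀ (Nat.cast_nonneg _) h2 _).trans
            (pow_le_pow_right₀ hE1 (by have := a.isLt; omega))
        calc (e i : ℝ) ^ (a : ℕ) * |(v i : ℝ) - (u i : ℝ) * (1 + θ) ^ (e i)|
            ≤ (E : ℝ) ^ A * (Real.exp hh * (2 * th ^ (A + 1))) :=
              mul_le_mul h1 (herr i) (abs_nonneg _) (by positivity)
          _ = 2 * (E : ℝ) ^ A * Real.exp hh * th ^ (A + 1) := by ring)
  rw [hcard2] at key
  have hM : (((A + E + 1 : ℕ) : ℝ) + 1) = (A : ℝ) + E + 2 := by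
    push_cast
    ring
  rw [hM] at key
  have hdet : ((imat A e u v).det : ℝ) = (Matrix.of fun i j =>
      (∑ m ∈ range (A + E + 1), (fun (i : Col A) (m : ℕ) => (u i : ℝ) * ((e i).choose m : ℝ)) i m *
        (fun (m : ℕ) (j : Col A) => Sum.elim (fun a : Fin (A + 1) => mu0 a m)
          (fun a : Fin (A + 1) => mu1 a m) j) m j) +
        (fun (i j : Col A) => Sum.elim (fun _ : Fin (A + 1) => (0 : ℝ))
          (fun a : Fin (A + 1) => (e i : ℝ) ^ (a : ℕ) *
            ((v i : ℝ) - (u i : ℝ) * (1 + θ) ^ (e i))) j) i j).det := by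
    rw [Int.cast_det]
    congr 1
    ext i j
    unfold imat
    simp only [Matrix.of_apply, Matrix.map_apply]
    rcases j with a | a
    · simp only [Sum.elim_inl, add_zero]
      have h1 := hexp0 a (e i) (he i)
      rw [add_zero, one_pow, mul_one] at h1
      push_cast
      rw [h1, sum_mul]
      exact sum_congr rfl fun m _ => by ring
    · simp only [Sum.elim_inr]
      have h1 := hexp1 a (e i) (he i)
      push_cast
      have h3 : (e i : ℝ) ^ (a : ℕ) * (v i : ℝ) =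
          ((e i : ℝ) ^ (a : ℕ) * (1 + θ) ^ (e i)) * (u i : ℝ)
            + (e i : ℝ) ^ (a : ℕ) * ((v i : ℝ) - (u i : ℝ) * (1 + θ) ^ (e i)) := by
        ring
      rw [h3, h1, sum_mul]
      congr 1
      exact sum_congr rfl fun m _ => by ring
  rw [hdet]
  exact key

/-- PIECE RA-V7b (60 lines).  `∑ l < T, (T - l) ≥ T (T + 1) / 2` (`two_mul_sum_sub` or induction),
`T = A + 1`.  So `log` of the right side of `det_boundA` is at most
`2T (log (A+E+2) + log (2T) + log 2 + A log E + hh) - (T(T+1)/2) (- log th) < 0`; an integer of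
absolute value less than `1` is `0`. -/
theorem det_zeroA (A E : ℕ) (hE : 1 ≤ E) (e : Col A → ℕ) (he : ∀ i, e i ≤ E)
    (u v : Col A → ℤ) (hu0 : ∀ i, 0 < u i) (hv0 : ∀ i, 0 < v i) (φ η th hh : ℝ)
    (hφ : |φ| ≤ 1) (hth : 2 * |φ| * (E : ℝ) ≤ th) (hth0 : 0 < th) (hth2 : th ≤ 1 / 2)
    (hη : η ≤ th ^ (A + 1)) (hη1 : η ≤ 1)
    (hv : ∀ i, |Real.log (v i) - Real.log (u i) - (e i : ℝ) * φ| ≤ η)
    (hu : ∀ i, (u i : ℝ) ≤ Real.exp hh) (hv' : ∀ i, (v i : ℝ) ≤ Real.exp hh)
    (hsize : 4 * (Real.log (2 * ((A : ℝ) + 1)) + Real.log ((A : ℝ) + E + 2) + Real.log 2 +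
      (A : ℝ) * Real.log E + hh) < ((A : ℝ) + 1) * (-Real.log th)) :
    (imat A e u v).det = 0 := by
  have hb := det_boundA A E hE e he u v hu0 hv0 φ η th hh hφ hth hth0 hth2 hη hη1 hv hu hv'
  -- the exponent of `th`
  have hsum : ∀ n : ℕ, 2 * (∑ l ∈ range n, (n - l)) = n * (n + 1) := by
    intro n
    induction n with
    | zero => simp
    | succ n ih =>
      rw [Finset.sum_range_succ']
      have h1 : ∀ k ∈ range n, (n + 1 - (k + 1)) = n - k := by
        intro k _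
        omega
      rw [Finset.sum_congr rfl h1, Nat.mul_add, ih]
      simp only [Nat.sub_zero]
      ring
  set S : ℕ := ∑ l ∈ range (A + 1), (A + 1 - l) with hS
  have hS2 : (2 : ℝ) * (S : ℝ) = ((A : ℝ) + 1) * ((A : ℝ) + 1 + 1) := by
    have := hsum (A + 1)
    rw [← hS] at this
    exact_mod_cast this
  have hA0 : (0 : ℝ) ≤ (A : ℝ) := Nat.cast_nonneg A
  have hE0 : (0 : ℝ) < (E : ℝ) := by exact_mod_cast hE
  have hL : 0 < -Real.log th := by
    have : Real.log th < 0 := Real.log_neg hth0 (by linarith)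
    linarith
  have hlt : ((A : ℝ) + E + 2) ^ (2 * (A + 1)) * ((Nat.factorial (2 * (A + 1)) : ℝ) *
        (2 * (E : ℝ) ^ A * Real.exp hh) ^ (2 * (A + 1)) * th ^ S) < 1 := by
    by_contra hcon
    push Not at hcon
    have hlog := Real.log_nonneg hcon
    have hf0 : (0 : ℝ) < (Nat.factorial (2 * (A + 1)) : ℝ) := by
      exact_mod_cast Nat.factorial_pos _
    have hEA : (0 : ℝ) < (E : ℝ) ^ A := pow_pos hE0 A
    have hX : (0 : ℝ) < 2 * (E : ℝ) ^ A * Real.exp hh := by positivity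
    have hX' : (0 : ℝ) < (2 * (E : ℝ) ^ A * Real.exp hh) ^ (2 * (A + 1)) := pow_pos hX _
    have hT : (0 : ℝ) < th ^ S := pow_pos hth0 S
    have hP : (0 : ℝ) < ((A : ℝ) + E + 2) ^ (2 * (A + 1)) := by positivity
    rw [Real.log_mul hP.ne' (by positivity), Real.log_mul (by positivity) hT.ne',
      Real.log_mul hf0.ne' hX'.ne', Real.log_pow, Real.log_pow, Real.log_pow,
      Real.log_mul (by positivity) (Real.exp_pos hh).ne', Real.log_mul (by norm_num) hEA.ne',
      Real.log_exp, Real.log_pow] at hlog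
    have hfac : Real.log (Nat.factorial (2 * (A + 1)) : ℝ) ≤
        (2 * ((A : ℝ) + 1)) * Real.log (2 * ((A : ℝ) + 1)) := by
      have h1 : (Nat.factorial (2 * (A + 1)) : ℝ) ≤ (2 * ((A : ℝ) + 1)) ^ (2 * (A + 1)) := by
        have := Nat.factorial_le_pow (2 * (A + 1))
        have h2 : ((Nat.factorial (2 * (A + 1)) : ℕ) : ℝ) ≤
            (((2 * (A + 1)) ^ (2 * (A + 1)) : ℕ) : ℝ) := by exact_mod_cast this
        refine h2.trans (le_of_eq ?_)
        push_cast
        ring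
      have h2 := Real.log_le_log hf0 h1
      rw [Real.log_pow] at h2
      push_cast at h2
      exact h2
    push_cast at hlog
    set L : ℝ := -Real.log th with hLdef
    have hlt' : Real.log th = -L := by rw [hLdef]; ring
    rw [hlt'] at hlog
    set a := Real.log (2 * ((A : ℝ) + 1))
    set b := Real.log ((A : ℝ) + E + 2)
    set c := Real.log 2
    set d := Real.log (E : ℝ)
    set F := Real.log (Nat.factorial (2 * (A + 1)) : ℝ)
    have h3 : ((A : ℝ) + 1) * (4 * (a + b + c + (A : ℝ) * d + hh)) <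
        ((A : ℝ) + 1) * (((A : ℝ) + 1) * L) := by
      apply mul_lt_mul_of_pos_left hsize (by linarith)
    have h4 : 2 * (S : ℝ) * L = ((A : ℝ) + 1) * ((A : ℝ) + 1 + 1) * L := by rw [hS2]
    have h5 : 0 < ((A : ℝ) + 1) * L := mul_pos (by linarith) hL
    nlinarith [h3, h4, h5, hlog, hfac]
  have habs : |((imat A e u v).det : ℝ)| < 1 := lt_of_le_of_lt hb hlt
  have h6 : |(imat A e u v).det| < 1 := by
    have : ((|(imat A e u v).det| : ℤ) : ℝ) < 1 := by
      rw [Int.cast_abs]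
      exact habs
    exact_mod_cast this
  exact Int.abs_lt_one_iff.mp h6

end Pool.RA
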