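import Pool.Agent.Helper44.RA.K1

/-! Project RA: the end of the argument for an abstract family of points. -/

set_option autoImplicit false

namespace Pool.RA

open Finset

variable {ι : Type} [Fintype ι]

/-- PIECE RA-V8 (110 lines; copy the proof of `kill` in file K1, which is the case
`Pt e w ↔ chi w = chi x ^ e`).  Points: `(e, w)` with `e ≤ 2N`, `nm r w ≤ 2H`, `Pt e w`. -/
theorem killG (r : ι → ℕ) (hr : ∀ i, (r i).Prime) (hinj : Function.Injective r)
    (A N : ℕ) (hA : 1 ≤ A) (H : ℝ) (Pt : ℕ → (ι → ℤ) → Prop)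
    (hdet : ∀ (e : Col A → ℕ) (w : Col A → ι → ℤ), (∀ i, e i ≤ 2 * N) →
      (∀ i, nm r (w i) ≤ 2 * H) → (∀ i, Pt (e i) (w i)) →
      (imat A e (fun i => (De r (w i) : ℤ)) (fun i => (Nu r (w i) : ℤ))).det = 0)
    (C : Finset ℕ) (hC : 2 * A < C.card) (hCN : ∀ c ∈ C, c ≤ N) (X : ℕ → ι → ℤ)
    (hX : ∀ c ∈ C, Pt c (X c) ∧ nm r (X c) ≤ H ∧ (c ≠ 0 → X c ≠ 0))
    (hadd : ∀ c ∈ C, ∀ d ∈ C, Pt (c + d) (X c + X d)) :
    False := by
  classical
  have hr1 : ∀ i, 1 ≤ r i := fun i => (hr i).one_le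
  have hC1 : 1 < C.card := by omega
  obtain ⟨d, hdC, hd0⟩ := Finset.exists_mem_ne hC1 0
  have hH0 : 0 ≤ H := (nm_nonneg r (X d)).trans (hX d hdC).2.1
  have hDe0 : ∀ v : ι → ℤ, ((De r v : ℕ) : ℚ) ≠ 0 := fun v => by
    have := de_pos r hr1 v
    positivity
  have hNu0 : ∀ v : ι → ℤ, ((Nu r v : ℕ) : ℚ) ≠ 0 := fun v => by
    have := nu_pos r hr1 v
    positivity
  -- the linear relation
  obtain ⟨q, hq0, hq⟩ := rank_rel
    (Pt := {pr : ℕ × (ι → ℤ) // pr.1 ≤ 2 * N ∧ nm r pr.2 ≤ 2 * H ∧ Pt pr.1 pr.2}) (κ := Col A)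
    (fun w j => Sum.elim (fun a : Fin (A + 1) => ((w.1.1 : ℕ) : ℚ) ^ (a : ℕ) * (De r w.1.2 : ℚ))
      (fun a : Fin (A + 1) => ((w.1.1 : ℕ) : ℚ) ^ (a : ℕ) * (Nu r w.1.2 : ℚ)) j) (by
    intro s
    have h1 : (imat A (fun i => (s i).1.1) (fun i => (De r (s i).1.2 : ℤ))
        (fun i => (Nu r (s i).1.2 : ℤ))).det = 0 :=
      hdet _ _ (fun i => (s i).2.1) (fun i => (s i).2.2.1) (fun i => (s i).2.2.2)
    have h4 := (Int.castRingHom ℚ).map_det (imat A (fun i => (s i).1.1)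
      (fun i => (De r (s i).1.2 : ℤ)) (fun i => (Nu r (s i).1.2 : ℤ)))
    rw [h1, map_zero, RingHom.mapMatrix_apply] at h4
    rw [h4]
    congr 1
    ext i j
    rcases j with a | a
    · simp [imat]
    · simp [imat])
  set Q0 : Polynomial ℚ :=
    ∑ a : Fin (A + 1), Polynomial.C (q (Sum.inl a)) * Polynomial.X ^ (a : ℕ) with hQ0
  set Q1 : Polynomial ℚ :=
    ∑ a : Fin (A + 1), Polynomial.C (q (Sum.inr a)) * Polynomial.X ^ (a : ℕ) with hQ1
  have hdeg : ∀ f : Fin (A + 1) → ℚ,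
      (∑ a : Fin (A + 1), Polynomial.C (f a) * Polynomial.X ^ (a : ℕ)).natDegree ≤ A := by
    intro f
    refine Polynomial.natDegree_sum_le_of_forall_le _ _ fun a _ => ?_
    exact (Polynomial.natDegree_C_mul_X_pow_le _ _).trans (Nat.lt_succ_iff.1 a.2)
  have hpt : ∀ (e : ℕ) (v : ι → ℤ), e ≤ 2 * N → nm r v ≤ 2 * H → Pt e v →
      Q0.eval (e : ℚ) + Q1.eval (e : ℚ) * ((Nu r v : ℚ) / (De r v : ℚ)) = 0 := by
    intro e v h1 h2 h3
    have h4 := hq ⟨(e, v), h1, h2, h3⟩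
    rw [Fintype.sum_sum_type] at h4
    simp only [Sum.elim_inl, Sum.elim_inr] at h4
    have h5 : Q0.eval (e : ℚ) = ∑ a : Fin (A + 1), q (Sum.inl a) * (e : ℚ) ^ (a : ℕ) := by
      rw [hQ0, Polynomial.eval_finsetSum]
      exact Finset.sum_congr rfl fun a _ => by simp
    have h6 : Q1.eval (e : ℚ) = ∑ a : Fin (A + 1), q (Sum.inr a) * (e : ℚ) ^ (a : ℕ) := by
      rw [hQ1, Polynomial.eval_finsetSum]
      exact Finset.sum_congr rfl fun a _ => by simp
    have h7 : Q0.eval (e : ℚ) * (De r v : ℚ) + Q1.eval (e : ℚ) * (Nu r v : ℚ) = 0 := by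
      rw [h5, h6, Finset.sum_mul, Finset.sum_mul]
      rw [← h4]
      congr 1
      · exact Finset.sum_congr rfl fun a _ => by ring
      · exact Finset.sum_congr rfl fun a _ => by ring
    have h8 := hDe0 v
    field_simp
    linarith
  have hcast : Function.Injective (Nat.cast : ℕ → ℚ) := Nat.cast_injective
  have hρ : (Nu r (X d) : ℚ) / (De r (X d) : ℚ) ≠ 1 := by
    intro h1
    rw [div_eq_one_iff_eq (hDe0 _)] at h1
    have h2 : Nu r (X d) = De r (X d) := by exact_mod_cast h1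
    exact (hX d hdC).2.2 hd0 (eq_zero_of_nu_eq_de r hr hinj _ h2)
  have hRz : ∀ c : ℕ, (((c : ℚ).num).toNat) = c := fun c => by simp
  have hz := zero_est A Q0 Q1 (hdeg _) (hdeg _) (C.image (Nat.cast : ℕ → ℚ))
    (by rw [Finset.card_image_of_injective _ hcast]; exact hC)
    (fun z => (Nu r (X (z.num.toNat)) : ℚ) / (De r (X (z.num.toNat)) : ℚ))
    (fun z _ => div_ne_zero (hNu0 _) (hDe0 _)) (d : ℚ)
    ((Nu r (X d) : ℚ) / (De r (X d) : ℚ)) hρ (by
      intro z hz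
      rw [Finset.mem_image] at hz
      obtain ⟨c, hc, rfl⟩ := hz
      simp only [hRz]
      refine hpt c (X c) ?_ ?_ (hX c hc).1
      · have := hCN c hc
        omega
      · have := (hX c hc).2.1
        linarith) (by
      intro z hz
      rw [Finset.mem_image] at hz
      obtain ⟨c, hc, rfl⟩ := hz
      simp only [hRz]
      rw [← ratio_add r hr1, ← Nat.cast_add]
      refine hpt (c + d) (X c + X d) ?_ ?_ (hadd c hc d hdC)
      · have := hCN c hc
        have := hCN d hdC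
        omega
      · have h1 := (hX c hc).2.1
        have h2 := (hX d hdC).2.1
        have h3 := nm_add_le r (X c) (X d)
        linarith)
  have hcoef : ∀ (f : Fin (A + 1) → ℚ),
      (∑ a : Fin (A + 1), Polynomial.C (f a) * Polynomial.X ^ (a : ℕ)) = 0 → ∀ a, f a = 0 := by
    intro f hf a
    have h1 := congrArg (fun P : Polynomial ℚ => P.coeff (a : ℕ)) hf
    simp only [Polynomial.finsetSum_coeff, Polynomial.coeff_C_mul_X_pow,
      Polynomial.coeff_zero] at h1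
    rw [Finset.sum_eq_single a] at h1
    · simpa using h1
    · intro b _ hb
      have : ¬ (a : ℕ) = (b : ℕ) := fun h2 => hb (Fin.ext h2.symm)
      simp [this]
    · intro h2
      exact absurd (Finset.mem_univ a) h2
  apply hq0
  funext j
  rcases j with a | a
  · exact hcoef _ hz.1 a
  · exact hcoef _ hz.2 a

end Pool.RA
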