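import Pool.Agent.Helper44.RA.V2
import Pool.Agent.Helper44.RA.N1

/-! Project RA, archimedean part: inequalities between the parameters. -/

set_option autoImplicit false

namespace Pool.RA

open Filter

/-- The box parameter for the logarithm. -/
noncomputable def QQ (κ I : ℝ) : ℕ := ⌈4 * (NN κ I : ℝ) * Real.exp (8 * Real.log I)⌉₊

/-- The number of boxes for the logarithm. -/
noncomputable def GG (κ I : ℝ) : ℕ :=
  ⌈(QQ κ I : ℝ) * ((tt κ : ℝ) * (Real.log I / κ) + 2) + 1⌉₊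

private theorem V9_pow (C : ℝ) (n : ℕ) {c : ℝ} (hc : 0 < c) :
    ∀ᶠ I : ℝ in atTop, C * I ^ n < Real.exp (c * I) := by
  have hC : 0 < |C| + 1 := by positivity
  have h := (isLittleO_pow_exp_pos_mul_atTop (k := n) hc).bound (inv_pos.2 hC)
  filter_upwards [h] with I hI
  rw [Real.norm_eq_abs, Real.norm_eq_abs, Real.abs_exp] at hI
  have h1 : 0 < Real.exp (c * I) := Real.exp_pos _
  calc C * I ^ n ≤ |C * I ^ n| := le_abs_self _
    _ = |C| * |I ^ n| := abs_mul _ _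
    _ ≤ |C| * ((|C| + 1)⁻¹ * Real.exp (c * I)) := mul_le_mul_of_nonneg_left hI (abs_nonneg C)
    _ = (|C| * (|C| + 1)⁻¹) * Real.exp (c * I) := by ring
    _ < 1 * Real.exp (c * I) := by
        refine mul_lt_mul_of_pos_right ?_ h1
        rw [← div_eq_mul_inv, div_lt_one hC]
        linarith
    _ = Real.exp (c * I) := one_mul _

private theorem V9_A1 (κ : ℝ) (hκ : 0 < κ) (I : ℝ) (hI : Real.exp 1 ≤ I) :
    (A1 κ I : ℝ) ≤ κ * I := by
  have h0 : 0 < I := (Real.exp_pos 1).trans_le hI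
  have h1 : 1 ≤ Real.log I := (Real.le_log_iff_exp_le h0).2 hI
  have ht : (1 : ℝ) ≤ tt κ := by
    have : 1 ≤ tt κ := by unfold tt; omega
    exact_mod_cast this
  have hl : 0 < Real.log I := by linarith
  have h3 : (A1 κ I : ℝ) ≤ κ * I / (4 * (tt κ : ℝ) ^ 2 * Real.log I) :=
    Nat.floor_le (by positivity)
  refine h3.trans (div_le_self (by positivity) ?_)
  have h4 : (1 : ℝ) ≤ (tt κ : ℝ) ^ 2 := one_le_pow₀ ht
  nlinarith

private theorem V9_NN (κ : ℝ) (hκ : 0 < κ) (I : ℝ) (hI : Real.exp 1 ≤ I) :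
    (NN κ I : ℝ) ≤ κ * (KK κ : ℝ) * I := by
  have h0 : 0 < I := (Real.exp_pos 1).trans_le hI
  have h1 : 1 ≤ Real.log I := (Real.le_log_iff_exp_le h0).2 hI
  have ht : (1 : ℝ) ≤ tt κ := by
    have : 1 ≤ tt κ := by unfold tt; omega
    exact_mod_cast this
  have hl : 0 < Real.log I := by linarith
  have h3 : (NN κ I : ℝ) ≤ κ * (KK κ : ℝ) * I / (128 * (tt κ : ℝ) * Real.log I) :=
    Nat.floor_le (by positivity)
  refine h3.trans (div_le_self (by positivity) ?_)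
  nlinarith

private theorem V9_Om (κ : ℝ) (hκ : 0 < κ) : ∃ C : ℝ, 0 ≤ C ∧ ∀ I : ℝ, Real.exp 1 ≤ I →
    0 ≤ Om (tt κ) (63 * I) (A1 κ I) ∧ Om (tt κ) (63 * I) (A1 κ I) ≤ C * I ^ (tt κ + 1) := by
  refine ⟨(tt κ : ℝ) * κ * ((Nat.factorial (tt κ) : ℝ) * 63 ^ tt κ), by positivity, fun I hI => ?_⟩
  have h0 : 0 < I := (Real.exp_pos 1).trans_le hI
  have h1 := V9_A1 κ hκ I hI
  unfold Om
  refine ⟨by positivity, ?_⟩
  calc (tt κ : ℝ) * (A1 κ I : ℝ) * ((Nat.factorial (tt κ) : ℝ) * (63 * I) ^ tt κ)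
      ≤ (tt κ : ℝ) * (κ * I) * ((Nat.factorial (tt κ) : ℝ) * (63 * I) ^ tt κ) := by
        refine mul_le_mul_of_nonneg_right (mul_le_mul_of_nonneg_left h1 (by positivity)) (by positivity)
    _ = (tt κ : ℝ) * κ * ((Nat.factorial (tt κ) : ℝ) * 63 ^ tt κ) * I ^ (tt κ + 1) := by
        rw [mul_pow, pow_succ]
        ring

/-- PIECE RA-V9a (the next two theorems, 90 lines).  `Om` is at most a constant times a power of
`I` (`A1 ≤ C I`), `NN ≤ C I`, and `exp (-I)` times any power of `I` is at most `exp (-3I/4)` for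
large `I`. -/
theorem ev_Om (κ : ℝ) (hκ : 0 < κ) : ∀ᶠ I : ℝ in atTop,
    (tt κ : ℝ) * (Om (tt κ) (63 * I) (A1 κ I) * Real.exp (-I)) < Real.exp (-(I / 4)) := by
  obtain ⟨C, hC, hOm⟩ := V9_Om κ hκ
  filter_upwards [V9_pow ((tt κ : ℝ) * C) (tt κ + 1) (show (0 : ℝ) < 3 / 4 by norm_num),
    eventually_ge_atTop (Real.exp 1)] with I h1 h2
  obtain ⟨-, h3⟩ := hOm I h2
  have e : Real.exp (-(I / 4)) = Real.exp (3 / 4 * I) * Real.exp (-I) := by
    rw [← Real.exp_add]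
    congr 1
    ring
  rw [e, ← mul_assoc]
  refine mul_lt_mul_of_pos_right (lt_of_le_of_lt ?_ h1) (Real.exp_pos _)
  calc (tt κ : ℝ) * Om (tt κ) (63 * I) (A1 κ I) ≤ (tt κ : ℝ) * (C * I ^ (tt κ + 1)) :=
        mul_le_mul_of_nonneg_left h3 (Nat.cast_nonneg _)
    _ = (tt κ : ℝ) * C * I ^ (tt κ + 1) := (mul_assoc _ _ _).symm

theorem ev_eta (κ : ℝ) (hκ : 0 < κ) : ∀ᶠ I : ℝ in atTop,
    2 * ((tt κ : ℝ) * (((NN κ I : ℝ) * Om (tt κ) (63 * I) (A1 κ I) + 1) * Real.exp (-I))) ≤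
      Real.exp (-(I / 2)) := by
  obtain ⟨C, hC, hOm⟩ := V9_Om κ hκ
  filter_upwards [V9_pow (2 * (tt κ : ℝ) * (κ * (KK κ : ℝ) * C + 1)) (tt κ + 2)
    (show (0 : ℝ) < 1 / 2 by norm_num), eventually_ge_atTop (Real.exp 1)] with I h1 h2
  obtain ⟨h4, h3⟩ := hOm I h2
  have h0 : 0 < I := (Real.exp_pos 1).trans_le h2
  have h1I : 1 ≤ I := by
    have := Real.add_one_le_exp (1 : ℝ)
    linarith
  have h5 := V9_NN κ hκ I h2
  have e : Real.exp (-(I / 2)) = Real.exp (1 / 2 * I) * Real.exp (-I) := by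
    rw [← Real.exp_add]
    congr 1
    ring
  have h6 : (NN κ I : ℝ) * Om (tt κ) (63 * I) (A1 κ I) + 1 ≤
      (κ * (KK κ : ℝ) * C + 1) * I ^ (tt κ + 2) := by
    have h7 : (NN κ I : ℝ) * Om (tt κ) (63 * I) (A1 κ I) ≤
        (κ * (KK κ : ℝ) * I) * (C * I ^ (tt κ + 1)) :=
      mul_le_mul h5 h3 h4 (by positivity)
    have h8 : (1 : ℝ) ≤ I ^ (tt κ + 2) := one_le_pow₀ h1I
    have h9 : (κ * (KK κ : ℝ) * I) * (C * I ^ (tt κ + 1)) = κ * (KK κ : ℝ) * C * I ^ (tt κ + 2) := by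
      rw [pow_succ I (tt κ + 1)]
      ring
    rw [h9] at h7
    rw [add_mul, one_mul]
    exact add_le_add h7 h8
  rw [e]
  calc 2 * ((tt κ : ℝ) * (((NN κ I : ℝ) * Om (tt κ) (63 * I) (A1 κ I) + 1) * Real.exp (-I)))
      = (2 * (tt κ : ℝ) * ((NN κ I : ℝ) * Om (tt κ) (63 * I) (A1 κ I) + 1)) * Real.exp (-I) := by
        ring
    _ ≤ Real.exp (1 / 2 * I) * Real.exp (-I) := by
        refine mul_le_mul_of_nonneg_right (le_trans ?_ h1.le) (Real.exp_pos _).le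
        rw [mul_assoc (2 * (tt κ : ℝ))]
        exact mul_le_mul_of_nonneg_left h6 (by positivity)

private theorem V9b_ev (c : ℝ) (hc : 0 < c) :
    ∀ᶠ I : ℝ in atTop, 1 ≤ Real.log I ∧ Real.log I ≤ c * I ∧ 1 ≤ I := by
  have h1 := (Real.isLittleO_log_id_atTop).bound hc
  filter_upwards [h1, eventually_ge_atTop (Real.exp 1)] with I h2 h3
  have hI : 0 < I := (Real.exp_pos 1).trans_le h3
  have h4 : 1 ≤ Real.log I := (Real.le_log_iff_exp_le hI).2 h3
  have h5 : (1 : ℝ) ≤ I := by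
    have := Real.add_one_le_exp (1 : ℝ)
    linarith
  refine ⟨h4, ?_, h5⟩
  rw [Real.norm_eq_abs, Real.norm_eq_abs, abs_of_pos (by linarith), id, abs_of_pos hI] at h2
  exact h2

private theorem V9b_tt (κ : ℝ) : (0 : ℝ) < tt κ := by
  unfold tt
  positivity

private theorem V9b_NN (κ : ℝ) (hκ : 0 < κ) (I : ℝ) (h1 : 1 ≤ Real.log I) (hI : 1 ≤ I) :
    (NN κ I : ℝ) ≤ κ * (KK κ : ℝ) / (128 * (tt κ : ℝ)) * I := by
  have ht := V9b_tt κ
  have e1 : (NN κ I : ℝ) ≤ κ * (KK κ : ℝ) * I / (128 * (tt κ : ℝ) * Real.log I) :=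
    Nat.floor_le (by positivity)
  refine e1.trans ?_
  rw [div_mul_eq_mul_div]
  apply div_le_div_of_nonneg_left (by positivity) (by positivity)
  nlinarith

/-- PIECE RA-V9b (the next three theorems, 90 lines).  `NN ≤ C I`, `exp (8 log I) = I^8`,
`exp (16 log I) = I^16`, `log I = o(I)`: the left side is `O(I^10)`. -/
theorem ev_GG (κ : ℝ) (hκ : 0 < κ) : ∀ᶠ I : ℝ in atTop,
    (GG κ I : ℝ) ≤ Real.exp (16 * Real.log I) := by
  have ht := V9b_tt κ
  obtain ⟨C, hC⟩ : ∃ C : ℝ, C = κ * (KK κ : ℝ) / (128 * (tt κ : ℝ)) := ⟨_, rfl⟩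
  have hC0 : 0 ≤ C := by rw [hC]; positivity
  obtain ⟨T, hT⟩ : ∃ T : ℝ, T = (tt κ : ℝ) / κ + 2 := ⟨_, rfl⟩
  have hT0 : 0 ≤ T := by rw [hT]; positivity
  filter_upwards [V9b_ev 1 (by norm_num), eventually_ge_atTop ((4 * C + 1) * T + 2)] with I h1 h2
  obtain ⟨hl, hlI, hI⟩ := h1
  have hI0 : 0 < I := by linarith
  have hN : (NN κ I : ℝ) ≤ C * I := by rw [hC]; exact V9b_NN κ hκ I hl hI
  have e8 : Real.exp (8 * Real.log I) = I ^ 8 := by
    rw [show (8 : ℝ) * Real.log I = ((8 : ℕ) : ℝ) * Real.log I by norm_num, Real.exp_nat_mul,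
      Real.exp_log hI0]
  have e16 : Real.exp (16 * Real.log I) = I ^ 16 := by
    rw [show (16 : ℝ) * Real.log I = ((16 : ℕ) : ℝ) * Real.log I by norm_num, Real.exp_nat_mul,
      Real.exp_log hI0]
  have hQ : (QQ κ I : ℝ) ≤ (4 * C + 1) * I ^ 9 := by
    unfold QQ
    have h3 : (⌈4 * (NN κ I : ℝ) * Real.exp (8 * Real.log I)⌉₊ : ℝ) <
        4 * (NN κ I : ℝ) * Real.exp (8 * Real.log I) + 1 := Nat.ceil_lt_add_one (by positivity)
    rw [e8] at h3 ⊢
    have h4 : 4 * (NN κ I : ℝ) * I ^ 8 ≤ 4 * (C * I) * I ^ 8 := by gcongr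
    have h5 : (1 : ℝ) ≤ I ^ 9 := one_le_pow₀ hI
    nlinarith
  have hin : (tt κ : ℝ) * (Real.log I / κ) + 2 ≤ T * I := by
    have h6 : (tt κ : ℝ) * (Real.log I / κ) = (tt κ : ℝ) / κ * Real.log I := by ring
    rw [h6, hT, add_mul]
    have h7 : (tt κ : ℝ) / κ * Real.log I ≤ (tt κ : ℝ) / κ * I := by
      apply mul_le_mul_of_nonneg_left _ (by positivity)
      linarith
    linarith
  have hin0 : 0 ≤ (tt κ : ℝ) * (Real.log I / κ) + 2 := by
    have : 0 ≤ Real.log I / κ := div_nonneg (by linarith) hκ.le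
    positivity
  unfold GG
  have h3 : (⌈(QQ κ I : ℝ) * ((tt κ : ℝ) * (Real.log I / κ) + 2) + 1⌉₊ : ℝ) <
      (QQ κ I : ℝ) * ((tt κ : ℝ) * (Real.log I / κ) + 2) + 1 + 1 :=
    Nat.ceil_lt_add_one (by positivity)
  have h8 : (QQ κ I : ℝ) * ((tt κ : ℝ) * (Real.log I / κ) + 2) ≤
      (4 * C + 1) * I ^ 9 * (T * I) := mul_le_mul hQ hin hin0 (by positivity)
  have h9 : (1 : ℝ) ≤ I ^ 10 := one_le_pow₀ hI
  have h10 : (4 * C + 1) * I ^ 9 * (T * I) + 2 ≤ ((4 * C + 1) * T + 2) * I ^ 10 := by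
    have : (4 * C + 1) * I ^ 9 * (T * I) = (4 * C + 1) * T * I ^ 10 := by ring
    rw [this]; nlinarith
  have h11 : ((4 * C + 1) * T + 2) * I ^ 10 ≤ I * I ^ 10 :=
    mul_le_mul_of_nonneg_right h2 (by positivity)
  have h12 : I * I ^ 10 = I ^ 11 := by ring
  have h13 : I ^ 11 ≤ I ^ 16 := pow_le_pow_right₀ hI (by norm_num)
  rw [e16]
  linarith

/-- `AA + 1 ≤ I / (16 log I) + 1`, so `I / (2 (AA + 1))` tends to infinity. -/
theorem ev_th : ∀ᶠ I : ℝ in atTop, Real.exp (-(I / (2 * ((AA I : ℝ) + 1)))) ≤ 1 / 2 := by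
  filter_upwards [V9b_ev (1 / 16) (by norm_num)] with I h1
  obtain ⟨hl, hlI, hI⟩ := h1
  have hl0 : 0 < Real.log I := by linarith
  have hA : (AA I : ℝ) ≤ I / (16 * Real.log I) := Nat.floor_le (by positivity)
  have hA1 : 8 * Real.log I * ((AA I : ℝ) + 1) ≤ I := by
    have h2 : 8 * Real.log I * (AA I : ℝ) ≤ 8 * Real.log I * (I / (16 * Real.log I)) :=
      mul_le_mul_of_nonneg_left hA (by positivity)
    have h3 : 8 * Real.log I * (I / (16 * Real.log I)) = I / 2 := by field_simp; norm_num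
    linarith
  have hA0 : (0 : ℝ) ≤ AA I := Nat.cast_nonneg _
  have h4 : 4 * Real.log I ≤ I / (2 * ((AA I : ℝ) + 1)) := by
    rw [le_div_iff₀ (by positivity)]
    linarith
  have h5 : Real.log 2 ≤ 1 := by
    have := Real.log_two_lt_d9
    linarith
  have h6 : Real.exp (-(I / (2 * ((AA I : ℝ) + 1)))) ≤ Real.exp (-Real.log 2) := by
    apply Real.exp_le_exp.2
    linarith
  rw [Real.exp_neg (Real.log 2), Real.exp_log (by norm_num)] at h6
  linarith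

/-- For large `I`, `1 ≤ 2 NN ≤ I`, so `AA log (2 NN) ≤ I / 16`: the left side is at most
`8 log (3 I) + 4 log 2 + I/4 + I/8` (compare `ev_size` of file N3). -/
theorem ev_sizeA (κ : ℝ) (hκ : 0 < κ) : ∀ᶠ I : ℝ in atTop,
    4 * (Real.log (2 * ((AA I : ℝ) + 1)) + Real.log ((AA I : ℝ) + ((2 * NN κ I : ℕ) : ℝ) + 2) +
      Real.log 2 + (AA I : ℝ) * Real.log ((2 * NN κ I : ℕ) : ℝ) + 2 * (I / 64)) < I / 2 := by
  have ht := V9b_tt κ
  have h2 : ∀ᶠ I : ℝ in atTop, κ * KK κ / (64 * tt κ) ≤ Real.log I :=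
    Real.tendsto_log_atTop.eventually (eventually_ge_atTop _)
  filter_upwards [V9b_ev (1 / 128) (by norm_num), h2, eventually_gt_atTop (200 : ℝ)] with I h1 h2 h3
  obtain ⟨hl, hlI, hI⟩ := h1
  have hI0 : 0 < I := by linarith
  have hL : 0 < Real.log I := by linarith
  have hlog2 : Real.log 2 ≤ 1 := by
    have := Real.log_two_lt_d9
    linarith
  have hAA : (AA I : ℝ) ≤ I / (16 * Real.log I) := Nat.floor_le (by positivity)
  have hAA0 : (0 : ℝ) ≤ AA I := Nat.cast_nonneg _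
  have hAA2 : (AA I : ℝ) ≤ I / 16 := by
    refine hAA.trans ?_
    apply div_le_div_of_nonneg_left hI0.le (by norm_num)
    linarith
  have hNN : ((2 * NN κ I : ℕ) : ℝ) ≤ I := by
    have e1 : (NN κ I : ℝ) ≤ κ * (KK κ : ℝ) * I / (128 * (tt κ : ℝ) * Real.log I) :=
      Nat.floor_le (by positivity)
    have e2 : κ * (KK κ : ℝ) ≤ Real.log I * (64 * tt κ) := (div_le_iff₀ (by positivity)).1 h2
    have e3 : κ * (KK κ : ℝ) * I / (128 * (tt κ : ℝ) * Real.log I) ≤ I / 2 := by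
      rw [div_le_div_iff₀ (by positivity) (by norm_num)]
      nlinarith
    push_cast
    linarith
  have hNN0 : (0 : ℝ) ≤ ((2 * NN κ I : ℕ) : ℝ) := Nat.cast_nonneg _
  have hlogNN : Real.log ((2 * NN κ I : ℕ) : ℝ) ≤ Real.log I := by
    rcases Nat.eq_zero_or_pos (2 * NN κ I) with h0 | h0
    · rw [h0]
      simp only [Nat.cast_zero, Real.log_zero]
      exact hL.le
    · exact Real.log_le_log (by exact_mod_cast h0) hNN
  have hprod : (AA I : ℝ) * Real.log ((2 * NN κ I : ℕ) : ℝ) ≤ I / 16 := by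
    calc (AA I : ℝ) * Real.log ((2 * NN κ I : ℕ) : ℝ) ≤ (AA I : ℝ) * Real.log I :=
          mul_le_mul_of_nonneg_left hlogNN (Nat.cast_nonneg _)
      _ ≤ I / (16 * Real.log I) * Real.log I := mul_le_mul_of_nonneg_right hAA hL.le
      _ = I / 16 := by field_simp
  have h2I : Real.log (2 * I) = Real.log 2 + Real.log I :=
    Real.log_mul (by norm_num) hI0.ne'
  have hlogA : Real.log (2 * ((AA I : ℝ) + 1)) ≤ Real.log 2 + Real.log I := by
    rw [← h2I]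
    apply Real.log_le_log (by positivity)
    linarith
  have hlogB : Real.log ((AA I : ℝ) + ((2 * NN κ I : ℕ) : ℝ) + 2) ≤
      Real.log 2 + Real.log I := by
    rw [← h2I]
    apply Real.log_le_log (by positivity)
    linarith
  linarith

end Pool.RA
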