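import Pool.Agent.Helper44.RA.V3
import Pool.Agent.Helper44.RA.V4
import Pool.Agent.Helper44.RA.V7
import Pool.Agent.Helper44.RA.V8
import Pool.Agent.Helper44.RA.V9
import Pool.Agent.Helper44.RA.Core

/-! Project RA, archimedean part: few independent vectors with a very small logarithm. -/

set_option autoImplicit false

namespace Pool.RA

open Finset Filter

theorem coreA (κ : ℝ) (hκ : 0 < κ) : ∃ I0 : ℝ, 1 ≤ I0 ∧ ∀ (ι : Type) [Fintype ι] (r : ι → ℕ),
    (∀ i, (r i).Prime) → Function.Injective r →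
    ∀ (Z : ℕ), 1 ≤ Z → ∀ (I : ℝ), I0 ≤ I → (Z : ℝ) ^ κ ≤ I →
    ∀ (k : Fin (tt κ) → ι → ℤ),
    LinearIndependent ℝ (fun l : Fin (tt κ) => fun i : ι => (k l i : ℝ)) →
    (∀ l, |lam r (k l)| ≤ Real.exp (-I)) →
    (∀ l, nm r (k l) ≤ 43 * I) →
    (∀ l, psup r (k l) ≤ Z) → False := by
  have hKK : 1 ≤ KK κ := by unfold KK; omega
  have hK0 : 1 ≤ K0 κ := by unfold K0 tt; omega
  obtain ⟨C, hC1, hC⟩ := pow_card_Usup (KK κ) hKK (tt κ)
  have hev := (ev_AA.and ((ev_NN κ hκ).and ((ev_A1 κ hκ C hC1).and ((ev_Om κ hκ).and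
    ((ev_eta κ hκ).and ((ev_GG κ hκ).and (ev_th.and ((ev_sizeA κ hκ).and
      (eventually_ge_atTop (Real.exp 1))))))))))
  obtain ⟨I1, hI1⟩ := eventually_atTop.1 hev
  refine ⟨max I1 1, le_max_right _ _, ?_⟩
  intro ι _ r hr hinj Z hZ I hI hZI k hk hk1 hkn hkp
  obtain ⟨hAA, hNN, hA1, hOm, heta, hGG, hth, hsize, hexp⟩ := hI1 I (le_trans (le_max_left _ _) hI)
  have hIone : 1 ≤ I := le_trans (le_max_right _ _) hI
  have hlogI : 1 ≤ Real.log I := by
    rw [← Real.log_exp 1]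
    exact Real.log_le_log (Real.exp_pos 1) hexp
  have hr1 : ∀ i, 1 ≤ r i := fun i => (hr i).one_le
  have hr2 : ∀ i, 2 ≤ r i := fun i => (hr i).two_le
  have hlZ : Real.log Z ≤ Real.log I / κ := core_logZ κ hκ Z hZ I hZI
  have hlk : 0 ≤ Real.log I / κ := by positivity
  obtain ⟨J, β, hM⟩ := exists_MM k hk
  have hU : ∀ i ∉ Usup k, ∀ l, k l i = 0 := fun i hi l => not_mem_Usup k i hi l
  have hUlog : ∑ i ∈ Usup k, Real.log (r i) ≤ (tt κ : ℝ) * (Real.log I / κ) :=
    (sum_log_Usup r hr1 k Z hkp).trans (mul_le_mul_of_nonneg_left hlZ (Nat.cast_nonneg _))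
  have hB : ∀ l i, |(k l i : ℝ)| ≤ 63 * I := by
    intro l i
    have h12 := coord_le r hr2 (k l) i
    have h13 := hkn l
    have h14 := Real.log_two_gt_d9
    have h15 : |(k l i : ℝ)| * Real.log 2 ≤ 43 * I := h12.trans h13
    have h16 : 0 ≤ |(k l i : ℝ)| := abs_nonneg _
    nlinarith
  have hOmα : ∀ α : Fin (tt κ) → ℝ, (∀ j, |∑ l, α l * (k l (J j) : ℝ)| ≤ (A1 κ I : ℝ)) →
      ∀ l, |α l| ≤ Om (tt κ) (63 * I) (A1 κ I) := by
    intro α hα l
    exact alpha_bd k J hM.det_ne (63 * I) (by linarith) hB (A1 κ I) α hα l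
  have hsm : ∀ α : Fin (tt κ) → ℝ, (∀ j, |∑ l, α l * (k l (J j) : ℝ)| ≤ (A1 κ I : ℝ)) →
      |∑ l, α l * lam r (k l)| < Real.exp (-(I / 4)) := by
    intro α hα
    refine lt_of_le_of_lt ?_ hOm
    calc |∑ l, α l * lam r (k l)| ≤ ∑ l, |α l * lam r (k l)| := Finset.abs_sum_le_sum_abs _ _
      _ ≤ ∑ _l : Fin (tt κ), Om (tt κ) (63 * I) (A1 κ I) * Real.exp (-I) := by
          apply Finset.sum_le_sum
          intro l _
          rw [abs_mul]
          exact mul_le_mul (hOmα α hα l) (hk1 l) (abs_nonneg _)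
            ((abs_nonneg _).trans (hOmα α hα l))
      _ = (tt κ : ℝ) * (Om (tt κ) (63 * I) (A1 κ I) * Real.exp (-I)) := by
          rw [Finset.sum_const, Finset.card_univ, Fintype.card_fin, nsmul_eq_mul]
  have hQpos : 1 ≤ QQ κ I := by
    unfold QQ
    rw [Nat.one_le_ceil_iff]
    have : (0 : ℝ) < NN κ I := by exact_mod_cast hNN
    positivity
  have hcard : KK κ ^ (Usup k).card * GG κ I < (A1 κ I + 1) ^ tt κ := by
    have hc1 := hC ι r hr hinj k Z hZ hkp
    have hc3 : (KK κ : ℝ) ^ (Usup k).card ≤ C * Real.exp (Real.log I / κ / 2) := by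
      refine hc1.trans (mul_le_mul_of_nonneg_left ?_ (by linarith))
      apply Real.exp_le_exp.2
      linarith
    have hc4 : (KK κ : ℝ) ^ (Usup k).card * (GG κ I : ℝ) ≤
        C * Real.exp ((16 + 5 / (2 * κ)) * Real.log I) := by
      calc (KK κ : ℝ) ^ (Usup k).card * (GG κ I : ℝ)
          ≤ (C * Real.exp (Real.log I / κ / 2)) * Real.exp (16 * Real.log I) :=
            mul_le_mul hc3 hGG (Nat.cast_nonneg _) (by positivity)
        _ = C * Real.exp (Real.log I / κ / 2 + 16 * Real.log I) := by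
            rw [mul_assoc, ← Real.exp_add]
        _ ≤ C * Real.exp ((16 + 5 / (2 * κ)) * Real.log I) := by
            refine mul_le_mul_of_nonneg_left (Real.exp_le_exp.2 ?_) (by linarith)
            have e : (16 + 5 / (2 * κ)) * Real.log I =
                Real.log I / κ / 2 + 16 * Real.log I + 2 * (Real.log I / κ) := by
              field_simp
              ring
            rw [e]
            linarith
    have hc5 := lt_of_le_of_lt hc4 hA1
    exact_mod_cast hc5
  obtain ⟨x, α, hx1, hxJ, hxne, hxA, hxd, hxU, hyb⟩ :=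
    exists_xstarA r k J β hM (Usup k) hU (A1 κ I) (KK κ) (QQ κ I) (GG κ I) hKK hQpos
      ((tt κ : ℝ) * (Real.log I / κ)) (by positivity) hUlog (Nat.le_ceil _)
      (fun α hα => (hsm α hα).le.trans (by
        rw [← Real.exp_zero]
        apply Real.exp_le_exp.2
        linarith)) hcard
  have hx0 : x ≠ 0 := by
    rintro rfl
    obtain ⟨j, hj⟩ := hxne
    exact hj rfl
  have hOm0 : 0 ≤ Om (tt κ) (63 * I) (A1 κ I) := by
    unfold Om
    positivity
  -- x is not in the span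
  have hns : ¬ ∀ i, (x i : ℝ) = ∑ l, α l * (k l i : ℝ) := by
    intro hsp
    have hnx : nm r x ≤ I / 4 := by
      have hb := nmR_le_of_bd r (Usup k) (fun i => (x i : ℝ)) ((tt κ : ℝ) * (A1 κ I : ℝ))
        (fun i => by rw [hsp i]; exact hyb i) (fun i hi => by simp [hxU i hi])
      have hb2 : (tt κ : ℝ) * (A1 κ I : ℝ) * ∑ i ∈ Usup k, Real.log (r i) ≤
          (tt κ : ℝ) * (A1 κ I : ℝ) * ((tt κ : ℝ) * (Real.log I / κ)) :=
        mul_le_mul_of_nonneg_left hUlog (by positivity)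
      exact (hb.trans hb2).trans (A1_le κ hκ I hexp)
    have hlx : lam r x = ∑ l, α l * lam r (k l) := by
      rw [← lamR_comb]
      unfold lam
      congr 1
      funext i
      exact hsp i
    have h1 := exp_le_abs_lam r hr hinj x hx0
    have h2 := hsm α hxA
    rw [← hlx] at h2
    have h3 : Real.exp (-(I / 4)) ≤ Real.exp (-(nm r x)) := Real.exp_le_exp.2 (by linarith)
    linarith
  -- many points
  obtain ⟨Cs, hCc, _, hCN, hCm⟩ := circ α (K0 κ) (NN κ I) hK0
  choose! mm hmm using hCm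
  have hC2 : 2 * AA I < Cs.card := by
    have h17 := AA_lt_NN κ hκ I hexp
    have h18 : K0 κ ^ tt κ * (2 * AA I) < K0 κ ^ tt κ * Cs.card := lt_of_lt_of_le h17 hCc
    exact lt_of_mul_lt_mul_left h18 (Nat.zero_le _)
  set η0 : ℝ := (tt κ : ℝ) * (((NN κ I : ℝ) * Om (tt κ) (63 * I) (A1 κ I) + 1) * Real.exp (-I))
    with hη0
  have hη0pos : 0 ≤ η0 := by
    rw [hη0]
    positivity
  have hptc : ∀ c ∈ Cs, |lam r ((c : ℤ) • x - ∑ l, mm c l • k l) - (c : ℝ) * lam r x| ≤ η0 := by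
    intro c hc
    refine lam_point r k (Real.exp (-I)) hk1 x α _ (fun l => hOmα α hxA l) c (NN κ I)
      (hCN c hc) (mm c) (fun l => (hmm c hc l).trans ?_)
    rw [div_le_one (by exact_mod_cast hK0)]
    exact_mod_cast hK0
  refine killG r hr hinj (AA I) (NN κ I) hAA (I / 64)
    (fun e w => |lam r w - (e : ℝ) * lam r x| ≤ 2 * η0) ?_ Cs hC2 hCN
    (fun c => (c : ℤ) • x - ∑ l, mm c l • k l) ?_ ?_
  · intro e w he hw hPt
    have hA1pos : (0 : ℝ) < (AA I : ℝ) + 1 := by positivity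
    have hthE : 4 * (NN κ I : ℝ) * |lam r x| ≤ Real.exp (-(I / (2 * ((AA I : ℝ) + 1)))) := by
      have h21 : 4 * (NN κ I : ℝ) * Real.exp (8 * Real.log I) ≤ (QQ κ I : ℝ) := Nat.le_ceil _
      have h22 : (0 : ℝ) < (QQ κ I : ℝ) := by exact_mod_cast hQpos
      have h23 : 4 * (NN κ I : ℝ) * |lam r x| ≤ 4 * (NN κ I : ℝ) * (1 / (QQ κ I : ℝ)) :=
        mul_le_mul_of_nonneg_left hx1 (by positivity)
      have h24 : 4 * (NN κ I : ℝ) * (1 / (QQ κ I : ℝ)) ≤ Real.exp (-(8 * Real.log I)) := by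
        rw [mul_one_div, div_le_iff₀ h22, Real.exp_neg]
        have h25 := Real.exp_pos (8 * Real.log I)
        rw [inv_mul_eq_div, le_div_iff₀ h25]
        exact h21
      refine (h23.trans h24).trans (Real.exp_le_exp.2 ?_)
      have h26 := div_AA_le I hexp
      have h27 : I / (2 * ((AA I : ℝ) + 1)) = I / ((AA I : ℝ) + 1) / 2 := by
        field_simp
      rw [h27]
      linarith
    refine det_zeroA (AA I) (2 * NN κ I) (by omega) e he _ _ ?_ ?_ (lam r x) (2 * η0)
      (Real.exp (-(I / (2 * ((AA I : ℝ) + 1))))) (2 * (I / 64)) ?_ ?_ (Real.exp_pos _) hth ?_ ?_ ?_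
      ?_ ?_ ?_
    · intro i
      exact_mod_cast de_pos r hr1 (w i)
    · intro i
      exact_mod_cast nu_pos r hr1 (w i)
    · refine hx1.trans ?_
      have h22 : (1 : ℝ) ≤ (QQ κ I : ℝ) := by exact_mod_cast hQpos
      rw [div_le_one (by linarith)]
      exact h22
    · push_cast
      linarith
    · rw [← Real.exp_nat_mul]
      refine heta.trans (Real.exp_le_exp.2 (le_of_eq ?_))
      push_cast
      field_simp
    · refine heta.trans ?_
      rw [← Real.exp_zero]
      exact Real.exp_le_exp.2 (by linarith)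
    · intro i
      have h28 := hPt i
      rw [lam_eq r hr1 (w i)] at h28
      simpa using h28
    · intro i
      have h29 := de_le_exp r hr1 (w i)
      have h30 : ((De r (w i) : ℤ) : ℝ) = (De r (w i) : ℝ) := by push_cast; rfl
      rw [h30]
      exact h29.trans (Real.exp_le_exp.2 (hw i))
    · intro i
      have h29 := nu_le_exp r hr1 (w i)
      have h30 : ((Nu r (w i) : ℤ) : ℝ) = (Nu r (w i) : ℝ) := by push_cast; rfl
      rw [h30]
      exact h29.trans (Real.exp_le_exp.2 (hw i))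
    · rw [Real.log_exp]
      have h31 : ((AA I : ℝ) + 1) * (-(-(I / (2 * ((AA I : ℝ) + 1))))) = I / 2 := by
        field_simp
      rw [h31]
      exact hsize
  · intro c hc
    refine ⟨(hptc c hc).trans (by linarith), ?_, ?_⟩
    · have hp2 := nm_point r k (Usup k) hU (43 * I) hkn x hxU α
        (1 / (KK κ : ℝ)) hxd c (mm c) (1 / (K0 κ : ℝ)) (hmm c hc)
      refine hp2.trans (le_trans ?_ (NN_le κ hκ I hexp))
      have h19 : (c : ℝ) ≤ (NN κ I : ℝ) := by exact_mod_cast hCN c hc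
      have h20 : 1 / (KK κ : ℝ) * ∑ i ∈ Usup k, Real.log (r i) ≤
          1 / (KK κ : ℝ) * ((tt κ : ℝ) * (Real.log I / κ)) :=
        mul_le_mul_of_nonneg_left hUlog (by positivity)
      have h21 : 0 ≤ 1 / (KK κ : ℝ) * ∑ i ∈ Usup k, Real.log (r i) := by
        apply mul_nonneg (by positivity)
        exact Finset.sum_nonneg (fun i _ => Real.log_natCast_nonneg _)
      have h22 := mul_le_mul h19 h20 h21 (Nat.cast_nonneg _)
      linarith
    · intro hc0 hX0
      exact hns (span_of_zero k J β hM x α hxJ c hc0 (mm c) hX0)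
  · intro c hc d hd
    have h1 := hptc c hc
    have h2 := hptc d hd
    show |lam r (((c : ℤ) • x - ∑ l, mm c l • k l) + ((d : ℤ) • x - ∑ l, mm d l • k l)) -
      ((c + d : ℕ) : ℝ) * lam r x| ≤ 2 * η0
    rw [lam_add]
    have e : lam r ((c : ℤ) • x - ∑ l, mm c l • k l) + lam r ((d : ℤ) • x - ∑ l, mm d l • k l) -
        ((c + d : ℕ) : ℝ) * lam r x =
        (lam r ((c : ℤ) • x - ∑ l, mm c l • k l) - (c : ℝ) * lam r x) +
        (lam r ((d : ℤ) • x - ∑ l, mm d l • k l) - (d : ℝ) * lam r x) := by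
      push_cast
      ring
    rw [e]
    exact (abs_add_le _ _).trans (by linarith)

end Pool.RA
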