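import Pool.Agent.Helper44.RA.J3

/-! Project RA, archimedean part: size of the solutions of the linear system. -/

set_option autoImplicit false

namespace Pool.RA

open Finset

/-- The bound for the coefficients. -/
noncomputable def Om (t : ℕ) (B Y : ℝ) : ℝ := (t : ℝ) * Y * ((Nat.factorial t : ℝ) * B ^ t)

variable {ι : Type} [Fintype ι]

/-- PIECE RA-V2 (70 lines).  With the integer matrix `K = (k_l(J_j))` (rows `l`), `α ᵥ* K = a`, so
`det K * α_l = ∑ j, a_j (adjugate K) j l`.  Each entry of the adjugate is the determinant of a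
`t × t` matrix with entries bounded by `B` (`1 ≤ B`, `Matrix.adjugate_apply`, `Matrix.det_le`), so at
most `t! B^t`; and `|det K| ≥ 1` is an integer. -/
theorem alpha_bd {t : ℕ} (k : Fin t → ι → ℤ) (J : Fin t → ι)
    (hJ : (Matrix.of fun l j => k l (J j)).det ≠ 0) (B : ℝ) (hB1 : 1 ≤ B)
    (hB : ∀ l i, |(k l i : ℝ)| ≤ B) (Y : ℝ) (α : Fin t → ℝ)
    (ha : ∀ j, |∑ l, α l * (k l (J j) : ℝ)| ≤ Y) (l : Fin t) : |α l| ≤ Om t B Y := by
  classical
  set Ki : Matrix (Fin t) (Fin t) ℤ := Matrix.of fun l j => k l (J j) with hKi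
  set K : Matrix (Fin t) (Fin t) ℝ := Ki.map (Int.cast : ℤ → ℝ) with hK
  have hdet : K.det = (Ki.det : ℝ) := by
    rw [hK]
    exact (Int.cast_det Ki).symm
  have hdet1 : 1 ≤ |K.det| := by
    rw [hdet]
    have h := Int.one_le_abs hJ
    exact_mod_cast h
  have hY : 0 ≤ Y := (abs_nonneg _).trans (ha l)
  -- the linear system
  set a : Fin t → ℝ := fun j => ∑ l, α l * (k l (J j) : ℝ) with ha'
  have h1 : Matrix.vecMul α K = a := by
    funext j
    simp [Matrix.vecMul, dotProduct, hK, hKi, ha']
  have h2 : K.det * α l = ∑ j, a j * K.adjugate j l := by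
    have h3 : Matrix.vecMul (Matrix.vecMul α K) K.adjugate = Matrix.vecMul a K.adjugate := by
      rw [h1]
    rw [Matrix.vecMul_vecMul, Matrix.mul_adjugate] at h3
    have h4 := congrFun h3 l
    rw [Matrix.vecMul_smul, Matrix.vecMul_one] at h4
    simpa [Matrix.vecMul, dotProduct] using h4
  -- the entries of the adjugate
  have hadj : ∀ j, |K.adjugate j l| ≤ (Nat.factorial t : ℝ) * B ^ t := by
    intro j
    rw [Matrix.adjugate_apply]
    have h5 := Matrix.det_le (A := K.updateRow l (Pi.single j 1))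
      (abv := (AbsoluteValue.abs : AbsoluteValue ℝ ℝ)) (x := B) (by
        intro i i'
        rcases eq_or_ne i l with rfl | hi
        · rw [Matrix.updateRow_self]
          rcases eq_or_ne i' j with rfl | hj
          · simpa using hB1
          · rw [Pi.single_eq_of_ne hj]
            simpa using zero_le_one.trans hB1
        · rw [Matrix.updateRow_ne hi]
          simpa [hK, hKi] using hB i (J i'))
    simpa [nsmul_eq_mul] using h5
  calc |α l| = 1 * |α l| := (one_mul _).symm
    _ ≤ |K.det| * |α l| := mul_le_mul_of_nonneg_right hdet1 (abs_nonneg _)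
    _ = |∑ j, a j * K.adjugate j l| := by rw [← abs_mul, h2]
    _ ≤ ∑ j, |a j * K.adjugate j l| := Finset.abs_sum_le_sum_abs _ _
    _ ≤ ∑ _j : Fin t, Y * ((Nat.factorial t : ℝ) * B ^ t) := by
        refine Finset.sum_le_sum fun j _ => ?_
        rw [abs_mul]
        exact mul_le_mul (ha j) (hadj j) (abs_nonneg _) hY
    _ = Om t B Y := by
        rw [Finset.sum_const, Finset.card_univ, Fintype.card_fin, nsmul_eq_mul, Om]
        ring

end Pool.RA
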