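import Pool.Agent.Helper44.RA.P1
import Pool.Agent.Helper44.RA.J3
import Pool.Agent.Helper44.RA.V1

/-! Project RA, archimedean part: the approximate relation `x*`. -/

set_option autoImplicit false

namespace Pool.RA

open Finset

variable {ι : Type} [Fintype ι]

/-- The logarithm of the integral part of a vector. -/
private theorem V3_lam_floor (r : ι → ℕ) (y : ι → ℝ) :
    lam r (fun i => ⌊y i⌋) = lamR r y - ∑ i, Int.fract (y i) * Real.log (r i) := by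
  unfold lam lamR
  rw [← Finset.sum_sub_distrib]
  refine Finset.sum_congr rfl fun i _ => ?_
  have h := Int.floor_add_fract (y i)
  have h2 : (⌊y i⌋ : ℝ) = y i - Int.fract (y i) := by linarith
  show (⌊y i⌋ : ℝ) * Real.log (r i) = _
  rw [h2]
  ring

/-- The weighted sum of the fractional parts. -/
private theorem V3_fract (r : ι → ℕ) (y : ι → ℝ) (U : Finset ι) (hy : ∀ i ∉ U, y i = 0) (W : ℝ)
    (hW : ∑ i ∈ U, Real.log (r i) ≤ W) :
    0 ≤ ∑ i, Int.fract (y i) * Real.log (r i) ∧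
      ∑ i, Int.fract (y i) * Real.log (r i) ≤ W := by
  classical
  have hl : ∀ i, 0 ≤ Real.log (r i) := fun i => Real.log_natCast_nonneg _
  refine ⟨Finset.sum_nonneg fun i _ => mul_nonneg (Int.fract_nonneg _) (hl i), ?_⟩
  have h1 : ∑ i, Int.fract (y i) * Real.log (r i) = ∑ i ∈ U, Int.fract (y i) * Real.log (r i) := by
    symm
    refine Finset.sum_subset (Finset.subset_univ U) fun i _ hi => ?_
    rw [hy i hi, Int.fract_zero, zero_mul]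
  rw [h1]
  refine le_trans (Finset.sum_le_sum fun i _ => ?_) hW
  calc Int.fract (y i) * Real.log (r i) ≤ 1 * Real.log (r i) :=
        mul_le_mul_of_nonneg_right (Int.fract_lt_one _).le (hl i)
    _ = Real.log (r i) := one_mul _

/-- PIECE RA-V3 (110 lines).  As `exists_xstar` (file P2, its proof can be adapted): for
`a : Fin t → ℕ` let `X a i = ⌊∑ j, β i j * a j⌋`.  By `exists_alpha` and `MM.rep`,
`∑ j, β i j * a j = ∑ l, α_l k_l(i)` for some `α`, so by `hsmall`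
`|lamR r (∑ j, β · j * a j)| ≤ 1`, and
`lam r (X a) = lamR r (y(a)) - ∑ i, fract_i log r_i ∈ [-1 - W, 1]` (`fract_i = 0` outside `U`).
Class: `⌊Q (lam r (X a) + W + 1)⌋ ∈ [0, Q (W + 2)]`, an element of `Fin G` (any value if some
`a j > A`).  Apply `box1`.  For two vectors of the same class `|lam (X a) - lam (X a')| ≤ 1/Q`. -/
theorem exists_xstarA {t : ℕ} (r : ι → ℕ) (k : Fin t → ι → ℤ) (J : Fin t → ι)
    (β : ι → Fin t → ℝ) (hM : MM k J β) (U : Finset ι) (hU : ∀ i ∉ U, ∀ l, k l i = 0)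
    (A K Q G : ℕ) (hK : 1 ≤ K) (hQ : 1 ≤ Q) (W : ℝ) (hW0 : 0 ≤ W)
    (hW : ∑ i ∈ U, Real.log (r i) ≤ W) (hG : (Q : ℝ) * (W + 2) + 1 ≤ G)
    (hsmall : ∀ α : Fin t → ℝ, (∀ j, |∑ l, α l * (k l (J j) : ℝ)| ≤ A) →
      |∑ l, α l * lam r (k l)| ≤ 1)
    (hcard : K ^ U.card * G < (A + 1) ^ t) :
    ∃ (x : ι → ℤ) (α : Fin t → ℝ), |lam r x| ≤ 1 / (Q : ℝ) ∧
      (∀ j, (x (J j) : ℝ) = ∑ l, α l * (k l (J j) : ℝ)) ∧ (∃ j, x (J j) ≠ 0) ∧
      (∀ j, |∑ l, α l * (k l (J j) : ℝ)| ≤ A) ∧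
      (∀ i, |(x i : ℝ) - ∑ l, α l * (k l i : ℝ)| ≤ 1 / (K : ℝ)) ∧ (∀ i ∉ U, x i = 0) ∧
      (∀ i, |∑ l, α l * (k l i : ℝ)| ≤ (t : ℝ) * A) := by
  classical
  have hQ0 : (0 : ℝ) < Q := by exact_mod_cast hQ
  have hGpos : 0 < G := by
    have h1 : (0 : ℝ) < G := by
      have h2 : 0 ≤ (Q : ℝ) * (W + 2) := by positivity
      linarith
    exact_mod_cast h1
  have hzero : ∀ i ∉ U, ∀ j, β i j = 0 := fun i hi j => hM.zero i (hU i hi) j
  -- the logarithms of the integral parts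
  have hy0 : ∀ b : Fin t → ℕ, ∀ i ∉ U, ∑ j, β i j * (b j : ℝ) = 0 := by
    intro b i hi
    apply Finset.sum_eq_zero
    intro j _
    rw [hzero i hi j, zero_mul]
  have hrange : ∀ b : Fin t → ℕ, (∀ j, b j ≤ A) →
      -1 - W ≤ lam r (fun i => ⌊∑ j, β i j * (b j : ℝ)⌋) ∧
        lam r (fun i => ⌊∑ j, β i j * (b j : ℝ)⌋) ≤ 1 := by
    intro b hb
    obtain ⟨α, hα⟩ := exists_alpha k J hM.det_ne (fun j => (b j : ℝ))
    have h1 : |∑ l, α l * lam r (k l)| ≤ 1 := by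
      refine hsmall α fun j => ?_
      rw [hα j, abs_of_nonneg (Nat.cast_nonneg _)]
      exact_mod_cast hb j
    have h2 : (fun i => ∑ l, α l * (k l i : ℝ)) = fun i => ∑ j, β i j * (b j : ℝ) := by
      funext i
      rw [hM.rep α i]
      refine Finset.sum_congr rfl fun j _ => ?_
      rw [hα j]
    rw [← lamR_comb, h2, abs_le] at h1
    have h3 := V3_lam_floor r (fun i => ∑ j, β i j * (b j : ℝ))
    have h4 := V3_fract r (fun i => ∑ j, β i j * (b j : ℝ)) U (hy0 b) W hW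
    constructor <;> linarith [h1.1, h1.2, h4.1, h4.2]
  obtain ⟨a, a', hne, ha, ha', hcl, hfr⟩ := box1 U β hzero
    (fun b : Fin t → ℕ => (⟨⌊(Q : ℝ) * (lam r (fun i => ⌊∑ j, β i j * (b j : ℝ)⌋) + W + 1)⌋.toNat
      % G, Nat.mod_lt _ hGpos⟩ : Fin G)) A K hK
    (by rw [Fintype.card_fin]; exact hcard)
  have hfl : ∀ b : Fin t → ℕ, (∀ j, b j ≤ A) →
      0 ≤ ⌊(Q : ℝ) * (lam r (fun i => ⌊∑ j, β i j * (b j : ℝ)⌋) + W + 1)⌋ ∧
      ⌊(Q : ℝ) * (lam r (fun i => ⌊∑ j, β i j * (b j : ℝ)⌋) + W + 1)⌋.toNat < G := by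
    intro b hb
    obtain ⟨h1, h2⟩ := hrange b hb
    have h3 : 0 ≤ ⌊(Q : ℝ) * (lam r (fun i => ⌊∑ j, β i j * (b j : ℝ)⌋) + W + 1)⌋ := by
      apply Int.floor_nonneg.2
      apply mul_nonneg hQ0.le
      linarith
    refine ⟨h3, ?_⟩
    have h4 : ⌊(Q : ℝ) * (lam r (fun i => ⌊∑ j, β i j * (b j : ℝ)⌋) + W + 1)⌋ < (G : ℤ) := by
      rw [Int.floor_lt]
      have h5 : (Q : ℝ) * (lam r (fun i => ⌊∑ j, β i j * (b j : ℝ)⌋) + W + 1) ≤
          (Q : ℝ) * (W + 2) := mul_le_mul_of_nonneg_left (by linarith) hQ0.le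
      push_cast
      linarith
    omega
  have hlam : |lam r (fun i => ⌊∑ j, β i j * (a j : ℝ)⌋) -
      lam r (fun i => ⌊∑ j, β i j * (a' j : ℝ)⌋)| ≤ 1 / (Q : ℝ) := by
    obtain ⟨h1, h2⟩ := hfl a ha
    obtain ⟨h1', h2'⟩ := hfl a' ha'
    have h3 : ⌊(Q : ℝ) * (lam r (fun i => ⌊∑ j, β i j * (a j : ℝ)⌋) + W + 1)⌋.toNat % G =
        ⌊(Q : ℝ) * (lam r (fun i => ⌊∑ j, β i j * (a' j : ℝ)⌋) + W + 1)⌋.toNat % G :=
      congrArg Fin.val hcl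
    rw [Nat.mod_eq_of_lt h2, Nat.mod_eq_of_lt h2'] at h3
    have h4 : ⌊(Q : ℝ) * (lam r (fun i => ⌊∑ j, β i j * (a j : ℝ)⌋) + W + 1)⌋ =
        ⌊(Q : ℝ) * (lam r (fun i => ⌊∑ j, β i j * (a' j : ℝ)⌋) + W + 1)⌋ := by omega
    have h6 := Int.abs_sub_lt_one_of_floor_eq_floor h4
    have h7 : (Q : ℝ) * (lam r (fun i => ⌊∑ j, β i j * (a j : ℝ)⌋) + W + 1) -
        (Q : ℝ) * (lam r (fun i => ⌊∑ j, β i j * (a' j : ℝ)⌋) + W + 1) =
        (Q : ℝ) * (lam r (fun i => ⌊∑ j, β i j * (a j : ℝ)⌋) -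
          lam r (fun i => ⌊∑ j, β i j * (a' j : ℝ)⌋)) := by ring
    rw [h7, abs_mul, abs_of_pos hQ0] at h6
    rw [le_div_iff₀ hQ0, mul_comm]
    exact h6.le
  obtain ⟨α, hα⟩ := exists_alpha k J hM.det_ne (fun j => (a j : ℝ) - (a' j : ℝ))
  -- the value of the combination
  have hrep : ∀ i, ∑ l, α l * (k l i : ℝ) =
      (∑ j, β i j * (a j : ℝ)) - ∑ j, β i j * (a' j : ℝ) := by
    intro i
    rw [hM.rep α i, ← Finset.sum_sub_distrib]
    apply Finset.sum_congr rfl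
    intro j _
    rw [hα j, mul_sub]
  have hdel : ∀ (b : Fin t → ℕ) (j : Fin t), ∑ j', β (J j) j' * (b j' : ℝ) = (b j : ℝ) := by
    intro b j
    rw [Finset.sum_eq_single j]
    · rw [hM.del, if_pos rfl, one_mul]
    · intro j' _ hj'
      rw [hM.del, if_neg (Ne.symm hj'), zero_mul]
    · intro hj
      exact absurd (Finset.mem_univ j) hj
  have hxJ : ∀ j, (⌊∑ j', β (J j) j' * (a j' : ℝ)⌋ - ⌊∑ j', β (J j) j' * (a' j' : ℝ)⌋ : ℤ) =
      (a j : ℤ) - (a' j : ℤ) := by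
    intro j
    rw [hdel a j, hdel a' j, Int.floor_natCast, Int.floor_natCast]
  have hdiff : ∀ j, |(a j : ℝ) - (a' j : ℝ)| ≤ (A : ℝ) := by
    intro j
    have e1 : (a j : ℝ) ≤ A := by exact_mod_cast ha j
    have e2 : (a' j : ℝ) ≤ A := by exact_mod_cast ha' j
    have e3 : (0 : ℝ) ≤ a j := Nat.cast_nonneg _
    have e4 : (0 : ℝ) ≤ a' j := Nat.cast_nonneg _
    rw [abs_le]
    constructor <;> linarith
  refine ⟨fun i => ⌊∑ j, β i j * (a j : ℝ)⌋ - ⌊∑ j, β i j * (a' j : ℝ)⌋, α, ?_, ?_, ?_, ?_, ?_,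
    ?_, ?_⟩
  · have h2 : (fun i => ⌊∑ j, β i j * (a j : ℝ)⌋ - ⌊∑ j, β i j * (a' j : ℝ)⌋) =
        ((fun i => ⌊∑ j, β i j * (a j : ℝ)⌋) - fun i => ⌊∑ j, β i j * (a' j : ℝ)⌋) := rfl
    rw [h2, lam_sub]
    exact hlam
  · intro j
    show (((⌊∑ j', β (J j) j' * (a j' : ℝ)⌋ - ⌊∑ j', β (J j) j' * (a' j' : ℝ)⌋ : ℤ)) : ℝ) = _
    rw [hxJ j, hα j]
    push_cast
    ring
  · by_contra hcon
    push Not at hcon
    apply hne
    funext j
    have h1 : (⌊∑ j', β (J j) j' * (a j' : ℝ)⌋ - ⌊∑ j', β (J j) j' * (a' j' : ℝ)⌋ : ℤ) = 0 :=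
      hcon j
    rw [hxJ j] at h1
    omega
  · intro j
    rw [hα j]
    exact hdiff j
  · intro i
    show |(((⌊∑ j, β i j * (a j : ℝ)⌋ - ⌊∑ j, β i j * (a' j : ℝ)⌋ : ℤ)) : ℝ) - _| ≤ _
    rw [hrep i]
    have h1 := Int.floor_add_fract (∑ j, β i j * (a j : ℝ))
    have h2 := Int.floor_add_fract (∑ j, β i j * (a' j : ℝ))
    have h3 : (((⌊∑ j, β i j * (a j : ℝ)⌋ - ⌊∑ j, β i j * (a' j : ℝ)⌋ : ℤ)) : ℝ) -
        ((∑ j, β i j * (a j : ℝ)) - ∑ j, β i j * (a' j : ℝ)) =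
        -(Int.fract (∑ j, β i j * (a j : ℝ)) - Int.fract (∑ j, β i j * (a' j : ℝ))) := by
      push_cast
      linarith
    rw [h3, abs_neg]
    exact hfr i
  · intro i hi
    show (⌊∑ j, β i j * (a j : ℝ)⌋ - ⌊∑ j, β i j * (a' j : ℝ)⌋ : ℤ) = 0
    rw [hy0 a i hi, hy0 a' i hi]
    simp
  · intro i
    rw [hrep i, ← Finset.sum_sub_distrib]
    refine (Finset.abs_sum_le_sum_abs _ _).trans ?_
    have h1 : ∀ j ∈ (Finset.univ : Finset (Fin t)),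
        |β i j * (a j : ℝ) - β i j * (a' j : ℝ)| ≤ (A : ℝ) := by
      intro j _
      rw [← mul_sub, abs_mul]
      calc |β i j| * |(a j : ℝ) - (a' j : ℝ)| ≤ 1 * (A : ℝ) :=
            mul_le_mul (hM.bd i j) (hdiff j) (abs_nonneg _) zero_le_one
        _ = A := one_mul _
    refine (Finset.sum_le_sum h1).trans ?_
    rw [Finset.sum_const, Finset.card_univ, Fintype.card_fin, nsmul_eq_mul]

end Pool.RA
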