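import Pool.Agent.Helper44.RA.D1

/-! Project RA, archimedean part: binomial expansions with bounds. -/

set_option autoImplicit false

namespace Pool.RA

open Finset

/-- PIECE RA-V5 (the whole file, 120 lines).  As `bin_exp` of file D1, with natural coefficients:
`e C(e,ν) = (ν+1) C(e,ν+1) + ν C(e,ν)`. -/
theorem bin_expN (a ν : ℕ) : ∃ lm : ℕ → ℕ, (∀ m, a + ν < m → lm m = 0) ∧
    ∀ e : ℕ, e ^ a * e.choose ν = ∑ m ∈ range (a + ν + 1), lm m * e.choose m := by
  induction a with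
  | zero =>
    refine ⟨fun m => if m = ν then 1 else 0, fun m hm => ?_, fun e => ?_⟩
    · have : ¬ m = ν := by omega
      simp [this]
    · simp
  | succ a ih =>
    obtain ⟨lam, h0, h1⟩ := ih
    refine ⟨fun m => m * lam (m - 1) + m * lam m, fun m hm => ?_, fun e => ?_⟩
    · show m * lam (m - 1) + m * lam m = 0
      rw [h0 (m - 1) (by omega), h0 m (by omega)]
      ring
    · have hbin : ∀ ν : ℕ, e * e.choose ν = (ν + 1) * e.choose (ν + 1) + ν * e.choose ν := by
        intro ν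
        have := bin_mul e ν
        exact_mod_cast this
      have e1 : e ^ (a + 1) * e.choose ν = e * (e ^ a * e.choose ν) := by ring
      rw [e1, h1 e, mul_sum]
      have e2 : ∀ m ∈ range (a + ν + 1), e * (lam m * e.choose m)
          = (m + 1) * lam m * e.choose (m + 1) + m * lam m * e.choose m := by
        intro m _
        have h := hbin m
        calc e * (lam m * e.choose m) = lam m * (e * e.choose m) := by ring
          _ = _ := by rw [h]; ring
      rw [sum_congr rfl e2, sum_add_distrib]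
      have e3 : a + 1 + ν + 1 = (a + ν + 1) + 1 := by ring
      rw [e3]
      have e4 : ∀ m ∈ range (a + ν + 1 + 1),
          (m * lam (m - 1) + m * lam m) * e.choose m
          = m * lam (m - 1) * e.choose m + m * lam m * e.choose m := by
        intro m _
        ring
      rw [sum_congr rfl e4, sum_add_distrib]
      congr 1
      · rw [sum_range_succ' (fun m => m * lam (m - 1) * e.choose m)]
        simp
      · rw [sum_range_succ (fun m => m * lam m * e.choose m) (a + ν + 1)]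
        rw [h0 (a + ν + 1) (by omega)]
        simp

private theorem v5_geom (t : ℝ) (h0 : 0 ≤ t) (h1 : t ≤ 1 / 2) (n : ℕ) :
    ∑ j ∈ range n, t ^ j ≤ 2 := by
  have h2 := mul_neg_geom_sum t n
  have h3 : 0 ≤ t ^ n := pow_nonneg h0 n
  have h4 : 0 ≤ ∑ j ∈ range n, t ^ j := sum_nonneg fun j _ => pow_nonneg h0 j
  nlinarith

/-- `(1+θ)^e = ∑ ν ≤ E, C(e,ν) θ^ν` for `e ≤ E`.  `mu m = ∑ ν ≤ E, θ^ν lm_(a,ν) m`.  Each term
`lm_(a,ν) m * C(E,m) ≤ E^a C(E,ν) ≤ E^A E^ν` (one summand of `bin_expN` at `e = E`, all summands are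
nonnegative), and it vanishes unless `ν ≥ m - a ≥ m - A`.  So
`|mu m| C(E,m) ≤ E^A ∑ ν ≥ m - A, (|θ| E)^ν ≤ 2 E^A (|θ| E)^(m - A)` because `|θ| E ≤ 1/2`
(with `0^0 = 1` if `θ = 0`). -/
theorem geo_expR (A a : ℕ) (ha : a ≤ A) (E : ℕ) (hE : 1 ≤ E) (θ : ℝ)
    (hθ : |θ| * (E : ℝ) ≤ 1 / 2) : ∃ mu : ℕ → ℝ,
    (∀ m, |mu m| * (E.choose m : ℝ) ≤ 2 * (E : ℝ) ^ A * (|θ| * (E : ℝ)) ^ (m - A)) ∧
    ∀ e : ℕ, e ≤ E → (e : ℝ) ^ a * (1 + θ) ^ e =
      ∑ m ∈ range (A + E + 1), mu m * (e.choose m : ℝ) := by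
  choose lam h0 h1 using bin_expN a
  have hE1 : (1 : ℝ) ≤ E := by exact_mod_cast hE
  have ht0 : 0 ≤ |θ| * (E : ℝ) := by positivity
  refine ⟨fun m => ∑ ν ∈ range (E + 1), θ ^ ν * (lam ν m : ℝ), fun m => ?_, fun e he => ?_⟩
  · have hterm : ∀ ν ∈ range (E + 1), |θ ^ ν * (lam ν m : ℝ)| * (E.choose m : ℝ) ≤
        if m - A ≤ ν then (E : ℝ) ^ A * (|θ| * (E : ℝ)) ^ ν else 0 := by
      intro ν _
      rw [abs_mul, abs_pow, Nat.abs_cast]
      split_ifs with h
      · have e1 : (lam ν m : ℝ) * (E.choose m : ℝ) ≤ (E : ℝ) ^ A * (E : ℝ) ^ ν := by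
          rcases lt_or_ge (a + ν) m with hm | hm
          · rw [h0 ν m hm, Nat.cast_zero, zero_mul]
            positivity
          · have e2 : lam ν m * E.choose m ≤ E ^ a * E.choose ν := by
              rw [h1 ν E]
              exact single_le_sum (f := fun m => lam ν m * E.choose m)
                (fun _ _ => Nat.zero_le _) (mem_range.2 (by omega))
            have e3 : E ^ a * E.choose ν ≤ E ^ A * E ^ ν :=
              Nat.mul_le_mul (Nat.pow_le_pow_right hE ha) (Nat.choose_le_pow E ν)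
            exact_mod_cast e2.trans e3
        calc |θ| ^ ν * (lam ν m : ℝ) * (E.choose m : ℝ)
            = |θ| ^ ν * ((lam ν m : ℝ) * (E.choose m : ℝ)) := by ring
          _ ≤ |θ| ^ ν * ((E : ℝ) ^ A * (E : ℝ) ^ ν) :=
              mul_le_mul_of_nonneg_left e1 (by positivity)
          _ = (E : ℝ) ^ A * (|θ| * (E : ℝ)) ^ ν := by rw [mul_pow]; ring
      · rw [h0 ν m (by omega), Nat.cast_zero, mul_zero, zero_mul]
    calc |∑ ν ∈ range (E + 1), θ ^ ν * (lam ν m : ℝ)| * (E.choose m : ℝ)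
        ≤ (∑ ν ∈ range (E + 1), |θ ^ ν * (lam ν m : ℝ)|) * (E.choose m : ℝ) :=
          mul_le_mul_of_nonneg_right (abs_sum_le_sum_abs _ _) (Nat.cast_nonneg _)
      _ = ∑ ν ∈ range (E + 1), |θ ^ ν * (lam ν m : ℝ)| * (E.choose m : ℝ) := sum_mul _ _ _
      _ ≤ ∑ ν ∈ range (E + 1), if m - A ≤ ν then (E : ℝ) ^ A * (|θ| * (E : ℝ)) ^ ν else 0 :=
          sum_le_sum hterm
      _ = ∑ ν ∈ (range (E + 1)).filter (fun ν => m - A ≤ ν),
            (E : ℝ) ^ A * (|θ| * (E : ℝ)) ^ ν := (sum_filter _ _).symm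
      _ ≤ ∑ ν ∈ (range (E + 1)).image (fun j => m - A + j),
            (E : ℝ) ^ A * (|θ| * (E : ℝ)) ^ ν := by
          refine sum_le_sum_of_subset_of_nonneg (fun ν hν => ?_) fun ν _ _ => by positivity
          rw [mem_filter, mem_range] at hν
          exact mem_image.2 ⟨ν - (m - A), mem_range.2 (by omega), by omega⟩
      _ = ∑ j ∈ range (E + 1), (E : ℝ) ^ A * (|θ| * (E : ℝ)) ^ (m - A + j) :=
          sum_image fun x _ y _ h => Nat.add_left_cancel h
      _ = (E : ℝ) ^ A * (|θ| * (E : ℝ)) ^ (m - A) *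
            ∑ j ∈ range (E + 1), (|θ| * (E : ℝ)) ^ j := by
          rw [mul_sum]
          refine sum_congr rfl fun j _ => ?_
          rw [pow_add]
          ring
      _ ≤ (E : ℝ) ^ A * (|θ| * (E : ℝ)) ^ (m - A) * 2 :=
          mul_le_mul_of_nonneg_left (v5_geom _ ht0 hθ _) (by positivity)
      _ = 2 * (E : ℝ) ^ A * (|θ| * (E : ℝ)) ^ (m - A) := by ring
  · have e1 : (1 + θ) ^ e = ∑ ν ∈ range (E + 1), θ ^ ν * (e.choose ν : ℝ) := by
      rw [add_comm, add_pow]
      have e2 : ∀ m ∈ range (e + 1), θ ^ m * 1 ^ (e - m) * (e.choose m : ℝ)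
          = θ ^ m * (e.choose m : ℝ) := by
        intro m _
        simp
      rw [sum_congr rfl e2]
      refine sum_subset (range_subset_range.mpr (by omega)) fun m _ hm => ?_
      rw [Nat.choose_eq_zero_of_lt (by simpa using hm)]
      simp
    rw [e1, mul_sum]
    have e3 : ∀ ν ∈ range (E + 1), (e : ℝ) ^ a * (θ ^ ν * (e.choose ν : ℝ)) =
        ∑ m ∈ range (A + E + 1), θ ^ ν * (lam ν m : ℝ) * (e.choose m : ℝ) := by
      intro ν hν
      rw [mem_range] at hν
      have e4 : (e : ℝ) ^ a * (e.choose ν : ℝ) =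
          ∑ m ∈ range (a + ν + 1), (lam ν m : ℝ) * (e.choose m : ℝ) := by
        exact_mod_cast h1 ν e
      have e5 : ∑ m ∈ range (a + ν + 1), (lam ν m : ℝ) * (e.choose m : ℝ) =
          ∑ m ∈ range (A + E + 1), (lam ν m : ℝ) * (e.choose m : ℝ) := by
        refine sum_subset (range_subset_range.mpr (by omega)) fun m _ hm => ?_
        rw [h0 ν m (by simpa using hm), Nat.cast_zero, zero_mul]
      calc (e : ℝ) ^ a * (θ ^ ν * (e.choose ν : ℝ))
          = θ ^ ν * ((e : ℝ) ^ a * (e.choose ν : ℝ)) := by ring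
        _ = _ := by
          rw [e4, e5, mul_sum]
          refine sum_congr rfl fun m _ => ?_
          ring
    rw [sum_congr rfl e3, sum_comm]
    refine sum_congr rfl fun m _ => ?_
    rw [sum_mul]

end Pool.RA
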